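import Mathlib

/-!
# MP_193dd3_co, project G: definitions

`X p` is the projective line over `ZMod p`, `Gm p` the group of its permutations, `mob p` the
subgroup of the Moebius permutations. A vector `v = (a, b, c)` stands for the matrix
`[[a, b], [c, -a]]`, and `nq v = a ^ 2 + b c` is minus its determinant; if it is not zero, `iv v` is
the involution of `X p` given by the matrix. The zeros of `nq` are the points of a conic which is
identified with `X p` (the point `t` corresponds to the vector `pv t`), and `Lf s t` is the linear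
functional which vanishes on the line through the points `s`, `t` of the conic (the tangent line
if `s = t`).
-/

set_option autoImplicit false

open scoped Pointwise

namespace Pool.Agent.MP193G

/-- The projective line. -/
abbrev X (p : ℕ) : Type := OnePoint (ZMod p)

instance instDecEqX (p : ℕ) : DecidableEq (X p) := inferInstanceAs (DecidableEq (Option (ZMod p)))

/-- The permutations of the projective line. -/
abbrev Gm (p : ℕ) : Type := Equiv.Perm (X p)

/-- Vectors. -/
abbrev Vc (p : ℕ) : Type := ZMod p × ZMod p × ZMod p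

/-- The group of the Moebius permutations. -/
noncomputable def mob (p : ℕ) [Fact p.Prime] : Subgroup (Gm p) :=
  (MulAction.toPermHom (Matrix.GeneralLinearGroup (Fin 2) (ZMod p)) (X p)).range

/-- Correlation of a function with its translate. -/
noncomputable def co {p : ℕ} [Fact p.Prime] (φ : X p → ℝ) (g : Gm p) : ℝ :=
  ∑ s, φ (g s) * φ s

/-- `g` is the identity or has `a` as its only fixed point. -/
def Uni {p : ℕ} (a : X p) (g : Gm p) : Prop :=
  g a = a ∧ (g = 1 ∨ ∀ b, b ≠ a → g b ≠ b)

/-- Affine coordinates on a subgroup: `g` is the map `x ↦ lam g * x + tr g`. -/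
structure AffC {p : ℕ} {Γ : Type} [Group Γ] (P : Subgroup Γ) (lam tr : Γ → ZMod p) : Prop where
  lam_mul : ∀ g ∈ P, ∀ h ∈ P, lam (g * h) = lam g * lam h
  tr_mul : ∀ g ∈ P, ∀ h ∈ P, tr (g * h) = tr g + lam g * tr h
  lam_ne : ∀ g ∈ P, lam g ≠ 0
  inj : ∀ g ∈ P, ∀ h ∈ P, lam g = lam h → tr g = tr h → g = h

/-- Homogeneous coordinates of a point of the projective line. -/
def hx {p : ℕ} (s : X p) : ZMod p × ZMod p := s.elim (1, 0) fun t => (t, 1)

/-- The quadratic form. -/
def nq {p : ℕ} (v : Vc p) : ZMod p := v.1 ^ 2 + v.2.1 * v.2.2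

/-- The functional of the line through two points of the conic. -/
def Lf {p : ℕ} (s t : X p) (v : Vc p) : ZMod p :=
  v.1 * ((hx s).1 * (hx t).2 + (hx s).2 * (hx t).1) + v.2.1 * ((hx s).2 * (hx t).2)
    - v.2.2 * ((hx s).1 * (hx t).1)

/-- The vector of a point of the conic. -/
def pv {p : ℕ} (s : X p) : Vc p := ((hx s).1 * (hx s).2, -(hx s).1 ^ 2, (hx s).2 ^ 2)

/-- The matrix of a vector. -/
def mv {p : ℕ} (v : Vc p) : Matrix (Fin 2) (Fin 2) (ZMod p) := !![v.1, v.2.1; v.2.2, -v.1]

/-- The involution of a vector with `nq v ≠ 0`. -/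
noncomputable def iv {p : ℕ} [Fact p.Prime] (v : Vc p) : Gm p :=
  if h : (mv v).det ≠ 0 then
    MulAction.toPermHom (Matrix.GeneralLinearGroup (Fin 2) (ZMod p)) (X p)
      (Matrix.GeneralLinearGroup.mkOfDetNeZero (mv v) h)
  else 1

/-- The linear functional with the coefficients `l`. -/
def lin {p : ℕ} (l v : Vc p) : ZMod p := l.1 * v.1 + l.2.1 * v.2.1 + l.2.2 * v.2.2

/-- At most `k` vectors of `B` in every plane. -/
def Pl {p : ℕ} (k : ℕ) (B : Finset (Vc p)) : Prop :=
  ∀ l : Vc p, l ≠ 0 → (B.filter fun v => lin l v = 0).card ≤ k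

/-- The quadratic polynomial with the coefficients `f`. -/
def ev {p : ℕ} (f : Fin 6 → ZMod p) (P : ZMod p × ZMod p) : ZMod p :=
  f 0 * P.1 ^ 2 + f 1 * (P.1 * P.2) + f 2 * P.2 ^ 2 + f 3 * P.1 + f 4 * P.2 + f 5

/-- The quadratic form with the coefficients `f` (homogeneous version of `ev f`). -/
def evh {p : ℕ} (f : Fin 6 → ZMod p) (v : Vc p) : ZMod p :=
  f 0 * v.1 ^ 2 + f 1 * (v.1 * v.2.1) + f 2 * v.2.1 ^ 2 + f 3 * (v.1 * v.2.2)
    + f 4 * (v.2.1 * v.2.2) + f 5 * v.2.2 ^ 2

/-- The vector of a point of the affine plane. -/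
def af {p : ℕ} (P : ZMod p × ZMod p) : Vc p := (P.1, P.2, 1)

end Pool.Agent.MP193G
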