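import Mathlib

/-!
# MP_193dd3_co, project G: the sum-product step of Glibichuk and Konyagin
-/

set_option autoImplicit false

namespace Pool.Agent.MP193G

variable {p : ℕ} [Fact p.Prime]

private theorem spCount (_A : Finset (ZMod p)) (q : (ZMod p × ZMod p) × (ZMod p × ZMod p)) :
    ((Finset.univ.erase (0 : ZMod p)).filter fun k =>
      q.1.1 + k * q.2.1 = q.1.2 + k * q.2.2).card ≤
      (if q.1.1 = q.1.2 ∧ q.2.1 = q.2.2 then (p - 1) else 0) + 1 := by
  by_cases h : q.2.1 = q.2.2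
  · by_cases h' : q.1.1 = q.1.2
    · rw [if_pos ⟨h', h⟩]
      refine (Finset.card_filter_le _ _).trans ?_
      rw [Finset.card_erase_of_mem (Finset.mem_univ _), Finset.card_univ, ZMod.card]
      omega
    · have : ((Finset.univ.erase (0 : ZMod p)).filter fun k =>
          q.1.1 + k * q.2.1 = q.1.2 + k * q.2.2) = ∅ := by
        rw [Finset.filter_eq_empty_iff]
        intro k _ hk
        rw [h] at hk
        exact h' (add_right_cancel hk)
      rw [this]
      simp
  · have : ((Finset.univ.erase (0 : ZMod p)).filter fun k =>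
        q.1.1 + k * q.2.1 = q.1.2 + k * q.2.2).card ≤ 1 := by
      rw [Finset.card_le_one]
      intro k hk l hl
      have hk' := (Finset.mem_filter.mp hk).2
      have hl' := (Finset.mem_filter.mp hl).2
      have hd : q.2.1 - q.2.2 ≠ 0 := sub_ne_zero.mpr h
      have : (k - l) * (q.2.1 - q.2.2) = 0 := by linear_combination hk' - hl'
      rcases mul_eq_zero.mp this with h0 | h0
      · exact sub_eq_zero.mp h0
      · exact absurd h0 hd
    omega

private theorem spSum (A : Finset (ZMod p)) :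
    ∑ k ∈ Finset.univ.erase (0 : ZMod p), (((A ×ˢ A) ×ˢ (A ×ˢ A)).filter fun q =>
      q.1.1 + k * q.2.1 = q.1.2 + k * q.2.2).card ≤ (p - 1) * A.card ^ 2 + A.card ^ 4 := by
  classical
  have h1 : ∑ k ∈ Finset.univ.erase (0 : ZMod p), (((A ×ˢ A) ×ˢ (A ×ˢ A)).filter fun q =>
      q.1.1 + k * q.2.1 = q.1.2 + k * q.2.2).card =
      ∑ q ∈ (A ×ˢ A) ×ˢ (A ×ˢ A), ((Finset.univ.erase (0 : ZMod p)).filter fun k =>
      q.1.1 + k * q.2.1 = q.1.2 + k * q.2.2).card := by
    simp only [Finset.card_filter]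
    exact Finset.sum_comm
  rw [h1]
  refine (Finset.sum_le_sum fun q _ => spCount A q).trans ?_
  rw [Finset.sum_add_distrib]
  have h2 : ∑ _q ∈ (A ×ˢ A) ×ˢ (A ×ˢ A), 1 = A.card ^ 4 := by
    rw [Finset.sum_const, Finset.card_product, Finset.card_product]
    simp only [smul_eq_mul, mul_one]
    ring
  have h3 : ∑ q ∈ (A ×ˢ A) ×ˢ (A ×ˢ A),
      (if q.1.1 = q.1.2 ∧ q.2.1 = q.2.2 then (p - 1) else 0) ≤ (p - 1) * A.card ^ 2 := by
    rw [← Finset.sum_filter, Finset.sum_const, smul_eq_mul, mul_comm]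
    refine Nat.mul_le_mul_left _ ?_
    have : (((A ×ˢ A) ×ˢ (A ×ˢ A)).filter fun q => q.1.1 = q.1.2 ∧ q.2.1 = q.2.2) ⊆
        (A ×ˢ A).image fun r => ((r.1, r.1), (r.2, r.2)) := by
      intro q hq
      rw [Finset.mem_filter, Finset.mem_product, Finset.mem_product, Finset.mem_product] at hq
      obtain ⟨⟨⟨h11, h12⟩, h21, h22⟩, he1, he2⟩ := hq
      refine Finset.mem_image.mpr ⟨(q.1.1, q.2.1), Finset.mem_product.mpr ⟨h11, h21⟩, ?_⟩
      ext <;> simp [he1, he2]
    refine (Finset.card_le_card this).trans (Finset.card_image_le.trans ?_)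
    rw [Finset.card_product, sq]
  omega

open scoped Pointwise in
private theorem spCS (A : Finset (ZMod p)) (k : ZMod p) (hk : k ≠ 0) :
    A.card ^ 4 ≤ ((A ×ˢ A).image fun q => q.1 + k * q.2).card *
      (((A ×ˢ A) ×ˢ (A ×ˢ A)).filter fun q =>
        q.1.1 + k * q.2.1 = q.1.2 + k * q.2.2).card := by
  classical
  have hinj : Function.Injective fun y : ZMod p => k * y := mul_right_injective₀ hk
  have h1 := Finset.le_card_add_mul_addEnergy A (A.image fun y => k * y)
  have h2 : (A.image fun y => k * y).card = A.card := Finset.card_image_of_injective _ hinj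
  have h3 : A + (A.image fun y => k * y) = (A ×ˢ A).image fun q => q.1 + k * q.2 := by
    ext z
    simp only [Finset.mem_add, Finset.mem_image, Finset.mem_product, Prod.exists]
    constructor
    · rintro ⟨x, hx, w, ⟨y, hy, rfl⟩, rfl⟩
      exact ⟨x, y, ⟨hx, hy⟩, rfl⟩
    · rintro ⟨x, y, ⟨hx, hy⟩, rfl⟩
      exact ⟨x, hx, k * y, ⟨y, hy, rfl⟩, rfl⟩
  have h4 : Finset.addEnergy A (A.image fun y => k * y) ≤
      (((A ×ˢ A) ×ˢ (A ×ˢ A)).filter fun q =>
        q.1.1 + k * q.2.1 = q.1.2 + k * q.2.2).card := by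
    unfold Finset.addEnergy
    refine (Finset.card_le_card (t := (((A ×ˢ A) ×ˢ (A ×ˢ A)).filter fun q =>
        q.1.1 + k * q.2.1 = q.1.2 + k * q.2.2).image fun q =>
          (q.1, (k * q.2.1, k * q.2.2))) ?_).trans Finset.card_image_le
    intro q hq
    rw [Finset.mem_filter, Finset.mem_product, Finset.mem_product, Finset.mem_product] at hq
    obtain ⟨⟨⟨h11, h12⟩, h21, h22⟩, he⟩ := hq
    obtain ⟨y, hy, hy'⟩ := Finset.mem_image.mp h21
    obtain ⟨y', hy1, hy1'⟩ := Finset.mem_image.mp h22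
    refine Finset.mem_image.mpr ⟨(q.1, (y, y')), ?_, ?_⟩
    · rw [Finset.mem_filter, Finset.mem_product, Finset.mem_product, Finset.mem_product]
      refine ⟨⟨⟨h11, h12⟩, hy, hy1⟩, ?_⟩
      change q.1.1 + k * y = q.1.2 + k * y'
      rw [hy', hy1']
      exact he
    · change (q.1, (k * y, k * y')) = q
      rw [hy', hy1']
  rw [h2, h3] at h1
  calc A.card ^ 4 = A.card ^ 2 * A.card ^ 2 := by ring
    _ ≤ _ := h1
    _ ≤ _ := Nat.mul_le_mul_left _ h4

/-- Some dilate is almost injective.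

Proof. For `k ≠ 0` let `E_k` be the number of the `(x, y, x', y') ∈ A⁴` with
`x + k y = x' + k y'`. Solutions with `y = y'` have `x = x'`: `|A|²` of them; for `y ≠ y'` there is at
most one `k`. So `∑_{k ≠ 0} E_k ≤ (p - 1)|A|² + |A|⁴` and some `k ≠ 0` has `E_k ≤ |A|² +
|A|⁴/(p - 1)`. By Cauchy-Schwarz `|A + k A| E_k ≥ |A|⁴`, so `|A + k A| ≥ |A|²/(1 + |A|²/(p - 1))
≥ min(|A|², p - 1)/2`. -/
theorem exists_dilate (A : Finset (ZMod p)) (hA : A.Nonempty) : ∃ k : ZMod p, k ≠ 0 ∧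
    min ((A.card : ℝ) ^ 2) (p - 1) ≤ 2 * ((A ×ˢ A).image fun q => q.1 + k * q.2).card := by
  classical
  have hp : 1 < p := (Fact.out : p.Prime).one_lt
  set E : ZMod p → ℕ := fun k => (((A ×ˢ A) ×ˢ (A ×ˢ A)).filter fun q =>
      q.1.1 + k * q.2.1 = q.1.2 + k * q.2.2).card with hE
  have hcard : (Finset.univ.erase (0 : ZMod p)).card = p - 1 := by
    rw [Finset.card_erase_of_mem (Finset.mem_univ _), Finset.card_univ, ZMod.card]
  have hne : (Finset.univ.erase (0 : ZMod p)).Nonempty := by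
    rw [← Finset.card_pos, hcard]
    omega
  obtain ⟨k, hk, hkE⟩ : ∃ k ∈ Finset.univ.erase (0 : ZMod p),
      (p - 1) * E k ≤ (p - 1) * A.card ^ 2 + A.card ^ 4 := by
    by_contra hcon
    push Not at hcon
    have h1 : ∑ k ∈ Finset.univ.erase (0 : ZMod p), ((p - 1) * A.card ^ 2 + A.card ^ 4) <
        ∑ k ∈ Finset.univ.erase (0 : ZMod p), (p - 1) * E k :=
      Finset.sum_lt_sum_of_nonempty hne hcon
    rw [Finset.sum_const, hcard, smul_eq_mul, ← Finset.mul_sum] at h1
    exact absurd (Nat.mul_le_mul_left (p - 1) (spSum A)) (not_le.mpr h1)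
  refine ⟨k, (Finset.mem_erase.mp hk).1, ?_⟩
  have hcs := spCS A k (Finset.mem_erase.mp hk).1
  set S : ℕ := ((A ×ˢ A).image fun q => q.1 + k * q.2).card with hS
  have hA0 : (0 : ℝ) < A.card := by exact_mod_cast Finset.card_pos.mpr hA
  have hp0 : (0 : ℝ) < (p : ℝ) - 1 := by
    have : (1 : ℝ) < p := by exact_mod_cast hp
    linarith
  have hkE' : ((p : ℝ) - 1) * E k ≤ ((p : ℝ) - 1) * (A.card : ℝ) ^ 2 + (A.card : ℝ) ^ 4 := by
    have : (((p - 1) * E k : ℕ) : ℝ) ≤ (((p - 1) * A.card ^ 2 + A.card ^ 4 : ℕ) : ℝ) := by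
      exact_mod_cast hkE
    push_cast [Nat.cast_sub hp.le] at this
    exact this
  have hcs' : (A.card : ℝ) ^ 4 ≤ (S : ℝ) * E k := by exact_mod_cast hcs
  have hS0 : (0 : ℝ) ≤ S := Nat.cast_nonneg _
  set m : ℝ := (A.card : ℝ) ^ 2 with hm
  have hm0 : 0 < m := by positivity
  have hm2 : (A.card : ℝ) ^ 4 = m * m := by rw [hm]; ring
  rw [hm2] at hkE' hcs'
  have hmain : ((p : ℝ) - 1) * m ≤ S * (((p : ℝ) - 1) + m) := by
    have h1 : ((p : ℝ) - 1) * (m * m) ≤ S * (((p : ℝ) - 1) * m + m * m) := by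
      calc ((p : ℝ) - 1) * (m * m) ≤ ((p : ℝ) - 1) * (S * E k) :=
            mul_le_mul_of_nonneg_left hcs' hp0.le
        _ = S * (((p : ℝ) - 1) * E k) := by ring
        _ ≤ _ := mul_le_mul_of_nonneg_left hkE' hS0
    have h2 : (((p : ℝ) - 1) * m) * m ≤ (S * (((p : ℝ) - 1) + m)) * m := by
      calc (((p : ℝ) - 1) * m) * m = ((p : ℝ) - 1) * (m * m) := by ring
        _ ≤ _ := h1
        _ = _ := by ring
    exact le_of_mul_le_mul_right h2 hm0
  rcases le_total m ((p : ℝ) - 1) with hle | hle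
  · rw [min_eq_left hle]
    have : ((p : ℝ) - 1) * m ≤ ((p : ℝ) - 1) * (2 * S) := by
      calc ((p : ℝ) - 1) * m ≤ S * (((p : ℝ) - 1) + m) := hmain
        _ ≤ S * (((p : ℝ) - 1) + ((p : ℝ) - 1)) :=
            mul_le_mul_of_nonneg_left (by linarith) hS0
        _ = _ := by ring
    exact le_of_mul_le_mul_left this hp0
  · rw [min_eq_right hle]
    have : m * ((p : ℝ) - 1) ≤ m * (2 * S) := by
      calc m * ((p : ℝ) - 1) = ((p : ℝ) - 1) * m := by ring
        _ ≤ S * (((p : ℝ) - 1) + m) := hmain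
        _ ≤ S * (m + m) := mul_le_mul_of_nonneg_left (by linarith) hS0
        _ = _ := by ring
    exact le_of_mul_le_mul_left this hm0

/-- The step of Glibichuk and Konyagin.

Proof. Let `R` be the set of the quotients `(a - b) / (c - d)`, `a, b, c, d ∈ A`, `c ≠ d`; so
`0 ∈ R`. If `R` is everything, then the `k` of `exists_dilate` is such a quotient, `ε = 0`, and the
set in question is `(c - d) (A + k A)`. Otherwise (`ZMod p` is generated by `1`) there is an
`r ∈ R` with `r + 1 ∉ R`. Let `r = (a - b) / (c - d)`, `ε = 1`. The map `(x, y) ↦ x + (r + 1) y`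
is injective on `A × A` (two different pairs with the same value have `y ≠ y'` and
`r + 1 = (x - x')/(y' - y) ∈ R`), and multiplication by `c - d` gives a set with `|A|²` elements. -/
theorem gk_step (A : Finset (ZMod p)) (hA : 2 ≤ A.card) : ∃ a ∈ A, ∃ b ∈ A, ∃ c ∈ A, ∃ d ∈ A,
    ∃ ε : ZMod p, (ε = 0 ∨ ε = 1) ∧ c ≠ d ∧ min ((A.card : ℝ) ^ 2) (p - 1) ≤
      2 * ((A ×ˢ A).image fun q => (c - d) * q.1 + ((a - b) + ε * (c - d)) * q.2).card := by
  classical
  have hne : A.Nonempty := by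
    rw [← Finset.card_pos]
    omega
  by_cases hR : ∀ r : ZMod p, ∃ a ∈ A, ∃ b ∈ A, ∃ c ∈ A, ∃ d ∈ A, c ≠ d ∧ r = (a - b) / (c - d)
  · obtain ⟨k, hk, hkm⟩ := exists_dilate A hne
    obtain ⟨a, ha, b, hb, c, hc, d, hd, hcd, hr⟩ := hR k
    refine ⟨a, ha, b, hb, c, hc, d, hd, 0, Or.inl rfl, hcd, ?_⟩
    have hcd' : c - d ≠ 0 := sub_ne_zero.mpr hcd
    have himg : ((A ×ˢ A).image fun q : ZMod p × ZMod p =>
        (c - d) * q.1 + ((a - b) + 0 * (c - d)) * q.2) =
        ((A ×ˢ A).image fun q => q.1 + k * q.2).image fun z => (c - d) * z := by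
      rw [Finset.image_image]
      refine Finset.image_congr fun q _ => ?_
      change (c - d) * q.1 + ((a - b) + 0 * (c - d)) * q.2 = (c - d) * (q.1 + k * q.2)
      rw [hr]
      field_simp
      ring
    rw [himg, Finset.card_image_of_injective _ (mul_right_injective₀ hcd')]
    exact hkm
  · have hex : ∃ r : ZMod p, (∃ a ∈ A, ∃ b ∈ A, ∃ c ∈ A, ∃ d ∈ A,
        c ≠ d ∧ r = (a - b) / (c - d)) ∧
        ¬ ∃ a ∈ A, ∃ b ∈ A, ∃ c ∈ A, ∃ d ∈ A, c ≠ d ∧ r + 1 = (a - b) / (c - d) := by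
      by_contra hcon
      push Not at hR hcon
      obtain ⟨r, hr⟩ := hR
      have hind : ∀ n : ℕ, ∃ a ∈ A, ∃ b ∈ A, ∃ c ∈ A, ∃ d ∈ A,
          c ≠ d ∧ (n : ZMod p) = (a - b) / (c - d) := by
        intro n
        induction n with
        | zero =>
          obtain ⟨c, hc, d, hd, hcd⟩ := Finset.one_lt_card.mp (by omega : 1 < A.card)
          exact ⟨c, hc, c, hc, c, hc, d, hd, hcd, by simp⟩
        | succ n ih =>
          obtain ⟨a, ha, b, hb, c, hc, d, hd, hcd, he⟩ := ih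
          have := hcon (n : ZMod p) ⟨a, ha, b, hb, c, hc, d, hd, hcd, he⟩
          push_cast
          exact this
      obtain ⟨a, ha, b, hb, c, hc, d, hd, hcd, he⟩ := hind r.val
      rw [ZMod.natCast_zmod_val] at he
      exact hr a ha b hb c hc d hd hcd he
    obtain ⟨r, ⟨a, ha, b, hb, c, hc, d, hd, hcd, hr⟩, hr1⟩ := hex
    refine ⟨a, ha, b, hb, c, hc, d, hd, 1, Or.inr rfl, hcd, ?_⟩
    have hcd' : c - d ≠ 0 := sub_ne_zero.mpr hcd
    have hinj : Set.InjOn (fun q : ZMod p × ZMod p =>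
        (c - d) * q.1 + ((a - b) + 1 * (c - d)) * q.2) (A ×ˢ A : Finset _) := by
      rintro ⟨x, y⟩ hq ⟨x', y'⟩ hq' he
      rw [Finset.mem_coe, Finset.mem_product] at hq hq'
      have he1 : (c - d) * x + ((a - b) + 1 * (c - d)) * y =
          (c - d) * x' + ((a - b) + 1 * (c - d)) * y' := he
      have he2 : x - x' = (r + 1) * (y' - y) := by
        have h3 : (c - d) * (x - x') = (c - d) * ((r + 1) * (y' - y)) := by
          rw [hr]
          have h4 : (c - d) * (((a - b) / (c - d) + 1) * (y' - y)) =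
              ((a - b) + (c - d)) * (y' - y) := by
            field_simp
          rw [h4]
          linear_combination he1
        exact mul_left_cancel₀ hcd' h3
      by_cases hy : y = y'
      · rw [hy, sub_self, mul_zero] at he2
        rw [hy, sub_eq_zero.mp he2]
      · exfalso
        have hy' : y' - y ≠ 0 := sub_ne_zero.mpr (Ne.symm hy)
        exact hr1 ⟨x, hq.1, x', hq'.1, y', hq'.2, y, hq.2, Ne.symm hy,
          (eq_div_iff hy').mpr he2.symm⟩
    rw [Finset.card_image_of_injOn hinj, Finset.card_product]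
    push_cast
    have h0 : (0 : ℝ) ≤ (A.card : ℝ) * A.card := by positivity
    calc min ((A.card : ℝ) ^ 2) ((p : ℝ) - 1) ≤ (A.card : ℝ) ^ 2 := min_le_left _ _
      _ = (A.card : ℝ) * A.card := by ring
      _ ≤ 2 * ((A.card : ℝ) * A.card) := by linarith

end Pool.Agent.MP193G
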