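import Mathlib
import Pool.Agent.Lib.MP_193dd3_co_G.Sp

/-!
# MP_193dd3_co, project G: four sum-product steps
-/

set_option autoImplicit false

namespace Pool.Agent.MP193G

/-- The growth of the costs. -/
@[irreducible] def cst (k : ℕ) : ℕ := 6 * (k ^ 2 + k)

/-- The number of the steps in `tower` (a large number, declared irreducible: use `unfold`). -/
@[irreducible] def Kst : ℕ := 5 * cst (cst (cst (cst 2)))

/-- The multiplications by elements of `A` have the cost `m`. -/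
private def SptCost {p : ℕ} (U : ℕ → Finset (ZMod p)) (A : Finset (ZMod p)) (m : ℕ) : Prop :=
  ∀ k, ∀ x ∈ A, ∀ u ∈ U k, x * u ∈ U (m * (k + 1))

private theorem spt_step {p : ℕ} [Fact p.Prime] (U : ℕ → Finset (ZMod p))
    (hmono : ∀ k l, k ≤ l → U k ⊆ U l)
    (hadd : ∀ k l, ∀ u ∈ U k, ∀ v ∈ U l, u + v ∈ U (k + l)) (hneg : ∀ k, ∀ u ∈ U k, -u ∈ U k)
    (A : Finset (ZMod p)) (m : ℕ) (hA : SptCost U A m) (h2 : 2 ≤ A.card) :
    ∃ A' : Finset (ZMod p), SptCost U A' (cst m) ∧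
      min ((A.card : ℝ) ^ 2) (p - 1) ≤ 2 * A'.card := by
  obtain ⟨a, ha, b, hb, c, hc, d, hd, ε, hε, -, hmin⟩ := gk_step A h2
  refine ⟨_, ?_, hmin⟩
  intro k z hz u hu
  obtain ⟨q, hq, rfl⟩ := Finset.mem_image.1 hz
  rw [Finset.mem_product] at hq
  obtain ⟨M, hM⟩ : ∃ M, M = (m ^ 2 + m) * (k + 1) := ⟨_, rfl⟩
  have hprod : ∀ x ∈ A, ∀ y ∈ A, x * (y * u) ∈ U M := by
    intro x hx y hy
    refine hmono _ _ ?_ (hA _ x hx _ (hA _ y hy u hu))
    rw [hM]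
    have : m ≤ m * (k + 1) := Nat.le_mul_of_pos_right _ (Nat.succ_pos k)
    calc m * (m * (k + 1) + 1) = m ^ 2 * (k + 1) + m := by ring
      _ ≤ m ^ 2 * (k + 1) + m * (k + 1) := by omega
      _ = (m ^ 2 + m) * (k + 1) := by ring
  have h6 : cst m * (k + 1) = 6 * M := by
    unfold cst
    rw [hM]; ring
  have e1 := hprod c hc q.1 hq.1
  have e2 := hneg _ _ (hprod d hd q.1 hq.1)
  have e3 := hprod a ha q.2 hq.2
  have e4 := hneg _ _ (hprod b hb q.2 hq.2)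
  have e5 := hprod c hc q.2 hq.2
  have e6 := hneg _ _ (hprod d hd q.2 hq.2)
  have s4 := hadd _ _ _ (hadd _ _ _ (hadd _ _ _ e1 _ e2) _ e3) _ e4
  rcases hε with rfl | rfl
  · have h := hmono _ (6 * M) (by omega) s4
    rw [h6]
    convert h using 1
    ring
  · have h := hadd _ _ _ (hadd _ _ _ s4 _ e5) _ e6
    have h' := hmono _ (6 * M) (by omega) h
    rw [h6]
    convert h' using 1
    ring

/-- Increasing subsets `U k` of `ZMod p` which can be added, and multiplied by the elements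
of a set `Λ` with at least `p ^ (1/10)` elements, become large after a bounded number of steps.

Proof. We say that `A` has the cost `m ≥ 1` if `x * u ∈ U (m * (k + 1))` for all `x ∈ A`, `u ∈ U k`,
`k`. So `Λ` has the cost `2`. If `A` has the cost `m`, then the set of `gk_step`
`A' = {(c - d) x + ((a - b) + ε (c - d)) y}` has the cost `cst m = 6 (m² + m)`: a product `x y` of two
elements of `A` maps `u ∈ U k` to `U (m (m (k + 1) + 1)) ⊆ U ((m² + m)(k + 1))`, and the elements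
of `A'` are sums of at most six such products and their negatives (`c x, d x, a y, b y, c y, d y`).
(If there are less than six terms use `U k ⊆ U l` for `k ≤ l`.)
Let `A0 = Λ` and `A1, .., A4` be given by `gk_step`. The sizes are `≥ p ^ 0.1`,
`≥ p ^ 0.2 / 2`, `≥ p ^ 0.4 / 8`, `≥ p ^ 0.8 / 128`, and for large `p` (also
all sizes are at least two, and `p ^ 0.2, p ^ 0.4 / 4, p ^ 0.8 / 64 ≤ p - 1 ≤ p ^ 1.6 / 128 ^ 2`)
`|A4| ≥ (p - 1)/2`. As `A4` has the cost `cst (cst (cst (cst 2)))` and `w ∈ U 4`, the set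
`A4 * w` is a subset of `U Kst`; `w ≠ 0`. -/
theorem tower : ∃ P0 : ℕ, ∀ (p : ℕ) [Fact p.Prime], P0 ≤ p → ∀ (U : ℕ → Finset (ZMod p))
    (L : Finset (ZMod p)), (∀ k l, k ≤ l → U k ⊆ U l) →
    (∀ k l, ∀ u ∈ U k, ∀ v ∈ U l, u + v ∈ U (k + l)) → (∀ k, ∀ u ∈ U k, -u ∈ U k) →
    (∀ k, ∀ x ∈ L, ∀ u ∈ U k, x * u ∈ U (k + 2)) → (p : ℝ) ^ (1 / 10 : ℝ) ≤ L.card →
    (∃ w ∈ U 4, w ≠ 0) → (p : ℝ) - 1 ≤ 2 * (U Kst).card := by
  refine ⟨10 ^ 10, ?_⟩
  intro p _ hp U L hmono hadd hneg hL hcard hw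
  obtain ⟨w, hw4, hw0⟩ := hw
  have hp0 : (0 : ℝ) ≤ p := Nat.cast_nonneg p
  have hpR : (10 : ℝ) ^ 10 ≤ p := by exact_mod_cast hp
  obtain ⟨x, hx⟩ : ∃ x : ℝ, x = (p : ℝ) ^ (1 / 10 : ℝ) := ⟨_, rfl⟩
  have hx10 : x ^ 10 = p := by
    rw [hx, ← Real.rpow_natCast, ← Real.rpow_mul hp0]
    norm_num
  have hx0 : 0 ≤ x := by rw [hx]; positivity
  have hxge : 10 ≤ x := by
    by_contra hlt
    push Not at hlt
    have : x ^ 10 < 10 ^ 10 := pow_lt_pow_left₀ hlt hx0 (by norm_num)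
    rw [hx10] at this
    linarith
  rw [← hx] at hcard
  have c0 : SptCost U L 2 := by
    intro k y hy u hu
    exact hmono _ _ (by omega) (hL k y hy u hu)
  have two : ∀ A : Finset (ZMod p), (2 : ℝ) ≤ A.card → 2 ≤ A.card := fun A h => by
    exact_mod_cast h
  -- powers of `x`
  have x1 : (1 : ℝ) ≤ x := by linarith
  have x2 : x ^ 2 + 1 ≤ x ^ 10 := by
    have : x ^ 2 * x ^ 8 = x ^ 10 := by ring
    have h8 : (10 : ℝ) ≤ x ^ 8 := by
      calc (10 : ℝ) ≤ x := hxge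
        _ = x ^ 1 := (pow_one x).symm
        _ ≤ x ^ 8 := pow_le_pow_right₀ x1 (by norm_num)
    have h2 : (1 : ℝ) ≤ x ^ 2 := one_le_pow₀ x1
    nlinarith
  have x4 : x ^ 4 / 4 + 1 ≤ x ^ 10 := by
    have : x ^ 4 * x ^ 6 = x ^ 10 := by ring
    have h8 : (10 : ℝ) ≤ x ^ 6 := by
      calc (10 : ℝ) ≤ x := hxge
        _ = x ^ 1 := (pow_one x).symm
        _ ≤ x ^ 6 := pow_le_pow_right₀ x1 (by norm_num)
    have h2 : (1 : ℝ) ≤ x ^ 4 := one_le_pow₀ x1
    nlinarith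
  have x8 : x ^ 8 / 64 + 1 ≤ x ^ 10 := by
    have : x ^ 8 * x ^ 2 = x ^ 10 := by ring
    have h8 : (10 : ℝ) ≤ x ^ 2 := by
      calc (10 : ℝ) ≤ x := hxge
        _ = x ^ 1 := (pow_one x).symm
        _ ≤ x ^ 2 := pow_le_pow_right₀ x1 (by norm_num)
    have h2 : (1 : ℝ) ≤ x ^ 8 := one_le_pow₀ x1
    nlinarith
  have x16 : x ^ 10 ≤ x ^ 16 / 16384 := by
    have : x ^ 10 * x ^ 6 = x ^ 16 := by ring
    have h8 : (10 : ℝ) ^ 6 ≤ x ^ 6 := pow_le_pow_left₀ (by norm_num) hxge 6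
    have h2 : (0 : ℝ) ≤ x ^ 10 := by positivity
    nlinarith
  -- the four steps
  obtain ⟨A1, d1, m1⟩ := spt_step U hmono hadd hneg L 2 c0 (two L (by linarith))
  have s1 : x ^ 2 / 2 ≤ A1.card := by
    have : x ^ 2 ≤ min ((L.card : ℝ) ^ 2) (p - 1) := by
      refine le_min (pow_le_pow_left₀ hx0 hcard 2) ?_
      rw [← hx10]; linarith
    linarith
  obtain ⟨A2, d2, m2⟩ := spt_step U hmono hadd hneg A1 _ d1 (two A1 (by nlinarith))
  have s2 : x ^ 4 / 8 ≤ A2.card := by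
    have : x ^ 4 / 4 ≤ min ((A1.card : ℝ) ^ 2) (p - 1) := by
      refine le_min ?_ ?_
      · calc x ^ 4 / 4 = (x ^ 2 / 2) ^ 2 := by ring
          _ ≤ (A1.card : ℝ) ^ 2 := pow_le_pow_left₀ (by positivity) s1 2
      · rw [← hx10]; linarith
    linarith
  have h4 : (10 : ℝ) ^ 4 ≤ x ^ 4 := pow_le_pow_left₀ (by norm_num) hxge 4
  obtain ⟨A3, d3, m3⟩ := spt_step U hmono hadd hneg A2 _ d2 (two A2 (by linarith))
  have s3 : x ^ 8 / 128 ≤ A3.card := by
    have : x ^ 8 / 64 ≤ min ((A2.card : ℝ) ^ 2) (p - 1) := by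
      refine le_min ?_ ?_
      · calc x ^ 8 / 64 = (x ^ 4 / 8) ^ 2 := by ring
          _ ≤ (A2.card : ℝ) ^ 2 := pow_le_pow_left₀ (by positivity) s2 2
      · rw [← hx10]; linarith
    linarith
  have h8 : (10 : ℝ) ^ 8 ≤ x ^ 8 := pow_le_pow_left₀ (by norm_num) hxge 8
  obtain ⟨A4, d4, m4⟩ := spt_step U hmono hadd hneg A3 _ d3 (two A3 (by linarith))
  have s4 : (p : ℝ) - 1 ≤ 2 * A4.card := by
    have : (p : ℝ) - 1 ≤ min ((A3.card : ℝ) ^ 2) (p - 1) := by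
      refine le_min ?_ le_rfl
      calc (p : ℝ) - 1 ≤ x ^ 16 / 16384 := by rw [← hx10]; linarith
        _ = (x ^ 8 / 128) ^ 2 := by ring
        _ ≤ (A3.card : ℝ) ^ 2 := pow_le_pow_left₀ (by positivity) s3 2
    linarith
  -- multiplication by `w`
  have hK : Kst = cst (cst (cst (cst 2))) * (4 + 1) := by
    unfold Kst
    rw [Nat.mul_comm]
  have hsub : A4.image (fun y => y * w) ⊆ U Kst := by
    intro z hz
    obtain ⟨y, hy, rfl⟩ := Finset.mem_image.1 hz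
    rw [hK]
    exact d4 4 y hy w hw4
  have hc : A4.card ≤ (U Kst).card := by
    rw [← Finset.card_image_of_injective A4 (mul_left_injective₀ hw0)]
    exact Finset.card_le_card hsub
  have hc' : (A4.card : ℝ) ≤ (U Kst).card := by exact_mod_cast hc
  linarith

end Pool.Agent.MP193G
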