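import Mathlib
import Pool.Agent.Lib.MP_193dd3_co_G.Defs
import Pool.Agent.Lib.MP_193dd3_co_G.Spt

/-!
# MP_193dd3_co, project G: approximate groups in the affine group
-/

set_option autoImplicit false

open scoped Pointwise

namespace Pool.Agent.MP193G

section aux

variable {p : ℕ} [Fact p.Prime] {Γ : Type} [Group Γ] {P : Subgroup Γ} {lam tr : Γ → ZMod p}

private theorem aff_lam_one (A : AffC P lam tr) : lam 1 = 1 := by
  have h := A.lam_mul 1 P.one_mem 1 P.one_mem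
  rw [one_mul] at h
  exact mul_left_cancel₀ (A.lam_ne 1 P.one_mem) (by rw [mul_one]; exact h.symm)

private theorem aff_tr_one (A : AffC P lam tr) : tr 1 = 0 := by
  have h := A.tr_mul 1 P.one_mem 1 P.one_mem
  rw [one_mul, aff_lam_one A, one_mul] at h
  linear_combination -h

private theorem aff_lam_inv (A : AffC P lam tr) {g : Γ} (hg : g ∈ P) :
    lam g⁻¹ = (lam g)⁻¹ := by
  have h := A.lam_mul g hg g⁻¹ (P.inv_mem hg)
  rw [mul_inv_cancel, aff_lam_one A] at h
  exact eq_inv_of_mul_eq_one_right h.symm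

private theorem aff_tr_inv (A : AffC P lam tr) {g : Γ} (hg : g ∈ P) :
    tr g⁻¹ = -((lam g)⁻¹ * tr g) := by
  have h := A.tr_mul g⁻¹ (P.inv_mem hg) g hg
  rw [inv_mul_cancel, aff_tr_one A, aff_lam_inv A hg] at h
  linear_combination -h

private theorem aff_pow_mem [DecidableEq Γ] {S : Finset Γ} (hS : ∀ g ∈ S, g ∈ P) (k : ℕ) :
    ∀ g ∈ S ^ k, g ∈ P := by
  induction k with
  | zero =>
    intro g hg
    rw [pow_zero, Finset.mem_one] at hg
    rw [hg]
    exact P.one_mem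
  | succ k ih =>
    intro g hg
    rw [pow_succ] at hg
    obtain ⟨a, ha, b, hb, rfl⟩ := Finset.mem_mul.1 hg
    exact P.mul_mem (ih a ha) (hS b hb)

private theorem aff_inv_mem [DecidableEq Γ] {S : Finset Γ} (hS : S⁻¹ = S) (k : ℕ) {g : Γ}
    (hg : g ∈ S ^ k) : g⁻¹ ∈ S ^ k := by
  have h : (S ^ k)⁻¹ = S ^ k := by rw [← inv_pow, hS]
  rw [← h]
  exact Finset.inv_mem_inv hg

/-- The conjugate of a translation. -/
private theorem aff_conj (A : AffC P lam tr) {g h : Γ} (hg : g ∈ P) (hh : h ∈ P)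
    (h1 : lam h = 1) : lam (g * h * g⁻¹) = 1 ∧ tr (g * h * g⁻¹) = lam g * tr h := by
  have hgh := P.mul_mem hg hh
  have hne := A.lam_ne g hg
  constructor
  · rw [A.lam_mul _ hgh _ (P.inv_mem hg), A.lam_mul _ hg _ hh, aff_lam_inv A hg, h1, mul_one,
      mul_inv_cancel₀ hne]
  · rw [A.tr_mul _ hgh _ (P.inv_mem hg), A.tr_mul _ hg _ hh, A.lam_mul _ hg _ hh,
      aff_tr_inv A hg, h1]
    field_simp
    ring

/-- First case: few values of `lam`. -/
private theorem aff_case1 [DecidableEq Γ] (A : AffC P lam tr) {c : ℝ} (S : Finset Γ)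
    (hS : ∀ g ∈ S, g ∈ P) (h1 : 1 ∈ S) (hinv : S⁻¹ = S) (hc : c * (p : ℝ) ≤ S.card)
    (hL : ((S.image lam).card : ℝ) ≤ (p : ℝ) ^ (1 / 10 : ℝ)) (hc0 : 0 < c) :
    c * (p : ℝ) ^ (9 / 10 : ℝ) ≤ ((S ^ 2).filter fun g => lam g = 1).card := by
  have hp0 : (0 : ℝ) < p := by exact_mod_cast (Fact.out : p.Prime).pos
  obtain ⟨x, hx, hxc⟩ : ∃ x ∈ S.image lam,
      c * (p : ℝ) ^ (9 / 10 : ℝ) ≤ (S.filter fun g => lam g = x).card := by
    by_contra hcon
    push Not at hcon
    have hne : (S.image lam).Nonempty := ⟨lam 1, Finset.mem_image_of_mem _ h1⟩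
    have hsum : (S.card : ℝ) = ∑ x ∈ S.image lam, ((S.filter fun g => lam g = x).card : ℝ) := by
      exact_mod_cast Finset.card_eq_sum_card_image lam S
    have hlt : (S.card : ℝ) < ∑ _x ∈ S.image lam, c * (p : ℝ) ^ (9 / 10 : ℝ) := by
      rw [hsum]
      exact Finset.sum_lt_sum_of_nonempty hne hcon
    rw [Finset.sum_const, nsmul_eq_mul] at hlt
    have h2 : ((S.image lam).card : ℝ) * (c * (p : ℝ) ^ (9 / 10 : ℝ)) ≤ c * p := by
      calc ((S.image lam).card : ℝ) * (c * (p : ℝ) ^ (9 / 10 : ℝ))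
          ≤ (p : ℝ) ^ (1 / 10 : ℝ) * (c * (p : ℝ) ^ (9 / 10 : ℝ)) := by
            apply mul_le_mul_of_nonneg_right hL
            positivity
        _ = c * ((p : ℝ) ^ (1 / 10 : ℝ) * (p : ℝ) ^ (9 / 10 : ℝ)) := by ring
        _ = c * p := by
            rw [← Real.rpow_add hp0]
            norm_num
    linarith
  obtain ⟨g0, hg0, rfl⟩ := Finset.mem_image.1 hx
  have hcard : (S.filter fun g => lam g = lam g0).card
      ≤ ((S ^ 2).filter fun g => lam g = 1).card := by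
    apply Finset.card_le_card_of_injOn (fun h => g0⁻¹ * h)
    · intro h hh
      have hh' := Finset.mem_filter.1 (Finset.mem_coe.1 hh)
      apply Finset.mem_coe.2
      apply Finset.mem_filter.2
      constructor
      · rw [pow_two]
        apply Finset.mul_mem_mul _ hh'.1
        rw [← hinv]
        exact Finset.inv_mem_inv hg0
      · rw [A.lam_mul _ (P.inv_mem (hS _ hg0)) _ (hS _ hh'.1), aff_lam_inv A (hS _ hg0), hh'.2,
          inv_mul_cancel₀ (A.lam_ne _ (hS _ hg0))]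
    · intro a _ b _ hab
      exact mul_left_cancel hab
  exact hxc.trans (by exact_mod_cast hcard)

/-- The translation parts. -/
private def affU [DecidableEq Γ] (lam tr : Γ → ZMod p) (S : Finset Γ) (k : ℕ) :
    Finset (ZMod p) :=
  ((S ^ k).filter fun g => lam g = 1).image tr

private theorem mem_affU [DecidableEq Γ] {S : Finset Γ} {k : ℕ} {u : ZMod p} :
    u ∈ affU lam tr S k ↔ ∃ g ∈ S ^ k, lam g = 1 ∧ tr g = u := by
  unfold affU
  simp only [Finset.mem_image, Finset.mem_filter]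
  constructor
  · rintro ⟨g, ⟨h1, h2⟩, h3⟩
    exact ⟨g, h1, h2, h3⟩
  · rintro ⟨g, h1, h2, h3⟩
    exact ⟨g, ⟨h1, h2⟩, h3⟩

/-- The product set in the second case. -/
private theorem aff_prod [DecidableEq Γ] (A : AffC P lam tr) (S : Finset Γ)
    (hS : ∀ g ∈ S, g ∈ P) (k : ℕ) :
    (affU lam tr S k).card * (S.image lam).card ≤ (S ^ (k + 1)).card := by
  classical
  have h1 : ∀ u : affU lam tr S k, ∃ g ∈ S ^ k, lam g = 1 ∧ tr g = u.1 := fun u =>
    mem_affU.1 u.2
  choose hU hUm hUl hUt using h1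
  have h2 : ∀ x : S.image lam, ∃ g ∈ S, lam g = x.1 := fun x => Finset.mem_image.1 x.2
  choose gL hLm hLl using h2
  rw [← Fintype.card_coe (affU lam tr S k), ← Fintype.card_coe (S.image lam),
    ← Fintype.card_coe (S ^ (k + 1)), ← Fintype.card_prod]
  have hm : ∀ z : affU lam tr S k × S.image lam, hU z.1 * gL z.2 ∈ S ^ (k + 1) := by
    intro z
    rw [pow_succ]
    exact Finset.mul_mem_mul (hUm _) (hLm _)
  apply Fintype.card_le_of_injective (fun z => (⟨hU z.1 * gL z.2, hm z⟩ : (S ^ (k + 1) : Finset Γ)))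
  intro z w hzw
  have heq : hU z.1 * gL z.2 = hU w.1 * gL w.2 := congrArg Subtype.val hzw
  have hzP := aff_pow_mem hS k _ (hUm z.1)
  have hwP := aff_pow_mem hS k _ (hUm w.1)
  have e1 : lam (hU z.1 * gL z.2) = z.2.1 := by
    rw [A.lam_mul _ hzP _ (hS _ (hLm _)), hUl, one_mul, hLl]
  have e2 : lam (hU w.1 * gL w.2) = w.2.1 := by
    rw [A.lam_mul _ hwP _ (hS _ (hLm _)), hUl, one_mul, hLl]
  have e3 : z.2 = w.2 := Subtype.ext (by rw [← e1, ← e2, heq])
  have e4 : tr (hU z.1 * gL z.2) = z.1.1 + tr (gL z.2) := by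
    rw [A.tr_mul _ hzP _ (hS _ (hLm _)), hUl, one_mul, hUt]
  have e5 : tr (hU w.1 * gL w.2) = w.1.1 + tr (gL w.2) := by
    rw [A.tr_mul _ hwP _ (hS _ (hLm _)), hUl, one_mul, hUt]
  have e6 : z.1 = w.1 := by
    apply Subtype.ext
    have h := e4.symm.trans ((congrArg tr heq).trans e5)
    rw [e3] at h
    exact add_right_cancel h
  exact Prod.ext e6 e3

/-- Third case: common fixed point. -/
private theorem aff_case3 [DecidableEq Γ] (A : AffC P lam tr) (S : Finset Γ)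
    (hS : ∀ g ∈ S, g ∈ P) (h1 : 1 ∈ S) (hinv : S⁻¹ = S) (hc : 2 ≤ S.card)
    (hU : ∀ w ∈ affU lam tr S 4, w = 0) : ∃ b : ZMod p, ∀ g ∈ S, lam g * b + tr g = b := by
  have hinvm : ∀ g ∈ S, g⁻¹ ∈ S := fun g hg => by
    rw [← hinv]
    exact Finset.inv_mem_inv hg
  have hcomm : ∀ g ∈ S, ∀ h ∈ S, g * h = h * g := by
    intro g hg h hh
    have hgP := hS g hg
    have hhP := hS h hh
    have hm : g * h * g⁻¹ * h⁻¹ ∈ S ^ 4 := by
      rw [show S ^ 4 = S * S * S * S by rw [pow_succ, pow_succ, pow_two]]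
      exact Finset.mul_mem_mul (Finset.mul_mem_mul (Finset.mul_mem_mul hg hh) (hinvm _ hg))
        (hinvm _ hh)
    have hl : lam (g * h * g⁻¹ * h⁻¹) = 1 := by
      rw [A.lam_mul _ (P.mul_mem (P.mul_mem hgP hhP) (P.inv_mem hgP)) _ (P.inv_mem hhP),
        A.lam_mul _ (P.mul_mem hgP hhP) _ (P.inv_mem hgP), A.lam_mul _ hgP _ hhP,
        aff_lam_inv A hgP, aff_lam_inv A hhP]
      have e1 := A.lam_ne g hgP
      have e2 := A.lam_ne h hhP
      field_simp
    have ht : tr (g * h * g⁻¹ * h⁻¹) = 0 := hU _ (mem_affU.2 ⟨_, hm, hl, rfl⟩)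
    have hone : g * h * g⁻¹ * h⁻¹ = 1 := by
      apply A.inj _ (aff_pow_mem hS 4 _ hm) _ P.one_mem
      · rw [hl, aff_lam_one A]
      · rw [ht, aff_tr_one A]
    rw [mul_inv_eq_one, mul_inv_eq_iff_eq_mul] at hone
    exact hone
  obtain ⟨g0, hg0, hg1⟩ : ∃ g0 ∈ S, lam g0 ≠ 1 := by
    by_contra hcon
    push Not at hcon
    obtain ⟨g, hg, hgne⟩ : ∃ g ∈ S, g ≠ 1 := by
      by_contra h
      push Not at h
      have hsub : S ⊆ {1} := fun g hg => Finset.mem_singleton.2 (h g hg)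
      have := Finset.card_le_card hsub
      rw [Finset.card_singleton] at this
      omega
    have hg4 : g ∈ S ^ 4 := by
      have h := Finset.pow_subset_pow_right (n := 4) h1 (by norm_num : 1 ≤ 4)
      rw [pow_one] at h
      exact h hg
    have ht : tr g = 0 := hU _ (mem_affU.2 ⟨g, hg4, hcon g hg, rfl⟩)
    apply hgne
    apply A.inj _ (hS g hg) _ P.one_mem
    · rw [hcon g hg, aff_lam_one A]
    · rw [ht, aff_tr_one A]
  refine ⟨tr g0 / (1 - lam g0), fun h hh => ?_⟩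
  have hne : 1 - lam g0 ≠ 0 := fun h0 => hg1 (by linear_combination -h0)
  have e1 := A.tr_mul _ (hS _ hg0) _ (hS _ hh)
  have e2 := A.tr_mul _ (hS _ hh) _ (hS _ hg0)
  rw [hcomm g0 hg0 h hh] at e1
  have e3 : tr g0 + lam g0 * tr h = tr h + lam h * tr g0 := e1.symm.trans e2
  field_simp
  linear_combination -e3

end aux

/-- Symmetric sets `S` of about `p` affine maps of `ZMod p` with small powers: `S ^ 2` contains
many translations, or all elements of `S` have a common fixed point.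

Proof. (`1/c` large enough.) Let `L = lam '' S` and `U k = {tr g : g ∈ S ^ k, lam g = 1}`. The
sets `U k` increase (`1 ∈ S`), `tr_mul` gives `U k + U l ⊆ U (k + l)`, symmetry of `S` gives
`- U k = U k`, and for `g ∈ S`, `h ∈ S ^ k`, `lam h = 1`, the conjugate `g * h * g⁻¹ ∈ S ^ (k + 2)`
has `lam = 1`, `tr = lam g * tr h`.
(1) If `|L| ≤ p ^ (1/10)`: some fibre of `lam` on `S` has at least `c p / |L| ≥ c p ^ (9/10)`
elements; divide by one of them: first case.
(2) If `|L| > p ^ (1/10)` and `U 4` contains some `w ≠ 0`: `tower` gives `|U Kst| ≥ (p - 1)/2`. For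
every `x ∈ L` choose `g_x ∈ S` with `lam g_x = x`; the products of the `g ∈ S ^ Kst` with
`lam g = 1` and the `g_x` are different elements of `S ^ (Kst + 1)`, so
`|U Kst| |L| ≤ p/c`, a contradiction for large `p`.
(3) If `U 4 = {0}`: the commutators of elements of `S` are trivial (`inj`, they lie in `S ^ 4` and
have `lam = 1`), so `S` is commutative. As `|S| ≥ c p ≥ 2`, there is a `g0 ∈ S` with
`lam g0 ≠ 1` (if `lam = 1` on `S` then `U 4 ⊇ U 1` has at least two elements). Let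
`b = tr g0 / (1 - lam g0)`. For `h ∈ S` the equation `tr (g0 * h) = tr (h * g0)` says
`tr h (lam g0 - 1) = tr g0 (lam h - 1)`, so `lam h * b + tr h = b`. -/
theorem affcls {c : ℝ} (hc : 0 < c) : ∃ P0 : ℕ, ∀ (p : ℕ) [Fact p.Prime], P0 ≤ p →
    ∀ {Γ : Type} [Group Γ] [DecidableEq Γ] (P : Subgroup Γ) (lam tr : Γ → ZMod p),
    AffC P lam tr → ∀ S : Finset Γ, (∀ g ∈ S, g ∈ P) → 1 ∈ S → S⁻¹ = S →
    c * (p : ℝ) ≤ S.card → c * ((S ^ (Kst + 1)).card : ℝ) ≤ p →
    c * (p : ℝ) ^ (9 / 10 : ℝ) ≤ ((S ^ 2).filter fun g => lam g = 1).card ∨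
      ∃ b : ZMod p, ∀ g ∈ S, lam g * b + tr g = b := by
  obtain ⟨P1, hP1⟩ := tower
  refine ⟨max P1 (max (⌈2 / c⌉₊) (⌈(4 / c) ^ 10⌉₊ + 2)), ?_⟩
  intro p _ hp Γ _ _ P lam tr A S hS h1 hinv hcard hpow
  have hp1 : P1 ≤ p := (le_max_left _ _).trans hp
  have hp2 : ⌈2 / c⌉₊ ≤ p := ((le_max_left _ _).trans (le_max_right _ _)).trans hp
  have hp3 : ⌈(4 / c) ^ 10⌉₊ + 2 ≤ p := ((le_max_right _ _).trans (le_max_right _ _)).trans hp
  have hp2' : 2 / c ≤ (p : ℝ) := (Nat.le_ceil _).trans (by exact_mod_cast hp2)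
  have hp3' : (4 / c) ^ 10 + 2 ≤ (p : ℝ) := by
    have h := Nat.le_ceil ((4 / c) ^ 10)
    have h' : ((⌈(4 / c) ^ 10⌉₊ + 2 : ℕ) : ℝ) ≤ p := by exact_mod_cast hp3
    push_cast at h'
    linarith
  have hpos : (0 : ℝ) < (4 / c) ^ 10 := by positivity
  by_cases hL : ((S.image lam).card : ℝ) ≤ (p : ℝ) ^ (1 / 10 : ℝ)
  · exact Or.inl (aff_case1 A S hS h1 hinv hcard hL hc)
  push Not at hL
  right
  by_cases hw : ∃ w ∈ affU lam tr S 4, w ≠ 0
  · exfalso
    have hT := hP1 p hp1 (affU lam tr S) (S.image lam) ?_ ?_ ?_ ?_ hL.le hw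
    · have hprod := aff_prod A S hS Kst
      have hprod' : ((affU lam tr S Kst).card : ℝ) * ((S.image lam).card : ℝ)
          ≤ ((S ^ (Kst + 1)).card : ℝ) := by exact_mod_cast hprod
      have hroot : 4 / c < (p : ℝ) ^ (1 / 10 : ℝ) := by
        have h4 : (0 : ℝ) ≤ 4 / c := by positivity
        have e : 4 / c = ((4 / c) ^ 10) ^ (1 / 10 : ℝ) := by
          rw [← Real.rpow_natCast, ← Real.rpow_mul h4]
          norm_num
        rw [e]
        apply Real.rpow_lt_rpow hpos.le _ (by norm_num)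
        linarith
      have hLc : 4 / c < ((S.image lam).card : ℝ) := hroot.trans hL
      have hUc : (p : ℝ) / 4 ≤ ((affU lam tr S Kst).card : ℝ) := by linarith
      have hp0 : (0 : ℝ) < p := by linarith
      have h5 : (p : ℝ) / 4 * (4 / c)
          < ((affU lam tr S Kst).card : ℝ) * ((S.image lam).card : ℝ) := by
        apply mul_lt_mul' hUc hLc (by positivity)
        linarith
      have h6 : (p : ℝ) / 4 * (4 / c) = p / c := by field_simp
      have h7 : ((S ^ (Kst + 1)).card : ℝ) ≤ p / c := by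
        rw [le_div_iff₀ hc]
        linarith
      linarith
    · intro k l hkl u hu
      obtain ⟨g, hg, hg1, hg2⟩ := mem_affU.1 hu
      exact mem_affU.2 ⟨g, Finset.pow_subset_pow_right h1 hkl hg, hg1, hg2⟩
    · intro k l u hu v hv
      obtain ⟨g, hg, hg1, hg2⟩ := mem_affU.1 hu
      obtain ⟨h, hh, hh1, hh2⟩ := mem_affU.1 hv
      have hgP := aff_pow_mem hS k g hg
      have hhP := aff_pow_mem hS l h hh
      refine mem_affU.2 ⟨g * h, ?_, ?_, ?_⟩
      · rw [pow_add]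
        exact Finset.mul_mem_mul hg hh
      · rw [A.lam_mul _ hgP _ hhP, hg1, hh1, one_mul]
      · rw [A.tr_mul _ hgP _ hhP, hg1, one_mul, hg2, hh2]
    · intro k u hu
      obtain ⟨g, hg, hg1, hg2⟩ := mem_affU.1 hu
      have hgP := aff_pow_mem hS k g hg
      refine mem_affU.2 ⟨g⁻¹, aff_inv_mem hinv k hg, ?_, ?_⟩
      · rw [aff_lam_inv A hgP, hg1, inv_one]
      · rw [aff_tr_inv A hgP, hg1, inv_one, one_mul, hg2]
    · intro k x hx u hu
      obtain ⟨g, hg, rfl⟩ := Finset.mem_image.1 hx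
      obtain ⟨h, hh, hh1, hh2⟩ := mem_affU.1 hu
      have hgP := hS g hg
      have hhP := aff_pow_mem hS k h hh
      obtain ⟨e1, e2⟩ := aff_conj A hgP hhP hh1
      refine mem_affU.2 ⟨g * h * g⁻¹, ?_, e1, by rw [e2, hh2]⟩
      rw [pow_succ, pow_succ']
      apply Finset.mul_mem_mul (Finset.mul_mem_mul hg hh)
      rw [← hinv]
      exact Finset.inv_mem_inv hg
  · push Not at hw
    apply aff_case3 A S hS h1 hinv _ hw
    have h2 : (2 : ℝ) ≤ S.card := by
      have h3 : 2 ≤ c * (p : ℝ) := by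
        rw [div_le_iff₀ hc] at hp2'
        linarith
      linarith
    exact_mod_cast h2

end Pool.Agent.MP193G
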