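import Mathlib

/-!
# MP_193dd3_co, project G: the graph lemma of Balog, Szemeredi and Gowers
-/

set_option autoImplicit false

namespace Pool.Agent.MP193G

private theorem Gr_core {c : ℝ} (hc : 0 < c) (hc1 : c ≤ 1) {V W : Type} [DecidableEq V]
    [DecidableEq W] (A : Finset V) (B : Finset W) (E : V → W → Prop) [∀ x y, Decidable (E x y)]
    (h : c * (A.card * B.card : ℝ) ≤ ((A ×ˢ B).filter fun q => E q.1 q.2).card)
    (hA : 0 < A.card) (hB : 0 < B.card) :
    ∃ A' ⊆ A, ∃ B' ⊆ B, c ^ 5 / 3072 * (A.card : ℝ) ≤ A'.card ∧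
      c ^ 5 / 3072 * (B.card : ℝ) ≤ B'.card ∧
      ∀ x ∈ A', ∀ y ∈ B', c ^ 5 / 3072 * (A.card * B.card : ℝ) ≤
        ((A ×ˢ B).filter fun q => E x q.2 ∧ E q.1 q.2 ∧ E q.1 y).card := by
  classical
  have ha : (0 : ℝ) < A.card := by exact_mod_cast hA
  have hb : (0 : ℝ) < B.card := by exact_mod_cast hB
  set a : ℝ := (A.card : ℝ) with hadef
  set b : ℝ := (B.card : ℝ) with hbdef
  -- neighbourhoods
  have hedge : (((A ×ˢ B).filter fun q => E q.1 q.2).card : ℝ) =
      ∑ x ∈ A, ((B.filter fun y => E x y).card : ℝ) := by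
    rw [← Finset.sum_boole, Finset.sum_product]
    refine Finset.sum_congr rfl fun x _ => ?_
    rw [Finset.sum_boole]
  rw [hedge] at h
  set X := A.filter fun x => c / 2 * b ≤ ((B.filter fun y => E x y).card : ℝ) with hX
  have hXA : X ⊆ A := Finset.filter_subset _ _
  have hXs : c / 2 * (a * b) ≤ ∑ x ∈ X, ((B.filter fun y => E x y).card : ℝ) := by
    have h1 : ∑ x ∈ A, ((B.filter fun y => E x y).card : ℝ) =
        ∑ x ∈ X, ((B.filter fun y => E x y).card : ℝ) +
          ∑ x ∈ A.filter (fun x => ¬ c / 2 * b ≤ ((B.filter fun y => E x y).card : ℝ)),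
            ((B.filter fun y => E x y).card : ℝ) :=
      (Finset.sum_filter_add_sum_filter_not A _ _).symm
    have h2 : ∑ x ∈ A.filter (fun x => ¬ c / 2 * b ≤ ((B.filter fun y => E x y).card : ℝ)),
        ((B.filter fun y => E x y).card : ℝ) ≤ a * (c / 2 * b) := by
      calc _ ≤ ∑ _x ∈ A.filter (fun x => ¬ c / 2 * b ≤ ((B.filter fun y => E x y).card : ℝ)),
            c / 2 * b := by
            refine Finset.sum_le_sum fun x hx => ?_
            exact (not_le.1 (Finset.mem_filter.1 hx).2).le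
        _ = ((A.filter (fun x => ¬ c / 2 * b ≤
              ((B.filter fun y => E x y).card : ℝ))).card : ℝ) * (c / 2 * b) := by
            rw [Finset.sum_const, nsmul_eq_mul]
        _ ≤ a * (c / 2 * b) := by
            refine mul_le_mul_of_nonneg_right ?_ (by positivity)
            exact Nat.cast_le.2 (Finset.card_filter_le _ _)
    linarith
  -- the sets M y
  have hMs : ∑ y ∈ B, ((X.filter fun x => E x y).card : ℝ) =
      ∑ x ∈ X, ((B.filter fun y => E x y).card : ℝ) := by
    simp_rw [← Finset.sum_boole]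
    exact Finset.sum_comm
  have hCS : c ^ 2 / 4 * (a ^ 2 * b) ≤ ∑ y ∈ B, ((X.filter fun x => E x y).card : ℝ) ^ 2 := by
    have h1 := sq_sum_le_card_mul_sum_sq (s := B)
      (f := fun y => ((X.filter fun x => E x y).card : ℝ))
    rw [hMs] at h1
    have h2 : (c / 2 * (a * b)) ^ 2 ≤ b * ∑ y ∈ B, ((X.filter fun x => E x y).card : ℝ) ^ 2 :=
      le_trans (pow_le_pow_left₀ (by positivity) hXs 2) h1
    have h3 : b * (c ^ 2 / 4 * (a ^ 2 * b)) ≤
        b * ∑ y ∈ B, ((X.filter fun x => E x y).card : ℝ) ^ 2 := by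
      calc b * (c ^ 2 / 4 * (a ^ 2 * b)) = (c / 2 * (a * b)) ^ 2 := by ring
        _ ≤ _ := h2
    exact le_of_mul_le_mul_left h3 hb
  -- bad pairs
  set d : ℝ := c ^ 3 / 128 with hd
  have hdpos : 0 < d := by positivity
  let bad : V → V → Prop := fun x x' => ((B.filter fun y => E x y ∧ E x' y).card : ℝ) < d * b
  have hbad : ∑ y ∈ B, ((((X.filter fun x => E x y) ×ˢ (X.filter fun x => E x y)).filter
      fun q => bad q.1 q.2).card : ℝ) ≤ d * b * a ^ 2 := by
    have h1 : ∀ y, ((((X.filter fun x => E x y) ×ˢ (X.filter fun x => E x y)).filter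
        fun q => bad q.1 q.2).card : ℝ) =
        ∑ q ∈ (X ×ˢ X).filter (fun q => bad q.1 q.2),
          (if E q.1 y ∧ E q.2 y then (1 : ℝ) else 0) := by
      intro y
      rw [Finset.sum_boole]
      congr 2
      ext q
      simp only [Finset.mem_filter, Finset.mem_product]
      tauto
    simp_rw [h1]
    rw [Finset.sum_comm]
    calc _ ≤ ∑ _q ∈ (X ×ˢ X).filter (fun q => bad q.1 q.2), d * b := by
          refine Finset.sum_le_sum fun q hq => ?_
          rw [Finset.sum_boole]
          exact (Finset.mem_filter.1 hq).2.le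
      _ = (((X ×ˢ X).filter (fun q => bad q.1 q.2)).card : ℝ) * (d * b) := by
          rw [Finset.sum_const, nsmul_eq_mul]
      _ ≤ (a * a) * (d * b) := by
          refine mul_le_mul_of_nonneg_right ?_ (by positivity)
          calc (((X ×ˢ X).filter (fun q => bad q.1 q.2)).card : ℝ) ≤ ((X ×ˢ X).card : ℝ) := by
                exact_mod_cast Finset.card_filter_le _ _
            _ = (X.card : ℝ) * X.card := by rw [Finset.card_product]; push_cast; ring
            _ ≤ a * a := by
                have : (X.card : ℝ) ≤ a := Nat.cast_le.2 (Finset.card_le_card hXA)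
                exact mul_le_mul this this (by positivity) ha.le
      _ = d * b * a ^ 2 := by ring
  -- choice of y0
  obtain ⟨y0, hy0, hy0'⟩ : ∃ y0 ∈ B, c ^ 2 / 8 * a ^ 2 ≤
      ((X.filter fun x => E x y0).card : ℝ) ^ 2 - 16 / c *
        ((((X.filter fun x => E x y0) ×ˢ (X.filter fun x => E x y0)).filter
          fun q => bad q.1 q.2).card : ℝ) := by
    have hne : B.Nonempty := Finset.card_pos.1 hB
    refine Finset.exists_le_of_sum_le hne ?_
    have h15 : ∑ y ∈ B, 16 / c *
        ((((X.filter fun x => E x y) ×ˢ (X.filter fun x => E x y)).filter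
          fun q => bad q.1 q.2).card : ℝ) = 16 / c * ∑ y ∈ B,
        ((((X.filter fun x => E x y) ×ˢ (X.filter fun x => E x y)).filter
          fun q => bad q.1 q.2).card : ℝ) := (Finset.mul_sum _ _ _).symm
    rw [Finset.sum_sub_distrib, h15, Finset.sum_const, nsmul_eq_mul]
    have h16 : 16 / c * (d * b * a ^ 2) = c ^ 2 / 8 * (a ^ 2 * b) := by
      rw [hd]; field_simp; ring
    have h17 := mul_le_mul_of_nonneg_left hbad (by positivity : (0 : ℝ) ≤ 16 / c)
    have h18 : (B.card : ℝ) * (c ^ 2 / 8 * a ^ 2) = c ^ 2 / 8 * (a ^ 2 * b) := by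
      rw [← hbdef]; ring
    rw [h18]
    linarith
  set Z := X.filter fun x => E x y0 with hZ
  have hZX : Z ⊆ X := Finset.filter_subset _ _
  have hZA : Z ⊆ A := hZX.trans hXA
  have hbadnn : (0 : ℝ) ≤ ((Z ×ˢ Z).filter fun q => bad q.1 q.2).card := by positivity
  have hZ2 : c ^ 2 / 8 * a ^ 2 ≤ (Z.card : ℝ) ^ 2 := by
    have : (0 : ℝ) ≤ 16 / c * (((Z ×ˢ Z).filter fun q => bad q.1 q.2).card : ℝ) := by positivity
    linarith
  have hZc : c / 3 * a ≤ (Z.card : ℝ) := by
    refine le_of_sq_le_sq ?_ (by positivity)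
    calc (c / 3 * a) ^ 2 = c ^ 2 / 9 * a ^ 2 := by ring
      _ ≤ c ^ 2 / 8 * a ^ 2 := by
          refine mul_le_mul_of_nonneg_right ?_ (by positivity)
          have : 0 ≤ c ^ 2 := by positivity
          linarith
      _ ≤ _ := hZ2
  have hZpos : (0 : ℝ) < Z.card := lt_of_lt_of_le (by positivity) hZc
  have hbadZ : (((Z ×ˢ Z).filter fun q => bad q.1 q.2).card : ℝ) ≤
      c / 16 * (Z.card : ℝ) ^ 2 := by
    have h1 : 16 / c * (((Z ×ˢ Z).filter fun q => bad q.1 q.2).card : ℝ) ≤ (Z.card : ℝ) ^ 2 := by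
      have : (0 : ℝ) ≤ c ^ 2 / 8 * a ^ 2 := by positivity
      linarith
    have h2 := mul_le_mul_of_nonneg_left h1 (by positivity : (0 : ℝ) ≤ c / 16)
    calc _ = c / 16 * (16 / c * (((Z ×ˢ Z).filter fun q => bad q.1 q.2).card : ℝ)) := by
          field_simp
      _ ≤ _ := h2
  -- the set A'
  have hbadsum : (((Z ×ˢ Z).filter fun q => bad q.1 q.2).card : ℝ) =
      ∑ x ∈ Z, ((Z.filter fun x' => bad x x').card : ℝ) := by
    rw [← Finset.sum_boole, Finset.sum_product]
    refine Finset.sum_congr rfl fun x _ => ?_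
    rw [Finset.sum_boole]
  set A' := Z.filter fun x => ((Z.filter fun x' => bad x x').card : ℝ) ≤ c / 8 * Z.card with hA'
  have hA'c : (Z.card : ℝ) / 2 ≤ A'.card := by
    have h1 : ((Z.filter fun x => ¬ ((Z.filter fun x' => bad x x').card : ℝ) ≤
        c / 8 * Z.card).card : ℝ) * (c / 8 * Z.card) ≤
        (((Z ×ˢ Z).filter fun q => bad q.1 q.2).card : ℝ) := by
      rw [hbadsum]
      calc _ = ∑ _x ∈ Z.filter (fun x => ¬ ((Z.filter fun x' => bad x x').card : ℝ) ≤
            c / 8 * Z.card), (c / 8 * (Z.card : ℝ)) := by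
            rw [Finset.sum_const, nsmul_eq_mul]
        _ ≤ ∑ x ∈ Z.filter (fun x => ¬ ((Z.filter fun x' => bad x x').card : ℝ) ≤
            c / 8 * Z.card), ((Z.filter fun x' => bad x x').card : ℝ) := by
            refine Finset.sum_le_sum fun x hx => ?_
            exact (not_le.1 (Finset.mem_filter.1 hx).2).le
        _ ≤ _ := by
            refine Finset.sum_le_sum_of_subset_of_nonneg (Finset.filter_subset _ _) ?_
            intro x _ _
            positivity
    have h2 : (A'.card : ℝ) + ((Z.filter fun x => ¬ ((Z.filter fun x' => bad x x').card : ℝ) ≤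
        c / 8 * Z.card).card : ℝ) = Z.card := by
      have := Finset.card_filter_add_card_filter_not (s := Z)
        (p := fun x => ((Z.filter fun x' => bad x x').card : ℝ) ≤ c / 8 * Z.card)
      exact_mod_cast this
    have h3 : ((Z.filter fun x => ¬ ((Z.filter fun x' => bad x x').card : ℝ) ≤
        c / 8 * Z.card).card : ℝ) * (c / 8 * Z.card) ≤ (Z.card : ℝ) / 2 * (c / 8 * Z.card) := by
      calc _ ≤ c / 16 * (Z.card : ℝ) ^ 2 := h1.trans hbadZ
        _ = _ := by ring
    have h4 := le_of_mul_le_mul_right h3 (by positivity)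
    linarith
  -- the set B'
  set B' := B.filter fun y => c / 4 * Z.card ≤ ((Z.filter fun x => E x y).card : ℝ) with hB'
  have hB'c : c / 4 * b ≤ (B'.card : ℝ) := by
    have h1 : ∑ y ∈ B, ((Z.filter fun x => E x y).card : ℝ) =
        ∑ x ∈ Z, ((B.filter fun y => E x y).card : ℝ) := by
      simp_rw [← Finset.sum_boole]
      exact Finset.sum_comm
    have h2 : (Z.card : ℝ) * (c / 2 * b) ≤ ∑ x ∈ Z, ((B.filter fun y => E x y).card : ℝ) := by
      calc _ = ∑ _x ∈ Z, (c / 2 * b) := by rw [Finset.sum_const, nsmul_eq_mul]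
        _ ≤ _ := Finset.sum_le_sum fun x hx => (Finset.mem_filter.1 (hZX hx)).2
    have h3 : ∑ y ∈ B, ((Z.filter fun x => E x y).card : ℝ) ≤
        B'.card * Z.card + b * (c / 4 * Z.card) := by
      rw [← Finset.sum_filter_add_sum_filter_not B
        (fun y => c / 4 * Z.card ≤ ((Z.filter fun x => E x y).card : ℝ))]
      refine add_le_add ?_ ?_
      · calc _ ≤ ∑ _y ∈ B', (Z.card : ℝ) := by
              refine Finset.sum_le_sum fun y _ => ?_
              exact_mod_cast Finset.card_filter_le _ _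
          _ = _ := by rw [Finset.sum_const, nsmul_eq_mul]
      · calc _ ≤ ∑ _y ∈ B.filter (fun y => ¬ c / 4 * Z.card ≤
                ((Z.filter fun x => E x y).card : ℝ)), (c / 4 * (Z.card : ℝ)) := by
              refine Finset.sum_le_sum fun y hy => ?_
              exact (not_le.1 (Finset.mem_filter.1 hy).2).le
          _ = ((B.filter (fun y => ¬ c / 4 * Z.card ≤
                ((Z.filter fun x => E x y).card : ℝ))).card : ℝ) * (c / 4 * Z.card) := by
              rw [Finset.sum_const, nsmul_eq_mul]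
          _ ≤ _ := by
              refine mul_le_mul_of_nonneg_right ?_ (by positivity)
              exact Nat.cast_le.2 (Finset.card_filter_le _ _)
    have h4 : c / 4 * b * Z.card ≤ B'.card * Z.card := by
      have : (Z.card : ℝ) * (c / 2 * b) = c / 4 * b * Z.card + b * (c / 4 * Z.card) := by ring
      linarith
    exact le_of_mul_le_mul_right h4 hZpos
  have hc5 : c ^ 5 ≤ c := by
    calc c ^ 5 = c ^ 4 * c := by ring
      _ ≤ 1 * c := mul_le_mul_of_nonneg_right (pow_le_one₀ hc.le hc1) hc.le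
      _ = c := one_mul c
  refine ⟨A', (Finset.filter_subset _ _).trans hZA, B', Finset.filter_subset _ _, ?_, ?_, ?_⟩
  · have : c ^ 5 / 3072 * a ≤ c / 6 * a := by
      refine mul_le_mul_of_nonneg_right ?_ ha.le
      linarith
    have h2 : c / 6 * a = c / 3 * a / 2 := by ring
    linarith
  · have : c ^ 5 / 3072 * b ≤ c / 4 * b := by
      refine mul_le_mul_of_nonneg_right ?_ hb.le
      linarith
    linarith
  · intro x hx y hy
    have hx2 := (Finset.mem_filter.1 hx).2
    have hy2 := (Finset.mem_filter.1 hy).2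
    -- good x'
    have hgood : c / 8 * (Z.card : ℝ) ≤
        ((Z.filter fun x' => E x' y ∧ ¬ bad x x').card : ℝ) := by
      have h1 : ((Z.filter fun x' => E x' y).card : ℝ) ≤
          ((Z.filter fun x' => E x' y ∧ ¬ bad x x').card : ℝ) +
            ((Z.filter fun x' => bad x x').card : ℝ) := by
        have h2 : (Z.filter fun x' => E x' y) ⊆
            (Z.filter fun x' => E x' y ∧ ¬ bad x x') ∪ (Z.filter fun x' => bad x x') := by
          intro x' hx'
          obtain ⟨h7, h8⟩ := Finset.mem_filter.1 hx'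
          by_cases hb' : bad x x'
          · exact Finset.mem_union.2 (Or.inr (Finset.mem_filter.2 ⟨h7, hb'⟩))
          · exact Finset.mem_union.2 (Or.inl (Finset.mem_filter.2 ⟨h7, h8, hb'⟩))
        exact_mod_cast (Finset.card_le_card h2).trans (Finset.card_union_le _ _)
      have h3 : c / 4 * (Z.card : ℝ) - c / 8 * Z.card = c / 8 * Z.card := by ring
      linarith
    have hcount : (((Z.filter fun x' => E x' y ∧ ¬ bad x x').card : ℝ)) * (d * b) ≤
        (((A ×ˢ B).filter fun q => E x q.2 ∧ E q.1 q.2 ∧ E q.1 y).card : ℝ) := by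
      have hR : (((A ×ˢ B).filter fun q => E x q.2 ∧ E q.1 q.2 ∧ E q.1 y).card : ℝ) =
          ∑ x' ∈ A, ∑ y' ∈ B, (if E x y' ∧ E x' y' ∧ E x' y then (1 : ℝ) else 0) := by
        rw [← Finset.sum_boole, Finset.sum_product]
      rw [hR]
      calc _ = ∑ _x' ∈ Z.filter (fun x' => E x' y ∧ ¬ bad x x'), d * b := by
            rw [Finset.sum_const, nsmul_eq_mul]
        _ ≤ ∑ x' ∈ Z.filter (fun x' => E x' y ∧ ¬ bad x x'),
              ∑ y' ∈ B, (if E x y' ∧ E x' y' ∧ E x' y then (1 : ℝ) else 0) := by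
            refine Finset.sum_le_sum fun x' hx' => ?_
            obtain ⟨_, hx'y, hnb⟩ := Finset.mem_filter.1 hx'
            rw [Finset.sum_boole]
            have h5 : d * b ≤ ((B.filter fun y => E x y ∧ E x' y).card : ℝ) := not_lt.1 hnb
            refine h5.trans ?_
            have h6 : (B.filter fun y => E x y ∧ E x' y) ⊆
                (B.filter fun y' => E x y' ∧ E x' y' ∧ E x' y) := by
              intro y' hy'
              rw [Finset.mem_filter] at hy' ⊢
              exact ⟨hy'.1, hy'.2.1, hy'.2.2, hx'y⟩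
            exact_mod_cast Finset.card_le_card h6
        _ ≤ _ := by
            refine Finset.sum_le_sum_of_subset_of_nonneg
              ((Finset.filter_subset _ _).trans hZA) ?_
            intro x' _ _
            exact Finset.sum_nonneg fun y' _ => by split_ifs <;> norm_num
    refine le_trans ?_ hcount
    calc c ^ 5 / 3072 * (a * b) = c / 8 * (c / 3 * a) * (d * b) := by rw [hd]; ring
      _ ≤ c / 8 * Z.card * (d * b) := by
          refine mul_le_mul_of_nonneg_right ?_ (by positivity)
          exact mul_le_mul_of_nonneg_left hZc (by positivity)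
      _ ≤ _ := mul_le_mul_of_nonneg_right hgood (by positivity)

/-- Dense bipartite graphs have large parts any two points of which are joined by many paths of
length three.

Proof. We may assume `c ≤ 1` (otherwise replace `c` by `min c 1`). Let `N(x)` be the set of the
neighbours. Let `X1` be the set of the `x ∈ A` with `|N(x)| ≥ (c/2)|B|`; at least `(c/2)|A||B|` of
the edges start in `X1`. For `y ∈ B` let `M(y)` be the set of the neighbours of `y` in `X1`; so
`∑_y |M(y)|² ≥ (c²/4)|A|²|B|` (Cauchy-Schwarz). Put `K = 16/c`, `δ = c²/(8K)`. A pair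
`(x, x') ∈ X1²` is bad if `|N(x) ∩ N(x')| < δ|B|`. The number of the triples `(y, x, x')`,
`x, x' ∈ M(y)`, with a bad pair `(x, x')` is at most `δ|A|²|B|`. So
`∑_y (|M(y)|² - K bad(y)) ≥ (c²/8)|A|²|B|` and some `y` satisfies `|M(y)|² - K bad(y) ≥ (c²/8)|A|²`.
(If `B` is empty the statement is trivial: take `A' = A`, `B' = ∅`, `c' ≤ 1`.)
Let `Z = M(y)`, so `|Z| ≥ (c/3)|A|` and `Z²` contains at most `|Z|²/K` bad pairs. Let `A'` be the
set of the `x ∈ Z` for which at most `(2/K)|Z|` of the `x' ∈ Z` form a bad pair `(x, x')`; so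
`|A'| ≥ |Z|/2`. Let `B'` be the set of the `y ∈ B` with `|N(y) ∩ Z| ≥ (c/4)|Z|`; as every `x ∈ Z`
has at least `(c/2)|B|` neighbours, `|B'| ≥ (c/4)|B|`. For `x ∈ A'`, `y ∈ B'` at least
`(c/4)|Z| - (2/K)|Z| = (c/8)|Z|` of the `x' ∈ N(y) ∩ Z` do not form a bad pair with `x`, and for
each of them there are `δ|B|` elements `y' ∈ N(x) ∩ N(x')`. -/
theorem bsg_graph {c : ℝ} (hc : 0 < c) : ∃ c' : ℝ, 0 < c' ∧ ∀ {V W : Type} [DecidableEq V]
    [DecidableEq W] (A : Finset V) (B : Finset W) (E : V → W → Prop) [∀ x y, Decidable (E x y)],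
    c * (A.card * B.card : ℝ) ≤ ((A ×ˢ B).filter fun q => E q.1 q.2).card →
    ∃ A' ⊆ A, ∃ B' ⊆ B, c' * (A.card : ℝ) ≤ A'.card ∧ c' * (B.card : ℝ) ≤ B'.card ∧
      ∀ x ∈ A', ∀ y ∈ B', c' * (A.card * B.card : ℝ) ≤
        ((A ×ˢ B).filter fun q => E x q.2 ∧ E q.1 q.2 ∧ E q.1 y).card := by
  set e : ℝ := min c 1 with he
  have he0 : 0 < e := lt_min hc one_pos
  have he1 : e ≤ 1 := min_le_right _ _
  have he5 : e ^ 5 / 3072 ≤ 1 := by
    have : e ^ 5 ≤ 1 := pow_le_one₀ he0.le he1
    linarith
  refine ⟨e ^ 5 / 3072, by positivity, ?_⟩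
  intro V W _ _ A B E _ h
  rcases Nat.eq_zero_or_pos A.card with hA | hA
  · refine ⟨A, subset_rfl, B, subset_rfl, ?_, ?_, ?_⟩
    · exact mul_le_of_le_one_left (by positivity) he5
    · exact mul_le_of_le_one_left (by positivity) he5
    · intro x hx
      rw [Finset.card_eq_zero] at hA
      rw [hA] at hx
      exact absurd hx (Finset.notMem_empty x)
  rcases Nat.eq_zero_or_pos B.card with hB | hB
  · refine ⟨A, subset_rfl, B, subset_rfl, ?_, ?_, ?_⟩
    · exact mul_le_of_le_one_left (by positivity) he5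
    · exact mul_le_of_le_one_left (by positivity) he5
    · intro x hx y hy
      rw [Finset.card_eq_zero] at hB
      rw [hB] at hy
      exact absurd hy (Finset.notMem_empty y)
  refine Gr_core he0 he1 A B E ?_ hA hB
  refine le_trans ?_ h
  exact mul_le_mul_of_nonneg_right (min_le_left _ _) (by positivity)

end Pool.Agent.MP193G
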