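import Mathlib
import Pool.Agent.Lib.MP_193dd3_co_G.Gr

/-!
# MP_193dd3_co, project G: the theorem of Balog, Szemeredi and Gowers in a group
-/

set_option autoImplicit false

open scoped Pointwise

namespace Pool.Agent.MP193G

section

variable {Γ : Type} [Group Γ] [DecidableEq Γ]

/-- The pairs with a given quotient. -/
private def Bsg_R (S : Finset Γ) (d : Γ) : Finset (Γ × Γ) :=
  (S ×ˢ S).filter fun q => q.1 * q.2⁻¹ = d

/-- The popular quotients. -/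
private noncomputable def Bsg_Q (S D : Finset Γ) (x : ℝ) : Finset Γ := by
  classical
  exact D.filter fun d => x ≤ (Bsg_R S d).card

private theorem Bsg_mem_R {S : Finset Γ} {d : Γ} {q : Γ × Γ} :
    q ∈ Bsg_R S d ↔ (q.1 ∈ S ∧ q.2 ∈ S) ∧ q.1 * q.2⁻¹ = d := by
  unfold Bsg_R
  rw [Finset.mem_filter, Finset.mem_product]

private theorem Bsg_mem_Q {S D : Finset Γ} {x : ℝ} {d : Γ} :
    d ∈ Bsg_Q S D x ↔ d ∈ D ∧ x ≤ (Bsg_R S d).card := by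
  unfold Bsg_Q
  rw [Finset.mem_filter]

private theorem Bsg_count (S T : Finset Γ) :
    ((S ×ˢ S).filter fun q => q.1 * q.2⁻¹ ∈ T).card = ∑ d ∈ T, (Bsg_R S d).card := by
  have hmap : ∀ q ∈ (S ×ˢ S).filter (fun q => q.1 * q.2⁻¹ ∈ T),
      (fun q : Γ × Γ => q.1 * q.2⁻¹) q ∈ T := fun q hq => (Finset.mem_filter.1 hq).2
  rw [Finset.card_eq_sum_card_fiberwise hmap]
  refine Finset.sum_congr rfl fun d hd => ?_
  congr 1
  ext q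
  rw [Finset.mem_filter, Finset.mem_filter, Bsg_mem_R, Finset.mem_product]
  constructor
  · rintro ⟨⟨h1, -⟩, h2⟩
    exact ⟨h1, h2⟩
  · rintro ⟨h1, h2⟩
    exact ⟨⟨h1, by rw [h2]; exact hd⟩, h2⟩

private theorem Bsg_edges {S D : Finset Γ} {c : ℝ} (hc : 0 < c)
    (h1 : c * (S.card : ℝ) ^ 2 ≤ ((S ×ˢ S).filter fun q => q.1 * q.2⁻¹ ∈ D).card)
    (h2 : c * (D.card : ℝ) ≤ S.card) :
    c / 2 * ((S.card : ℝ) * S.card) ≤
      ((S ×ˢ S).filter fun q => q.1 * q.2⁻¹ ∈ Bsg_Q S D (c ^ 2 / 2 * S.card)).card := by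
  classical
  rw [Bsg_count] at h1 ⊢
  have h3 : (∑ d ∈ D, (Bsg_R S d).card : ℕ) =
      (∑ d ∈ Bsg_Q S D (c ^ 2 / 2 * S.card), (Bsg_R S d).card) +
        ∑ d ∈ D.filter (fun d => ¬ c ^ 2 / 2 * S.card ≤ ((Bsg_R S d).card : ℝ)),
          (Bsg_R S d).card := by
    unfold Bsg_Q
    exact (Finset.sum_filter_add_sum_filter_not D _ _).symm
  have h4 : ((∑ d ∈ D.filter (fun d => ¬ c ^ 2 / 2 * S.card ≤ ((Bsg_R S d).card : ℝ)),
      (Bsg_R S d).card : ℕ) : ℝ) ≤ D.card * (c ^ 2 / 2 * S.card) := by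
    push_cast
    calc _ ≤ ∑ d ∈ D.filter (fun d => ¬ c ^ 2 / 2 * S.card ≤ ((Bsg_R S d).card : ℝ)),
          (c ^ 2 / 2 * S.card : ℝ) := by
          refine Finset.sum_le_sum fun d hd => ?_
          exact (not_le.1 (Finset.mem_filter.1 hd).2).le
      _ = ((D.filter (fun d => ¬ c ^ 2 / 2 * S.card ≤ ((Bsg_R S d).card : ℝ))).card : ℝ) *
          (c ^ 2 / 2 * S.card) := by
          rw [Finset.sum_const, nsmul_eq_mul]
      _ ≤ D.card * (c ^ 2 / 2 * S.card) := by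
          refine mul_le_mul_of_nonneg_right ?_ (by positivity)
          exact_mod_cast Finset.card_filter_le _ _
  have h5 : (D.card : ℝ) * (c ^ 2 / 2 * S.card) ≤ c / 2 * (S.card * S.card) := by
    have h6 := mul_le_mul_of_nonneg_right h2 (by positivity : (0 : ℝ) ≤ c / 2 * S.card)
    nlinarith
  rw [h3] at h1
  push_cast at h1 h4 ⊢
  nlinarith

/-- The product of three quotients. -/
private def Bsg_pr (τ : (Γ × Γ) × (Γ × Γ) × (Γ × Γ)) : Γ :=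
  τ.1.1 * τ.1.2⁻¹ * (τ.2.1.1 * τ.2.1.2⁻¹)⁻¹ * (τ.2.2.1 * τ.2.2.2⁻¹)

/-- Many representations. -/
private theorem Bsg_rep {S D : Finset Γ} {x y : ℝ} (hx : 0 ≤ x) {a b : Γ} {P : Finset (Γ × Γ)}
    (hP : ∀ q ∈ P, a * q.2⁻¹ ∈ Bsg_Q S D x ∧ q.1 * q.2⁻¹ ∈ Bsg_Q S D x ∧
      q.1 * b⁻¹ ∈ Bsg_Q S D x) (hy : y ≤ P.card) :
    y * x ^ 3 ≤ (((S ×ˢ S) ×ˢ (S ×ˢ S) ×ˢ (S ×ˢ S)).filter
      fun τ => Bsg_pr τ = a * b⁻¹).card := by
  classical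
  let F : Γ × Γ → Finset ((Γ × Γ) × (Γ × Γ) × (Γ × Γ)) := fun q =>
    Bsg_R S (a * q.2⁻¹) ×ˢ Bsg_R S (q.1 * q.2⁻¹) ×ˢ Bsg_R S (q.1 * b⁻¹)
  have hF : ∀ q τ, τ ∈ F q ↔ ((τ.1.1 ∈ S ∧ τ.1.2 ∈ S) ∧ τ.1.1 * τ.1.2⁻¹ = a * q.2⁻¹) ∧
      ((τ.2.1.1 ∈ S ∧ τ.2.1.2 ∈ S) ∧ τ.2.1.1 * τ.2.1.2⁻¹ = q.1 * q.2⁻¹) ∧
      ((τ.2.2.1 ∈ S ∧ τ.2.2.2 ∈ S) ∧ τ.2.2.1 * τ.2.2.2⁻¹ = q.1 * b⁻¹) := by
    intro q τ
    simp only [F, Finset.mem_product, Bsg_mem_R]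
  have hsub : P.biUnion F ⊆ ((S ×ˢ S) ×ˢ (S ×ˢ S) ×ˢ (S ×ˢ S)).filter
      fun τ => Bsg_pr τ = a * b⁻¹ := by
    intro τ hτ
    obtain ⟨q, hq, hτq⟩ := Finset.mem_biUnion.1 hτ
    obtain ⟨⟨h1, e1⟩, ⟨h2, e2⟩, ⟨h3, e3⟩⟩ := (hF q τ).1 hτq
    rw [Finset.mem_filter]
    refine ⟨?_, ?_⟩
    · simp only [Finset.mem_product]
      exact ⟨h1, h2, h3⟩
    · unfold Bsg_pr
      rw [e1, e2, e3]
      group
  have hdis : ∀ q ∈ P, ∀ q' ∈ P, q ≠ q' → Disjoint (F q) (F q') := by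
    intro q _ q' _ hne
    rw [Finset.disjoint_left]
    intro τ h1 h2
    obtain ⟨⟨-, e1⟩, ⟨-, e2⟩, -⟩ := (hF q τ).1 h1
    obtain ⟨⟨-, f1⟩, ⟨-, f2⟩, -⟩ := (hF q' τ).1 h2
    apply hne
    have g1 : q.2 = q'.2 := by
      have := e1.symm.trans f1
      exact inv_injective (mul_left_cancel this)
    have g2 : q.1 = q'.1 := by
      have := e2.symm.trans f2
      rw [g1] at this
      exact mul_right_cancel this
    exact Prod.ext g2 g1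
  have hcard : ((P.biUnion F).card : ℝ) = ∑ q ∈ P, ((F q).card : ℝ) := by
    rw [Finset.card_biUnion hdis]
    push_cast
    rfl
  have hle : ∀ q ∈ P, x ^ 3 ≤ ((F q).card : ℝ) := by
    intro q hq
    obtain ⟨h1, h2, h3⟩ := hP q hq
    have k1 := (Bsg_mem_Q.1 h1).2
    have k2 := (Bsg_mem_Q.1 h2).2
    have k3 := (Bsg_mem_Q.1 h3).2
    have e : ((F q).card : ℝ) = ((Bsg_R S (a * q.2⁻¹)).card : ℝ) *
        (((Bsg_R S (q.1 * q.2⁻¹)).card : ℝ) * ((Bsg_R S (q.1 * b⁻¹)).card : ℝ)) := by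
      simp only [F, Finset.card_product]
      push_cast
      rfl
    rw [e]
    calc x ^ 3 = x * (x * x) := by ring
      _ ≤ _ := mul_le_mul k1 (mul_le_mul k2 k3 hx (by positivity)) (by positivity)
        (by positivity)
  calc y * x ^ 3 ≤ (P.card : ℝ) * x ^ 3 := mul_le_mul_of_nonneg_right hy (by positivity)
    _ = ∑ _q ∈ P, x ^ 3 := by rw [Finset.sum_const, nsmul_eq_mul]
    _ ≤ ∑ q ∈ P, ((F q).card : ℝ) := Finset.sum_le_sum hle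
    _ = ((P.biUnion F).card : ℝ) := hcard.symm
    _ ≤ _ := by exact_mod_cast Finset.card_le_card hsub

/-- Few products. -/
private theorem Bsg_few {S T : Finset Γ} {z : ℝ}
    (h : ∀ t ∈ T, z ≤ (((S ×ˢ S) ×ˢ (S ×ˢ S) ×ˢ (S ×ˢ S)).filter
      fun τ => Bsg_pr τ = t).card) : T.card * z ≤ (S.card : ℝ) ^ 6 := by
  classical
  obtain ⟨U, hU⟩ : ∃ U, U = (S ×ˢ S) ×ˢ (S ×ˢ S) ×ˢ (S ×ˢ S) := ⟨_, rfl⟩
  rw [← hU] at h
  have h1 : ((U.filter fun τ => Bsg_pr τ ∈ T).card : ℝ) =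
      ∑ t ∈ T, ((U.filter fun τ => Bsg_pr τ = t).card : ℝ) := by
    have hmap : ∀ τ ∈ U.filter (fun τ => Bsg_pr τ ∈ T), Bsg_pr τ ∈ T :=
      fun τ hτ => (Finset.mem_filter.1 hτ).2
    rw [Finset.card_eq_sum_card_fiberwise hmap]
    push_cast
    refine Finset.sum_congr rfl fun t ht => ?_
    congr 2
    ext τ
    rw [Finset.mem_filter, Finset.mem_filter, Finset.mem_filter]
    constructor
    · rintro ⟨⟨a1, -⟩, a2⟩
      exact ⟨a1, a2⟩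
    · rintro ⟨a1, a2⟩
      exact ⟨⟨a1, by rw [a2]; exact ht⟩, a2⟩
  have h2 : (U.card : ℝ) = (S.card : ℝ) ^ 6 := by
    rw [hU]
    simp only [Finset.card_product]
    push_cast
    ring
  calc (T.card : ℝ) * z = ∑ _t ∈ T, z := by rw [Finset.sum_const, nsmul_eq_mul]
    _ ≤ ∑ t ∈ T, ((U.filter fun τ => Bsg_pr τ = t).card : ℝ) := Finset.sum_le_sum h
    _ = ((U.filter fun τ => Bsg_pr τ ∈ T).card : ℝ) := h1.symm
    _ ≤ U.card := by exact_mod_cast Finset.card_filter_le _ _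
    _ = _ := h2

end

/-- Balog-Szemeredi-Gowers: if a positive proportion of the quotients `g * h⁻¹` of elements of `S`
lies in a set `D` which is not much larger than `S`, then `S` has a large subset `A` with
few quotients `a * b⁻¹`.

Proof. We may assume `c ≤ 1`. Let `r(d)` be the number of the `(g, h) ∈ S²` with
`g * h⁻¹ = d` and `Q = {d ∈ D : r(d) ≥ (c²/2)|S|}`. As `|D| ≤ |S|/c`, the graph `E(g, h) ⇔
g * h⁻¹ ∈ Q` on `S × S` has at least `(c/2)|S|²` edges. Take `A'`, `B'` from `bsg_graph` for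
`c/2`, with the constant `c1`. For `a ∈ A'`, `b ∈ B'` and a path `(x', y')` we have
`a * b⁻¹ = (a * y'⁻¹) * (x' * y'⁻¹)⁻¹ * (x' * b⁻¹) = d1 * d2⁻¹ * d3` with `d1, d2, d3 ∈ Q`, and for
given `a` the path is determined by `d1, d2, d3`. Every `d_i` is a quotient of elements of
`S` in at least `(c²/2)|S|` ways. So `a * b⁻¹` has at least `c2 |S|⁵`, `c2 = c1 (c²/2)³`,
representations `(g1 h1⁻¹)(g2 h2⁻¹)⁻¹(g3 h3⁻¹)` with `g_i, h_i ∈ S`; there are `|S|⁶` tuples, so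
`|A' * B'⁻¹| ≤ |S|/c2` (`S` nonempty; for empty `S` take `A = ∅`). By the triangle inequality of
Ruzsa (Mathlib: `Finset.ruzsa_triangle_inequality_mulInv_mulInv_mulInv` or similar)
`|A' * A'⁻¹| |B'| ≤ |A' * B'⁻¹| |B' * A'⁻¹|`, and `|B' * A'⁻¹| = |A' * B'⁻¹|`, `|B'| ≥ c1 |S|`. -/
theorem bsg {c : ℝ} (hc : 0 < c) : ∃ c' : ℝ, 0 < c' ∧ ∀ {Γ : Type} [Group Γ] [DecidableEq Γ]
    (S D : Finset Γ),
    c * (S.card : ℝ) ^ 2 ≤ ((S ×ˢ S).filter fun q => q.1 * q.2⁻¹ ∈ D).card →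
    c * (D.card : ℝ) ≤ S.card →
    ∃ A ⊆ S, c' * (S.card : ℝ) ≤ A.card ∧ c' * ((A * A⁻¹).card : ℝ) ≤ S.card := by
  obtain ⟨c0, hc0, hc01, hc0c⟩ : ∃ c0 : ℝ, 0 < c0 ∧ c0 ≤ 1 ∧ c0 ≤ c :=
    ⟨min c 1, lt_min hc one_pos, min_le_right _ _, min_le_left _ _⟩
  obtain ⟨c1, hc1, hg⟩ := bsg_graph (c := c0 / 2) (by positivity)
  obtain ⟨c2, hc2⟩ : ∃ c2 : ℝ, c2 = c1 * (c0 ^ 2 / 2) ^ 3 := ⟨_, rfl⟩
  have hc2p : 0 < c2 := by rw [hc2]; positivity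
  refine ⟨min c1 (c1 * c2 ^ 2), lt_min hc1 (by positivity), ?_⟩
  intro Γ _ _ S D h1 h2
  rcases S.eq_empty_or_nonempty with rfl | hne
  · exact ⟨∅, Finset.Subset.refl _, by simp, by simp⟩
  have hn : (0 : ℝ) < S.card := by exact_mod_cast hne.card_pos
  have k1 : c0 * (S.card : ℝ) ^ 2 ≤ ((S ×ˢ S).filter fun q => q.1 * q.2⁻¹ ∈ D).card :=
    (mul_le_mul_of_nonneg_right hc0c (by positivity)).trans h1
  have k2 : c0 * (D.card : ℝ) ≤ S.card :=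
    (mul_le_mul_of_nonneg_right hc0c (by positivity)).trans h2
  have k3 := Bsg_edges hc0 k1 k2
  obtain ⟨A', hA', B', hB', hA, hB, hP⟩ := hg S S
    (fun g h => g * h⁻¹ ∈ Bsg_Q S D (c0 ^ 2 / 2 * S.card)) k3
  have hx : 0 ≤ c0 ^ 2 / 2 * (S.card : ℝ) := by positivity
  have k4 : ∀ t ∈ A' * B'⁻¹, c2 * (S.card : ℝ) ^ 5 ≤
      (((S ×ˢ S) ×ˢ (S ×ˢ S) ×ˢ (S ×ˢ S)).filter fun τ => Bsg_pr τ = t).card := by
    intro t ht
    obtain ⟨a, ha, b', hb', rfl⟩ := Finset.mem_mul.1 ht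
    obtain ⟨b, hb, rfl⟩ := Finset.mem_inv.1 hb'
    have e := Bsg_rep (S := S) (D := D) hx (a := a) (b := b) (P := (S ×ˢ S).filter fun q =>
      a * q.2⁻¹ ∈ Bsg_Q S D (c0 ^ 2 / 2 * S.card) ∧
      q.1 * q.2⁻¹ ∈ Bsg_Q S D (c0 ^ 2 / 2 * S.card) ∧
      q.1 * b⁻¹ ∈ Bsg_Q S D (c0 ^ 2 / 2 * S.card)) (fun q hq => (Finset.mem_filter.1 hq).2)
      (hP a ha b hb)
    refine le_trans (le_of_eq ?_) e
    rw [hc2]
    ring
  have k5 := Bsg_few k4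
  have k6 : ((A' * B'⁻¹).card : ℝ) * c2 ≤ S.card := by
    have h5 : (0 : ℝ) < (S.card : ℝ) ^ 5 := by positivity
    have h6 : ((A' * B'⁻¹).card : ℝ) * c2 * (S.card : ℝ) ^ 5 ≤ S.card * (S.card : ℝ) ^ 5 := by
      calc ((A' * B'⁻¹).card : ℝ) * c2 * (S.card : ℝ) ^ 5 =
          ((A' * B'⁻¹).card : ℝ) * (c2 * (S.card : ℝ) ^ 5) := by ring
        _ ≤ (S.card : ℝ) ^ 6 := k5
        _ = _ := by ring
    exact le_of_mul_le_mul_right h6 h5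
  have k7 := Finset.ruzsa_triangle_inequality_mulInv_mulInv_mulInv A' B' A'
  have k9 : ((A' * A'⁻¹).card : ℝ) * B'.card ≤
      ((A' * B'⁻¹).card : ℝ) * ((A' * B'⁻¹).card : ℝ) := by exact_mod_cast k7
  refine ⟨A', hA', ?_, ?_⟩
  · exact (mul_le_mul_of_nonneg_right (min_le_left _ _) hn.le).trans hA
  · have m1 : min c1 (c1 * c2 ^ 2) * ((A' * A'⁻¹).card : ℝ) ≤
        c1 * c2 ^ 2 * ((A' * A'⁻¹).card : ℝ) :=
      mul_le_mul_of_nonneg_right (min_le_right _ _) (Nat.cast_nonneg _)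
    refine m1.trans ?_
    have m2 : c1 * c2 ^ 2 * ((A' * A'⁻¹).card : ℝ) * S.card ≤ S.card * (S.card : ℝ) := by
      calc c1 * c2 ^ 2 * ((A' * A'⁻¹).card : ℝ) * S.card =
          c2 ^ 2 * ((A' * A'⁻¹).card : ℝ) * (c1 * S.card) := by ring
        _ ≤ c2 ^ 2 * ((A' * A'⁻¹).card : ℝ) * B'.card :=
            mul_le_mul_of_nonneg_left hB (by positivity)
        _ = c2 ^ 2 * (((A' * A'⁻¹).card : ℝ) * B'.card) := by ring
        _ ≤ c2 ^ 2 * (((A' * B'⁻¹).card : ℝ) * ((A' * B'⁻¹).card : ℝ)) :=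
            mul_le_mul_of_nonneg_left k9 (by positivity)
        _ = (((A' * B'⁻¹).card : ℝ) * c2) * (((A' * B'⁻¹).card : ℝ) * c2) := by ring
        _ ≤ S.card * (S.card : ℝ) := mul_le_mul k6 k6 (by positivity) hn.le
    exact le_of_mul_le_mul_right m2 hn

end Pool.Agent.MP193G
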