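import Mathlib

/-!
# MP_193dd3_co, project G: popular quotients
-/

set_option autoImplicit false

open scoped Pointwise

namespace Pool.Agent.MP193G

section

variable {Γ : Type} [Group Γ] [DecidableEq Γ]

/-- The number of the representations of `g` as a quotient of elements of `A`. -/
private def tao_r (A : Finset Γ) (g : Γ) : ℕ := ((A ×ˢ A).filter fun q => q.1 * q.2⁻¹ = g).card

private theorem tao_r_le (A : Finset Γ) (g : Γ) : tao_r A g ≤ A.card := by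
  unfold tao_r
  refine Finset.card_le_card_of_injOn (fun q => q.1) ?_ ?_
  · intro q hq
    have h1 := Finset.mem_coe.1 hq
    rw [Finset.mem_filter, Finset.mem_product] at h1
    exact Finset.mem_coe.2 h1.1.1
  · intro q hq q' hq' h
    have h1 := (Finset.mem_filter.1 (Finset.mem_coe.1 hq)).2
    have h2 := (Finset.mem_filter.1 (Finset.mem_coe.1 hq')).2
    have h3 : q.1 = q'.1 := h
    have h4 : q.2⁻¹ = q'.2⁻¹ := by
      rw [← h2, h3] at h1
      exact mul_left_cancel h1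
    exact Prod.ext h3 (inv_injective h4)

private theorem tao_r_one (A : Finset Γ) : tao_r A 1 = A.card := by
  refine le_antisymm (tao_r_le A 1) ?_
  unfold tao_r
  refine Finset.card_le_card_of_injOn (fun a => (a, a)) ?_ ?_
  · intro a ha
    refine Finset.mem_coe.2 (Finset.mem_filter.2 ⟨Finset.mem_product.2 ⟨ha, ha⟩, ?_⟩)
    exact mul_inv_cancel a
  · intro a _ b _ h
    exact (Prod.mk.inj h).1

private theorem tao_r_inv (A : Finset Γ) (g : Γ) : tao_r A g⁻¹ = tao_r A g := by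
  unfold tao_r
  refine Finset.card_bij' (fun q _ => (q.2, q.1)) (fun q _ => (q.2, q.1)) ?_ ?_ ?_ ?_
  · intro q hq
    rw [Finset.mem_filter, Finset.mem_product] at hq ⊢
    refine ⟨⟨hq.1.2, hq.1.1⟩, ?_⟩
    have h1 := congrArg (fun x => x⁻¹) hq.2
    simpa using h1
  · intro q hq
    rw [Finset.mem_filter, Finset.mem_product] at hq ⊢
    refine ⟨⟨hq.1.2, hq.1.1⟩, ?_⟩
    have h1 := congrArg (fun x => x⁻¹) hq.2
    simpa using h1
  · intro q _
    rfl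
  · intro q _
    rfl

private theorem tao_sum (A S : Finset Γ) :
    ∑ g ∈ S, tao_r A g = ((A ×ˢ A).filter fun q => q.1 * q.2⁻¹ ∈ S).card := by
  rw [Finset.card_eq_sum_card_fiberwise (f := fun q : Γ × Γ => q.1 * q.2⁻¹) (t := S)]
  · refine Finset.sum_congr rfl fun g hg => ?_
    unfold tao_r
    congr 1
    ext q
    simp only [Finset.mem_filter, Finset.mem_product]
    constructor
    · rintro ⟨h1, h2⟩
      exact ⟨⟨h1, h2 ▸ hg⟩, h2⟩
    · rintro ⟨⟨h1, _⟩, h2⟩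
      exact ⟨h1, h2⟩
  · intro q hq
    exact Finset.mem_coe.2 (Finset.mem_filter.1 (Finset.mem_coe.1 hq)).2

private theorem tao_mem (A : Finset Γ) {q : Γ × Γ} (hq : q ∈ A ×ˢ A) : q.1 * q.2⁻¹ ∈ A * A⁻¹ := by
  rw [Finset.mem_product] at hq
  exact Finset.mul_mem_mul hq.1 (Finset.inv_mem_inv hq.2)

private theorem tao_sum_all (A : Finset Γ) : ∑ g ∈ A * A⁻¹, tao_r A g = A.card ^ 2 := by
  rw [tao_sum, Finset.filter_true_of_mem (fun q hq => tao_mem A hq), Finset.card_product, sq]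

/-- Elements with few representations contribute little. -/
private theorem tao_pop (A : Finset Γ) (t : ℝ) (w : Γ → ℝ)
    (P : Γ → Prop) [DecidablePred P] (hP : ∀ g, ¬ P g → w g ≤ t) :
    ∑ g ∈ A * A⁻¹, w g ≤ ∑ g ∈ (A * A⁻¹).filter P, w g
      + t * ((A * A⁻¹).filter fun g => ¬ P g).card := by
  rw [← Finset.sum_filter_add_sum_filter_not (A * A⁻¹) P]
  have h1 : ∑ g ∈ (A * A⁻¹).filter (fun g => ¬ P g), w g ≤
      t * ((A * A⁻¹).filter fun g => ¬ P g).card := by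
    have h2 := Finset.sum_le_card_nsmul ((A * A⁻¹).filter fun g => ¬ P g) w t
      (fun g hg => hP g (Finset.mem_filter.1 hg).2)
    rw [nsmul_eq_mul, mul_comm] at h2
    exact h2
  linarith

/-- The triple product. -/
private theorem tao_cube (A H : Finset Γ) {n : ℕ} (hH : ∀ h ∈ H, n ≤ tao_r A h) :
    (H ^ 3).card * n ^ 3 ≤ A.card * ((A⁻¹ * A).card * ((A⁻¹ * A).card * A.card)) := by
  classical
  obtain ⟨U, hU⟩ : ∃ U : Finset (Γ × Γ × Γ × Γ), U = A ×ˢ (A⁻¹ * A) ×ˢ (A⁻¹ * A) ×ˢ A⁻¹ := ⟨_, rfl⟩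
  have hc : U.card = A.card * ((A⁻¹ * A).card * ((A⁻¹ * A).card * A.card)) := by
    rw [hU, Finset.card_product, Finset.card_product, Finset.card_product, Finset.card_inv]
  rw [← hc]
  have hfib : ∀ g ∈ H ^ 3, n ^ 3 ≤ (U.filter fun u => u.1 * u.2.1 * u.2.2.1 * u.2.2.2 = g).card := by
    intro g hg
    have h3 : H ^ 3 = H * H * H := by rw [pow_succ, pow_two]
    rw [h3, Finset.mem_mul] at hg
    obtain ⟨k, hk, h3, hh3, rfl⟩ := hg
    obtain ⟨h1, hh1, h2, hh2, rfl⟩ := Finset.mem_mul.1 hk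
    have e1 : n ^ 3 ≤ tao_r A h1 * (tao_r A h2 * tao_r A h3) := by
      calc n ^ 3 = n * (n * n) := by ring
        _ ≤ _ := Nat.mul_le_mul (hH _ hh1) (Nat.mul_le_mul (hH _ hh2) (hH _ hh3))
    refine e1.trans ?_
    unfold tao_r
    rw [← Finset.card_product, ← Finset.card_product]
    refine Finset.card_le_card_of_injOn
      (fun q => (q.1.1, q.1.2⁻¹ * q.2.1.1, q.2.1.2⁻¹ * q.2.2.1, q.2.2.2⁻¹)) ?_ ?_
    · intro q hq
      have hq' := Finset.mem_coe.1 hq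
      simp only [Finset.mem_product, Finset.mem_filter] at hq'
      obtain ⟨⟨⟨a1, b1⟩, r1⟩, ⟨⟨a2, b2⟩, r2⟩, ⟨⟨a3, b3⟩, r3⟩⟩ := hq'
      refine Finset.mem_coe.2 (Finset.mem_filter.2 ⟨?_, ?_⟩)
      · rw [hU]
        refine Finset.mem_product.2 ⟨a1, Finset.mem_product.2
          ⟨Finset.mul_mem_mul (Finset.inv_mem_inv b1) a2, Finset.mem_product.2
          ⟨Finset.mul_mem_mul (Finset.inv_mem_inv b2) a3, Finset.inv_mem_inv b3⟩⟩⟩
      · rw [← r1, ← r2, ← r3]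
        group
    · intro q hq q' hq' h
      have hq1 := Finset.mem_coe.1 hq
      have hq2 := Finset.mem_coe.1 hq'
      simp only [Finset.mem_product, Finset.mem_filter] at hq1 hq2
      obtain ⟨⟨_, r1⟩, ⟨_, r2⟩, ⟨_, r3⟩⟩ := hq1
      obtain ⟨⟨_, s1⟩, ⟨_, s2⟩, ⟨_, s3⟩⟩ := hq2
      simp only [Prod.mk.injEq] at h
      obtain ⟨t1, t2, t3, t4⟩ := h
      have u1 : q.1.2 = q'.1.2 := by
        have h5 : q.1.1 * q.1.2⁻¹ = q'.1.1 * q'.1.2⁻¹ := r1.trans s1.symm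
        rw [t1] at h5
        exact inv_injective (mul_left_cancel h5)
      have u2 : q.2.1.1 = q'.2.1.1 := by
        rw [u1] at t2
        exact mul_left_cancel t2
      have u3 : q.2.1.2 = q'.2.1.2 := by
        have h5 : q.2.1.1 * q.2.1.2⁻¹ = q'.2.1.1 * q'.2.1.2⁻¹ := r2.trans s2.symm
        rw [u2] at h5
        exact inv_injective (mul_left_cancel h5)
      have u4 : q.2.2.1 = q'.2.2.1 := by
        rw [u3] at t3
        exact mul_left_cancel t3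
      have u5 : q.2.2.2 = q'.2.2.2 := inv_injective t4
      exact Prod.ext (Prod.ext t1 u1) (Prod.ext (Prod.ext u2 u3) (Prod.ext u4 u5))
  have hsum : ∑ g ∈ H ^ 3, (U.filter fun u => u.1 * u.2.1 * u.2.2.1 * u.2.2.2 = g).card ≤
      U.card := by
    rw [← Finset.card_biUnion]
    · refine Finset.card_le_card ?_
      intro u hu
      obtain ⟨g, _, hg⟩ := Finset.mem_biUnion.1 hu
      exact (Finset.mem_filter.1 hg).1
    · intro g _ g' _ hne
      refine Finset.disjoint_left.2 fun u hu hu' => hne ?_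
      exact (Finset.mem_filter.1 hu).2.symm.trans (Finset.mem_filter.1 hu').2
  have h6 := Finset.card_nsmul_le_sum (H ^ 3)
    (fun g => (U.filter fun u => u.1 * u.2.1 * u.2.2.1 * u.2.2.2 = g).card) (n ^ 3) hfib
  rw [smul_eq_mul] at h6
  exact h6.trans hsum

/-- Cauchy-Schwarz for the quotients `a⁻¹ * b`, rewritten with the quotients `a * b⁻¹`. -/
private theorem tao_energy (A : Finset Γ) :
    A.card ^ 4 ≤ (A⁻¹ * A).card * ∑ g ∈ A * A⁻¹, tao_r A g ^ 2 := by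
  classical
  obtain ⟨l, hl⟩ : ∃ l : Γ → ℕ, l = fun x => ((A ×ˢ A).filter fun q => q.1⁻¹ * q.2 = x).card :=
    ⟨_, rfl⟩
  have h1 : ∑ x ∈ A⁻¹ * A, l x = A.card ^ 2 := by
    rw [hl, sq, ← Finset.card_product]
    refine (Finset.card_eq_sum_card_fiberwise (f := fun q : Γ × Γ => q.1⁻¹ * q.2) ?_).symm
    intro q hq
    have hq' := Finset.mem_product.1 (Finset.mem_coe.1 hq)
    exact Finset.mem_coe.2 (Finset.mul_mem_mul (Finset.inv_mem_inv hq'.1) hq'.2)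
  have h2 : (∑ x ∈ A⁻¹ * A, l x) ^ 2 ≤ (A⁻¹ * A).card * ∑ x ∈ A⁻¹ * A, l x ^ 2 :=
    sq_sum_le_card_mul_sum_sq
  have h3 : ∑ x ∈ A⁻¹ * A, l x ^ 2 =
      (((A ×ˢ A) ×ˢ (A ×ˢ A)).filter fun u => u.1.1⁻¹ * u.1.2 = u.2.1⁻¹ * u.2.2).card := by
    rw [Finset.card_eq_sum_card_fiberwise (f := fun u : (Γ × Γ) × Γ × Γ => u.1.1⁻¹ * u.1.2)
      (t := A⁻¹ * A)]
    · refine Finset.sum_congr rfl fun x _ => ?_
      rw [hl, sq, ← Finset.card_product]
      congr 1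
      ext u
      simp only [Finset.mem_filter, Finset.mem_product]
      constructor
      · rintro ⟨⟨h4, h5⟩, h6, h7⟩
        exact ⟨⟨⟨h4, h6⟩, h5.trans h7.symm⟩, h5⟩
      · rintro ⟨⟨⟨h4, h6⟩, h8⟩, h5⟩
        exact ⟨⟨h4, h5⟩, h6, h8.symm.trans h5⟩
    · intro u hu
      have hu' := (Finset.mem_filter.1 (Finset.mem_coe.1 hu)).1
      simp only [Finset.mem_product] at hu'
      exact Finset.mem_coe.2 (Finset.mul_mem_mul (Finset.inv_mem_inv hu'.1.1) hu'.1.2)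
  have h4 : ∑ g ∈ A * A⁻¹, tao_r A g ^ 2 =
      (((A ×ˢ A) ×ˢ (A ×ˢ A)).filter fun u => u.1.1 * u.1.2⁻¹ = u.2.1 * u.2.2⁻¹).card := by
    rw [Finset.card_eq_sum_card_fiberwise (f := fun u : (Γ × Γ) × Γ × Γ => u.1.1 * u.1.2⁻¹)
      (t := A * A⁻¹)]
    · refine Finset.sum_congr rfl fun x _ => ?_
      unfold tao_r
      rw [sq, ← Finset.card_product]
      congr 1
      ext u
      simp only [Finset.mem_filter, Finset.mem_product]
      constructor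
      · rintro ⟨⟨h4, h5⟩, h6, h7⟩
        exact ⟨⟨⟨h4, h6⟩, h5.trans h7.symm⟩, h5⟩
      · rintro ⟨⟨⟨h4, h6⟩, h8⟩, h5⟩
        exact ⟨⟨h4, h5⟩, h6, h8.symm.trans h5⟩
    · intro u hu
      have hu' := (Finset.mem_filter.1 (Finset.mem_coe.1 hu)).1
      simp only [Finset.mem_product] at hu'
      exact Finset.mem_coe.2 (Finset.mul_mem_mul hu'.1.1 (Finset.inv_mem_inv hu'.1.2))
  have h5 : (((A ×ˢ A) ×ˢ (A ×ˢ A)).filter
      fun u => u.1.1⁻¹ * u.1.2 = u.2.1⁻¹ * u.2.2).card =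
      (((A ×ˢ A) ×ˢ (A ×ˢ A)).filter fun u => u.1.1 * u.1.2⁻¹ = u.2.1 * u.2.2⁻¹).card := by
    refine Finset.card_bij' (fun u _ => ((u.2.1, u.1.1), (u.2.2, u.1.2)))
      (fun u _ => ((u.1.2, u.2.2), (u.1.1, u.2.1))) ?_ ?_ ?_ ?_
    · intro u hu
      simp only [Finset.mem_filter, Finset.mem_product] at hu ⊢
      obtain ⟨⟨⟨a1, a2⟩, ⟨a3, a4⟩⟩, e⟩ := hu
      refine ⟨⟨⟨a3, a1⟩, ⟨a4, a2⟩⟩, ?_⟩
      have e1 : u.2.1 * (u.1.1⁻¹ * u.1.2) = u.2.2 := by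
        rw [e, mul_inv_cancel_left]
      rw [← e1]
      group
    · intro u hu
      simp only [Finset.mem_filter, Finset.mem_product] at hu ⊢
      obtain ⟨⟨⟨a1, a2⟩, ⟨a3, a4⟩⟩, e⟩ := hu
      refine ⟨⟨⟨a2, a4⟩, ⟨a1, a3⟩⟩, ?_⟩
      have e1 : u.2.1 = u.1.1 * u.1.2⁻¹ * u.2.2 := by
        rw [e, inv_mul_cancel_right]
      rw [e1]
      group
    · intro u _
      rfl
    · intro u _
      rfl
  calc A.card ^ 4 = (∑ x ∈ A⁻¹ * A, l x) ^ 2 := by
        rw [h1]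
        ring
    _ ≤ (A⁻¹ * A).card * ∑ x ∈ A⁻¹ * A, l x ^ 2 := h2
    _ = _ := by rw [h3, h5, h4]

end

/-- Popular quotients form an approximate group.

Proof. Let `r(g) = |{(a, b) ∈ A² : a * b⁻¹ = g}| = |A ∩ g A|` and
`H = {g ∈ A * A⁻¹ : r(g) ≥ |A|/(2K)}`. As `A` is nonempty, `r(1) = |A|` and `K ≥ 1`, so `1 ∈ H`;
`r(g⁻¹) = r(g)`. `∑_g r(g) = |A|²`, and the `g` outside of `H` contribute at most
`K|A| * |A|/(2K) = |A|²/2`; as `r ≤ |A|` we get `|H| ≥ |A|/2`, and `∑_{g ∈ H} r(g) ≥ |A|²/2`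
gives a `b ∈ A` with `|{a ∈ A : a * b⁻¹ ∈ H}| ≥ |A|/2`. Also `|H| * |A|/(2K) ≤ |A|²`.
For `g = h1 * h2 * h3`, `h_i ∈ H`, choose representations `h_i = a_i * b_i⁻¹`; at least
`(|A|/(2K))³` choices. Then `g = x * y * z * w` with `x = a1 ∈ A`, `y = b1⁻¹ * a2 ∈ A⁻¹ * A`,
`z = b2⁻¹ * a3 ∈ A⁻¹ * A`, `w = b3⁻¹ ∈ A⁻¹`, and `(x, y, z, w)` determines the choice (for given
`h1, h2, h3`). The number of all tuples `(x, y, z, w)` is at most `|A|² (K|A|)²`. So
`|H ^ 3| (|A|/(2K))³ ≤ |A|² (K|A|)²`. -/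
theorem popular {Γ : Type} [Group Γ] [DecidableEq Γ] {K : ℝ} (A : Finset Γ) (hA : A.Nonempty)
    (h1 : ((A * A⁻¹).card : ℝ) ≤ K * A.card) (h2 : ((A⁻¹ * A).card : ℝ) ≤ K * A.card) :
    ∃ H : Finset Γ, 1 ∈ H ∧ H⁻¹ = H ∧ H ⊆ A * A⁻¹ ∧ (A.card : ℝ) ≤ 2 * H.card ∧
      (H.card : ℝ) ≤ 2 * K * A.card ∧ ((H ^ 3).card : ℝ) ≤ 8 * K ^ 5 * A.card ∧
      ∃ b ∈ A, (A.card : ℝ) ≤ 2 * (A.filter fun a => a * b⁻¹ ∈ H).card := by
  classical
  have ha : (0 : ℝ) < A.card := by exact_mod_cast hA.card_pos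
  have hall : ∑ g ∈ A * A⁻¹, (tao_r A g : ℝ) = (A.card : ℝ) ^ 2 := by
    exact_mod_cast tao_sum_all A
  have hle : ∀ g, (tao_r A g : ℝ) ≤ A.card := fun g => by exact_mod_cast tao_r_le A g
  have hK : 1 ≤ K := by
    have h3 : (A.card : ℝ) ^ 2 ≤ ((A * A⁻¹).card : ℝ) * A.card := by
      rw [← hall]
      have h4 := Finset.sum_le_card_nsmul (A * A⁻¹) (fun g => (tao_r A g : ℝ)) A.card
        (fun g _ => hle g)
      rwa [nsmul_eq_mul] at h4
    have h5 : (A.card : ℝ) ^ 2 ≤ K * A.card * A.card :=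
      h3.trans (mul_le_mul_of_nonneg_right h1 ha.le)
    by_contra hlt
    push Not at hlt
    nlinarith [mul_pos ha ha]
  have hK0 : 0 < K := by linarith
  obtain ⟨t, ht⟩ : ∃ t : ℝ, t = A.card / (2 * K) := ⟨_, rfl⟩
  have ht0 : 0 < t := by
    rw [ht]
    positivity
  have htK : 2 * K * t = A.card := by
    rw [ht]
    field_simp
  have hta : t ≤ A.card := by nlinarith
  obtain ⟨H, hH⟩ : ∃ H : Finset Γ, H = (A * A⁻¹).filter fun g => t ≤ tao_r A g := ⟨_, rfl⟩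
  have hmem : ∀ g, g ∈ H ↔ g ∈ A * A⁻¹ ∧ t ≤ tao_r A g := fun g => by
    rw [hH, Finset.mem_filter]
  have hsum : (A.card : ℝ) ^ 2 ≤ 2 * ∑ g ∈ H, (tao_r A g : ℝ) := by
    have h3 := tao_pop A t (fun g => (tao_r A g : ℝ)) (fun g => t ≤ tao_r A g)
      (fun g hg => (not_le.1 hg).le)
    rw [hall, ← hH] at h3
    have h4 : (((A * A⁻¹).filter fun g => ¬ t ≤ (tao_r A g : ℝ)).card : ℝ) ≤ K * A.card := by
      refine le_trans ?_ h1
      exact_mod_cast Finset.card_le_card (Finset.filter_subset _ _)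
    have h5 := mul_le_mul_of_nonneg_left h4 ht0.le
    have h6 : t * (K * A.card) = (A.card : ℝ) ^ 2 / 2 := by
      rw [← htK]
      ring
    linarith
  refine ⟨H, ?_, ?_, ?_, ?_, ?_, ?_, ?_⟩
  · obtain ⟨a, haA⟩ := hA
    rw [hmem]
    constructor
    · have h3 := Finset.mul_mem_mul haA (Finset.inv_mem_inv haA)
      rwa [mul_inv_cancel] at h3
    · rw [tao_r_one]
      exact hta
  · ext g
    rw [Finset.mem_inv', hmem, hmem, tao_r_inv]
    have h3 : g⁻¹ ∈ A * A⁻¹ ↔ g ∈ A * A⁻¹ := by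
      rw [← Finset.mem_inv', mul_inv_rev, inv_inv]
    rw [h3]
  · intro g hg
    exact ((hmem g).1 hg).1
  · have h3 := Finset.sum_le_card_nsmul H (fun g => (tao_r A g : ℝ)) A.card (fun g _ => hle g)
    rw [nsmul_eq_mul] at h3
    have h4 : (A.card : ℝ) * A.card ≤ 2 * H.card * A.card := by nlinarith
    exact le_of_mul_le_mul_right h4 ha
  · have h3 := Finset.card_nsmul_le_sum H (fun g => (tao_r A g : ℝ)) t
      (fun g hg => ((hmem g).1 hg).2)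
    rw [nsmul_eq_mul] at h3
    have h4 : ∑ g ∈ H, (tao_r A g : ℝ) ≤ (A.card : ℝ) ^ 2 := by
      rw [← hall]
      exact Finset.sum_le_sum_of_subset_of_nonneg (fun g hg => ((hmem g).1 hg).1)
        (fun g _ _ => Nat.cast_nonneg _)
    have h5 : (H.card : ℝ) * t ≤ 2 * K * A.card * t := by
      have h6 : 2 * K * A.card * t = (A.card : ℝ) ^ 2 := by
        rw [sq]
        nth_rewrite 2 [← htK]
        ring
      linarith
    exact le_of_mul_le_mul_right h5 ht0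
  · have h3 := tao_cube A H (n := ⌈t⌉₊) (fun h hh => Nat.ceil_le.2 ((hmem h).1 hh).2)
    have h4 : ((H ^ 3).card : ℝ) * (⌈t⌉₊ : ℝ) ^ 3 ≤
        A.card * (((A⁻¹ * A).card : ℝ) * (((A⁻¹ * A).card : ℝ) * A.card)) := by
      exact_mod_cast h3
    have h5 : t ^ 3 ≤ (⌈t⌉₊ : ℝ) ^ 3 := pow_le_pow_left₀ ht0.le (Nat.le_ceil t) 3
    have h6 : ((H ^ 3).card : ℝ) * t ^ 3 ≤
        A.card * (((A⁻¹ * A).card : ℝ) * (((A⁻¹ * A).card : ℝ) * A.card)) :=
      (mul_le_mul_of_nonneg_left h5 (Nat.cast_nonneg _)).trans h4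
    have h7 : (A.card : ℝ) * (((A⁻¹ * A).card : ℝ) * (((A⁻¹ * A).card : ℝ) * A.card)) ≤
        A.card * ((K * A.card) * ((K * A.card) * A.card)) := by
      gcongr
    have h8 : (A.card : ℝ) * ((K * A.card) * ((K * A.card) * A.card)) =
        8 * K ^ 5 * A.card * t ^ 3 := by
      have h9 : (A.card : ℝ) ^ 3 = 8 * K ^ 3 * t ^ 3 := by
        rw [← htK]
        ring
      calc (A.card : ℝ) * ((K * A.card) * ((K * A.card) * A.card))
          = K ^ 2 * A.card * (A.card : ℝ) ^ 3 := by ring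
        _ = _ := by
          rw [h9]
          ring
    exact le_of_mul_le_mul_right (h6.trans (h7.trans h8.le)) (pow_pos ht0 3)
  · by_contra hcon
    push Not at hcon
    have h3 : ∑ g ∈ H, tao_r A g = ∑ b ∈ A, (A.filter fun a => a * b⁻¹ ∈ H).card := by
      rw [tao_sum, Finset.card_filter, Finset.sum_product_right]
      refine Finset.sum_congr rfl fun b _ => ?_
      rw [Finset.card_filter]
    have h4 : 2 * ∑ g ∈ H, (tao_r A g : ℝ) =
        ∑ b ∈ A, 2 * ((A.filter fun a => a * b⁻¹ ∈ H).card : ℝ) := by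
      rw [← Finset.mul_sum]
      congr 1
      exact_mod_cast h3
    have h5 : ∑ b ∈ A, 2 * ((A.filter fun a => a * b⁻¹ ∈ H).card : ℝ) <
        ∑ _b ∈ A, (A.card : ℝ) := Finset.sum_lt_sum_of_nonempty hA fun b hb => hcon b hb
    rw [Finset.sum_const, nsmul_eq_mul, ← sq, ← h4] at h5
    linarith

/-- Many coincidences of quotients `a⁻¹ * b` give many coincidences of the quotients `a * b⁻¹`.

Proof. Let `K = |A⁻¹ * A| / |A|` be at most `1/c`. By Cauchy-Schwarz the number of the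
`(a, b, a', b') ∈ A⁴` with `a⁻¹ * b = a'⁻¹ * b'` is at least `|A|⁴/|A⁻¹ * A| ≥ c|A|³`. The equation
is equivalent to `a' * a⁻¹ = b' * b⁻¹`. Let `r(d)` be the number of the `(g, h) ∈ A²` with
`g * h⁻¹ = d` and `D = {d : r(d) ≥ (c/2)|A|}`. So `∑ r(d)² ≥ c|A|³`, the `d` outside of `D`
contribute at most `(c/2)|A| * |A|²`, `∑_{d ∈ D} r(d)² ≥ (c/2)|A|³`, so `∑_{d ∈ D} r(d) ≥
(c/2)|A|²`; and `|D| (c/2)|A| ≤ |A|²`. -/
theorem energy_switch {Γ : Type} [Group Γ] [DecidableEq Γ] {c : ℝ} (hc : 0 < c) (A : Finset Γ)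
    (h : c * ((A⁻¹ * A).card : ℝ) ≤ A.card) :
    ∃ D : Finset Γ, c / 2 * (A.card : ℝ) ^ 2 ≤ ((A ×ˢ A).filter fun q => q.1 * q.2⁻¹ ∈ D).card ∧
      c / 2 * (D.card : ℝ) ≤ A.card := by
  classical
  rcases A.eq_empty_or_nonempty with hA | hA
  · refine ⟨∅, ?_, ?_⟩
    · rw [hA]
      simp
    · rw [hA]
      simp
  have ha : (0 : ℝ) < A.card := by exact_mod_cast hA.card_pos
  have hall : ∑ g ∈ A * A⁻¹, (tao_r A g : ℝ) = (A.card : ℝ) ^ 2 := by
    exact_mod_cast tao_sum_all A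
  have hle : ∀ g, (tao_r A g : ℝ) ≤ A.card := fun g => by exact_mod_cast tao_r_le A g
  have hen := tao_energy A
  have hen2 : c * (A.card : ℝ) ^ 3 ≤ ∑ g ∈ A * A⁻¹, (tao_r A g : ℝ) ^ 2 := by
    have h3 : (A.card : ℝ) ^ 4 ≤ ((A⁻¹ * A).card : ℝ) * ∑ g ∈ A * A⁻¹, (tao_r A g : ℝ) ^ 2 := by
      exact_mod_cast hen
    have h4 : 0 ≤ ∑ g ∈ A * A⁻¹, (tao_r A g : ℝ) ^ 2 := Finset.sum_nonneg fun g _ => sq_nonneg _
    have h5 : c * (A.card : ℝ) ^ 4 ≤ A.card * ∑ g ∈ A * A⁻¹, (tao_r A g : ℝ) ^ 2 :=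
      calc c * (A.card : ℝ) ^ 4 ≤ c * (((A⁻¹ * A).card : ℝ) *
            ∑ g ∈ A * A⁻¹, (tao_r A g : ℝ) ^ 2) := mul_le_mul_of_nonneg_left h3 hc.le
        _ = c * ((A⁻¹ * A).card : ℝ) * ∑ g ∈ A * A⁻¹, (tao_r A g : ℝ) ^ 2 := by ring
        _ ≤ _ := mul_le_mul_of_nonneg_right h h4
    have h6 : (A.card : ℝ) * (c * (A.card : ℝ) ^ 3) ≤
        A.card * ∑ g ∈ A * A⁻¹, (tao_r A g : ℝ) ^ 2 := by
      calc (A.card : ℝ) * (c * (A.card : ℝ) ^ 3) = c * (A.card : ℝ) ^ 4 := by ring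
        _ ≤ _ := h5
    exact le_of_mul_le_mul_left h6 ha
  obtain ⟨t, ht⟩ : ∃ t : ℝ, t = c / 2 * A.card := ⟨_, rfl⟩
  have ht0 : 0 < t := by
    rw [ht]
    positivity
  obtain ⟨D, hD⟩ : ∃ D : Finset Γ, D = (A * A⁻¹).filter fun g => t ≤ tao_r A g := ⟨_, rfl⟩
  have hmem : ∀ g, g ∈ D ↔ g ∈ A * A⁻¹ ∧ t ≤ tao_r A g := fun g => by
    rw [hD, Finset.mem_filter]
  have hsplit : ∑ g ∈ A * A⁻¹, (tao_r A g : ℝ) ^ 2 ≤
      A.card * ∑ g ∈ D, (tao_r A g : ℝ) + t * (A.card : ℝ) ^ 2 := by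
    rw [← Finset.sum_filter_add_sum_filter_not (A * A⁻¹) (fun g => t ≤ (tao_r A g : ℝ)), ← hD]
    refine add_le_add ?_ ?_
    · rw [Finset.mul_sum]
      refine Finset.sum_le_sum fun g _ => ?_
      rw [sq]
      exact mul_le_mul_of_nonneg_right (hle g) (Nat.cast_nonneg _)
    · rw [← hall, Finset.mul_sum]
      refine le_trans (Finset.sum_le_sum (g := fun g => t * (tao_r A g : ℝ)) fun g hg => ?_)
        (Finset.sum_le_sum_of_subset_of_nonneg (Finset.filter_subset _ _)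
          (fun g _ _ => mul_nonneg ht0.le (Nat.cast_nonneg _)))
      rw [sq]
      exact mul_le_mul_of_nonneg_right (not_le.1 (Finset.mem_filter.1 hg).2).le
        (Nat.cast_nonneg _)
  have hD2 : c / 2 * (A.card : ℝ) ^ 2 ≤ ∑ g ∈ D, (tao_r A g : ℝ) := by
    have h3 : (A.card : ℝ) * (c / 2 * (A.card : ℝ) ^ 2) ≤ A.card * ∑ g ∈ D, (tao_r A g : ℝ) := by
      rw [ht] at hsplit
      nlinarith
    exact le_of_mul_le_mul_left h3 ha
  refine ⟨D, ?_, ?_⟩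
  · have h3 : ∑ g ∈ D, (tao_r A g : ℝ) =
        (((A ×ˢ A).filter fun q => q.1 * q.2⁻¹ ∈ D).card : ℝ) := by
      exact_mod_cast tao_sum A D
    rw [← h3]
    exact hD2
  · have h3 := Finset.card_nsmul_le_sum D (fun g => (tao_r A g : ℝ)) t
      (fun g hg => ((hmem g).1 hg).2)
    rw [nsmul_eq_mul, ht] at h3
    have h4 : ∑ g ∈ D, (tao_r A g : ℝ) ≤ (A.card : ℝ) ^ 2 := by
      rw [← hall]
      exact Finset.sum_le_sum_of_subset_of_nonneg (fun g hg => ((hmem g).1 hg).1)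
        (fun g _ _ => Nat.cast_nonneg _)
    have h5 : c / 2 * (D.card : ℝ) * A.card ≤ A.card * A.card := by nlinarith
    exact le_of_mul_le_mul_right h5 ha

end Pool.Agent.MP193G
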