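import Mathlib
import Pool.Agent.Lib.MP_193dd3_co_G.Bsg
import Pool.Agent.Lib.MP_193dd3_co_G.Tao

/-!
# MP_193dd3_co, project G: approximate groups from many quotients in a small set
-/

set_option autoImplicit false

open scoped Pointwise

namespace Pool.Agent.MP193G

/-- If a positive proportion of the quotients `g * h⁻¹` of elements of `S` lies in a set `D` which
is not much larger than `S`, then a positive proportion of `S` lies in a translate `H * x` of an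
approximate group `H` which consists of quotients of elements of `S`.

Proof. `bsg` applied to `S`, `D` gives `A1 ⊆ S` with `|A1 * A1⁻¹| ≤ C|A1|`. `energy_switch`
applied to `A1⁻¹` (its condition is `|(A1⁻¹)⁻¹ * A1⁻¹| ≤ C|A1⁻¹|`) gives a set `D'` to which, with
`A1⁻¹`, we apply `bsg` again:
`A2⁻¹ ⊆ A1⁻¹` with `|A2⁻¹ * A2| ≤ C'|A1|`, `|A2| ≥ c''|A1|`. As `A2 ⊆ A1`, also `|A2 * A2⁻¹| ≤
|A1 * A1⁻¹| ≤ C''|A2|`. `popular` for `A2` gives `H` and `b`: all sizes are comparable with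
`|S|`; `{a ∈ A2 : a * b⁻¹ ∈ H}` is a subset of `S` (take `x = b`). -/
theorem approx {c : ℝ} (hc : 0 < c) : ∃ c' : ℝ, 0 < c' ∧ ∀ {Γ : Type} [Group Γ] [DecidableEq Γ]
    (S D : Finset Γ), S.Nonempty →
    c * (S.card : ℝ) ^ 2 ≤ ((S ×ˢ S).filter fun q => q.1 * q.2⁻¹ ∈ D).card →
    c * (D.card : ℝ) ≤ S.card →
    ∃ H : Finset Γ, 1 ∈ H ∧ H⁻¹ = H ∧ (∀ h ∈ H, ∃ g ∈ S, ∃ g' ∈ S, h = g * g'⁻¹) ∧
      c' * ((H ^ 3).card : ℝ) ≤ H.card ∧ c' * (S.card : ℝ) ≤ H.card ∧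
      c' * (H.card : ℝ) ≤ S.card ∧
      ∃ x ∈ S, c' * (S.card : ℝ) ≤ (S.filter fun g => g * x⁻¹ ∈ H).card := by
  obtain ⟨c1, hc1, hb1⟩ := bsg hc
  obtain ⟨c2, hc2, hb2⟩ := bsg (c := c1 ^ 2 / 2) (by positivity)
  obtain ⟨K, hKdef⟩ : ∃ K : ℝ, K = 1 / c2 ^ 2 + 1 / (c1 ^ 2 * c2) := ⟨_, rfl⟩
  have hK : 0 < K := by
    rw [hKdef]
    positivity
  have hKa : 1 ≤ K * c2 ^ 2 := by
    have h1 : K * c2 ^ 2 = 1 + 1 / (c1 ^ 2 * c2) * c2 ^ 2 := by
      rw [hKdef]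
      field_simp
    have h2 : 0 ≤ 1 / (c1 ^ 2 * c2) * c2 ^ 2 := by positivity
    linarith
  have hKb : 1 ≤ K * (c1 ^ 2 * c2) := by
    have h1 : K * (c1 ^ 2 * c2) = 1 + 1 / c2 ^ 2 * (c1 ^ 2 * c2) := by
      rw [hKdef]
      field_simp
      ring
    have h2 : 0 ≤ 1 / c2 ^ 2 * (c1 ^ 2 * c2) := by positivity
    linarith
  obtain ⟨c', hc', e1, e2, e3⟩ : ∃ c' : ℝ, 0 < c' ∧ c' * (16 * K ^ 5) ≤ 1 ∧
      c' * 2 ≤ c1 * c2 ∧ c' * (2 * K) ≤ 1 := by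
    refine ⟨min (1 / (16 * K ^ 5)) (min (c1 * c2 / 2) (1 / (2 * K))),
      lt_min (by positivity) (lt_min (by positivity) (by positivity)), ?_, ?_, ?_⟩
    · refine (mul_le_mul_of_nonneg_right (min_le_left _ _) (by positivity)).trans ?_
      rw [one_div, inv_mul_cancel₀ (by positivity)]
    · refine (mul_le_mul_of_nonneg_right
        ((min_le_right _ _).trans (min_le_left _ _)) (by positivity)).trans ?_
      linarith
    · refine (mul_le_mul_of_nonneg_right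
        ((min_le_right _ _).trans (min_le_right _ _)) (by positivity)).trans ?_
      rw [one_div, inv_mul_cancel₀ (by positivity)]
  refine ⟨c', hc', ?_⟩
  intro Γ _ _ S D hS h1 h2
  have hs : (0 : ℝ) < S.card := by exact_mod_cast hS.card_pos
  obtain ⟨A1, hA1, a1, a2⟩ := hb1 S D h1 h2
  have hA1i : ((A1⁻¹ : Finset Γ).card : ℝ) = A1.card := by rw [Finset.card_inv]
  have a3 : c1 ^ 2 * ((((A1⁻¹ : Finset Γ)⁻¹) * A1⁻¹).card : ℝ) ≤ (A1⁻¹ : Finset Γ).card := by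
    rw [inv_inv, hA1i]
    calc c1 ^ 2 * ((A1 * A1⁻¹).card : ℝ) = c1 * (c1 * ((A1 * A1⁻¹).card : ℝ)) := by ring
      _ ≤ c1 * S.card := mul_le_mul_of_nonneg_left a2 hc1.le
      _ ≤ _ := a1
  obtain ⟨D', d1, d2⟩ := energy_switch (c := c1 ^ 2) (by positivity) (A1⁻¹) a3
  obtain ⟨B, hB, b1, b2⟩ := hb2 (A1⁻¹) D' d1 d2
  rw [hA1i] at b1 b2
  obtain ⟨A2, hA2⟩ : ∃ A2 : Finset Γ, A2 = B⁻¹ := ⟨_, rfl⟩
  have hBA : B = A2⁻¹ := by rw [hA2, inv_inv]
  have hsub : A2 ⊆ A1 := by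
    intro x hx
    rw [hA2, Finset.mem_inv'] at hx
    have := hB hx
    rwa [Finset.mem_inv', inv_inv] at this
  have hcard : (B.card : ℝ) = A2.card := by rw [hBA, Finset.card_inv]
  rw [hcard] at b1
  rw [hBA, inv_inv] at b2
  have hA1pos : (0 : ℝ) < A1.card := lt_of_lt_of_le (mul_pos hc1 hs) a1
  have hA2pos : (0 : ℝ) < A2.card := lt_of_lt_of_le (mul_pos hc2 hA1pos) b1
  have hA2ne : A2.Nonempty := by
    rw [← Finset.card_pos]
    exact_mod_cast hA2pos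
  have k1 : ((A2 * A2⁻¹).card : ℝ) ≤ K * A2.card := by
    have f1 : ((A2 * A2⁻¹).card : ℝ) ≤ (A1 * A1⁻¹).card := by
      exact_mod_cast Finset.card_le_card
        (Finset.mul_subset_mul hsub (Finset.inv_subset_inv hsub))
    have f2 : c1 ^ 2 * c2 * ((A2 * A2⁻¹).card : ℝ) ≤ A2.card := by
      calc c1 ^ 2 * c2 * ((A2 * A2⁻¹).card : ℝ) ≤ c1 ^ 2 * c2 * (A1 * A1⁻¹).card :=
            mul_le_mul_of_nonneg_left f1 (by positivity)
        _ = c1 * c2 * (c1 * (A1 * A1⁻¹).card) := by ring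
        _ ≤ c1 * c2 * S.card := mul_le_mul_of_nonneg_left a2 (by positivity)
        _ = c2 * (c1 * S.card) := by ring
        _ ≤ c2 * A1.card := mul_le_mul_of_nonneg_left a1 hc2.le
        _ ≤ _ := b1
    calc ((A2 * A2⁻¹).card : ℝ) = 1 * (A2 * A2⁻¹).card := (one_mul _).symm
      _ ≤ K * (c1 ^ 2 * c2) * (A2 * A2⁻¹).card :=
          mul_le_mul_of_nonneg_right hKb (Nat.cast_nonneg _)
      _ = K * (c1 ^ 2 * c2 * (A2 * A2⁻¹).card) := by ring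
      _ ≤ _ := mul_le_mul_of_nonneg_left f2 hK.le
  have k2 : ((A2⁻¹ * A2).card : ℝ) ≤ K * A2.card := by
    have f2 : c2 ^ 2 * ((A2⁻¹ * A2).card : ℝ) ≤ A2.card := by
      calc c2 ^ 2 * ((A2⁻¹ * A2).card : ℝ) = c2 * (c2 * (A2⁻¹ * A2).card) := by ring
        _ ≤ c2 * A1.card := mul_le_mul_of_nonneg_left b2 hc2.le
        _ ≤ _ := b1
    calc ((A2⁻¹ * A2).card : ℝ) = 1 * (A2⁻¹ * A2).card := (one_mul _).symm
      _ ≤ K * c2 ^ 2 * (A2⁻¹ * A2).card :=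
          mul_le_mul_of_nonneg_right hKa (Nat.cast_nonneg _)
      _ = K * (c2 ^ 2 * (A2⁻¹ * A2).card) := by ring
      _ ≤ _ := mul_le_mul_of_nonneg_left f2 hK.le
  obtain ⟨H, p1, p2, p3, p4, p5, p6, b, hb, p7⟩ := popular A2 hA2ne k1 k2
  have q1 : c1 * c2 * (S.card : ℝ) ≤ A2.card := by
    calc c1 * c2 * (S.card : ℝ) = c2 * (c1 * S.card) := by ring
      _ ≤ c2 * A1.card := mul_le_mul_of_nonneg_left a1 hc2.le
      _ ≤ _ := b1
  have q2 : (A2.card : ℝ) ≤ S.card := by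
    exact_mod_cast Finset.card_le_card (hsub.trans hA1)
  have q3 : c' * 2 * (S.card : ℝ) ≤ A2.card :=
    (mul_le_mul_of_nonneg_right e2 hs.le).trans q1
  refine ⟨H, p1, p2, ?_, ?_, ?_, ?_, b, hA1 (hsub hb), ?_⟩
  · intro h hh
    obtain ⟨x, hx, y, hy, rfl⟩ := Finset.mem_mul.1 (p3 hh)
    exact ⟨x, hA1 (hsub hx), y⁻¹, hA1 (hsub (Finset.mem_inv'.1 hy)), by rw [inv_inv]⟩
  · calc c' * ((H ^ 3).card : ℝ) ≤ c' * (8 * K ^ 5 * A2.card) :=
          mul_le_mul_of_nonneg_left p6 hc'.le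
      _ ≤ c' * (8 * K ^ 5 * (2 * H.card)) := by
          refine mul_le_mul_of_nonneg_left ?_ hc'.le
          exact mul_le_mul_of_nonneg_left p4 (by positivity)
      _ = c' * (16 * K ^ 5) * H.card := by ring
      _ ≤ 1 * H.card := mul_le_mul_of_nonneg_right e1 (Nat.cast_nonneg _)
      _ = _ := one_mul _
  · linarith
  · calc c' * (H.card : ℝ) ≤ c' * (2 * K * A2.card) := mul_le_mul_of_nonneg_left p5 hc'.le
      _ = c' * (2 * K) * A2.card := by ring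
      _ ≤ 1 * A2.card := mul_le_mul_of_nonneg_right e3 hA2pos.le
      _ ≤ _ := by linarith
  · have r1 : ((A2.filter fun a => a * b⁻¹ ∈ H).card : ℝ) ≤
        (S.filter fun g => g * b⁻¹ ∈ H).card := by
      exact_mod_cast Finset.card_le_card (Finset.filter_subset_filter _ (hsub.trans hA1))
    linarith

end Pool.Agent.MP193G
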