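import Mathlib

/-!
# MP_193dd3_co, project G: Schur orthogonality for doubly transitive actions
-/

set_option autoImplicit false

namespace Pool.Agent.MP193G

/-- Schur orthogonality for the permutation representation of a doubly transitive group.

Proof. `∑_g (∑_s φ(g s) ψ(s))² = ∑_{s, t} ψ(s) ψ(t) ∑_g φ(g s) φ(g t)`. For `s = t` the inner sum
is `(|G|/n) ∑ φ²`, because `∑_g φ(g s)²` does not depend on `s` (transitivity). For
`s ≠ t` it is the same number `c` for all pairs, and summing over all pairs `s ≠ t`: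
`n (n - 1) c = ∑_g ((∑ φ)² - ∑ φ²) = - |G| ∑ φ²`. And `∑_{s ≠ t} ψ(s) ψ(t) = - ∑ ψ²`. So the
sum is `∑ ψ² ∑ φ² (|G|/n + |G|/(n (n - 1))) = |G|/(n - 1) ∑ φ² ∑ ψ²`. -/
theorem schur {G S : Type} [Group G] [Fintype G] [Fintype S] [DecidableEq S] [MulAction G S]
    (h2 : ∀ a b c d : S, a ≠ b → c ≠ d → ∃ g : G, g • a = c ∧ g • b = d)
    (hS : 2 ≤ Fintype.card S) (φ ψ : S → ℝ) (hφ : ∑ s, φ s = 0) (hψ : ∑ s, ψ s = 0) :
    ((Fintype.card S : ℝ) - 1) * ∑ g : G, (∑ s, φ (g • s) * ψ s) ^ 2 =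
      Fintype.card G * ((∑ s, φ s ^ 2) * ∑ s, ψ s ^ 2) := by
  obtain ⟨s0, t0, hst⟩ := Fintype.one_lt_card_iff.mp (lt_of_lt_of_le one_lt_two hS)
  set n : ℝ := (Fintype.card S : ℝ) with hn
  set N : ℝ := (Fintype.card G : ℝ) with hN
  set A : ℝ := ∑ g : G, φ (g • s0) * φ (g • s0) with hA
  set c : ℝ := ∑ g : G, φ (g • s0) * φ (g • t0) with hc
  have hn2 : (2 : ℝ) ≤ n := by
    rw [hn]
    exact_mod_cast hS
  have key : ∀ (h : G) (s t : S),
      ∑ g : G, φ (g • (h • s)) * φ (g • (h • t)) = ∑ g : G, φ (g • s) * φ (g • t) := by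
    intro h s t
    refine Fintype.sum_equiv (Equiv.mulRight h) _ _ ?_
    intro g
    simp only [Equiv.coe_mulRight, mul_smul]
  have hdiag : ∀ s : S, ∑ g : G, φ (g • s) * φ (g • s) = A := by
    intro s
    obtain ⟨b, hb⟩ : ∃ b : S, s ≠ b := by
      by_cases h : s = s0
      · exact ⟨t0, by rw [h]; exact hst⟩
      · exact ⟨s0, h⟩
    obtain ⟨g, hg, -⟩ := h2 s0 t0 s b hst hb
    rw [hA, ← key g s0 s0, hg]
  have hoff : ∀ s t : S, s ≠ t → ∑ g : G, φ (g • s) * φ (g • t) = c := by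
    intro s t h
    obtain ⟨g, hg, hg'⟩ := h2 s0 t0 s t hst h
    rw [hc, ← key g s0 t0, hg, hg']
  have hB : ∀ s t : S, ∑ g : G, φ (g • s) * φ (g • t) = c + (if s = t then A - c else 0) := by
    intro s t
    by_cases h : s = t
    · subst h
      rw [if_pos rfl, hdiag s]
      ring
    · rw [if_neg h, hoff s t h, add_zero]
  have hperm : ∀ (g : G) (f : S → ℝ), ∑ s, f (g • s) = ∑ s, f s := by
    intro g f
    exact Fintype.sum_equiv (MulAction.toPerm g) _ _ (fun s => rfl)
  have e1 : n * A = N * ∑ s, φ s ^ 2 := by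
    have h1 : ∑ s : S, ∑ g : G, φ (g • s) * φ (g • s) = n * A := by
      rw [Finset.sum_congr rfl (fun s _ => hdiag s), Finset.sum_const, Finset.card_univ,
        nsmul_eq_mul]
    have h3 : ∑ s : S, ∑ g : G, φ (g • s) * φ (g • s) = N * ∑ s, φ s ^ 2 := by
      rw [Finset.sum_comm]
      have : ∀ g : G, ∑ s : S, φ (g • s) * φ (g • s) = ∑ s, φ s ^ 2 := by
        intro g
        rw [← hperm g (fun s => φ s ^ 2)]
        exact Finset.sum_congr rfl (fun s _ => by ring)
      rw [Finset.sum_congr rfl (fun g _ => this g), Finset.sum_const, Finset.card_univ,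
        nsmul_eq_mul]
    rw [← h1, h3]
  have hexp : ∀ u : S → ℝ, ∑ g : G, (∑ s, φ (g • s) * u s) ^ 2 =
      c * (∑ s, u s) ^ 2 + (A - c) * ∑ s, u s ^ 2 := by
    intro u
    have h1 : ∀ g : G, (∑ s, φ (g • s) * u s) ^ 2 =
        ∑ s, ∑ t, u s * u t * (φ (g • s) * φ (g • t)) := by
      intro g
      rw [sq, Finset.sum_mul_sum]
      exact Finset.sum_congr rfl (fun s _ => Finset.sum_congr rfl (fun t _ => by ring))
    rw [Finset.sum_congr rfl (fun g _ => h1 g), Finset.sum_comm]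
    have h3 : ∀ s : S, ∑ g : G, ∑ t, u s * u t * (φ (g • s) * φ (g • t)) =
        c * (u s * ∑ t, u t) + (A - c) * u s ^ 2 := by
      intro s
      rw [Finset.sum_comm]
      have h4 : ∀ t : S, ∑ g : G, u s * u t * (φ (g • s) * φ (g • t)) =
          c * (u s * u t) + (if s = t then (A - c) * (u s * u t) else 0) := by
        intro t
        rw [← Finset.mul_sum, hB s t]
        by_cases h : s = t
        · rw [if_pos h, if_pos h]
          ring
        · rw [if_neg h, if_neg h]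
          ring
      rw [Finset.sum_congr rfl (fun t _ => h4 t), Finset.sum_add_distrib,
        Finset.sum_ite_eq Finset.univ s, if_pos (Finset.mem_univ s), ← Finset.mul_sum,
        ← Finset.mul_sum]
      ring
    rw [Finset.sum_congr rfl (fun s _ => h3 s), Finset.sum_add_distrib, ← Finset.mul_sum,
      ← Finset.sum_mul, ← Finset.mul_sum]
    ring
  have e2 : c * n ^ 2 + (A - c) * n = 0 := by
    have h1 := hexp (fun _ => 1)
    have h3 : ∑ g : G, (∑ s, φ (g • s) * (1 : ℝ)) ^ 2 = 0 := by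
      refine Finset.sum_eq_zero (fun g _ => ?_)
      have : ∑ s, φ (g • s) * (1 : ℝ) = 0 := by
        simp only [mul_one]
        rw [hperm g φ, hφ]
      rw [this]
      ring
    have h4 : ∑ _s : S, (1 : ℝ) = n := by
      rw [Finset.sum_const, Finset.card_univ, nsmul_eq_mul, mul_one]
    have h5 : ∑ _s : S, (1 : ℝ) ^ 2 = n := by
      rw [one_pow, h4]
    rw [h3, h4, h5] at h1
    exact h1.symm
  rw [hexp ψ, hψ]
  have hn0 : n ≠ 0 := by linarith
  have e3 : (n - 1) * (A - c) = N * ∑ s, φ s ^ 2 := by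
    have h1 : n * ((n - 1) * (A - c)) = n * (N * ∑ s, φ s ^ 2) := by
      have e2' : n * (c * n + (A - c)) = 0 := by
        rw [← e2]
        ring
      have e4 : c * n + (A - c) = 0 := by
        rcases mul_eq_zero.mp e2' with h | h
        · exact absurd h hn0
        · exact h
      have e5 : A = -((n - 1) * c) := by linarith
      have e6 : N * ∑ s, φ s ^ 2 = n * A := e1.symm
      rw [e6]
      rw [e5]
      ring
    exact mul_left_cancel₀ hn0 h1
  calc (n - 1) * (c * 0 ^ 2 + (A - c) * ∑ s, ψ s ^ 2)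
      = ((n - 1) * (A - c)) * ∑ s, ψ s ^ 2 := by ring
    _ = N * ((∑ s, φ s ^ 2) * ∑ s, ψ s ^ 2) := by
      rw [e3]
      ring

end Pool.Agent.MP193G
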