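import Mathlib
import Pool.Agent.Lib.MP_193dd3_co_G.Defs
import Pool.Agent.Lib.MP_193dd3_co_G.Sch

/-!
# MP_193dd3_co, project G: the group of the Moebius permutations
-/

set_option autoImplicit false

open scoped Pointwise

namespace Pool.Agent.MP193G

variable {p : ℕ} [Fact p.Prime]

theorem card_X : Fintype.card (X p) = p + 1 := by
  have h : Fintype.card (Option (ZMod p)) = p + 1 := by
    rw [Fintype.card_option, ZMod.card]
  exact h

/-- The action in homogeneous coordinates. Proof: `OnePoint.smul_infty_eq_ite`,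
`OnePoint.smul_some_eq_ite`. -/
theorem gl_smul_iff (g : Matrix.GeneralLinearGroup (Fin 2) (ZMod p)) (s t : X p) :
    g • s = t ↔ (g 0 0 * (hx s).1 + g 0 1 * (hx s).2) * (hx t).2
      = (g 1 0 * (hx s).1 + g 1 1 * (hx s).2) * (hx t).1 := by
  have hdet : g 0 0 * g 1 1 - g 0 1 * g 1 0 ≠ 0 := by
    have := g.det_ne_zero
    rwa [Matrix.det_fin_two] at this
  induction s using OnePoint.rec with
  | infty =>
    rw [OnePoint.smul_infty_eq_ite]
    induction t using OnePoint.rec with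
    | infty =>
      show _ ↔ (g 0 0 * 1 + g 0 1 * 0) * 0 = (g 1 0 * 1 + g 1 1 * 0) * 1
      split_ifs with h
      · simp [h]
      · constructor
        · intro h'
          exact absurd h' (OnePoint.coe_ne_infty _)
        · intro h'
          exact absurd (by linear_combination -h') h
    | coe t =>
      show _ ↔ (g 0 0 * 1 + g 0 1 * 0) * 1 = (g 1 0 * 1 + g 1 1 * 0) * t
      split_ifs with h
      · have h0 : g 0 0 ≠ 0 := by
          rintro h0
          apply hdet
          rw [h, h0]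
          ring
        simp [h, h0]
      · rw [OnePoint.coe_eq_coe, div_eq_iff h]
        simp [mul_comm]
  | coe s =>
    rw [OnePoint.smul_some_eq_ite]
    induction t using OnePoint.rec with
    | infty =>
      show _ ↔ (g 0 0 * s + g 0 1 * 1) * 0 = (g 1 0 * s + g 1 1 * 1) * 1
      split_ifs with h
      · simp [h]
      · constructor
        · intro h'
          exact absurd h' (OnePoint.coe_ne_infty _)
        · intro h'
          exact absurd (by linear_combination -h') h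
    | coe t =>
      show _ ↔ (g 0 0 * s + g 0 1 * 1) * 1 = (g 1 0 * s + g 1 1 * 1) * t
      split_ifs with h
      · have h0 : g 0 0 * s + g 0 1 ≠ 0 := by
          intro h0
          apply hdet
          by_cases hs : g 1 0 = 0
          · have h1 : g 1 1 = 0 := by simpa [hs] using h
            rw [hs, h1]
            ring
          · have e1 : g 1 1 = - (g 1 0 * s) := by linear_combination h
            have e2 : g 0 1 = - (g 0 0 * s) := by linear_combination h0
            rw [e1, e2]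
            ring
        simp [h, h0]
      · rw [OnePoint.coe_eq_coe, div_eq_iff h]
        simp [mul_comm]

private theorem hx_det {a b : X p} (hab : a ≠ b) :
    (hx a).1 * (hx b).2 - (hx b).1 * (hx a).2 ≠ 0 := by
  induction a using OnePoint.rec with
  | infty =>
    induction b using OnePoint.rec with
    | infty => exact absurd rfl hab
    | coe b =>
      show (1 : ZMod p) * 1 - b * 0 ≠ 0
      simp
  | coe a =>
    induction b using OnePoint.rec with
    | infty =>
      show a * (0 : ZMod p) - 1 * 1 ≠ 0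
      simp
    | coe b =>
      show a * (1 : ZMod p) - b * 1 ≠ 0
      intro h
      apply hab
      have : a = b := by linear_combination h
      rw [this]

private theorem mob_aux {a b : X p} (hab : a ≠ b) :
    ∃ e ∈ mob p, e OnePoint.infty = a ∧ e ((0 : ZMod p) : X p) = b := by
  have hdet : (!![(hx a).1, (hx b).1; (hx a).2, (hx b).2] :
      Matrix (Fin 2) (Fin 2) (ZMod p)).det ≠ 0 := by
    rw [Matrix.det_fin_two_of]
    exact hx_det hab
  refine ⟨MulAction.toPermHom _ (X p) (Matrix.GeneralLinearGroup.mkOfDetNeZero _ hdet),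
    ⟨_, rfl⟩, ?_, ?_⟩
  · show (Matrix.GeneralLinearGroup.mkOfDetNeZero _ hdet) • (OnePoint.infty : X p) = a
    rw [gl_smul_iff]
    show ((hx a).1 * 1 + (hx b).1 * 0) * (hx a).2 = ((hx a).2 * 1 + (hx b).2 * 0) * (hx a).1
    ring
  · show (Matrix.GeneralLinearGroup.mkOfDetNeZero _ hdet) • ((0 : ZMod p) : X p) = b
    rw [gl_smul_iff]
    show ((hx a).1 * 0 + (hx b).1 * 1) * (hx b).2 = ((hx a).2 * 0 + (hx b).2 * 1) * (hx b).1
    ring

/-- Double transitivity of `mob p`. Proof: it is enough to map `∞, 0` to `a ≠ b`: the matrix with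
the columns `hx a`, `hx b` is invertible and does this. -/
theorem mob_two {a b c d : X p} (hab : a ≠ b) (hcd : c ≠ d) :
    ∃ g ∈ mob p, g a = c ∧ g b = d := by
  obtain ⟨e, he, he1, he2⟩ := mob_aux (p := p) hab
  obtain ⟨f, hf, hf1, hf2⟩ := mob_aux (p := p) hcd
  refine ⟨f * e⁻¹, (mob p).mul_mem hf ((mob p).inv_mem he), ?_, ?_⟩
  · have : e⁻¹ a = OnePoint.infty := by rw [Equiv.Perm.inv_eq_iff_eq]; exact he1.symm
    rw [Equiv.Perm.mul_apply, this, hf1]
  · have : e⁻¹ b = ((0 : ZMod p) : X p) := by rw [Equiv.Perm.inv_eq_iff_eq]; exact he2.symm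
    rw [Equiv.Perm.mul_apply, this, hf2]

/-- A Moebius permutation with three fixed points is the identity. Proof: by conjugation two of
the fixed points are `∞`, `0`; then the matrix is diagonal, `g x = k x`, and `k x = x` for some
`x ≠ 0` gives `k = 1`. -/
theorem mob_fix {g : Gm p} (hg : g ∈ mob p) {a b c : X p} (hab : a ≠ b) (hac : a ≠ c)
    (hbc : b ≠ c) (ha : g a = a) (hb : g b = b) (hc : g c = c) : g = 1 := by
  obtain ⟨e, he, he1, he2⟩ := mob_aux (p := p) hab
  have hg' : e⁻¹ * g * e ∈ mob p :=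
    (mob p).mul_mem ((mob p).mul_mem ((mob p).inv_mem he) hg) he
  obtain ⟨m, hm⟩ := hg'
  have hmx : ∀ x : X p, m • x = (e⁻¹ * g * e) x := fun x => by
    rw [← hm]
    rfl
  have h1 : m • (OnePoint.infty : X p) = OnePoint.infty := by
    rw [hmx, Equiv.Perm.mul_apply, Equiv.Perm.mul_apply, he1, ha, Equiv.Perm.inv_eq_iff_eq]
    exact he1.symm
  have h2 : m • ((0 : ZMod p) : X p) = ((0 : ZMod p) : X p) := by
    rw [hmx, Equiv.Perm.mul_apply, Equiv.Perm.mul_apply, he2, hb, Equiv.Perm.inv_eq_iff_eq]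
    exact he2.symm
  have h3 : m • (e⁻¹ c) = e⁻¹ c := by
    rw [hmx, Equiv.Perm.mul_apply, Equiv.Perm.mul_apply]
    have : e (e⁻¹ c) = c := by simp
    rw [this, hc]
  have hc1 : e⁻¹ c ≠ OnePoint.infty := by
    intro h
    rw [Equiv.Perm.inv_eq_iff_eq, he1] at h
    exact hac h.symm
  have hc2 : e⁻¹ c ≠ ((0 : ZMod p) : X p) := by
    intro h
    rw [Equiv.Perm.inv_eq_iff_eq, he2] at h
    exact hbc h.symm
  rw [gl_smul_iff] at h1 h2 h3
  have m10 : m 1 0 = 0 := by
    have : (m 0 0 * 1 + m 0 1 * 0) * 0 = (m 1 0 * 1 + m 1 1 * 0) * 1 := h1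
    simpa using this.symm
  have m01 : m 0 1 = 0 := by
    have : (m 0 0 * 0 + m 0 1 * 1) * 1 = (m 1 0 * 0 + m 1 1 * 1) * 0 := h2
    simpa using this
  have m00 : m 0 0 = m 1 1 := by
    rw [m10, m01] at h3
    obtain ⟨x, hx'⟩ : ∃ x : ZMod p, (x : X p) = e⁻¹ c := by
      revert hc1
      induction e⁻¹ c using OnePoint.rec with
      | infty => intro h; exact absurd rfl h
      | coe x => intro _; exact ⟨x, rfl⟩
    rw [← hx'] at h3 hc2
    have hx0 : x ≠ 0 := by
      rintro rfl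
      exact hc2 rfl
    have : (m 0 0 * x + 0 * 1) * 1 = (0 * x + m 1 1 * 1) * x := h3
    apply mul_right_cancel₀ hx0
    linear_combination this
  have hm1 : e⁻¹ * g * e = 1 := by
    apply Equiv.ext
    intro x
    rw [← hmx, Equiv.Perm.one_apply, gl_smul_iff, m10, m01, m00]
    ring
  have : g = e * (e⁻¹ * g * e) * e⁻¹ := by group
  rw [this, hm1]
  simp

/-- The number of the Moebius permutations. Proof: `g` is determined by the images of three
points (`mob_fix` for `g⁻¹ * h`), which are different: at most `(p + 1) p (p - 1)` possibilities. -/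
theorem mob_card : Nat.card (mob p) ≤ (p + 1) * p * (p - 1) := by
  classical
  have h01 : (OnePoint.infty : X p) ≠ ((0 : ZMod p) : X p) := OnePoint.infty_ne_coe _
  have h02 : (OnePoint.infty : X p) ≠ ((1 : ZMod p) : X p) := OnePoint.infty_ne_coe _
  have h12 : ((0 : ZMod p) : X p) ≠ ((1 : ZMod p) : X p) := by
    intro h
    exact zero_ne_one (OnePoint.coe_eq_coe.1 h)
  have hinj : Function.Injective
      (![OnePoint.infty, ((0 : ZMod p) : X p), ((1 : ZMod p) : X p)] : Fin 3 → X p) := by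
    intro i j hij
    fin_cases i <;> fin_cases j <;> first
      | rfl
      | exact absurd hij h01
      | exact absurd hij h02
      | exact absurd hij h12
      | exact absurd hij.symm h01
      | exact absurd hij.symm h02
      | exact absurd hij.symm h12
  let F : mob p → (Fin 3 ↪ X p) := fun g =>
    (⟨_, hinj⟩ : Fin 3 ↪ X p).trans (g : Gm p).toEmbedding
  have hF : Function.Injective F := by
    rintro ⟨g, hg⟩ ⟨h, hh⟩ hgh
    have e (i : Fin 3) : g ((![OnePoint.infty, ((0 : ZMod p) : X p), ((1 : ZMod p) : X p)] :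
        Fin 3 → X p) i) = h ((![OnePoint.infty, ((0 : ZMod p) : X p), ((1 : ZMod p) : X p)] :
        Fin 3 → X p) i) := congrArg (fun f : Fin 3 ↪ X p => f i) hgh
    have e0 : (h⁻¹ * g) OnePoint.infty = OnePoint.infty := by
      rw [Equiv.Perm.mul_apply, Equiv.Perm.inv_eq_iff_eq]
      exact e 0
    have e1 : (h⁻¹ * g) ((0 : ZMod p) : X p) = ((0 : ZMod p) : X p) := by
      rw [Equiv.Perm.mul_apply, Equiv.Perm.inv_eq_iff_eq]
      exact e 1
    have e2 : (h⁻¹ * g) ((1 : ZMod p) : X p) = ((1 : ZMod p) : X p) := by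
      rw [Equiv.Perm.mul_apply, Equiv.Perm.inv_eq_iff_eq]
      exact e 2
    have := mob_fix ((mob p).mul_mem ((mob p).inv_mem hh) hg) h01 h02 h12 e0 e1 e2
    apply Subtype.ext
    show g = h
    exact (inv_mul_eq_one.1 this).symm
  have h1 : Nat.card (mob p) ≤ Nat.card (Fin 3 ↪ X p) := Nat.card_le_card_of_injective F hF
  refine h1.trans (le_of_eq ?_)
  rw [Nat.card_eq_fintype_card, Fintype.card_embedding_eq, card_X, Fintype.card_fin]
  simp only [Nat.descFactorial_succ, Nat.descFactorial_zero]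
  have e1 : p + 1 - 2 = p - 1 := by omega
  have e2 : p + 1 - 1 = p := by omega
  have e3 : p + 1 - 0 = p + 1 := by omega
  rw [e1, e2, e3]
  ring

/-- Most translates of a function of mean zero are almost orthogonal to it.

Proof. `schur` for the subgroup `mob p` acting on `X p` (`mob_two`; `|X p| = p + 1`) with
`φ = ψ` gives `p ∑_{g ∈ mob p} (co φ g)² = |mob p| (∑ φ²)² ≤ (p + 1) p (p - 1)`. Every `g ∈ D`
contributes at least `η²` to the sum. -/
theorem co_card {η : ℝ} (hη : 0 < η) (φ : X p → ℝ) (h0 : ∑ s, φ s = 0) (h1 : ∑ s, φ s ^ 2 = 1)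
    (D : Finset (Gm p)) (hD : ∀ g ∈ D, g ∈ mob p ∧ η ≤ co φ g) :
    η ^ 2 * (D.card : ℝ) ≤ (p : ℝ) ^ 2 := by
  classical
  have hp : 2 ≤ p := (Fact.out : p.Prime).two_le
  have hft : Fintype (mob p) := Fintype.ofFinite _
  have h2 : ∀ a b c d : X p, a ≠ b → c ≠ d → ∃ g : mob p, g • a = c ∧ g • b = d := by
    intro a b c d hab hcd
    obtain ⟨g, hg, h1, h2⟩ := mob_two hab hcd
    exact ⟨⟨g, hg⟩, h1, h2⟩
  have hS : 2 ≤ Fintype.card (X p) := by
    rw [card_X]
    omega
  have hsch := schur (G := mob p) (S := X p) h2 hS φ φ h0 h0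
  rw [h1, card_X] at hsch
  have hsum : ∀ g : mob p, (∑ s, φ (g • s) * φ s) = co φ (g : Gm p) := fun g => rfl
  simp only [hsum] at hsch
  have hcard : (Fintype.card (mob p) : ℝ) ≤ ((p : ℝ) + 1) * p * ((p : ℝ) - 1) := by
    have h := mob_card (p := p)
    rw [Nat.card_eq_fintype_card] at h
    have h' : ((Fintype.card (mob p) : ℕ) : ℝ) ≤ (((p + 1) * p * (p - 1) : ℕ) : ℝ) := by
      exact_mod_cast h
    rw [Nat.cast_mul, Nat.cast_mul, Nat.cast_sub (by omega)] at h'
    push_cast at h'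
    exact h'
  have hDsum : η ^ 2 * (D.card : ℝ) ≤ ∑ g : mob p, co φ (g : Gm p) ^ 2 := by
    have hD' : (D.subtype (fun g => g ∈ mob p)).card = D.card := by
      rw [Finset.card_subtype, Finset.filter_true_of_mem fun g hg => (hD g hg).1]
    rw [← hD']
    calc η ^ 2 * ((D.subtype (fun g => g ∈ mob p)).card : ℝ)
        = ∑ _g ∈ D.subtype (fun g => g ∈ mob p), η ^ 2 := by
          rw [Finset.sum_const, nsmul_eq_mul, mul_comm]
      _ ≤ ∑ g ∈ D.subtype (fun g => g ∈ mob p), co φ (g : Gm p) ^ 2 := by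
          refine Finset.sum_le_sum fun g hg => ?_
          rw [Finset.mem_subtype] at hg
          exact pow_le_pow_left₀ hη.le (hD _ hg).2 2
      _ ≤ ∑ g : mob p, co φ (g : Gm p) ^ 2 :=
          Finset.sum_le_sum_of_subset_of_nonneg (Finset.subset_univ _)
            fun g _ _ => sq_nonneg _
  have hp' : (2 : ℝ) ≤ p := by exact_mod_cast hp
  have e : ((p : ℝ) + 1 - 1) * ∑ g : mob p, co φ (g : Gm p) ^ 2 =
      (Fintype.card (mob p) : ℝ) := by
    have := hsch
    push_cast at this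
    rw [this]
    ring
  have e2 : (p : ℝ) * ∑ g : mob p, co φ (g : Gm p) ^ 2 ≤
      (p : ℝ) * (((p : ℝ) + 1) * ((p : ℝ) - 1)) := by
    have : (p : ℝ) * ∑ g : mob p, co φ (g : Gm p) ^ 2 = (Fintype.card (mob p) : ℝ) := by
      rw [← e]
      ring
    rw [this]
    calc (Fintype.card (mob p) : ℝ) ≤ ((p : ℝ) + 1) * p * ((p : ℝ) - 1) := hcard
      _ = _ := by ring
  have e3 : ∑ g : mob p, co φ (g : Gm p) ^ 2 ≤ ((p : ℝ) + 1) * ((p : ℝ) - 1) :=
    le_of_mul_le_mul_left e2 (by linarith)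
  calc η ^ 2 * (D.card : ℝ) ≤ ∑ g : mob p, co φ (g : Gm p) ^ 2 := hDsum
    _ ≤ ((p : ℝ) + 1) * ((p : ℝ) - 1) := e3
    _ ≤ (p : ℝ) ^ 2 := by nlinarith

/-- Positivity of the correlations. Proof: `∑_s φ(g s) φ(h s) = co φ (g * h⁻¹)` (substitute
`h⁻¹ s`), so the left-hand side is `∑_s (∑_{g ∈ S} φ(g s))²`; Cauchy-Schwarz with `∑ φ² = 1`. -/
theorem co_pos (φ : X p → ℝ) (h1 : ∑ s, φ s ^ 2 = 1) {I : Type} (S : Finset I) (σ : I → Gm p) :
    (∑ i ∈ S, co φ (σ i)) ^ 2 ≤ ∑ i ∈ S, ∑ j ∈ S, co φ (σ i * (σ j)⁻¹) := by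
  have hco : ∀ g h : Gm p, co φ (g * h⁻¹) = ∑ s, φ (g s) * φ (h s) := by
    intro g h
    unfold co
    rw [← Equiv.sum_comp h (fun s => φ ((g * h⁻¹) s) * φ s)]
    refine Finset.sum_congr rfl fun s _ => ?_
    have e : (g * h⁻¹) (h s) = g s := by simp
    rw [e]
  have e1 : ∑ i ∈ S, ∑ j ∈ S, co φ (σ i * (σ j)⁻¹) = ∑ s, (∑ i ∈ S, φ (σ i s)) ^ 2 := by
    calc ∑ i ∈ S, ∑ j ∈ S, co φ (σ i * (σ j)⁻¹)
        = ∑ i ∈ S, ∑ j ∈ S, ∑ s, φ (σ i s) * φ (σ j s) := by
          refine Finset.sum_congr rfl fun i _ => Finset.sum_congr rfl fun j _ => hco _ _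
      _ = ∑ i ∈ S, ∑ s, ∑ j ∈ S, φ (σ i s) * φ (σ j s) :=
          Finset.sum_congr rfl fun i _ => Finset.sum_comm
      _ = ∑ s, ∑ i ∈ S, ∑ j ∈ S, φ (σ i s) * φ (σ j s) := Finset.sum_comm
      _ = ∑ s, (∑ i ∈ S, φ (σ i s)) ^ 2 := by
          refine Finset.sum_congr rfl fun s _ => ?_
          rw [sq, Finset.sum_mul_sum]
  have e2 : ∑ i ∈ S, co φ (σ i) = ∑ s, (∑ i ∈ S, φ (σ i s)) * φ s := by
    unfold co
    rw [Finset.sum_comm]
    refine Finset.sum_congr rfl fun s _ => ?_
    rw [Finset.sum_mul]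
  rw [e1, e2]
  have := Finset.sum_mul_sq_le_sq_mul_sq Finset.univ (fun s => ∑ i ∈ S, φ (σ i s)) φ
  rw [h1, mul_one] at this
  exact this

theorem co_le (φ : X p → ℝ) (h1 : ∑ s, φ s ^ 2 = 1) (g : Gm p) : |co φ g| ≤ 1 := by
  have h := Finset.sum_mul_sq_le_sq_mul_sq Finset.univ (fun s => φ (g s)) φ
  rw [h1, mul_one, Equiv.sum_comp g (fun s => φ s ^ 2), h1] at h
  exact sq_le_one_iff_abs_le_one _ |>.1 h

end Pool.Agent.MP193G
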