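import Mathlib
import Pool.Agent.Lib.MP_193dd3_co_G.Mob

/-!
# MP_193dd3_co, project G: the involutions of the points off the conic
-/

set_option autoImplicit false

open scoped Pointwise

namespace Pool.Agent.MP193G

variable {p : ℕ} [Fact p.Prime]

theorem mv_det (v : Vc p) : (mv v).det = -nq v := by
  unfold mv nq
  rw [Matrix.det_fin_two]
  simp only [Matrix.of_apply, Matrix.cons_val', Matrix.cons_val_zero, Matrix.cons_val_one,
    Matrix.cons_val_fin_one]
  ring

private theorem Geo_det {v : Vc p} (hv : nq v ≠ 0) : (mv v).det ≠ 0 := by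
  rw [mv_det]
  exact neg_ne_zero.2 hv

/-- The matrix of `v` as an element of the general linear group. -/
private noncomputable def Geo_gl (v : Vc p) (hv : nq v ≠ 0) :
    Matrix.GeneralLinearGroup (Fin 2) (ZMod p) :=
  Matrix.GeneralLinearGroup.mkOfDetNeZero (mv v) (Geo_det hv)

private theorem Geo_coe (v : Vc p) (hv : nq v ≠ 0) :
    ((Geo_gl v hv : Matrix.GeneralLinearGroup (Fin 2) (ZMod p)) :
      Matrix (Fin 2) (Fin 2) (ZMod p)) = mv v := rfl

private theorem Geo_iv (v : Vc p) (hv : nq v ≠ 0) (s : X p) : iv v s = Geo_gl v hv • s := by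
  unfold iv
  rw [dif_pos (Geo_det hv)]
  rfl

/-- The point `v` lies on the line through the points `s`, `t` of the conic if and only if its
involution exchanges them. Proof: `gl_smul_iff`. -/
theorem iv_iff {v : Vc p} (hv : nq v ≠ 0) (s t : X p) : iv v s = t ↔ Lf s t v = 0 := by
  rw [Geo_iv v hv, gl_smul_iff]
  have h00 : (Geo_gl v hv) 0 0 = v.1 := rfl
  have h01 : (Geo_gl v hv) 0 1 = v.2.1 := rfl
  have h10 : (Geo_gl v hv) 1 0 = v.2.2 := rfl
  have h11 : (Geo_gl v hv) 1 1 = -v.1 := rfl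
  rw [h00, h01, h10, h11, ← sub_eq_zero]
  unfold Lf
  have e : (v.1 * (hx s).1 + v.2.1 * (hx s).2) * (hx t).2 -
      (v.2.2 * (hx s).1 + -v.1 * (hx s).2) * (hx t).1 =
      v.1 * ((hx s).1 * (hx t).2 + (hx s).2 * (hx t).1) + v.2.1 * ((hx s).2 * (hx t).2)
        - v.2.2 * ((hx s).1 * (hx t).1) := by ring
  rw [e]

theorem iv_mem (v : Vc p) : iv v ∈ mob p := by
  unfold iv
  split_ifs with h
  · exact ⟨_, rfl⟩
  · exact one_mem _

/-- Proof: the square of `mv v` is `nq v` times the identity; or `Lf s t = Lf t s` and `iv_iff`. -/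
theorem iv_inv (v : Vc p) : (iv v)⁻¹ = iv v := by
  by_cases hv : nq v = 0
  · have h : iv v = 1 := by
      unfold iv
      rw [dif_neg]
      rw [mv_det, hv, neg_zero, not_not]
    rw [h, inv_one]
  · rw [inv_eq_iff_mul_eq_one]
    ext s
    rw [Equiv.Perm.mul_apply, Equiv.Perm.one_apply, iv_iff hv]
    have h1 : Lf s (iv v s) v = 0 := (iv_iff hv s (iv v s)).1 rfl
    unfold Lf at h1 ⊢
    rw [← h1]
    ring

/-- `Lf s t` is a linear functional. -/
theorem Lf_lin (s t : X p) : ∃ l : Vc p, l ≠ 0 ∧ ∀ v, Lf s t v = lin l v := by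
  refine ⟨((hx s).1 * (hx t).2 + (hx s).2 * (hx t).1, (hx s).2 * (hx t).2,
    -((hx s).1 * (hx t).1)), ?_, fun v => ?_⟩
  · intro h
    have h1 := congrArg Prod.fst h
    have h2 := congrArg (fun x => x.2.1) h
    have h3 := congrArg (fun x => x.2.2) h
    simp only [Prod.fst_zero, Prod.snd_zero, neg_eq_zero] at h1 h2 h3
    induction s using OnePoint.rec with
    | infty =>
      induction t using OnePoint.rec with
      | infty =>
        have e : (hx (OnePoint.infty : X p)).1 = 1 := rfl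
        rw [e] at h3
        simp at h3
      | coe y =>
        have e : (hx (OnePoint.infty : X p)) = (1, 0) := rfl
        have e2 : (hx ((y : ZMod p) : X p)) = (y, 1) := rfl
        rw [e, e2] at h1
        simp at h1
    | coe x =>
      have e : (hx ((x : ZMod p) : X p)) = (x, 1) := rfl
      induction t using OnePoint.rec with
      | infty =>
        have e2 : (hx (OnePoint.infty : X p)) = (1, 0) := rfl
        rw [e, e2] at h1
        simp at h1
      | coe y =>
        have e2 : (hx ((y : ZMod p) : X p)) = (y, 1) := rfl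
        rw [e, e2] at h2
        simp at h2
  · unfold Lf lin
    ring

theorem hit {B : Finset (Vc p)} (hB : Pl 3 B) (hn : ∀ v ∈ B, nq v ≠ 0) (s t : X p) :
    (B.filter fun v => iv v s = t).card ≤ 3 := by
  obtain ⟨l, hl, hv⟩ := Lf_lin s t
  refine le_trans (Finset.card_le_card ?_) (hB l hl)
  intro v hvB
  rw [Finset.mem_filter] at hvB ⊢
  refine ⟨hvB.1, ?_⟩
  rw [← hv]
  exact (iv_iff (hn v hvB.1) s t).1 hvB.2

/-- Proof: fix `s`, sum `hit` over all `t`. -/
theorem card_Pl {B : Finset (Vc p)} (hB : Pl 3 B) (hn : ∀ v ∈ B, nq v ≠ 0) :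
    B.card ≤ 3 * (p + 1) := by
  classical
  have h := Finset.card_eq_sum_card_fiberwise (f := fun v => iv v (OnePoint.infty : X p))
    (s := B) (t := Finset.univ) (fun v _ => Finset.mem_coe.2 (Finset.mem_univ _))
  rw [h]
  refine (Finset.sum_le_card_nsmul _ _ 3 fun t _ => hit hB hn OnePoint.infty t).trans ?_
  rw [Finset.card_univ, card_X, smul_eq_mul, mul_comm]

/-- Matrices which give the same permutation are proportional. Proof: a matrix which fixes `∞`, `0`
and `1` is scalar (`gl_smul_iff`). -/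
theorem gl_prop (g h : Matrix.GeneralLinearGroup (Fin 2) (ZMod p))
    (e : ∀ s : X p, g • s = h • s) : ∃ k : ZMod p, k ≠ 0 ∧
      (g : Matrix (Fin 2) (Fin 2) (ZMod p)) = k • (h : Matrix (Fin 2) (Fin 2) (ZMod p)) := by
  have h0 := (gl_smul_iff (h⁻¹ * g) (OnePoint.infty : X p) OnePoint.infty).1
    (by rw [mul_smul, e, inv_smul_smul])
  have h1 := (gl_smul_iff (h⁻¹ * g) ((0 : ZMod p) : X p) ((0 : ZMod p) : X p)).1
    (by rw [mul_smul, e, inv_smul_smul])
  have h2 := (gl_smul_iff (h⁻¹ * g) ((1 : ZMod p) : X p) ((1 : ZMod p) : X p)).1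
    (by rw [mul_smul, e, inv_smul_smul])
  have e0 : (hx (OnePoint.infty : X p)) = (1, 0) := rfl
  have e1 : (hx ((0 : ZMod p) : X p)) = (0, 1) := rfl
  have e2 : (hx ((1 : ZMod p) : X p)) = (1, 1) := rfl
  rw [e0] at h0
  rw [e1] at h1
  rw [e2] at h2
  obtain ⟨M, hM⟩ : ∃ M : Matrix.GeneralLinearGroup (Fin 2) (ZMod p), M = h⁻¹ * g := ⟨_, rfl⟩
  rw [← hM] at h0 h1 h2
  simp only [mul_one, mul_zero, add_zero, zero_add] at h0 h1 h2
  have hMs : (M : Matrix (Fin 2) (Fin 2) (ZMod p)) =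
      M 0 0 • (1 : Matrix (Fin 2) (Fin 2) (ZMod p)) := by
    ext i j
    fin_cases i <;> fin_cases j
    · simp
    · simp [h1]
    · simp [← h0]
    · simp only [Fin.mk_one, Matrix.smul_apply, Matrix.one_apply_eq, smul_eq_mul, mul_one]
      rw [h1, ← h0] at h2
      simpa using h2.symm
  refine ⟨M 0 0, ?_, ?_⟩
  · intro hz
    have hd : (M : Matrix (Fin 2) (Fin 2) (ZMod p)).det ≠ 0 :=
      (Matrix.isUnit_iff_isUnit_det _).1 M.isUnit |>.ne_zero
    apply hd
    rw [hMs, hz, zero_smul, Matrix.det_zero]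
  · have hg : g = h * M := by
      rw [hM, mul_inv_cancel_left]
    rw [hg, Units.val_mul, hMs]
    rw [Matrix.mul_smul, mul_one]
    simp

private theorem Geo_sq (v : Vc p) : mv v * mv v = nq v • (1 : Matrix (Fin 2) (Fin 2) (ZMod p)) := by
  unfold mv nq
  ext i j
  fin_cases i <;> fin_cases j <;> simp [Matrix.mul_apply, Fin.sum_univ_two] <;> ring

private theorem Geo_tr (v : Vc p) : (mv v).trace = 0 := by
  unfold mv
  rw [Matrix.trace_fin_two]
  simp

private theorem Geo_lin (N : Matrix (Fin 2) (Fin 2) (ZMod p)) (v : Vc p) :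
    (mv v * N).trace = lin (N 0 0 - N 1 1, N 1 0, N 0 1) v := by
  unfold mv lin
  rw [Matrix.trace_fin_two]
  simp [Matrix.mul_apply, Fin.sum_univ_two]
  ring

/-- A permutation `g ≠ 1` is the product of two of the involutions in at most nine ways.

Proof. Let `(x0, y0)` be one pair with `iv x0 * iv y0 = g` and `N = mv x0 * mv y0`. By `gl_prop`
for every such pair `(x, y)` the matrix `mv x * mv y` is a multiple of `N`. As `mv x ^ 2`,
`mv y ^ 2` are scalar and the traces of `mv x`, `mv y` are zero, the traces of `mv x * N` and `mv y * N` are zero.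
The trace of `mv v * N` is `lin l v`, `l = (N 0 0 - N 1 1, N 1 0, N 0 1)`, and `l ≠ 0`, because `N`
is not scalar (`g ≠ 1`). So there are at most three possible `x` and three possible `y`. -/
theorem iv_pairs {B : Finset (Vc p)} (hB : Pl 3 B) (hn : ∀ v ∈ B, nq v ≠ 0) {g : Gm p}
    (hg : g ≠ 1) : ((B ×ˢ B).filter fun q => iv q.1 * iv q.2 = g).card ≤ 9 := by
  classical
  by_cases hex : ((B ×ˢ B).filter fun q => iv q.1 * iv q.2 = g) = ∅
  · rw [hex]
    simp
  obtain ⟨⟨x0, y0⟩, hq0⟩ := Finset.nonempty_iff_ne_empty.2 hex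
  rw [Finset.mem_filter, Finset.mem_product] at hq0
  obtain ⟨⟨hx0, hy0⟩, hg0⟩ := hq0
  simp only at hx0 hy0 hg0
  obtain ⟨N, hN⟩ : ∃ N : Matrix (Fin 2) (Fin 2) (ZMod p), N = mv x0 * mv y0 := ⟨_, rfl⟩
  have key : ∀ q ∈ (B ×ˢ B).filter (fun q => iv q.1 * iv q.2 = g),
      q ∈ (B.filter fun v => lin (N 0 0 - N 1 1, N 1 0, N 0 1) v = 0) ×ˢ
        (B.filter fun v => lin (N 0 0 - N 1 1, N 1 0, N 0 1) v = 0) := by
    rintro ⟨x, y⟩ hq
    rw [Finset.mem_filter, Finset.mem_product] at hq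
    obtain ⟨⟨hx, hy⟩, hgq⟩ := hq
    simp only at hx hy hgq
    obtain ⟨k, hk, hkN⟩ := gl_prop (Geo_gl x (hn x hx) * Geo_gl y (hn y hy))
      (Geo_gl x0 (hn x0 hx0) * Geo_gl y0 (hn y0 hy0)) (fun s => by
        rw [mul_smul, mul_smul, ← Geo_iv, ← Geo_iv, ← Geo_iv, ← Geo_iv,
          ← Equiv.Perm.mul_apply, ← Equiv.Perm.mul_apply, hgq, hg0])
    rw [Units.val_mul, Units.val_mul, Geo_coe, Geo_coe, Geo_coe, Geo_coe, ← hN] at hkN
    have t1 : k * (mv x * N).trace = 0 := by
      have h1 : mv x * (mv x * mv y) = nq x • mv y := by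
        rw [← mul_assoc, Geo_sq, Matrix.smul_mul, one_mul]
      have h2 : (mv x * (k • N)).trace = k * (mv x * N).trace := by
        rw [Matrix.mul_smul, Matrix.trace_smul, smul_eq_mul]
      rw [← h2, ← hkN, h1, Matrix.trace_smul, Geo_tr, smul_zero]
    have t2 : k * (mv y * N).trace = 0 := by
      have h1 : (mv x * mv y) * mv y = nq y • mv x := by
        rw [mul_assoc, Geo_sq, Matrix.mul_smul, mul_one]
      have h2 : ((k • N) * mv y).trace = k * (mv y * N).trace := by
        rw [Matrix.smul_mul, Matrix.trace_smul, smul_eq_mul, Matrix.trace_mul_comm]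
      rw [← h2, ← hkN, h1, Matrix.trace_smul, Geo_tr, smul_zero]
    rw [Geo_lin] at t1 t2
    rw [Finset.mem_product, Finset.mem_filter, Finset.mem_filter]
    exact ⟨⟨hx, (mul_eq_zero.1 t1).resolve_left hk⟩, ⟨hy, (mul_eq_zero.1 t2).resolve_left hk⟩⟩
  have hl : ((N 0 0 - N 1 1, N 1 0, N 0 1) : Vc p) ≠ 0 := by
    intro h
    apply hg
    have a1 := congrArg Prod.fst h
    have a2 := congrArg (fun x => x.2.1) h
    have a3 := congrArg (fun x => x.2.2) h
    simp only [Prod.fst_zero, Prod.snd_zero] at a1 a2 a3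
    rw [← hg0]
    ext s
    rw [Equiv.Perm.mul_apply, Equiv.Perm.one_apply, Geo_iv y0 (hn y0 hy0),
      Geo_iv x0 (hn x0 hx0), ← mul_smul, gl_smul_iff]
    have b : ∀ i j, (Geo_gl x0 (hn x0 hx0) * Geo_gl y0 (hn y0 hy0)) i j = N i j := by
      intro i j
      rw [hN]
      rfl
    rw [b, b, b, b, a2, a3, sub_eq_zero.1 a1]
    ring
  refine (Finset.card_le_card key).trans ?_
  rw [Finset.card_product]
  have h3 := hB _ hl
  calc _ ≤ 3 * 3 := Nat.mul_le_mul h3 h3
    _ = 9 := rfl

end Pool.Agent.MP193G
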