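import Mathlib
import Pool.Agent.Lib.MP_193dd3_co_G.Mob

/-!
# MP_193dd3_co, project G: affine coordinates of the stabiliser of a point
-/

set_option autoImplicit false

open scoped Pointwise

namespace Pool.Agent.MP193G

variable {p : ℕ} [Fact p.Prime]

/-- The Moebius permutations which fix `a`. -/
noncomputable def stb (a : X p) : Subgroup (Gm p) := mob p ⊓ MulAction.stabilizer (Gm p) a

theorem mem_stb {a : X p} {g : Gm p} : g ∈ stb a ↔ g ∈ mob p ∧ g a = a := by
  exact Iff.rfl

private def Stc_val (x : X p) : ZMod p := x.elim 0 id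

private theorem Stc_form {g : Gm p} (hg : g ∈ mob p) (h : g OnePoint.infty = OnePoint.infty) :
    ∃ l t : ZMod p, l ≠ 0 ∧ ∀ x : ZMod p,
      g ((x : ZMod p) : X p) = ((l * x + t : ZMod p) : X p) := by
  obtain ⟨m, hm⟩ := hg
  have hmx : ∀ x : X p, m • x = g x := fun x => by
    rw [← hm]
    rfl
  have hdet : m 0 0 * m 1 1 - m 0 1 * m 1 0 ≠ 0 := by
    have := m.det_ne_zero
    rwa [Matrix.det_fin_two] at this
  have h1 : m • (OnePoint.infty : X p) = OnePoint.infty := by rw [hmx, h]
  rw [gl_smul_iff] at h1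
  have m10 : m 1 0 = 0 := by
    have : (m 0 0 * 1 + m 0 1 * 0) * 0 = (m 1 0 * 1 + m 1 1 * 0) * 1 := h1
    simpa using this.symm
  rw [m10, mul_zero, sub_zero] at hdet
  have m11 : m 1 1 ≠ 0 := right_ne_zero_of_mul hdet
  have m00 : m 0 0 ≠ 0 := left_ne_zero_of_mul hdet
  refine ⟨m 0 0 / m 1 1, m 0 1 / m 1 1, div_ne_zero m00 m11, fun x => ?_⟩
  rw [← hmx, gl_smul_iff]
  change (m 0 0 * x + m 0 1 * 1) * 1 =
    (m 1 0 * x + m 1 1 * 1) * (m 0 0 / m 1 1 * x + m 0 1 / m 1 1)
  rw [m10]
  field_simp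
  ring

/-- Affine coordinates on the stabiliser of `a`.

Proof. Let `a = ∞`. An element `g` of `stb ∞` is given by a matrix with lower left entry zero, so
`g x = l x + t` for all `x ∈ ZMod p` with `l ≠ 0`; put `tr g = t = g 0`, `lam g = l = g 1 - g 0` (values
read as elements of `ZMod p`, junk outside of `stb ∞`). The third statement: the maps `x + t`
with `t ≠ 0` have no fixed point in `ZMod p`. The fourth: the fixed point `b`. The point `a` is moved
to `∞` by conjugation with a Moebius permutation `c`, `c a = ∞` (`mob_two`): `lam' g =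
lam (c * g * c⁻¹)` and so on. -/
theorem stb_coord (a : X p) : ∃ lam tr : Gm p → ZMod p, AffC (stb a) lam tr ∧
    (∀ g ∈ stb a, lam g = 1 → Uni a g) ∧
    ∀ b : ZMod p, ∃ b' : X p, b' ≠ a ∧ ∀ g ∈ stb a, lam g * b + tr g = b → g b' = b' := by
  have hnt : Nontrivial (X p) :=
    ⟨OnePoint.infty, ((0 : ZMod p) : X p), OnePoint.infty_ne_coe (0 : ZMod p)⟩
  obtain ⟨b, hb⟩ := exists_ne a
  obtain ⟨c, hc, hca, -⟩ := mob_two (p := p) hb.symm (OnePoint.infty_ne_coe (0 : ZMod p))
  have hci : c⁻¹ OnePoint.infty = a := by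
    rw [Equiv.Perm.inv_eq_iff_eq]
    exact hca.symm
  have hcf : ∀ g ∈ stb a, (c * g * c⁻¹) OnePoint.infty = OnePoint.infty := by
    intro g hg
    rw [Equiv.Perm.mul_apply, Equiv.Perm.mul_apply, hci, (mem_stb.1 hg).2, hca]
  have hex : ∀ g ∈ stb a, ∃ l t : ZMod p, l ≠ 0 ∧ ∀ x : ZMod p,
      (c * g * c⁻¹) ((x : ZMod p) : X p) = ((l * x + t : ZMod p) : X p) := fun g hg =>
    Stc_form ((mob p).mul_mem ((mob p).mul_mem hc (mem_stb.1 hg).1) ((mob p).inv_mem hc))
      (hcf g hg)
  let tr : Gm p → ZMod p := fun g => Stc_val ((c * g * c⁻¹) ((0 : ZMod p) : X p))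
  let lam : Gm p → ZMod p := fun g => Stc_val ((c * g * c⁻¹) ((1 : ZMod p) : X p)) -
    Stc_val ((c * g * c⁻¹) ((0 : ZMod p) : X p))
  have hkey : ∀ g ∈ stb a, lam g ≠ 0 ∧ ∀ x : ZMod p,
      (c * g * c⁻¹) ((x : ZMod p) : X p) = ((lam g * x + tr g : ZMod p) : X p) := by
    intro g hg
    obtain ⟨l, t, hl, hx⟩ := hex g hg
    have h0 : tr g = t := by
      have : tr g = Stc_val ((c * g * c⁻¹) ((0 : ZMod p) : X p)) := rfl
      rw [this, hx, mul_zero, zero_add]
      rfl
    have h1 : lam g = l := by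
      have h2 : lam g = Stc_val ((c * g * c⁻¹) ((1 : ZMod p) : X p)) - tr g := rfl
      rw [h2, h0, hx, mul_one]
      change l + t - t = l
      ring
    rw [h0, h1]
    exact ⟨hl, hx⟩
  have hval : ∀ x y : ZMod p, ((x : ZMod p) : X p) = ((y : ZMod p) : X p) → x = y :=
    fun x y h => OnePoint.coe_eq_coe.1 h
  have hext : ∀ g ∈ stb a, ∀ h ∈ stb a, lam g = lam h → tr g = tr h → g = h := by
    intro g hg h hh h1 h2
    have h3 : c * g * c⁻¹ = c * h * c⁻¹ := by
      apply Equiv.ext
      intro x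
      induction x using OnePoint.rec with
      | infty => rw [hcf g hg, hcf h hh]
      | coe x => rw [(hkey g hg).2, (hkey h hh).2, h1, h2]
    exact mul_left_cancel (mul_right_cancel h3)
  have hmul : ∀ g ∈ stb a, ∀ h ∈ stb a, ∀ x : ZMod p,
      lam (g * h) * x + tr (g * h) = lam g * (lam h * x + tr h) + tr g := by
    intro g hg h hh x
    apply hval
    rw [← (hkey (g * h) ((stb a).mul_mem hg hh)).2, ← (hkey g hg).2, ← (hkey h hh).2,
      ← Equiv.Perm.mul_apply]
    congr 1
    group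
  refine ⟨lam, tr, ⟨?_, ?_, fun g hg => (hkey g hg).1, hext⟩, ?_, ?_⟩
  · intro g hg h hh
    have h0 := hmul g hg h hh 0
    have h1 := hmul g hg h hh 1
    linear_combination h1 - h0
  · intro g hg h hh
    have h0 := hmul g hg h hh 0
    linear_combination h0
  · intro g hg h1
    refine ⟨(mem_stb.1 hg).2, ?_⟩
    by_cases ht : tr g = 0
    · left
      refine hext g hg 1 (stb a).one_mem ?_ ?_
      · have h2 := hmul 1 (stb a).one_mem 1 (stb a).one_mem 1
        have h3 := hmul 1 (stb a).one_mem 1 (stb a).one_mem 0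
        rw [mul_one (1 : Gm p)] at h2 h3
        have h4 : lam 1 * (lam 1 - 1) = 0 := by linear_combination h3 - h2
        rcases mul_eq_zero.1 h4 with h5 | h5
        · exact absurd h5 (hkey 1 (stb a).one_mem).1
        · rw [h1]
          exact (sub_eq_zero.1 h5).symm
      · have h3 := hmul 1 (stb a).one_mem 1 (stb a).one_mem 0
        rw [mul_one (1 : Gm p)] at h3
        have h4 : lam 1 * tr 1 = 0 := by linear_combination -h3
        rw [ht]
        exact ((mul_eq_zero.1 h4).resolve_left (hkey 1 (stb a).one_mem).1).symm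
    · right
      intro d hd hgd
      have hcd : c d ≠ OnePoint.infty := by
        intro h
        rw [← hca] at h
        exact hd (c.injective h)
      obtain ⟨x, hx⟩ := OnePoint.ne_infty_iff_exists.1 hcd
      have h2 : (c * g * c⁻¹) (c d) = c d := by
        have h5 : c⁻¹ (c d) = d := by simp
        rw [Equiv.Perm.mul_apply, Equiv.Perm.mul_apply, h5, hgd]
      rw [← hx, (hkey g hg).2] at h2
      have h3 := hval _ _ h2
      rw [h1] at h3
      exact ht (by linear_combination h3)
  · intro x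
    refine ⟨c⁻¹ ((x : ZMod p) : X p), ?_, ?_⟩
    · intro h
      rw [Equiv.Perm.inv_eq_iff_eq, hca] at h
      exact OnePoint.coe_ne_infty _ h
    · intro g hg h
      have h2 := (hkey g hg).2 x
      rw [h, Equiv.Perm.mul_apply, Equiv.Perm.mul_apply] at h2
      rw [eq_comm, Equiv.Perm.inv_eq_iff_eq]
      exact h2.symm

end Pool.Agent.MP193G
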