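import Mathlib
import Pool.Agent.Lib.MP_193dd3_co_G.Mob

/-!
# MP_193dd3_co, project G: stabilisers in sets of Moebius permutations
-/

set_option autoImplicit false

open scoped Pointwise

namespace Pool.Agent.MP193G

/-- Some class of `H` with equal image of `a` has at least `|H|/(p + 1)` elements; divide by one of
them. -/
theorem stab_large {p : ℕ} [Fact p.Prime] (H : Finset (Gm p)) (hs : H⁻¹ = H) (a : X p) :
    H.card ≤ (p + 1) * ((H ^ 2).filter fun g => g a = a).card := by
  have h1 : H.card ≤ ((H ^ 2).filter fun g => g a = a).card * (H.image fun h => h a).card := by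
    refine Finset.card_le_mul_card_image H _ fun t ht => ?_
    obtain ⟨h0, hh0, ht0⟩ := Finset.mem_image.1 ht
    refine Finset.card_le_card_of_injOn (fun h => h0⁻¹ * h) ?_ ?_
    · intro h hh
      have hh' := Finset.mem_filter.1 (Finset.mem_coe.1 hh)
      rw [Finset.mem_coe, Finset.mem_filter, pow_two]
      refine ⟨Finset.mul_mem_mul ?_ hh'.1, ?_⟩
      · rw [← hs]
        exact Finset.inv_mem_inv hh0
      · show (h0⁻¹ * h) a = a
        rw [Equiv.Perm.mul_apply, hh'.2, ← ht0]
        exact h0.symm_apply_apply a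
    · intro h _ h' _ hhh
      exact mul_left_cancel hhh
  have h2 : (H.image fun h => h a).card ≤ p + 1 := by
    rw [← card_X (p := p)]
    exact Finset.card_le_univ _
  calc H.card ≤ ((H ^ 2).filter fun g => g a = a).card * (H.image fun h => h a).card := h1
    _ ≤ ((H ^ 2).filter fun g => g a = a).card * (p + 1) := Nat.mul_le_mul_left _ h2
    _ = (p + 1) * ((H ^ 2).filter fun g => g a = a).card := Nat.mul_comm _ _

/-- Few points have a large stabiliser. Proof: by `mob_fix` every `g ≠ 1` has at most two fixed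
points, so `∑_a |{g ∈ W : g ≠ 1, g a = a}| ≤ 2 |W|`, and a point `a` of the left-hand side
contributes at least `m + 1`. -/
theorem fix_sum {p : ℕ} [Fact p.Prime] (W : Finset (Gm p)) (hW : ∀ g ∈ W, g ∈ mob p) (m : ℕ) :
    (Finset.univ.filter fun a : X p => m + 1 < (W.filter fun g => g a = a).card).card * m ≤
      2 * W.card := by
  have h1 : ∀ a ∈ (Finset.univ.filter fun a : X p => m + 1 < (W.filter fun g => g a = a).card),
      m ≤ ((W.erase 1).filter fun g => g a = a).card := by
    intro a ha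
    have h2 := (Finset.mem_filter.1 ha).2
    have h3 : (W.filter fun g => g a = a).erase 1 ⊆ (W.erase 1).filter fun g => g a = a := by
      intro g hg
      have h4 := Finset.mem_erase.1 hg
      have h5 := Finset.mem_filter.1 h4.2
      exact Finset.mem_filter.2 ⟨Finset.mem_erase.2 ⟨h4.1, h5.1⟩, h5.2⟩
    have h4 := Finset.card_le_card h3
    have h5 : (W.filter fun g => g a = a).card ≤ ((W.filter fun g => g a = a).erase 1).card + 1 :=
      Nat.le_add_of_sub_le Finset.pred_card_le_card_erase
    omega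
  have h2 : ∀ g ∈ W.erase 1, (Finset.univ.filter fun a : X p => g a = a).card ≤ 2 := by
    intro g hg
    by_contra hcon
    have h3 := Finset.mem_erase.1 hg
    obtain ⟨a, b, c, ha, hb, hc, hab, hac, hbc⟩ := Finset.two_lt_card_iff.1 (not_le.1 hcon)
    exact h3.1 (mob_fix (hW g h3.2) hab hac hbc (Finset.mem_filter.1 ha).2
      (Finset.mem_filter.1 hb).2 (Finset.mem_filter.1 hc).2)
  calc (Finset.univ.filter fun a : X p => m + 1 < (W.filter fun g => g a = a).card).card * m
      = ∑ a ∈ (Finset.univ.filter fun a : X p => m + 1 < (W.filter fun g => g a = a).card), m := by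
        rw [Finset.sum_const, smul_eq_mul]
    _ ≤ ∑ a ∈ (Finset.univ.filter fun a : X p => m + 1 < (W.filter fun g => g a = a).card),
        ((W.erase 1).filter fun g => g a = a).card := Finset.sum_le_sum h1
    _ ≤ ∑ a : X p, ((W.erase 1).filter fun g => g a = a).card :=
        Finset.sum_le_sum_of_subset (Finset.filter_subset _ _)
    _ = ∑ a : X p, ∑ g ∈ W.erase 1, if g a = a then 1 else 0 := by
        refine Finset.sum_congr rfl fun a _ => ?_
        rw [Finset.card_filter]
    _ = ∑ g ∈ W.erase 1, ∑ a : X p, if g a = a then 1 else 0 := Finset.sum_comm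
    _ = ∑ g ∈ W.erase 1, (Finset.univ.filter fun a : X p => g a = a).card := by
        refine Finset.sum_congr rfl fun g _ => ?_
        rw [Finset.card_filter]
    _ ≤ ∑ g ∈ W.erase 1, 2 := Finset.sum_le_sum h2
    _ = 2 * (W.erase 1).card := by
        rw [Finset.sum_const, smul_eq_mul, Nat.mul_comm]
    _ ≤ 2 * W.card := Nat.mul_le_mul_left _ (Finset.card_le_card (Finset.erase_subset _ _))

/-- Powers of a set with small tripling (Mathlib: `Finset.small_pow_of_small_tripling`). -/
theorem pow_small {Γ : Type} [Group Γ] [DecidableEq Γ] {c : ℝ} (hc : 0 < c) (hc1 : c ≤ 1)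
    (H : Finset Γ) (hs : H⁻¹ = H) (h3 : c * ((H ^ 3).card : ℝ) ≤ H.card) (m : ℕ) (hm : 3 ≤ m) :
    c ^ m * ((H ^ m).card : ℝ) ≤ H.card := by
  have h1 : ((H ^ 3).card : ℝ) ≤ c⁻¹ * H.card := by
    rw [← div_eq_inv_mul, le_div_iff₀ hc, mul_comm]
    exact h3
  have h2 := Finset.small_pow_of_small_tripling hm h1 hs
  have h4 : c ^ m * (c⁻¹ ^ (m - 2)) ≤ 1 := by
    obtain ⟨k, rfl⟩ : ∃ k, m = k + 2 := ⟨m - 2, by omega⟩
    rw [Nat.add_sub_cancel, pow_add, mul_right_comm, ← mul_pow, mul_inv_cancel₀ hc.ne', one_pow,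
      one_mul]
    exact pow_le_one₀ hc.le hc1
  calc c ^ m * ((H ^ m).card : ℝ) ≤ c ^ m * (c⁻¹ ^ (m - 2) * H.card) :=
        mul_le_mul_of_nonneg_left h2 (by positivity)
    _ = (c ^ m * (c⁻¹ ^ (m - 2))) * H.card := by ring
    _ ≤ 1 * H.card := mul_le_mul_of_nonneg_right h4 (Nat.cast_nonneg _)
    _ = H.card := one_mul _

/-- Powers of a subset of a subgroup. -/
theorem pow_mem {Γ : Type} [Group Γ] [DecidableEq Γ] (P : Subgroup Γ) (H : Finset Γ)
    (h : ∀ g ∈ H, g ∈ P) (m : ℕ) : ∀ g ∈ H ^ m, g ∈ P := by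
  induction m with
  | zero =>
    intro g hg
    rw [pow_zero, Finset.mem_one] at hg
    rw [hg]
    exact P.one_mem
  | succ m ih =>
    intro g hg
    rw [pow_succ] at hg
    obtain ⟨x, hx, y, hy, rfl⟩ := Finset.mem_mul.1 hg
    exact P.mul_mem (ih x hx) (h y hy)

end Pool.Agent.MP193G
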