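import Mathlib
import Pool.Agent.Lib.MP_193dd3_co_G.StrA
import Pool.Agent.Lib.MP_193dd3_co_G.Stc
import Pool.Agent.Lib.MP_193dd3_co_G.Aff

/-!
# MP_193dd3_co, project G: the two types of points
-/

set_option autoImplicit false

open scoped Pointwise

namespace Pool.Agent.MP193G

/-- For a typical point `a` the set `H ^ 4` contains many unipotent elements at `a`, or all elements
of `H ^ 2` fixing `a` have a second common fixed point.

Proof. Let `S = {g ∈ H ^ 2 : g a = a}`; it is symmetric, contains `1`, and `|S| ≥ |H|/(p + 1) ≥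
(c/2) p` by `stab_large`. `S ^ (Kst + 1)` is contained in `{g ∈ H ^ (2 (Kst + 1)) : g a = a}`. Apply
`affcls` for `c/2` with the coordinates of `stb_coord a`. In the first case the elements of
`S ^ 2 ⊆ H ^ 4` with `lam g = 1` are the set `Y`. -/
theorem dich {c : ℝ} (hc : 0 < c) : ∃ P0 : ℕ, ∀ (p : ℕ) [Fact p.Prime], P0 ≤ p →
    ∀ H : Finset (Gm p), (∀ g ∈ H, g ∈ mob p) → 1 ∈ H → H⁻¹ = H →
    c * (p : ℝ) ^ 2 ≤ H.card → ∀ a : X p,
    c * (((H ^ (2 * (Kst + 1))).filter fun g => g a = a).card : ℝ) ≤ p →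
    (∃ Y ⊆ H ^ 4, (∀ g ∈ Y, g ∈ mob p ∧ Uni a g) ∧ c / 2 * (p : ℝ) ^ (9 / 10 : ℝ) ≤ Y.card) ∨
      ∃ b : X p, b ≠ a ∧ ∀ g ∈ H ^ 2, g a = a → g b = b := by
  obtain ⟨P0, hP0⟩ := affcls (half_pos hc)
  refine ⟨P0, fun p _ hp H hH h1 hs hcard a hsm => ?_⟩
  obtain ⟨lam, tr, hA, hU, hF⟩ := stb_coord a
  have hp0 : (0 : ℝ) < p := by exact_mod_cast (Fact.out : p.Prime).pos
  have hp1 : (1 : ℝ) ≤ p := by exact_mod_cast (Fact.out : p.Prime).one_lt.le
  have hinv : (H ^ 2)⁻¹ = H ^ 2 := by rw [← inv_pow, hs]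
  have hmem : ∀ g, g ∈ (H ^ 2).filter (fun g : Gm p => g a = a) ↔ g ∈ H ^ 2 ∧ g a = a :=
    fun g => Finset.mem_filter
  have hpow : ∀ n : ℕ, ∀ g ∈ ((H ^ 2).filter fun g : Gm p => g a = a) ^ n, g a = a := by
    intro n g hg
    have := pow_mem (MulAction.stabilizer (Gm p) a) ((H ^ 2).filter fun g : Gm p => g a = a)
      (fun x hx => by
        rw [MulAction.mem_stabilizer_iff]
        exact ((hmem x).1 hx).2) n g hg
    rwa [MulAction.mem_stabilizer_iff] at this
  have hsub : ∀ n : ℕ, ((H ^ 2).filter fun g : Gm p => g a = a) ^ n ⊆ H ^ (2 * n) := by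
    intro n
    rw [pow_mul]
    exact Finset.pow_subset_pow_left (Finset.filter_subset _ _)
  have hSstb : ∀ g ∈ (H ^ 2).filter (fun g : Gm p => g a = a), g ∈ stb a := by
    intro g hg
    rw [mem_stb]
    exact ⟨pow_mem (mob p) H hH 2 g ((hmem g).1 hg).1, ((hmem g).1 hg).2⟩
  have hS1 : (1 : Gm p) ∈ (H ^ 2).filter (fun g : Gm p => g a = a) := by
    rw [hmem]
    refine ⟨?_, rfl⟩
    rw [sq]
    exact Finset.mul_mem_mul h1 h1 |> fun h => by simpa using h
  have hSinv : ((H ^ 2).filter fun g : Gm p => g a = a)⁻¹ =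
      (H ^ 2).filter fun g : Gm p => g a = a := by
    ext g
    rw [Finset.mem_inv', hmem, hmem]
    constructor
    · rintro ⟨h2, h3⟩
      refine ⟨?_, ?_⟩
      · rw [← hinv, Finset.mem_inv']
        exact h2
      · have := congrArg g h3
        rw [← Equiv.Perm.mul_apply, mul_inv_cancel, Equiv.Perm.one_apply] at this
        exact this.symm
    · rintro ⟨h2, h3⟩
      refine ⟨?_, ?_⟩
      · rw [← hinv, Finset.mem_inv', inv_inv]
        exact h2
      · have := congrArg (g⁻¹ : Gm p) h3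
        rw [← Equiv.Perm.mul_apply, inv_mul_cancel, Equiv.Perm.one_apply] at this
        exact this.symm
  have hScard : c / 2 * (p : ℝ) ≤ ((H ^ 2).filter fun g : Gm p => g a = a).card := by
    have h2 : (H.card : ℝ) ≤ ((p : ℝ) + 1) * ((H ^ 2).filter fun g : Gm p => g a = a).card := by
      exact_mod_cast stab_large H hs a
    have h3 : (0 : ℝ) ≤ ((H ^ 2).filter fun g : Gm p => g a = a).card := Nat.cast_nonneg _
    by_contra hcon
    rw [not_le] at hcon
    nlinarith [mul_lt_mul_of_pos_left hcon hp0, mul_nonneg h3 (sub_nonneg.2 hp1)]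
  have hSpow : c / 2 * (((((H ^ 2).filter fun g : Gm p => g a = a) ^ (Kst + 1)).card : ℕ) : ℝ) ≤
      p := by
    have h2 : (((((H ^ 2).filter fun g : Gm p => g a = a) ^ (Kst + 1)).card : ℕ) : ℝ) ≤
        (((H ^ (2 * (Kst + 1))).filter fun g : Gm p => g a = a).card : ℕ) := by
      refine Nat.cast_le.2 (Finset.card_le_card fun g hg => ?_)
      rw [Finset.mem_filter]
      exact ⟨hsub _ hg, hpow _ g hg⟩
    have h3 : (0 : ℝ) ≤ (((H ^ (2 * (Kst + 1))).filter fun g : Gm p => g a = a).card : ℕ) :=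
      Nat.cast_nonneg _
    nlinarith [mul_le_mul_of_nonneg_left h2 hc.le, mul_nonneg hc.le h3]
  rcases hP0 p hp (stb a) lam tr hA _ hSstb hS1 hSinv hScard hSpow with h | ⟨b, hb⟩
  · left
    refine ⟨_, ?_, ?_, h⟩
    · intro g hg
      have := hsub 2 (Finset.mem_filter.1 hg).1
      simpa using this
    · intro g hg
      have h2 : g ∈ stb a := pow_mem (stb a) _ hSstb 2 g (Finset.mem_filter.1 hg).1
      exact ⟨(mem_stb.1 h2).1, hU g h2 (Finset.mem_filter.1 hg).2⟩
  · right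
    obtain ⟨b', hb', hfix⟩ := hF b
    refine ⟨b', hb', fun g hg hga => ?_⟩
    have h2 : g ∈ (H ^ 2).filter (fun g : Gm p => g a = a) := (hmem g).2 ⟨hg, hga⟩
    exact hfix g (hSstb g h2) (hb g h2)

end Pool.Agent.MP193G
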