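import Mathlib
import Pool.Agent.Lib.MP_193dd3_co_G.Mob

/-!
# MP_193dd3_co, project G: products of elements of two tori
-/

set_option autoImplicit false

open scoped Pointwise

namespace Pool.Agent.MP193G

variable {p : ℕ} [Fact p.Prime]

private theorem ttt_hx (x : ZMod p) : hx ((x : ZMod p) : X p) = (x, 1) := rfl

private theorem ttt_hxi : hx (OnePoint.infty : X p) = (1, 0) := rfl

private theorem ttt_diag {α : Gm p} (hα : α ∈ mob p) (hi : α OnePoint.infty = OnePoint.infty)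
    (h0 : α ((0 : ZMod p) : X p) = ((0 : ZMod p) : X p)) :
    ∃ k : ZMod p, k ≠ 0 ∧ ∀ x : ZMod p, α (x : X p) = ((k * x : ZMod p) : X p) := by
  obtain ⟨A, rfl⟩ := hα
  have h1 : A • (OnePoint.infty : X p) = OnePoint.infty := hi
  have h2 : A • ((0 : ZMod p) : X p) = ((0 : ZMod p) : X p) := h0
  rw [gl_smul_iff, ttt_hxi] at h1
  rw [gl_smul_iff, ttt_hx] at h2
  have hdet : A.1.det ≠ 0 := A.det_ne_zero
  rw [Matrix.det_fin_two] at hdet
  have h1' : A 1 0 = 0 := by simpa using h1.symm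
  have h2' : A 0 1 = 0 := by simpa using h2
  have hA00 : A 0 0 ≠ 0 := by
    intro h
    apply hdet
    rw [h, h1']
    ring
  have hA11 : A 1 1 ≠ 0 := by
    intro h
    apply hdet
    rw [h, h1']
    ring
  refine ⟨A 0 0 / A 1 1, div_ne_zero hA00 hA11, fun x => ?_⟩
  change A • (x : X p) = _
  rw [gl_smul_iff, ttt_hx, ttt_hx]
  change (A 0 0 * x + A 0 1 * 1) * 1 = (A 1 0 * x + A 1 1 * 1) * (A 0 0 / A 1 1 * x)
  rw [h1', h2']
  field_simp
  ring

private theorem ttt_one {α : Gm p} (hi : α OnePoint.infty = OnePoint.infty)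
    (h : ∀ x : ZMod p, α (x : X p) = ((1 * x : ZMod p) : X p)) : α = 1 := by
  apply Equiv.ext
  intro s
  induction s using OnePoint.rec with
  | infty => exact hi
  | coe x => rw [h x, one_mul]; rfl

private theorem ttt_sol {T : Matrix.GeneralLinearGroup (Fin 2) (ZMod p)} {c d : ZMod p}
    (hc0 : c ≠ 0) (hd0 : d ≠ 0) (hcd : c ≠ d)
    (e1 : T • (c : X p) = (c : X p)) (e2 : T • (d : X p) = (d : X p))
    (hT : T 1 0 ≠ 0) {k l : ZMod p} (hk : k ≠ 0)
    (e3 : T • ((l * c : ZMod p) : X p) = ((k⁻¹ * c : ZMod p) : X p))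
    (e4 : T • ((l * d : ZMod p) : X p) = ((k⁻¹ * d : ZMod p) : X p)) :
    k = l ∧ (k = 1 ∨ (k + 1) * T 0 0 = T 1 0 * (c + d)) := by
  rw [gl_smul_iff, ttt_hx] at e1 e2
  rw [gl_smul_iff, ttt_hx, ttt_hx] at e3 e4
  change (T 0 0 * c + T 0 1 * 1) * 1 = (T 1 0 * c + T 1 1 * 1) * c at e1
  change (T 0 0 * d + T 0 1 * 1) * 1 = (T 1 0 * d + T 1 1 * 1) * d at e2
  change (T 0 0 * (l * c) + T 0 1 * 1) * 1 = (T 1 0 * (l * c) + T 1 1 * 1) * (k⁻¹ * c) at e3
  change (T 0 0 * (l * d) + T 0 1 * 1) * 1 = (T 1 0 * (l * d) + T 1 1 * 1) * (k⁻¹ * d) at e4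
  have e3' : k * (T 0 0 * (l * c) + T 0 1) = (T 1 0 * (l * c) + T 1 1) * c := by
    have := congrArg (k * ·) e3
    field_simp at this
    linear_combination this
  have e4' : k * (T 0 0 * (l * d) + T 0 1) = (T 1 0 * (l * d) + T 1 1) * d := by
    have := congrArg (k * ·) e4
    field_simp at this
    linear_combination this
  have hcd' : c - d ≠ 0 := sub_ne_zero.mpr hcd
  have f1 : T 0 0 - T 1 1 = T 1 0 * (c + d) := by
    apply mul_right_cancel₀ hcd'
    linear_combination e1 - e2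
  have f2 : T 0 1 = - (T 1 0 * c * d) := by
    linear_combination e1 - c * f1
  have f3 : k * l * T 0 0 - T 1 1 = l * T 1 0 * (c + d) := by
    apply mul_right_cancel₀ hcd'
    linear_combination e3' - e4'
  have f4 : k * T 0 1 = - (l * T 1 0 * c * d) := by
    linear_combination e3' - c * f3
  have hkl : k = l := by
    have h : T 1 0 * c * d ≠ 0 := mul_ne_zero (mul_ne_zero hT hc0) hd0
    apply mul_right_cancel₀ h
    linear_combination k * f2 - f4
  refine ⟨hkl, ?_⟩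
  subst hkl
  have h : (k - 1) * ((k + 1) * T 0 0 - T 1 0 * (c + d)) = 0 := by
    linear_combination f3 - f1
  rcases mul_eq_zero.mp h with h | h
  · exact Or.inl (sub_eq_zero.mp h)
  · exact Or.inr (sub_eq_zero.mp h)

private theorem ttt_key {c d : X p} (hc : OnePoint.infty ≠ c) (hc0 : ((0 : ZMod p) : X p) ≠ c)
    (hd : OnePoint.infty ≠ d) (hd0 : ((0 : ZMod p) : X p) ≠ d) (hcd : c ≠ d) {t : Gm p}
    (ht : t ∈ mob p) (htc : t c = c) (htd : t d = d) (ht1 : t ≠ 1)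
    (hti : t OnePoint.infty ≠ ((0 : ZMod p) : X p)) {α β α' β' : Gm p}
    (hα : α ∈ mob p ∧ α OnePoint.infty = OnePoint.infty ∧
      α ((0 : ZMod p) : X p) = ((0 : ZMod p) : X p))
    (hβ : β ∈ mob p ∧ β OnePoint.infty = OnePoint.infty ∧
      β ((0 : ZMod p) : X p) = ((0 : ZMod p) : X p))
    (hα' : α' ∈ mob p ∧ α' OnePoint.infty = OnePoint.infty ∧
      α' ((0 : ZMod p) : X p) = ((0 : ZMod p) : X p))
    (hβ' : β' ∈ mob p ∧ β' OnePoint.infty = OnePoint.infty ∧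
      β' ((0 : ZMod p) : X p) = ((0 : ZMod p) : X p))
    (h1 : (α * t * β) c = c) (h2 : (α * t * β) d = d)
    (h1' : (α' * t * β') c = c) (h2' : (α' * t * β') d = d)
    (hne : ¬ (α = 1 ∧ β = 1)) (hne' : ¬ (α' = 1 ∧ β' = 1)) : α = α' ∧ β = β' := by
  obtain ⟨T, rfl⟩ := ht
  induction c using OnePoint.rec with
  | infty => exact absurd rfl hc
  | coe c =>
  induction d using OnePoint.rec with
  | infty => exact absurd rfl hd
  | coe d =>
  have hc0' : c ≠ 0 := fun h => hc0 (by rw [h])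
  have hd0' : d ≠ 0 := fun h => hd0 (by rw [h])
  have hcd' : c ≠ d := fun h => hcd (by rw [h])
  have e1 : T • (c : X p) = (c : X p) := htc
  have e2 : T • (d : X p) = (d : X p) := htd
  have hT0 : T 0 0 ≠ 0 := by
    intro h
    apply hti
    change T • (OnePoint.infty : X p) = ((0 : ZMod p) : X p)
    rw [gl_smul_iff, ttt_hx, ttt_hxi]
    change (T 0 0 * 1 + T 0 1 * 0) * 1 = (T 1 0 * 1 + T 1 1 * 0) * 0
    rw [h]
    ring
  have hT1 : T 1 0 ≠ 0 := by
    intro h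
    apply ht1
    have e1' := e1
    have e2' := e2
    rw [gl_smul_iff, ttt_hx] at e1' e2'
    change (T 0 0 * c + T 0 1 * 1) * 1 = (T 1 0 * c + T 1 1 * 1) * c at e1'
    change (T 0 0 * d + T 0 1 * 1) * 1 = (T 1 0 * d + T 1 1 * 1) * d at e2'
    rw [h] at e1' e2'
    have f1 : T 0 0 = T 1 1 := by
      apply mul_right_cancel₀ (sub_ne_zero.mpr hcd')
      linear_combination e1' - e2'
    have f2 : T 0 1 = 0 := by
      linear_combination e1' - c * f1
    apply Equiv.ext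
    intro s
    change T • s = s
    rw [gl_smul_iff, h, f2, f1]
    ring
  have main : ∀ {α β : Gm p}, (α ∈ mob p ∧ α OnePoint.infty = OnePoint.infty ∧
      α ((0 : ZMod p) : X p) = ((0 : ZMod p) : X p)) →
      (β ∈ mob p ∧ β OnePoint.infty = OnePoint.infty ∧
      β ((0 : ZMod p) : X p) = ((0 : ZMod p) : X p)) →
      (α * MulAction.toPermHom (Matrix.GeneralLinearGroup (Fin 2) (ZMod p)) (X p) T * β)
        (c : X p) = (c : X p) →
      (α * MulAction.toPermHom (Matrix.GeneralLinearGroup (Fin 2) (ZMod p)) (X p) T * β)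
        (d : X p) = (d : X p) → ¬ (α = 1 ∧ β = 1) →
      ∃ k : ZMod p, (k + 1) * T 0 0 = T 1 0 * (c + d) ∧
        (∀ x : ZMod p, α (x : X p) = ((k * x : ZMod p) : X p)) ∧
        (∀ x : ZMod p, β (x : X p) = ((k * x : ZMod p) : X p)) := by
    intro α β hα hβ h1 h2 hne
    obtain ⟨k, hk, hkα⟩ := ttt_diag hα.1 hα.2.1 hα.2.2
    obtain ⟨l, hl, hlβ⟩ := ttt_diag hβ.1 hβ.2.1 hβ.2.2
    have conv : ∀ x : ZMod p,
        (α * MulAction.toPermHom (Matrix.GeneralLinearGroup (Fin 2) (ZMod p)) (X p) T * β)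
        (x : X p) = (x : X p) →
        T • ((l * x : ZMod p) : X p) = ((k⁻¹ * x : ZMod p) : X p) := by
      intro x hx'
      change α (T • (β (x : X p))) = (x : X p) at hx'
      rw [hlβ] at hx'
      apply α.injective
      rw [hx', hkα, ← mul_assoc, mul_inv_cancel₀ hk, one_mul]
    obtain ⟨hkl, hs⟩ := ttt_sol hc0' hd0' hcd' e1 e2 hT1 hk (conv c h1) (conv d h2)
    subst hkl
    rcases hs with hs | hs
    · subst hs
      exact absurd ⟨ttt_one hα.2.1 hkα, ttt_one hβ.2.1 hlβ⟩ hne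
    · exact ⟨k, hs, hkα, hlβ⟩
  obtain ⟨k, hk, hkα, hkβ⟩ := main hα hβ h1 h2 hne
  obtain ⟨k', hk', hkα', hkβ'⟩ := main hα' hβ' h1' h2' hne'
  have hkk : k = k' := by
    apply mul_right_cancel₀ hT0
    linear_combination hk - hk'
  subst hkk
  constructor
  · apply Equiv.ext
    intro s
    induction s using OnePoint.rec with
    | infty => rw [hα.2.1, hα'.2.1]
    | coe x => rw [hkα, hkα']
  · apply Equiv.ext
    intro s
    induction s using OnePoint.rec with
    | infty => rw [hβ.2.1, hβ'.2.1]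
    | coe x => rw [hkβ, hkβ']

private theorem ttt_gen {a b c d : X p} (hab : a ≠ b) (hac : a ≠ c) (had : a ≠ d) (hbc : b ≠ c)
    (hbd : b ≠ d) (hcd : c ≠ d) {t : Gm p} (ht : t ∈ mob p) (htc : t c = c) (htd : t d = d)
    (ht1 : t ≠ 1) (hti : t a ≠ b) {α β α' β' : Gm p}
    (hα : α ∈ mob p ∧ α a = a ∧ α b = b) (hβ : β ∈ mob p ∧ β a = a ∧ β b = b)
    (hα' : α' ∈ mob p ∧ α' a = a ∧ α' b = b) (hβ' : β' ∈ mob p ∧ β' a = a ∧ β' b = b)
    (h1 : (α * t * β) c = c) (h2 : (α * t * β) d = d)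
    (h1' : (α' * t * β') c = c) (h2' : (α' * t * β') d = d)
    (hne : ¬ (α = 1 ∧ β = 1)) (hne' : ¬ (α' = 1 ∧ β' = 1)) : α = α' ∧ β = β' := by
  obtain ⟨h, hh, ha, hb⟩ := mob_two (c := (OnePoint.infty : X p)) (d := ((0 : ZMod p) : X p)) hab
    (OnePoint.infty_ne_coe _)
  have hia : h⁻¹ OnePoint.infty = a := by rw [← ha]; simp
  have hib : h⁻¹ ((0 : ZMod p) : X p) = b := by rw [← hb]; simp
  have cm : ∀ {g : Gm p}, g ∈ mob p → h * g * h⁻¹ ∈ mob p := fun hg =>
    (mob p).mul_mem ((mob p).mul_mem hh hg) ((mob p).inv_mem hh)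
  have cf : ∀ {g : Gm p} {x : X p}, g x = x → (h * g * h⁻¹) (h x) = h x := by
    intro g x hx'
    simp only [Equiv.Perm.mul_apply, Equiv.Perm.inv_def, Equiv.symm_apply_apply]
    rw [hx']
  have co' : ∀ {g : Gm p}, (g ∈ mob p ∧ g a = a ∧ g b = b) →
      (h * g * h⁻¹ ∈ mob p ∧ (h * g * h⁻¹) OnePoint.infty = OnePoint.infty ∧
      (h * g * h⁻¹) ((0 : ZMod p) : X p) = ((0 : ZMod p) : X p)) := by
    intro g hg
    refine ⟨cm hg.1, ?_, ?_⟩
    · have := cf hg.2.1
      rwa [ha] at this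
    · have := cf hg.2.2
      rwa [hb] at this
  have c1 : ∀ {g : Gm p}, h * g * h⁻¹ = 1 → g = 1 := by
    intro g hg
    have : h * g = h := by
      rw [mul_inv_eq_one] at hg
      exact hg
    exact mul_eq_left.mp this
  have cp : ∀ {u v w : Gm p}, (h * u * h⁻¹) * (h * v * h⁻¹) * (h * w * h⁻¹) =
      h * (u * v * w) * h⁻¹ := by
    intro u v w
    group
  have key := ttt_key (c := h c) (d := h d) (t := h * t * h⁻¹) (α := h * α * h⁻¹)
    (β := h * β * h⁻¹) (α' := h * α' * h⁻¹) (β' := h * β' * h⁻¹)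
    (by rw [← ha]; exact h.injective.ne hac) (by rw [← hb]; exact h.injective.ne hbc)
    (by rw [← ha]; exact h.injective.ne had) (by rw [← hb]; exact h.injective.ne hbd)
    (h.injective.ne hcd) (cm ht) (cf htc) (cf htd) (fun e => ht1 (c1 e))
    (by
      rw [← ha, ← hb]
      simp only [Equiv.Perm.mul_apply, Equiv.Perm.inv_def, Equiv.symm_apply_apply]
      exact h.injective.ne hti)
    (co' hα) (co' hβ) (co' hα') (co' hβ')
    (by rw [cp]; exact cf h1) (by rw [cp]; exact cf h2)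
    (by rw [cp]; exact cf h1') (by rw [cp]; exact cf h2')
    (fun e => hne ⟨c1 e.1, c1 e.2⟩) (fun e => hne' ⟨c1 e.1, c1 e.2⟩)
  exact ⟨mul_left_cancel (mul_right_cancel key.1), mul_left_cancel (mul_right_cancel key.2)⟩

/-- Products `s * t * s'` with `s, s'` fixing `a, b` and `t` fixing `c, d`, all four different.

Proof. For all `t ∈ Z` with at most two exceptions the following holds: there are at most two pairs
`(α, β)` of Moebius permutations fixing `a`, `b` such that `α * t * β` fixes `c`, `d`. This is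
enough: if `s * t * s' = σ * τ * σ'` then `(α, β) = (σ⁻¹ * s, s' * σ'⁻¹)` is such a pair and
determines `(σ, τ, σ')` for given `(s, t, s')`.
By conjugation (`mob_two`) `a = ∞`, `b = 0`, so `c, d ∈ ZMod p` are different and not zero. The
exceptions are `t = 1` and `t x = - c d / x`. Let `t` be given by the matrix `[[t1, t2], [t3, t4]]`;
it fixes `c` and `d`: `t3 c² + (t4 - t1) c - t2 = 0` and the same for `d`, so
`t2 = - c d t3`, `t4 - t1 = - (c + d) t3`, and `t3 ≠ 0` as `t ≠ 1`. The permutations `α`, `β` are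
`x ↦ k x`, `x ↦ l x`, and `α * t * β` is given by `[[k l t1, k t2], [l t3, t4]]`. It fixes `c` and
`d`: `k t2 = - c d l t3`, so `k = l`; `t4 - k² t1 = - (c + d) k t3`. With `e = (c + d) t3`,
`t4 = t1 - e`: `(1 - k) (t1 (1 + k) - e) = 0`. So `k = 1` or `t1 (1 + k) = e`. If `t1 ≠ 0` there is
one solution of the second equation; if `t1 = 0` and `e ≠ 0` none; `t1 = 0` and `e = 0` is the
exceptional `t`. -/
theorem ttt {a b c d : X p} (hab : a ≠ b) (hac : a ≠ c) (had : a ≠ d) (hbc : b ≠ c) (hbd : b ≠ d)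
    (hcd : c ≠ d) (Y Z : Finset (Gm p)) (hY : ∀ g ∈ Y, g ∈ mob p ∧ g a = a ∧ g b = b)
    (hZ : ∀ g ∈ Z, g ∈ mob p ∧ g c = c ∧ g d = d) :
    Y.card ^ 2 * Z.card ≤ 2 * (Y * Z * Y).card + 2 * Y.card ^ 2 := by
  classical
  obtain ⟨W, hW⟩ : ∃ W, W = Z.filter fun t => ¬ (t = 1 ∨ t a = b) := ⟨_, rfl⟩
  have hWZ : W ⊆ Z := by
    rw [hW]
    exact Finset.filter_subset _ _
  have hexc : (Z.filter fun t => t = 1 ∨ t a = b).card ≤ 2 := by
    rw [Finset.filter_or]
    refine (Finset.card_union_le _ _).trans ?_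
    have h1 : (Z.filter fun t => t = 1).card ≤ 1 := by
      rw [Finset.card_le_one]
      intro x hx' y hy'
      rw [(Finset.mem_filter.mp hx').2, (Finset.mem_filter.mp hy').2]
    have h2 : (Z.filter fun t => t a = b).card ≤ 1 := by
      rw [Finset.card_le_one]
      intro x hx' y hy'
      obtain ⟨hx1, hx2⟩ := Finset.mem_filter.mp hx'
      obtain ⟨hy1, hy2⟩ := Finset.mem_filter.mp hy'
      obtain ⟨hxm, hxc, hxd⟩ := hZ x hx1
      obtain ⟨hym, hyc, hyd⟩ := hZ y hy1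
      have hfix : ∀ {z : X p}, x z = y z → (x⁻¹ * y) z = z := by
        intro z hz
        rw [Equiv.Perm.mul_apply, ← hz]
        simp
      have : x⁻¹ * y = 1 := mob_fix ((mob p).mul_mem ((mob p).inv_mem hxm) hym) hac had hcd
        (hfix (hx2.trans hy2.symm)) (hfix (hxc.trans hyc.symm)) (hfix (hxd.trans hyd.symm))
      exact inv_mul_eq_one.mp this
    omega
  have hsplit : Z.card = (Z.filter fun t => t = 1 ∨ t a = b).card + W.card := by
    rw [hW]
    exact (Finset.card_filter_add_card_filter_not _).symm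
  have hmain : (Y ×ˢ W ×ˢ Y).card ≤ 2 * ((Y ×ˢ W ×ˢ Y).image
      fun q => q.1 * q.2.1 * q.2.2).card := by
    refine Finset.card_le_mul_card_image _ 2 fun g _ => ?_
    by_contra hlt
    push Not at hlt
    obtain ⟨q0, q1, q2, h0, h1, h2, h01, h02, h12⟩ := Finset.two_lt_card_iff.mp hlt
    obtain ⟨s0, t0, r0⟩ := q0
    obtain ⟨s1, t1, r1⟩ := q1
    obtain ⟨s2, t2, r2⟩ := q2
    rw [Finset.mem_filter, Finset.mem_product, Finset.mem_product] at h0 h1 h2
    obtain ⟨⟨hs0, ht0, hr0⟩, hg0⟩ := h0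
    obtain ⟨⟨hs1, ht1, hr1⟩, hg1⟩ := h1
    obtain ⟨⟨hs2, ht2, hr2⟩, hg2⟩ := h2
    dsimp only at hs0 ht0 hr0 hg0 hs1 ht1 hr1 hg1 hs2 ht2 hr2 hg2
    have ht0' : t0 ≠ 1 ∧ t0 a ≠ b := by
      rw [hW, Finset.mem_filter] at ht0
      exact not_or.mp ht0.2
    have hdiv : ∀ {x y : Gm p}, x ∈ Y → y ∈ Y →
        (x⁻¹ * y ∈ mob p ∧ (x⁻¹ * y) a = a ∧ (x⁻¹ * y) b = b) := by
      intro x y hx' hy'
      obtain ⟨hx1, hx2, hx3⟩ := hY x hx'
      obtain ⟨hy1, hy2, hy3⟩ := hY y hy'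
      refine ⟨(mob p).mul_mem ((mob p).inv_mem hx1) hy1, ?_, ?_⟩
      · rw [Equiv.Perm.mul_apply, hy2]
        exact (Equiv.Perm.inv_eq_iff_eq).mpr hx2.symm
      · rw [Equiv.Perm.mul_apply, hy3]
        exact (Equiv.Perm.inv_eq_iff_eq).mpr hx3.symm
    have hdiv' : ∀ {x y : Gm p}, x ∈ Y → y ∈ Y →
        (x * y⁻¹ ∈ mob p ∧ (x * y⁻¹) a = a ∧ (x * y⁻¹) b = b) := by
      intro x y hx' hy'
      obtain ⟨hx1, hx2, hx3⟩ := hY x hx'
      obtain ⟨hy1, hy2, hy3⟩ := hY y hy'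
      refine ⟨(mob p).mul_mem hx1 ((mob p).inv_mem hy1), ?_, ?_⟩
      · rw [Equiv.Perm.mul_apply, (Equiv.Perm.inv_eq_iff_eq).mpr hy2.symm, hx2]
      · rw [Equiv.Perm.mul_apply, (Equiv.Perm.inv_eq_iff_eq).mpr hy3.symm, hx3]
    have e1 : (s1⁻¹ * s0) * t0 * (r0 * r1⁻¹) = t1 := by
      have : s1⁻¹ * (s0 * t0 * r0) * r1⁻¹ = t1 := by
        rw [hg0, ← hg1]
        group
      rw [← this]
      group
    have e2 : (s2⁻¹ * s0) * t0 * (r0 * r2⁻¹) = t2 := by
      have : s2⁻¹ * (s0 * t0 * r0) * r2⁻¹ = t2 := by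
        rw [hg0, ← hg2]
        group
      rw [← this]
      group
    obtain ⟨hm0, hc0, hd0⟩ := hZ t0 (hWZ ht0)
    obtain ⟨hm1, hc1, hd1⟩ := hZ t1 (hWZ ht1)
    obtain ⟨hm2, hc2, hd2⟩ := hZ t2 (hWZ ht2)
    have key := ttt_gen hab hac had hbc hbd hcd hm0 hc0 hd0 ht0'.1 ht0'.2
      (hdiv hs1 hs0) (hdiv' hr0 hr1) (hdiv hs2 hs0) (hdiv' hr0 hr2)
      (by rw [e1]; exact hc1) (by rw [e1]; exact hd1)
      (by rw [e2]; exact hc2) (by rw [e2]; exact hd2)
      (by
        rintro ⟨ha1, ha2⟩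
        rw [ha1, ha2, one_mul, mul_one] at e1
        apply h01
        rw [inv_mul_eq_one] at ha1
        rw [mul_inv_eq_one] at ha2
        rw [ha1, ha2, e1])
      (by
        rintro ⟨ha1, ha2⟩
        rw [ha1, ha2, one_mul, mul_one] at e2
        apply h02
        rw [inv_mul_eq_one] at ha1
        rw [mul_inv_eq_one] at ha2
        rw [ha1, ha2, e2])
    apply h12
    have k1 : s1 = s2 := inv_injective (mul_right_cancel key.1)
    have k2 : r1 = r2 := inv_injective (mul_left_cancel key.2)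
    have k3 : t1 = t2 := by
      rw [← e1, ← e2, key.1, key.2]
    rw [k1, k2, k3]
  have himg : ((Y ×ˢ W ×ˢ Y).image fun q => q.1 * q.2.1 * q.2.2) ⊆ Y * Z * Y := by
    intro g hg
    obtain ⟨q, hq, rfl⟩ := Finset.mem_image.mp hg
    rw [Finset.mem_product, Finset.mem_product] at hq
    exact Finset.mul_mem_mul (Finset.mul_mem_mul hq.1 (hWZ hq.2.1)) hq.2.2
  have hcard := Finset.card_le_card himg
  rw [Finset.card_product, Finset.card_product] at hmain
  have h3 : Y.card ^ 2 * W.card ≤ 2 * (Y * Z * Y).card := by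
    calc Y.card ^ 2 * W.card = Y.card * (W.card * Y.card) := by ring
      _ ≤ _ := hmain
      _ ≤ 2 * (Y * Z * Y).card := Nat.mul_le_mul_left 2 hcard
  have h4 : Z.card ≤ 2 + W.card := by omega
  calc Y.card ^ 2 * Z.card ≤ Y.card ^ 2 * (2 + W.card) := Nat.mul_le_mul_left _ h4
    _ = Y.card ^ 2 * W.card + 2 * Y.card ^ 2 := by ring
    _ ≤ 2 * (Y * Z * Y).card + 2 * Y.card ^ 2 := Nat.add_le_add_right h3 _

end Pool.Agent.MP193G
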