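import Mathlib
import Pool.Agent.Lib.MP_193dd3_co_G.Mob

/-!
# MP_193dd3_co, project G: products of unipotent elements
-/

set_option autoImplicit false

open scoped Pointwise

namespace Pool.Agent.MP193G

variable {p : ℕ} [Fact p.Prime]

/-- The upper unipotent matrix. -/
private noncomputable def GU (s : ZMod p) : Matrix.GeneralLinearGroup (Fin 2) (ZMod p) :=
  Matrix.GeneralLinearGroup.mkOfDetNeZero !![1, s; 0, 1] (by
    rw [Matrix.det_fin_two_of]
    simp)

/-- The lower unipotent matrix. -/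
private noncomputable def GD (t : ZMod p) : Matrix.GeneralLinearGroup (Fin 2) (ZMod p) :=
  Matrix.GeneralLinearGroup.mkOfDetNeZero !![1, 0; t, 1] (by
    rw [Matrix.det_fin_two_of]
    simp)

private noncomputable def ph (m : Matrix.GeneralLinearGroup (Fin 2) (ZMod p)) : Gm p :=
  MulAction.toPermHom (Matrix.GeneralLinearGroup (Fin 2) (ZMod p)) (X p) m

private theorem ph_mul (m n : Matrix.GeneralLinearGroup (Fin 2) (ZMod p)) :
    ph (m * n) = ph m * ph n := by
  unfold ph
  exact map_mul _ _ _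

private theorem GU_coe (s : ZMod p) : ((GU s : Matrix.GeneralLinearGroup (Fin 2) (ZMod p)) :
    Matrix (Fin 2) (Fin 2) (ZMod p)) = !![1, s; 0, 1] := rfl

private theorem GD_coe (s : ZMod p) : ((GD s : Matrix.GeneralLinearGroup (Fin 2) (ZMod p)) :
    Matrix (Fin 2) (Fin 2) (ZMod p)) = !![1, 0; s, 1] := rfl

private theorem smul_inf (m : Matrix.GeneralLinearGroup (Fin 2) (ZMod p)) :
    m • (OnePoint.infty : X p) = OnePoint.infty ↔ m 1 0 = 0 := by
  rw [gl_smul_iff]
  show (m 0 0 * 1 + m 0 1 * 0) * 0 = (m 1 0 * 1 + m 1 1 * 0) * 1 ↔ _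
  constructor
  · intro h
    linear_combination -h
  · intro h
    rw [h]
    ring

private theorem smul_coe (m : Matrix.GeneralLinearGroup (Fin 2) (ZMod p)) (x : ZMod p) :
    m • (x : X p) = (x : X p) ↔ m 0 0 * x + m 0 1 = (m 1 0 * x + m 1 1) * x := by
  rw [gl_smul_iff]
  show (m 0 0 * x + m 0 1 * 1) * 1 = (m 1 0 * x + m 1 1 * 1) * x ↔ _
  constructor
  · intro h
    linear_combination h
  · intro h
    linear_combination h

private theorem uni_inf {g : Gm p} (hg : g ∈ mob p) (hu : Uni OnePoint.infty g) :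
    ∃ s, g = ph (GU s) := by
  obtain ⟨m, hm⟩ := hg
  have hmx : ∀ x : X p, m • x = g x := fun x => by
    rw [← hm]
    rfl
  have hdet : m 0 0 * m 1 1 - m 0 1 * m 1 0 ≠ 0 := by
    have := m.det_ne_zero
    rwa [Matrix.det_fin_two] at this
  have h10 : m 1 0 = 0 := by
    rw [← smul_inf, hmx]
    exact hu.1
  have h0011 : m 0 0 = m 1 1 := by
    by_contra hne
    have hne' : m 1 1 - m 0 0 ≠ 0 := fun h => hne (by linear_combination -h)
    rcases hu.2 with h1 | h1
    · have e0 : m • ((0 : ZMod p) : X p) = ((0 : ZMod p) : X p) := by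
        rw [hmx, h1]
        rfl
      have e1 : m • ((1 : ZMod p) : X p) = ((1 : ZMod p) : X p) := by
        rw [hmx, h1]
        rfl
      rw [smul_coe] at e0 e1
      rw [h10] at e0 e1
      apply hne
      linear_combination e1 - e0
    · apply h1 ((m 0 1 / (m 1 1 - m 0 0) : ZMod p) : X p) (OnePoint.coe_ne_infty _)
      rw [← hmx, smul_coe, h10]
      field_simp
      ring
  have h00 : m 0 0 ≠ 0 := by
    intro h
    apply hdet
    rw [h, h10]
    ring
  refine ⟨m 0 1 / m 0 0, ?_⟩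
  apply Equiv.ext
  intro x
  rw [← hmx]
  have h2 : GU (m 0 1 / m 0 0) • x = ph (GU (m 0 1 / m 0 0)) x := rfl
  rw [← h2, gl_smul_iff]
  have h3 := (gl_smul_iff (GU (m 0 1 / m 0 0)) x _).1 rfl
  have h4 : (1 * (hx x).1 + m 0 1 / m 0 0 * (hx x).2) * (hx (GU (m 0 1 / m 0 0) • x)).2 =
      (0 * (hx x).1 + 1 * (hx x).2) * (hx (GU (m 0 1 / m 0 0) • x)).1 := h3
  have h5 : m 0 1 = m 0 0 * (m 0 1 / m 0 0) := by field_simp
  generalize hc : m 0 1 / m 0 0 = c at h4 h5 ⊢
  rw [h5, h10, ← h0011]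
  linear_combination (m 0 0) * h4

private theorem uni_zero {g : Gm p} (hg : g ∈ mob p) (hu : Uni ((0 : ZMod p) : X p) g) :
    ∃ t, g = ph (GD t) := by
  obtain ⟨m, hm⟩ := hg
  have hmx : ∀ x : X p, m • x = g x := fun x => by
    rw [← hm]
    rfl
  have hdet : m 0 0 * m 1 1 - m 0 1 * m 1 0 ≠ 0 := by
    have := m.det_ne_zero
    rwa [Matrix.det_fin_two] at this
  have h01 : m 0 1 = 0 := by
    have h : m • ((0 : ZMod p) : X p) = ((0 : ZMod p) : X p) := by
      rw [hmx]
      exact hu.1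
    rw [smul_coe] at h
    linear_combination h
  have h0011 : m 0 0 = m 1 1 := by
    by_contra hne
    have hne' : m 0 0 - m 1 1 ≠ 0 := fun h => hne (by linear_combination h)
    rcases hu.2 with h1 | h1
    · have e0 : m • (OnePoint.infty : X p) = OnePoint.infty := by
        rw [hmx, h1]
        rfl
      have e1 : m • ((1 : ZMod p) : X p) = ((1 : ZMod p) : X p) := by
        rw [hmx, h1]
        rfl
      rw [smul_inf] at e0
      rw [smul_coe, e0, h01] at e1
      apply hne
      linear_combination e1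
    · by_cases h10 : m 1 0 = 0
      · apply h1 OnePoint.infty (OnePoint.infty_ne_coe _)
        rw [← hmx, smul_inf]
        exact h10
      · have hx0 : (m 0 0 - m 1 1) / m 1 0 ≠ 0 := div_ne_zero hne' h10
        apply h1 (((m 0 0 - m 1 1) / m 1 0 : ZMod p) : X p)
          (fun h => hx0 (OnePoint.coe_eq_coe.1 h))
        rw [← hmx, smul_coe, h01]
        field_simp
        ring
  have h00 : m 0 0 ≠ 0 := by
    intro h
    apply hdet
    rw [h, h01]
    ring
  refine ⟨m 1 0 / m 0 0, ?_⟩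
  apply Equiv.ext
  intro x
  rw [← hmx]
  have h2 : GD (m 1 0 / m 0 0) • x = ph (GD (m 1 0 / m 0 0)) x := rfl
  rw [← h2, gl_smul_iff]
  have h3 := (gl_smul_iff (GD (m 1 0 / m 0 0)) x _).1 rfl
  have h4 : (1 * (hx x).1 + 0 * (hx x).2) * (hx (GD (m 1 0 / m 0 0) • x)).2 =
      (m 1 0 / m 0 0 * (hx x).1 + 1 * (hx x).2) * (hx (GD (m 1 0 / m 0 0) • x)).1 := h3
  have h5 : m 1 0 = m 0 0 * (m 1 0 / m 0 0) := by field_simp
  generalize hc : m 1 0 / m 0 0 = c at h4 h5 ⊢
  rw [h5, h01, ← h0011]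
  linear_combination (m 0 0) * h4

private theorem triple_eq {s t r s' t' r' : ZMod p} (ht : t ≠ 0)
    (h : ph (GU s' * GD t' * GU r') = ph (GU s * GD t * GU r)) :
    (s' = s ∧ t' = t ∧ r' = r) ∨ (s' = s + 2 / t ∧ t' = -t ∧ r' = r + 2 / t) := by
  have hM : ∀ s t r : ZMod p, ((GU s * GD t * GU r :
      Matrix.GeneralLinearGroup (Fin 2) (ZMod p)) : Matrix (Fin 2) (Fin 2) (ZMod p)) =
      !![1 + s * t, (1 + s * t) * r + s; t, t * r + 1] := by
    intro s t r
    rw [Units.val_mul, Units.val_mul, GU_coe, GD_coe, GU_coe, Matrix.mul_fin_two,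
      Matrix.mul_fin_two]
    congr 1
    ext i j
    fin_cases i <;> fin_cases j <;> simp
  set M : Matrix.GeneralLinearGroup (Fin 2) (ZMod p) := GU s * GD t * GU r with hMd
  set M' : Matrix.GeneralLinearGroup (Fin 2) (ZMod p) := GU s' * GD t' * GU r' with hMd'
  have hN : ∀ x : X p, (M⁻¹ * M') • x = x := by
    intro x
    rw [mul_smul]
    have h1 : M' • x = M • x := by
      have := congrArg (fun e : Gm p => e x) h
      exact this
    rw [h1, inv_smul_smul]
  set N : Matrix.GeneralLinearGroup (Fin 2) (ZMod p) := M⁻¹ * M' with hNd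
  have hMN : M' = M * N := by
    rw [hNd, mul_inv_cancel_left]
  have n10 : N 1 0 = 0 := (smul_inf N).1 (hN _)
  have n01 : N 0 1 = 0 := by
    have := (smul_coe N 0).1 (hN _)
    linear_combination this
  have n11 : N 1 1 = N 0 0 := by
    have := (smul_coe N 1).1 (hN _)
    rw [n10, n01] at this
    linear_combination -this
  have hval : ((M' : Matrix.GeneralLinearGroup (Fin 2) (ZMod p)) :
      Matrix (Fin 2) (Fin 2) (ZMod p)) = (M : Matrix (Fin 2) (Fin 2) (ZMod p)) *
      (N : Matrix (Fin 2) (Fin 2) (ZMod p)) := by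
    rw [hMN, Units.val_mul]
  have hij : ∀ i j, (M' : Matrix (Fin 2) (Fin 2) (ZMod p)) i j =
      (M : Matrix (Fin 2) (Fin 2) (ZMod p)) i j * N 0 0 := by
    intro i j
    rw [hval, Matrix.mul_apply, Fin.sum_univ_two]
    have a1 : (N : Matrix (Fin 2) (Fin 2) (ZMod p)) 1 0 = 0 := n10
    have a2 : (N : Matrix (Fin 2) (Fin 2) (ZMod p)) 0 1 = 0 := n01
    have a3 : (N : Matrix (Fin 2) (Fin 2) (ZMod p)) 1 1 = N 0 0 := n11
    have a4 : (N : Matrix (Fin 2) (Fin 2) (ZMod p)) 0 0 = N 0 0 := rfl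
    fin_cases j
    · show (M : Matrix (Fin 2) (Fin 2) (ZMod p)) i 0 * (N : Matrix (Fin 2) (Fin 2) (ZMod p)) 0 0
        + (M : Matrix (Fin 2) (Fin 2) (ZMod p)) i 1 *
          (N : Matrix (Fin 2) (Fin 2) (ZMod p)) 1 0 = _
      rw [a1]
      simp
    · show (M : Matrix (Fin 2) (Fin 2) (ZMod p)) i 0 * (N : Matrix (Fin 2) (Fin 2) (ZMod p)) 0 1
        + (M : Matrix (Fin 2) (Fin 2) (ZMod p)) i 1 *
          (N : Matrix (Fin 2) (Fin 2) (ZMod p)) 1 1 = _
      rw [a2, a3]
      simp
  generalize N 0 0 = k at hij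
  rw [hMd, hMd', hM, hM] at hij
  have e00 : 1 + s' * t' = (1 + s * t) * k := hij 0 0
  have e01 : (1 + s' * t') * r' + s' = ((1 + s * t) * r + s) * k := hij 0 1
  have e10 : t' = t * k := hij 1 0
  have e11 : t' * r' + 1 = (t * r + 1) * k := hij 1 1
  have hk : k * k = 1 := by
    have h1 : (1 + s' * t') * (t' * r' + 1) - ((1 + s' * t') * r' + s') * t' = 1 := by ring
    have h2 : (1 + s * t) * (t * r + 1) - ((1 + s * t) * r + s) * t = 1 := by ring
    rw [e01, e11, e00, e10] at h1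
    linear_combination h1 - k * k * h2
  rcases mul_self_eq_one_iff.1 hk with rfl | rfl
  · left
    have ht' : t' = t := by rw [e10]; ring
    rw [ht'] at e00 e11
    refine ⟨?_, ht', ?_⟩
    · apply mul_right_cancel₀ ht
      linear_combination e00
    · apply mul_left_cancel₀ ht
      linear_combination e11
  · right
    have ht' : t' = -t := by rw [e10]; ring
    rw [ht'] at e00 e11
    have h2t : t * (2 / t) = 2 := by field_simp
    refine ⟨?_, ht', ?_⟩
    · apply mul_right_cancel₀ ht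
      linear_combination -e00 - h2t
    · apply mul_left_cancel₀ ht
      linear_combination -e11 - h2t

omit [Fact p.Prime] in
private theorem uni_conj {a c : X p} {e g : Gm p} (he : e c = a) (hg : Uni a g) :
    Uni c (e⁻¹ * g * e) := by
  have hc : e⁻¹ a = c := by rw [Equiv.Perm.inv_eq_iff_eq]; exact he.symm
  refine ⟨?_, ?_⟩
  · rw [Equiv.Perm.mul_apply, Equiv.Perm.mul_apply, he, hg.1, hc]
  · rcases hg.2 with h | h
    · left
      rw [h]
      simp
    · right
      intro b hb hb'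
      rw [Equiv.Perm.mul_apply, Equiv.Perm.mul_apply, Equiv.Perm.inv_eq_iff_eq] at hb'
      refine h (e b) (fun h1 => hb ?_) hb'
      apply e.injective
      rw [h1, he]

/-- Products `u * v * w` with `u, w` unipotent at `a`, `v` unipotent at `b ≠ a`.

Proof. It is enough to show that every element is such a product with `v ≠ 1` in at most two ways.
By conjugation (`mob_two`) `a = ∞`, `b = 0`: then `u x = x + s`, `w x = x + r` and `v x = x/(t x + 1)`
(`Uni`: a matrix with zero lower left entry whose permutation has no other fixed point than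
`∞` is a multiple of `[[1, s], [0, 1]]`; transposed for `0`), `t ≠ 0`. The product is given by the matrix
`[[1 + s t, (1 + s t) r + s], [t, t r + 1]]` with determinant `1`. If another triple `(s', t', r')` gives
the same permutation then the matrices are proportional with a factor `k`, `k² = 1`. For
`k = 1`: `t' = t`, then `s' = s`, `r' = r`. For `k = -1`: `t' = -t`, `s' = s + 2/t`, `r' = r + 2/t`. -/
theorem uuu {a b : X p} (hab : a ≠ b) (Y Z : Finset (Gm p)) (hY : ∀ g ∈ Y, g ∈ mob p ∧ Uni a g)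
    (hZ : ∀ g ∈ Z, g ∈ mob p ∧ Uni b g) :
    Y.card ^ 2 * Z.card ≤ 2 * (Y * Z * Y).card + Y.card ^ 2 := by
  classical
  obtain ⟨e, he, he1, he2⟩ := mob_two (p := p) (a := OnePoint.infty) (b := ((0 : ZMod p) : X p))
    (OnePoint.infty_ne_coe _) hab
  have hYs : ∀ g ∈ Y, ∃ s, g = e * ph (GU s) * e⁻¹ := by
    intro g hg
    obtain ⟨s, hs⟩ := uni_inf ((mob p).mul_mem ((mob p).mul_mem ((mob p).inv_mem he)
      (hY g hg).1) he) (uni_conj he1 (hY g hg).2)
    refine ⟨s, ?_⟩
    rw [← hs]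
    group
  have hZs : ∀ g ∈ Z, ∃ s, g = e * ph (GD s) * e⁻¹ := by
    intro g hg
    obtain ⟨s, hs⟩ := uni_zero ((mob p).mul_mem ((mob p).mul_mem ((mob p).inv_mem he)
      (hZ g hg).1) he) (uni_conj he2 (hZ g hg).2)
    refine ⟨s, ?_⟩
    rw [← hs]
    group
  have hG0 : ph (GD (0 : ZMod p)) = 1 := by
    apply Equiv.ext
    intro x
    have h1 : GD (0 : ZMod p) • x = ph (GD (0 : ZMod p)) x := rfl
    rw [← h1, Equiv.Perm.one_apply, gl_smul_iff]
    show (1 * (hx x).1 + 0 * (hx x).2) * (hx x).2 = (0 * (hx x).1 + 1 * (hx x).2) * (hx x).1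
    ring
  let F : Gm p × Gm p × Gm p → Gm p := fun q => q.1 * q.2.1 * q.2.2
  let S : Finset (Gm p × Gm p × Gm p) := Y ×ˢ ((Z.erase 1) ×ˢ Y)
  have himg : S.image F ⊆ Y * Z * Y := by
    intro g hg
    obtain ⟨q, hq, rfl⟩ := Finset.mem_image.1 hg
    have hq1 := Finset.mem_product.1 hq
    have hq2 := Finset.mem_product.1 hq1.2
    exact Finset.mul_mem_mul (Finset.mul_mem_mul hq1.1 (Finset.mem_of_mem_erase hq2.1)) hq2.2
  have hprod : ∀ s t r : ZMod p, e * ph (GU s) * e⁻¹ * (e * ph (GD t) * e⁻¹) *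
      (e * ph (GU r) * e⁻¹) = e * ph (GU s * GD t * GU r) * e⁻¹ := by
    intro s t r
    rw [ph_mul, ph_mul]
    group
  have hfib : ∀ g ∈ S.image F, (S.filter fun q => F q = g).card ≤ 2 := by
    intro g hg
    obtain ⟨q, hq, rfl⟩ := Finset.mem_image.1 hg
    obtain ⟨u, v, w⟩ := q
    have hq1 := Finset.mem_product.1 hq
    have hq2 := Finset.mem_product.1 hq1.2
    have hu : u ∈ Y := hq1.1
    have hv : v ∈ Z.erase 1 := hq2.1
    have hw : w ∈ Y := hq2.2
    obtain ⟨s, rfl⟩ := hYs u hu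
    obtain ⟨t, rfl⟩ := hZs v (Finset.mem_of_mem_erase hv)
    obtain ⟨r, rfl⟩ := hYs w hw
    have ht : t ≠ 0 := by
      rintro rfl
      apply Finset.ne_of_mem_erase hv
      rw [hG0]
      simp
    have hsub : (S.filter fun q => F q = F (e * ph (GU s) * e⁻¹, e * ph (GD t) * e⁻¹,
        e * ph (GU r) * e⁻¹)) ⊆ {(e * ph (GU s) * e⁻¹, e * ph (GD t) * e⁻¹,
        e * ph (GU r) * e⁻¹), (e * ph (GU (s + 2 / t)) * e⁻¹, e * ph (GD (-t)) * e⁻¹,
        e * ph (GU (r + 2 / t)) * e⁻¹)} := by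
      intro q' hq'
      obtain ⟨u', v', w'⟩ := q'
      obtain ⟨hq'S, hq'F⟩ := Finset.mem_filter.1 hq'
      have hq1' := Finset.mem_product.1 hq'S
      have hq2' := Finset.mem_product.1 hq1'.2
      have hu' : u' ∈ Y := hq1'.1
      have hv' : v' ∈ Z.erase 1 := hq2'.1
      have hw' : w' ∈ Y := hq2'.2
      obtain ⟨s', rfl⟩ := hYs u' hu'
      obtain ⟨t', rfl⟩ := hZs v' (Finset.mem_of_mem_erase hv')
      obtain ⟨r', rfl⟩ := hYs w' hw'
      have hF : e * ph (GU s') * e⁻¹ * (e * ph (GD t') * e⁻¹) * (e * ph (GU r') * e⁻¹) =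
          e * ph (GU s) * e⁻¹ * (e * ph (GD t) * e⁻¹) * (e * ph (GU r) * e⁻¹) := hq'F
      rw [hprod, hprod] at hF
      have hF' : ph (GU s' * GD t' * GU r') = ph (GU s * GD t * GU r) :=
        mul_left_cancel (mul_right_cancel hF)
      rcases triple_eq ht hF' with ⟨rfl, rfl, rfl⟩ | ⟨rfl, rfl, rfl⟩
      · exact Finset.mem_insert_self _ _
      · exact Finset.mem_insert_of_mem (Finset.mem_singleton_self _)
    exact (Finset.card_le_card hsub).trans Finset.card_le_two
  have h1 : S.card ≤ 2 * (S.image F).card := Finset.card_le_mul_card_image S 2 hfib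
  have h2 : (S.image F).card ≤ (Y * Z * Y).card := Finset.card_le_card himg
  have h3 : S.card = Y.card * ((Z.erase 1).card * Y.card) := by
    show (Y ×ˢ ((Z.erase 1) ×ˢ Y)).card = _
    rw [Finset.card_product, Finset.card_product]
  have h4 : Z.card ≤ (Z.erase 1).card + 1 := by
    have := Finset.pred_card_le_card_erase (s := Z) (a := (1 : Gm p))
    omega
  have h5 : Y.card ^ 2 * Z.card ≤ Y.card ^ 2 * ((Z.erase 1).card + 1) :=
    Nat.mul_le_mul_left _ h4
  have h6 : Y.card ^ 2 * ((Z.erase 1).card + 1) =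
      Y.card * ((Z.erase 1).card * Y.card) + Y.card ^ 2 := by ring
  omega

end Pool.Agent.MP193G
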