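import Mathlib
import Pool.Agent.Lib.MP_193dd3_co_G.StrA
import Pool.Agent.Lib.MP_193dd3_co_G.Uuu
import Pool.Agent.Lib.MP_193dd3_co_G.Ttt

/-!
# MP_193dd3_co, project G: two unipotent points, two tori
-/

set_option autoImplicit false

open scoped Pointwise

namespace Pool.Agent.MP193G

/-- There are no two points with many unipotent elements.

Proof. `Y * Z * Y ⊆ H ^ 12`, so `uuu` gives `|Y|² (|Z| - 1) ≤ 2 |H ^ 12| ≤ 2 p²/c`, but the left-hand
side is at least `(c p^0.9)² (c p^0.9 - 1)`. -/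
theorem uni_once {c : ℝ} (hc : 0 < c) : ∃ P0 : ℕ, ∀ (p : ℕ) [Fact p.Prime], P0 ≤ p →
    ∀ H : Finset (Gm p), c * ((H ^ 12).card : ℝ) ≤ (p : ℝ) ^ 2 → ∀ a b : X p, a ≠ b →
    ∀ Y ⊆ H ^ 4, ∀ Z ⊆ H ^ 4, (∀ g ∈ Y, g ∈ mob p ∧ Uni a g) → (∀ g ∈ Z, g ∈ mob p ∧ Uni b g) →
    c * (p : ℝ) ^ (9 / 10 : ℝ) ≤ Y.card → c * (p : ℝ) ^ (9 / 10 : ℝ) ≤ Z.card → False := by
  have t1 : Filter.Tendsto (fun n : ℕ => (n : ℝ) ^ (9 / 10 : ℝ)) Filter.atTop Filter.atTop :=
    (tendsto_rpow_atTop (by norm_num)).comp tendsto_natCast_atTop_atTop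
  have t2 : Filter.Tendsto (fun n : ℕ => (n : ℝ) ^ (7 / 10 : ℝ)) Filter.atTop Filter.atTop :=
    (tendsto_rpow_atTop (by norm_num)).comp tendsto_natCast_atTop_atTop
  obtain ⟨P0, hP0⟩ := Filter.eventually_atTop.1
    ((t1.eventually_ge_atTop (2 / c)).and (t2.eventually_gt_atTop (4 / c ^ 4)))
  refine ⟨P0, fun p _ hp H hH a b hab Y hY Z hZ hYU hZU hYc hZc => ?_⟩
  obtain ⟨e1, e2⟩ := hP0 p hp
  have hp0 : (0 : ℝ) < p := by exact_mod_cast (Fact.out : p.Prime).pos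
  have h1 := uuu hab Y Z hYU hZU
  have h2 : Y * Z * Y ⊆ H ^ 12 := by
    have : H ^ 12 = H ^ 4 * H ^ 4 * H ^ 4 := by
      rw [← pow_add, ← pow_add]
    rw [this]
    exact Finset.mul_subset_mul (Finset.mul_subset_mul hY hZ) hY
  have h3 : ((Y * Z * Y).card : ℝ) ≤ ((H ^ 12).card : ℝ) := by
    exact_mod_cast Finset.card_le_card h2
  have h4 : (Y.card : ℝ) ^ 2 * Z.card ≤ 2 * ((Y * Z * Y).card : ℝ) + (Y.card : ℝ) ^ 2 := by
    exact_mod_cast h1
  obtain ⟨t, ht⟩ : ∃ t, t = (p : ℝ) ^ (9 / 10 : ℝ) := ⟨_, rfl⟩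
  rw [← ht] at hYc hZc e1
  have ht0 : 0 < t := by
    rw [ht]
    positivity
  have hct : 2 ≤ c * t := by
    rw [div_le_iff₀ hc] at e1
    linarith
  have ht3 : t ^ 3 = (p : ℝ) ^ 2 * (p : ℝ) ^ (7 / 10 : ℝ) := by
    rw [ht, ← Real.rpow_natCast, ← Real.rpow_mul hp0.le, ← Real.rpow_natCast, ← Real.rpow_add hp0]
    norm_num
  have h5 : 4 * (p : ℝ) ^ 2 < c ^ 4 * t ^ 3 := by
    rw [ht3]
    rw [div_lt_iff₀ (by positivity)] at e2
    have : 0 < (p : ℝ) ^ 2 := by positivity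
    nlinarith
  have h6 : (c * t) ^ 2 * (c * t / 2) ≤ (Y.card : ℝ) ^ 2 * ((Z.card : ℝ) - 1) := by
    refine mul_le_mul ?_ ?_ (by positivity) (by positivity)
    · exact pow_le_pow_left₀ (by positivity) hYc 2
    · linarith
  have h7 : c * ((Y.card : ℝ) ^ 2 * ((Z.card : ℝ) - 1)) ≤ 2 * (p : ℝ) ^ 2 := by
    have : c * ((Y.card : ℝ) ^ 2 * ((Z.card : ℝ) - 1)) ≤ c * (2 * ((H ^ 12).card : ℝ)) :=
      mul_le_mul_of_nonneg_left (by linarith) hc.le
    linarith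
  have h8 := mul_le_mul_of_nonneg_left h6 hc.le
  have h9 : c * ((c * t) ^ 2 * (c * t / 2)) = c ^ 4 * t ^ 3 / 2 := by ring
  linarith

/-- Two tori with many elements have a common fixed point.

Proof. Let `S = {g ∈ H ^ 2 : g a = a}` and `S' = {g ∈ H ^ 2 : g a' = a'}`; by `stab_large` they have at
least `(c/2) p` elements. `S * S' * S ⊆ H ^ 6`. If the four points are different `ttt` gives
`|S|² (|S'| - 2) ≤ 2 |H ^ 6| ≤ 2 p²/c`, false for large `p`. -/
theorem tor_meet {c : ℝ} (hc : 0 < c) : ∃ P0 : ℕ, ∀ (p : ℕ) [Fact p.Prime], P0 ≤ p →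
    ∀ H : Finset (Gm p), (∀ g ∈ H, g ∈ mob p) → H⁻¹ = H → c * (p : ℝ) ^ 2 ≤ H.card →
    c * ((H ^ 6).card : ℝ) ≤ (p : ℝ) ^ 2 → ∀ a b a' b' : X p, b ≠ a → b' ≠ a' → a ≠ a' →
    (∀ g ∈ H ^ 2, g a = a → g b = b) → (∀ g ∈ H ^ 2, g a' = a' → g b' = b') →
    a' = b ∨ b' = a ∨ b' = b := by
  obtain ⟨P1, hP1⟩ := exists_nat_gt (8 / c)
  obtain ⟨P2, hP2⟩ := exists_nat_gt (32 / c ^ 4)
  refine ⟨max P1 P2, fun p _ hp H hm hs hcard h6 a b a' b' hba hba' haa' hfix hfix' => ?_⟩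
  have hp1 : (P1 : ℝ) ≤ p := by exact_mod_cast (le_max_left _ _).trans hp
  have hp2 : (P2 : ℝ) ≤ p := by exact_mod_cast (le_max_right _ _).trans hp
  have hp0 : (1 : ℝ) ≤ p := by exact_mod_cast (Fact.out : p.Prime).pos
  by_contra hcon
  push Not at hcon
  obtain ⟨n1, n2, n3⟩ := hcon
  set S := (H ^ 2).filter fun g => g a = a with hS
  set S' := (H ^ 2).filter fun g => g a' = a' with hS'
  have hmob : ∀ g ∈ H ^ 2, g ∈ mob p := pow_mem (mob p) H hm 2
  have key : ∀ x : X p, c * p / 2 ≤ (((H ^ 2).filter fun g => g x = x).card : ℝ) := by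
    intro x
    have h1 := stab_large H hs x
    have h2 : (H.card : ℝ) ≤ (p + 1) * (((H ^ 2).filter fun g => g x = x).card : ℝ) := by
      exact_mod_cast h1
    have h3 : (p + 1 : ℝ) * (((H ^ 2).filter fun g => g x = x).card : ℝ) ≤
        (2 * p) * (((H ^ 2).filter fun g => g x = x).card : ℝ) :=
      mul_le_mul_of_nonneg_right (by linarith) (Nat.cast_nonneg _)
    have h4 : (p : ℝ) * (c * p / 2) ≤ p * (((H ^ 2).filter fun g => g x = x).card : ℝ) := by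
      nlinarith
    exact le_of_mul_le_mul_left h4 (by linarith)
  have hSc := key a
  have hSc' := key a'
  rw [← hS] at hSc
  rw [← hS'] at hSc'
  have h1 := ttt (Ne.symm hba) haa' (Ne.symm n2) (Ne.symm n1) (Ne.symm n3) (Ne.symm hba') S S'
    (fun g hg => by
      rw [hS, Finset.mem_filter] at hg
      exact ⟨hmob g hg.1, hg.2, hfix g hg.1 hg.2⟩)
    (fun g hg => by
      rw [hS', Finset.mem_filter] at hg
      exact ⟨hmob g hg.1, hg.2, hfix' g hg.1 hg.2⟩)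
  have h2 : S * S' * S ⊆ H ^ 6 := by
    have : H ^ 6 = H ^ 2 * H ^ 2 * H ^ 2 := by
      rw [← pow_add, ← pow_add]
    rw [this]
    exact Finset.mul_subset_mul (Finset.mul_subset_mul (Finset.filter_subset _ _)
      (Finset.filter_subset _ _)) (Finset.filter_subset _ _)
  have h3 : ((S * S' * S).card : ℝ) ≤ ((H ^ 6).card : ℝ) := by
    exact_mod_cast Finset.card_le_card h2
  have h4 : (S.card : ℝ) ^ 2 * S'.card ≤ 2 * ((S * S' * S).card : ℝ) + 2 * (S.card : ℝ) ^ 2 := by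
    exact_mod_cast h1
  have h5 : 8 ≤ c * p := by
    have : 8 / c < p := hP1.trans_le hp1
    rw [div_lt_iff₀ hc] at this
    linarith
  have h7 : 32 < c ^ 4 * p := by
    have : 32 / c ^ 4 < p := hP2.trans_le hp2
    rw [div_lt_iff₀ (by positivity)] at this
    linarith
  have h8 : (c * p / 2) ^ 2 * (c * p / 4) ≤ (S.card : ℝ) ^ 2 * ((S'.card : ℝ) - 2) := by
    refine mul_le_mul ?_ ?_ (by positivity) (by positivity)
    · exact pow_le_pow_left₀ (by positivity) hSc 2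
    · linarith
  have h9 : c * ((S.card : ℝ) ^ 2 * ((S'.card : ℝ) - 2)) ≤ 2 * (p : ℝ) ^ 2 := by
    have : c * ((S.card : ℝ) ^ 2 * ((S'.card : ℝ) - 2)) ≤ c * (2 * ((H ^ 6).card : ℝ)) :=
      mul_le_mul_of_nonneg_left (by linarith) hc.le
    linarith
  have h10 := mul_le_mul_of_nonneg_left h8 hc.le
  have h11 : c * ((c * p / 2) ^ 2 * (c * p / 4)) = c ^ 4 * p * (p : ℝ) ^ 2 / 16 := by ring
  have h12 : 0 < (p : ℝ) ^ 2 := by positivity
  nlinarith

/-- Pairwise intersecting pairs `{a, b a}`. Proof: choose `a1 ∈ T`; for the other `a ∈ T` with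
`a ≠ b a1` we have `b a ∈ {a1, b a1}`; take the more frequent value. (For empty `T` take any `z`.) -/
theorem center {α : Type} [DecidableEq α] [Nonempty α] (T : Finset α) (b : α → α)
    (hb : ∀ a ∈ T, b a ≠ a)
    (h : ∀ a ∈ T, ∀ a' ∈ T, a ≠ a' → a' = b a ∨ b a' = a ∨ b a' = b a) :
    ∃ z : α, T.card ≤ 2 * (T.filter fun a => b a = z).card + 2 := by
  rcases T.eq_empty_or_nonempty with rfl | ⟨a1, ha1⟩
  · exact ⟨Classical.arbitrary α, by simp⟩
  have h1 : T ⊆ {a1, b a1} ∪ (T.filter (fun a => b a = a1) ∪ T.filter fun a => b a = b a1) := by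
    intro a ha
    simp only [Finset.mem_union, Finset.mem_insert, Finset.mem_singleton, Finset.mem_filter]
    by_cases h2 : a = a1
    · exact Or.inl (Or.inl h2)
    · rcases h a1 ha1 a ha (fun h => h2 h.symm) with h3 | h3 | h3
      · exact Or.inl (Or.inr h3)
      · exact Or.inr (Or.inl ⟨ha, h3⟩)
      · exact Or.inr (Or.inr ⟨ha, h3⟩)
  have h2 : T.card ≤ 2 + ((T.filter fun a => b a = a1).card +
      (T.filter fun a => b a = b a1).card) := by
    refine (Finset.card_le_card h1).trans ((Finset.card_union_le _ _).trans ?_)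
    exact add_le_add Finset.card_le_two (Finset.card_union_le _ _)
  rcases le_total (T.filter fun a => b a = a1).card (T.filter fun a => b a = b a1).card with h3 | h3
  · exact ⟨b a1, by omega⟩
  · exact ⟨a1, by omega⟩

end Pool.Agent.MP193G
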