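import Mathlib
import Pool.Agent.Lib.MP_193dd3_co_G.StrB
import Pool.Agent.Lib.MP_193dd3_co_G.StrC

/-!
# MP_193dd3_co, project G: approximate groups of size about `p ^ 2`
-/

set_option autoImplicit false

open scoped Pointwise

namespace Pool.Agent.MP193G

/-- At most `p / 4` points have a large stabiliser. -/
private theorem str_few {p : ℕ} [Fact p.Prime] {c0 : ℝ} (h0 : 0 < c0) (h1 : 16 * c0 ≤ 1)
    (W : Finset (Gm p)) (hW : ∀ g ∈ W, g ∈ mob p) (hc : 16 * c0 * (W.card : ℝ) ≤ (p : ℝ) ^ 2) :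
    ∃ B : Finset (X p), 4 * (B.card : ℝ) ≤ p ∧
      ∀ a, a ∉ B → c0 * ((W.filter fun g => g a = a).card : ℝ) ≤ p := by
  have hp1 : (1 : ℝ) ≤ p := by exact_mod_cast (Fact.out : p.Prime).one_lt.le
  have hx : (16 : ℝ) * p ≤ p / c0 := by
    rw [le_div_iff₀ h0]
    nlinarith
  obtain ⟨m, hm⟩ : ∃ m : ℕ, m + 1 = ⌊(p : ℝ) / c0⌋₊ := by
    refine ⟨⌊(p : ℝ) / c0⌋₊ - 1, Nat.sub_add_cancel ?_⟩
    rw [Nat.one_le_floor_iff]
    linarith
  have hm1 : ((m : ℝ) + 1) * c0 ≤ p := by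
    have := Nat.floor_le (show (0 : ℝ) ≤ p / c0 by positivity)
    rw [← hm, le_div_iff₀ h0] at this
    exact_mod_cast this
  have hm2 : (p : ℝ) / c0 < (m : ℝ) + 2 := by
    have := Nat.lt_floor_add_one ((p : ℝ) / c0)
    rw [← hm] at this
    push_cast at this
    linarith
  have hm3 : (p : ℝ) ≤ 2 * (m * c0) := by
    have h2 : (p : ℝ) / c0 * c0 = p := div_mul_cancel₀ _ h0.ne'
    nlinarith
  have hf := fix_sum W hW m
  refine ⟨Finset.univ.filter fun a : X p => m + 1 < (W.filter fun g => g a = a).card, ?_, ?_⟩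
  · have hf' : ((Finset.univ.filter fun a : X p =>
        m + 1 < (W.filter fun g => g a = a).card).card : ℝ) * m ≤ 2 * W.card := by
      exact_mod_cast hf
    obtain ⟨N, hN⟩ : ∃ N : ℝ, ((Finset.univ.filter fun a : X p =>
        m + 1 < (W.filter fun g => g a = a).card).card : ℝ) = N := ⟨_, rfl⟩
    rw [hN] at hf' ⊢
    have hN0 : 0 ≤ N := by
      rw [← hN]
      exact Nat.cast_nonneg _
    have h2 : N * p ≤ N * (2 * (m * c0)) := mul_le_mul_of_nonneg_left hm3 hN0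
    have h3 := mul_le_mul_of_nonneg_left hf' h0.le
    have h4 : 4 * N * p ≤ p * p := by nlinarith
    exact le_of_mul_le_mul_right h4 (by linarith)
  · intro a ha
    rw [Finset.mem_filter] at ha
    push Not at ha
    have h2 : (((W.filter fun g => g a = a).card : ℕ) : ℝ) ≤ (m : ℝ) + 1 := by
      exact_mod_cast ha (Finset.mem_univ a)
    nlinarith

/-- Many points with a common second fixed point `z` of their stabilisers give many elements which
fix `z`. -/
private theorem str_fix {p : ℕ} [Fact p.Prime] (S : Finset (Gm p)) (hS : ∀ g ∈ S, g ∈ mob p)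
    (z : X p) (T : Finset (X p)) (hz : ∀ a ∈ T, a ≠ z)
    (hfix : ∀ a ∈ T, ∀ g ∈ S, g a = a → g z = z) (x : ℝ)
    (hn : ∀ a ∈ T, x + 1 ≤ ((S.filter fun g => g a = a).card : ℝ)) :
    (T.card : ℝ) * x ≤ ((S.filter fun g => g z = z).card : ℝ) := by
  have h1 : (T.biUnion fun a => (S.filter fun g => g a = a).erase 1) ⊆
      S.filter fun g => g z = z := by
    intro g hg
    obtain ⟨a, ha, hg⟩ := Finset.mem_biUnion.1 hg
    have h2 := Finset.mem_filter.1 (Finset.mem_erase.1 hg).2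
    exact Finset.mem_filter.2 ⟨h2.1, hfix a ha g h2.1 h2.2⟩
  have h2 : (T.biUnion fun a => (S.filter fun g => g a = a).erase 1).card =
      ∑ a ∈ T, ((S.filter fun g => g a = a).erase 1).card := by
    refine Finset.card_biUnion fun a ha a' ha' haa => Finset.disjoint_left.2 ?_
    intro g hg hg'
    have h3 := Finset.mem_erase.1 hg
    have h4 := Finset.mem_filter.1 h3.2
    have h5 := Finset.mem_filter.1 (Finset.mem_erase.1 hg').2
    exact h3.1 (mob_fix (hS g h4.1) haa (hz a ha) (hz a' ha') h4.2 h5.2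
      (hfix a ha g h4.1 h4.2))
  have h3 := Finset.card_le_card h1
  rw [h2] at h3
  have h4 : (∑ a ∈ T, (((S.filter fun g => g a = a).erase 1).card : ℝ)) ≤
      ((S.filter fun g => g z = z).card : ℝ) := by
    exact_mod_cast h3
  refine le_trans ?_ h4
  have h5 : (T.card : ℝ) * x = ∑ a ∈ T, x := by
    rw [Finset.sum_const, nsmul_eq_mul]
  rw [h5]
  refine Finset.sum_le_sum fun a ha => ?_
  have h6 := hn a ha
  have h7 : (((S.filter fun g => g a = a).card : ℕ) : ℝ) ≤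
      ((((S.filter fun g => g a = a).erase 1).card + 1 : ℕ) : ℝ) :=
    Nat.cast_le.2 (Nat.le_add_of_sub_le Finset.pred_card_le_card_erase)
  push_cast at h7
  linarith

/-- The orbit of a point with a large stabiliser in `H ^ 2` is small. -/
private theorem str_orb {p : ℕ} [Fact p.Prime] (H : Finset (Gm p)) (z : X p) :
    (H.image fun h => h z).card * ((H ^ 2).filter fun g => g z = z).card ≤ (H ^ 3).card := by
  have h1 : ∀ t : X p, ∃ h : Gm p, t ∈ (H.image fun h => h z) → h ∈ H ∧ h z = t := by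
    intro t
    by_cases ht : t ∈ (H.image fun h => h z)
    · obtain ⟨h, hh, h2⟩ := Finset.mem_image.1 ht
      exact ⟨h, fun _ => ⟨hh, h2⟩⟩
    · exact ⟨1, fun h => absurd h ht⟩
  choose f hf using h1
  rw [← Finset.card_product]
  refine Finset.card_le_card_of_injOn (fun q => f q.1 * q.2) ?_ ?_
  · intro q hq
    have hq' := Finset.mem_product.1 (Finset.mem_coe.1 hq)
    have h2 : H ^ 3 = H * H ^ 2 := pow_succ' H 2
    rw [Finset.mem_coe, h2]
    exact Finset.mul_mem_mul (hf _ hq'.1).1 (Finset.mem_filter.1 hq'.2).1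
  · intro q hq r hr hqr
    have hq' := Finset.mem_product.1 (Finset.mem_coe.1 hq)
    have hr' := Finset.mem_product.1 (Finset.mem_coe.1 hr)
    have h2 : ∀ s : X p × Gm p, s.1 ∈ (H.image fun h => h z) →
        s.2 ∈ ((H ^ 2).filter fun g => g z = z) → (f s.1 * s.2) z = s.1 := by
      intro s hs hs'
      rw [Equiv.Perm.mul_apply, (Finset.mem_filter.1 hs').2, (hf _ hs).2]
    have h3 : q.1 = r.1 := by
      rw [← h2 q hq'.1 hq'.2, ← h2 r hr'.1 hr'.2]
      exact congrArg (fun g : Gm p => g z) hqr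
    refine Prod.ext h3 ?_
    have h4 : f q.1 * q.2 = f r.1 * r.2 := hqr
    rw [h3] at h4
    exact mul_left_cancel h4

private theorem str_aux {c : ℝ} (hc : 0 < c) (hc1 : c ≤ 1) :
    ∃ c' : ℝ, 0 < c' ∧ ∃ P0 : ℕ, ∀ (p : ℕ) [Fact p.Prime],
    P0 ≤ p → ∀ H : Finset (Gm p), (∀ g ∈ H, g ∈ mob p) → 1 ∈ H → H⁻¹ = H →
    c * ((H ^ 3).card : ℝ) ≤ H.card → c * (p : ℝ) ^ 2 ≤ H.card →
    c * (H.card : ℝ) ≤ (p : ℝ) ^ 2 →
    ∃ (z : X p) (T : Finset (X p)), c' * (T.card : ℝ) ≤ 1 ∧ ∀ h ∈ H, h z ∈ T := by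
  obtain ⟨M, hM⟩ : ∃ M, M = 2 * (Kst + 1) + 12 := ⟨_, rfl⟩
  obtain ⟨c0, hc0⟩ : ∃ c0, c0 = c ^ (M + 1) / 16 := ⟨_, rfl⟩
  have h0 : 0 < c0 := by
    rw [hc0]
    positivity
  have hcM : c ^ (M + 1) ≤ c := by
    have : c ^ (M + 1) ≤ c ^ 1 := pow_le_pow_of_le_one hc.le hc1 (by omega)
    rwa [pow_one] at this
  have h16 : 16 * c0 ≤ c := by
    rw [hc0]
    linarith
  obtain ⟨P1, hP1⟩ := dich h0
  obtain ⟨P2, hP2⟩ := uni_once (half_pos h0)
  obtain ⟨P3, hP3⟩ := tor_meet h0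
  obtain ⟨P4, hP4⟩ := exists_nat_ge (4 / c)
  refine ⟨c ^ 3 / 20, by positivity, P1 + P2 + P3 + P4 + 40, ?_⟩
  intro p _ hp H hH h1 hinv h3 hlow hup
  have hp0 : (0 : ℝ) < p := by exact_mod_cast (Fact.out : p.Prime).pos
  have hp40 : (40 : ℝ) ≤ p := by exact_mod_cast (by omega : 40 ≤ p)
  have hcp : 4 ≤ c * p := by
    have h5 : (P4 : ℝ) ≤ p := by exact_mod_cast (by omega : P4 ≤ p)
    have h6 : 4 / c ≤ p := hP4.trans h5
    rw [div_le_iff₀ hc] at h6
    linarith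
  have hpw : ∀ m, m ≤ M → 16 * c0 * ((H ^ m).card : ℝ) ≤ (p : ℝ) ^ 2 := by
    intro m hm
    have h5 := pow_small hc hc1 H hinv h3 M (by omega)
    have h6 : ((H ^ m).card : ℝ) ≤ (H ^ M).card := by
      exact_mod_cast Finset.card_le_card (Finset.pow_subset_pow_right h1 hm)
    have h7 : 16 * c0 = c * c ^ M := by
      rw [hc0, pow_succ']
      ring
    rw [h7]
    have h8 : c ^ M * ((H ^ m).card : ℝ) ≤ c ^ M * ((H ^ M).card : ℝ) :=
      mul_le_mul_of_nonneg_left h6 (by positivity)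
    have h9 := mul_le_mul_of_nonneg_left (h8.trans h5) hc.le
    linarith
  have hHm : ∀ m : ℕ, ∀ g ∈ H ^ m, g ∈ mob p := pow_mem (mob p) H hH
  have hl0 : c0 * (p : ℝ) ^ 2 ≤ H.card := by
    have : 0 ≤ (p : ℝ) ^ 2 := by positivity
    nlinarith
  have hnn : ∀ m : ℕ, (0 : ℝ) ≤ ((H ^ m).card : ℝ) := fun m => Nat.cast_nonneg _
  obtain ⟨B, hB, hB'⟩ := str_few h0 (by linarith) (H ^ (2 * (Kst + 1))) (hHm _)
    (hpw _ (by omega))
  -- the points of the first type
  classical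
  obtain ⟨A1, hA1⟩ : ∃ A1 : Finset (X p), A1 = Finset.univ.filter fun a =>
    ∃ Y ⊆ H ^ 4, (∀ g ∈ Y, g ∈ mob p ∧ Uni a g) ∧
      c0 / 2 * (p : ℝ) ^ (9 / 10 : ℝ) ≤ Y.card := ⟨_, rfl⟩
  have hA1c : A1.card ≤ 1 := by
    rw [Finset.card_le_one]
    intro a ha b hb
    by_contra hab
    rw [hA1, Finset.mem_filter] at ha hb
    obtain ⟨-, Y, hY, hYU, hYc⟩ := ha
    obtain ⟨-, Z, hZ, hZU, hZc⟩ := hb
    refine hP2 p (by omega) H ?_ a b hab Y hY Z hZ hYU hZU hYc hZc
    have := hpw 12 (by omega)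
    have := hnn 12
    nlinarith
  obtain ⟨T, hT⟩ : ∃ T : Finset (X p), T = Finset.univ \ (B ∪ A1) := ⟨_, rfl⟩
  have hTc : 3 * (p : ℝ) ≤ 4 * T.card := by
    have h5 : Fintype.card (X p) ≤ T.card + (B.card + A1.card) := by
      have h6 : (Finset.univ : Finset (X p)) ⊆ T ∪ (B ∪ A1) := by
        intro a _
        by_cases h : a ∈ B ∪ A1
        · exact Finset.mem_union_right _ h
        · refine Finset.mem_union_left _ ?_
          rw [hT, Finset.mem_sdiff]
          exact ⟨Finset.mem_univ a, h⟩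
      have h7 := (Finset.card_le_card h6).trans (Finset.card_union_le _ _)
      rw [Finset.card_univ] at h7
      exact h7.trans (Nat.add_le_add_left (Finset.card_union_le _ _) _)
    rw [card_X] at h5
    have h6 : (p : ℝ) + 1 ≤ T.card + (B.card + A1.card) := by exact_mod_cast h5
    have h7 : (A1.card : ℝ) ≤ 1 := by exact_mod_cast hA1c
    linarith
  have hTb : ∀ a : X p, ∃ b : X p, a ∈ T → b ≠ a ∧ ∀ g ∈ H ^ 2, g a = a → g b = b := by
    intro a
    by_cases ha : a ∈ T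
    · rw [hT, Finset.mem_sdiff, Finset.mem_union] at ha
      have ha2 := ha.2
      push Not at ha2
      rcases hP1 p (by omega) H hH h1 hinv hl0 a (hB' a ha2.1) with h | ⟨b, h5, h6⟩
      · exfalso
        refine ha2.2 ?_
        rw [hA1, Finset.mem_filter]
        exact ⟨Finset.mem_univ a, h⟩
      · exact ⟨b, fun _ => ⟨h5, h6⟩⟩
    · exact ⟨a, fun h => absurd h ha⟩
  choose b hb using hTb
  have hm6 : c0 * ((H ^ 6).card : ℝ) ≤ (p : ℝ) ^ 2 := by
    have := hpw 6 (by omega)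
    have := hnn 6
    nlinarith
  obtain ⟨z, hz⟩ := center T b (fun a ha => (hb a ha).1) fun a ha a' ha' haa =>
    hP3 p (by omega) H hH hinv hl0 hm6 a (b a) a' (b a') (hb a ha).1 (hb a' ha').1 haa
      (hb a ha).2 (hb a' ha').2
  obtain ⟨T', hT'⟩ : ∃ T' : Finset (X p), T' = T.filter fun a => b a = z := ⟨_, rfl⟩
  rw [← hT'] at hz
  have hT'c : (p : ℝ) ≤ 5 * T'.card := by
    have h5 : (T.card : ℝ) ≤ 2 * T'.card + 2 := by exact_mod_cast hz
    linarith
  have hfix := str_fix (H ^ 2) (hHm 2) z T' (by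
      intro a ha
      rw [hT', Finset.mem_filter] at ha
      have := (hb a ha.1).1
      rw [ha.2] at this
      exact fun h => this h.symm) (by
      intro a ha g hg hga
      rw [hT', Finset.mem_filter] at ha
      have := (hb a ha.1).2 g hg hga
      rwa [ha.2] at this) (c * p / 4) (by
      intro a _
      have h5 : (H.card : ℝ) ≤ ((p : ℝ) + 1) * ((H ^ 2).filter fun g => g a = a).card := by
        exact_mod_cast stab_large H hinv a
      by_contra hcon
      rw [not_le] at hcon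
      have h6 : ((p : ℝ) + 1) * (((H ^ 2).filter fun g => g a = a).card : ℝ) <
          ((p : ℝ) + 1) * (c * p / 4 + 1) := mul_lt_mul_of_pos_left hcon (by linarith)
      have h7 : ((p : ℝ) + 1) * (c * p / 4 + 1) ≤ c * (p : ℝ) ^ 2 := by
        have h8 : c * (p : ℝ) / 4 + 1 ≤ c * p / 2 := by linarith
        have h9 : ((p : ℝ) + 1) ≤ 2 * p := by linarith
        calc ((p : ℝ) + 1) * (c * p / 4 + 1) ≤ (2 * p) * (c * p / 2) := by
              refine mul_le_mul h9 h8 (by positivity) (by positivity)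
          _ = c * (p : ℝ) ^ 2 := by ring
      linarith)
  have horb := str_orb H z
  refine ⟨z, H.image fun h => h z, ?_, fun h hh => Finset.mem_image_of_mem _ hh⟩
  obtain ⟨N, hN⟩ : ∃ N : ℝ, (((H.image fun h => h z).card : ℕ) : ℝ) = N := ⟨_, rfl⟩
  obtain ⟨V, hV⟩ : ∃ V : ℝ, ((((H ^ 2).filter fun g => g z = z).card : ℕ) : ℝ) = V := ⟨_, rfl⟩
  have horb' : N * V ≤ ((H ^ 3).card : ℝ) := by
    rw [← hN, ← hV]
    exact_mod_cast horb
  rw [hV] at hfix
  rw [hN]
  have hN0 : 0 ≤ N := by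
    rw [← hN]
    exact Nat.cast_nonneg _
  have hVl : c * (p : ℝ) ^ 2 / 20 ≤ V := by
    have h5 : (p : ℝ) * (c * p / 4) ≤ 5 * T'.card * (c * p / 4) :=
      mul_le_mul_of_nonneg_right hT'c (by positivity)
    nlinarith
  have h5 : N * (c * (p : ℝ) ^ 2 / 20) ≤ N * V := mul_le_mul_of_nonneg_left hVl hN0
  have h6 : c * (c * (N * V)) ≤ c * (c * ((H ^ 3).card : ℝ)) :=
    mul_le_mul_of_nonneg_left (mul_le_mul_of_nonneg_left horb' hc.le) hc.le
  have h7 : c * (c * ((H ^ 3).card : ℝ)) ≤ c * H.card := mul_le_mul_of_nonneg_left h3 hc.le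
  have h8 : c * (c * (N * (c * (p : ℝ) ^ 2 / 20))) ≤ c * (c * (N * V)) :=
    mul_le_mul_of_nonneg_left (mul_le_mul_of_nonneg_left h5 hc.le) hc.le
  have h9 : (c ^ 3 / 20 * N) * (p : ℝ) ^ 2 ≤ 1 * (p : ℝ) ^ 2 := by
    have : (c ^ 3 / 20 * N) * (p : ℝ) ^ 2 = c * (c * (N * (c * (p : ℝ) ^ 2 / 20))) := by ring
    linarith
  exact le_of_mul_le_mul_right h9 (by positivity)

/-- An approximate group of Moebius permutations with about `p ^ 2` elements maps some point to a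
bounded number of points.

Proof. We may assume `c ≤ 1`. By `pow_small` (and `c |H| ≤ p²`) `c ^ (m + 1) |H ^ m| ≤ p²` for
`m ≥ 3`. Let `m0 = 2 (Kst + 1)`, `W = H ^ m0`, `c0 = c ^ (m0 + 1) / 16`. By `fix_sum` (with
`m = ⌊p / c0⌋ - 2`) at most `p / 4` points `a` do not satisfy `c0 |{g ∈ W : g a = a}| ≤ p`. For the
others `dich` (for `c0`) applies. By `uni_once` (for `c0 / 2`, `c0 ≤ c ^ 13`) at most one of them
is of the first type. Let `T` be the set of the points of the second type, `|T| ≥ p / 2`, and `b a` the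
second fixed point for `a ∈ T`. `tor_meet` (for `c0`) and `center` give a point `z` such that `b a = z`
for all `a` in a set `T' ⊆ T`, `|T'| ≥ p / 5`. For `a ∈ T'` let `S a = {g ∈ H ^ 2 : g a = a}`,
`|S a| ≥ (c/2) p` (`stab_large`); all its elements fix `z`, and by `mob_fix` the sets `S a \ {1}`,
`a ∈ T'`, are disjoint (`a ≠ z`). So `V = {g ∈ H ^ 2 : g z = z}` has at least `(p / 5) ((c/2) p - 1)
≥ c1 p²` elements, `c1 = c / 20`. Let `T1 = {h z : h ∈ H}` and choose `h_t ∈ H` with `h_t z = t` for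
`t ∈ T1`. The sets `h_t * V ⊆ H ^ 3` are disjoint, so `|T1| c1 p² ≤ |H ^ 3| ≤ p² / c²`. -/
theorem str {c : ℝ} (hc : 0 < c) : ∃ c' : ℝ, 0 < c' ∧ ∃ P0 : ℕ, ∀ (p : ℕ) [Fact p.Prime],
    P0 ≤ p → ∀ H : Finset (Gm p), (∀ g ∈ H, g ∈ mob p) → 1 ∈ H → H⁻¹ = H →
    c * ((H ^ 3).card : ℝ) ≤ H.card → c * (p : ℝ) ^ 2 ≤ H.card →
    c * (H.card : ℝ) ≤ (p : ℝ) ^ 2 →
    ∃ (z : X p) (T : Finset (X p)), c' * (T.card : ℝ) ≤ 1 ∧ ∀ h ∈ H, h z ∈ T := by
  obtain ⟨c', hc', P0, h⟩ := str_aux (lt_min hc one_pos) (min_le_right c 1)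
  refine ⟨c', hc', P0, fun p _ hp H hH h1 hinv h3 hlow hup => ?_⟩
  have h4 : min c 1 ≤ c := min_le_left c 1
  refine h p hp H hH h1 hinv ?_ ?_ ?_
  · exact (mul_le_mul_of_nonneg_right h4 (Nat.cast_nonneg _)).trans h3
  · exact (mul_le_mul_of_nonneg_right h4 (by positivity)).trans hlow
  · exact (mul_le_mul_of_nonneg_right h4 (Nat.cast_nonneg _)).trans hup

end Pool.Agent.MP193G
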