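import Mathlib
import Pool.Agent.Lib.MP_193dd3_co_G.Geo
import Pool.Agent.Lib.MP_193dd3_co_G.Ag
import Pool.Agent.Lib.MP_193dd3_co_G.Str

/-!
# MP_193dd3_co, project G: no large set of involutions is correlated with a function
-/

set_option autoImplicit false

open scoped Pointwise

namespace Pool.Agent.MP193G

private theorem nrmA_pig {I : Type} (s : Finset I) (f : I → ℝ) {a : ℝ} (ha0 : 0 ≤ a)
    (h1 : ∀ i ∈ s, f i ≤ 1) (ha : a * (s.card : ℝ) ≤ ∑ i ∈ s, f i) :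
    a / 2 * (s.card : ℝ) ≤ ((s.filter fun i => a / 2 ≤ f i).card : ℝ) := by
  have e := Finset.sum_filter_add_sum_filter_not s (fun i => a / 2 ≤ f i) f
  have b1 : ∑ i ∈ s.filter (fun i => a / 2 ≤ f i), f i
      ≤ ((s.filter fun i => a / 2 ≤ f i).card : ℝ) := by
    calc ∑ i ∈ s.filter (fun i => a / 2 ≤ f i), f i
        ≤ ∑ i ∈ s.filter (fun i => a / 2 ≤ f i), (1 : ℝ) :=
          Finset.sum_le_sum fun i hi => h1 i (Finset.mem_filter.1 hi).1
      _ = _ := by simp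
  have b2 : ∑ i ∈ s.filter (fun i => ¬ a / 2 ≤ f i), f i ≤ a / 2 * (s.card : ℝ) := by
    calc ∑ i ∈ s.filter (fun i => ¬ a / 2 ≤ f i), f i
        ≤ ∑ i ∈ s.filter (fun i => ¬ a / 2 ≤ f i), (a / 2) :=
          Finset.sum_le_sum fun i hi => (not_le.1 (Finset.mem_filter.1 hi).2).le
      _ = ((s.filter (fun i => ¬ a / 2 ≤ f i)).card : ℝ) * (a / 2) := by
          rw [Finset.sum_const, nsmul_eq_mul]
      _ ≤ (s.card : ℝ) * (a / 2) :=
          mul_le_mul_of_nonneg_right (by exact_mod_cast Finset.card_filter_le _ _) (by linarith)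
      _ = _ := mul_comm _ _
  linarith

private theorem nrmA_one {p : ℕ} [Fact p.Prime] {B : Finset (Vc p)} (hB : Pl 3 B)
    (hn : ∀ v ∈ B, nq v ≠ 0) :
    (((B ×ˢ B).filter fun q => iv q.1 * iv q.2 = 1).card : ℝ) ≤ 3 * B.card := by
  have h : ((B ×ˢ B).filter fun q => iv q.1 * iv q.2 = 1).card ≤ 3 * B.card := by
    refine Finset.card_le_mul_card_image_of_maps_to (f := Prod.fst) ?_ 3 ?_
    · intro q hq
      exact (Finset.mem_product.1 (Finset.mem_filter.1 hq).1).1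
    · intro x hx
      refine le_trans (Finset.card_le_card_of_injOn Prod.snd ?_ ?_)
        (hit hB hn (OnePoint.infty : X p) (iv x OnePoint.infty))
      · intro q hq
        have hq' := Finset.mem_filter.1 (Finset.mem_coe.1 hq)
        have hq2 := Finset.mem_filter.1 hq'.1
        refine Finset.mem_coe.2 (Finset.mem_filter.2 ⟨(Finset.mem_product.1 hq2.1).2, ?_⟩)
        have e : iv q.2 = iv x := by
          have e1 : iv q.2 = (iv q.1)⁻¹ := (inv_eq_of_mul_eq_one_right hq2.2).symm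
          rw [e1, iv_inv, hq'.2]
        rw [e]
      · intro q hq q' hq' e
        have h1 := (Finset.mem_filter.1 (Finset.mem_coe.1 hq)).2
        have h2 := (Finset.mem_filter.1 (Finset.mem_coe.1 hq')).2
        exact Prod.ext (h1.trans h2.symm) e
  exact_mod_cast h

private theorem nrmA_S {p : ℕ} [Fact p.Prime] {η : ℝ} (hη : 0 < η) (hp : 60 / η ^ 3 ≤ (p : ℝ))
    (B : Finset (Vc p)) (hB : Pl 3 B) (hn : ∀ v ∈ B, nq v ≠ 0) (hc : η * (p : ℝ) ≤ B.card)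
    (φ : X p → ℝ) (h1 : ∑ s, φ s ^ 2 = 1) (σ : ℝ) (hσ : σ = 1 ∨ σ = -1)
    (hco : ∀ v ∈ B, η ≤ σ * co φ (iv v)) :
    ∃ S : Finset (Gm p), (∀ g ∈ S, η ^ 2 / 2 ≤ co φ g) ∧
      (∀ g ∈ S, ∃ x ∈ B, ∃ y ∈ B, iv x * iv y = g) ∧ η ^ 4 / 20 * (p : ℝ) ^ 2 ≤ S.card := by
  classical
  set P := (B ×ˢ B).filter fun q => η ^ 2 / 2 ≤ co φ (iv q.1 * iv q.2) with hP
  set P' := P.filter fun q => ¬ iv q.1 * iv q.2 = 1 with hP'
  refine ⟨P'.image fun q => iv q.1 * iv q.2, ?_, ?_, ?_⟩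
  · intro g hg
    obtain ⟨q, hq, rfl⟩ := Finset.mem_image.1 hg
    exact (Finset.mem_filter.1 (Finset.mem_filter.1 hq).1).2
  · intro g hg
    obtain ⟨q, hq, rfl⟩ := Finset.mem_image.1 hg
    have hq' := Finset.mem_product.1 (Finset.mem_filter.1 (Finset.mem_filter.1 hq).1).1
    exact ⟨q.1, hq'.1, q.2, hq'.2, rfl⟩
  · have k1 := co_pos φ h1 B iv
    simp_rw [iv_inv] at k1
    rw [← Finset.sum_product'] at k1
    have k2 : η * (B.card : ℝ) ≤ σ * ∑ v ∈ B, co φ (iv v) := by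
      rw [Finset.mul_sum, mul_comm, ← nsmul_eq_mul]
      exact Finset.card_nsmul_le_sum B _ _ hco
    have k3 : (η * (B.card : ℝ)) ^ 2 ≤ (∑ v ∈ B, co φ (iv v)) ^ 2 := by
      have hb : 0 ≤ η * (B.card : ℝ) := by positivity
      have := pow_le_pow_left₀ hb k2 2
      have hs : σ ^ 2 = 1 := by rcases hσ with h | h <;> rw [h] <;> norm_num
      rwa [mul_pow, mul_pow, hs, one_mul, ← mul_pow] at this
    have k4 : η ^ 2 * (((B ×ˢ B).card : ℕ) : ℝ)
        ≤ ∑ q ∈ B ×ˢ B, co φ (iv q.1 * iv q.2) := by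
      rw [Finset.card_product]
      push_cast
      calc η ^ 2 * ((B.card : ℝ) * B.card) = (η * (B.card : ℝ)) ^ 2 := by ring
        _ ≤ _ := k3.trans k1
    have k5 := nrmA_pig (B ×ˢ B) (fun q => co φ (iv q.1 * iv q.2)) (by positivity : 0 ≤ η ^ 2)
      (fun q _ => (abs_le.1 (co_le φ h1 _)).2) k4
    rw [Finset.card_product] at k5
    push_cast at k5
    have k6 : (P.card : ℝ) ≤ P'.card + 3 * B.card := by
      have e := Finset.card_filter_add_card_filter_not (s := P) (fun q => iv q.1 * iv q.2 = 1)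
      have e2 : (P.filter fun q => iv q.1 * iv q.2 = 1).card
          ≤ ((B ×ˢ B).filter fun q => iv q.1 * iv q.2 = 1).card :=
        Finset.card_le_card (Finset.filter_subset_filter _ (Finset.filter_subset _ _))
      have e3 := nrmA_one hB hn
      have e4 : ((P.filter fun q => iv q.1 * iv q.2 = 1).card : ℝ)
          ≤ ((B ×ˢ B).filter fun q => iv q.1 * iv q.2 = 1).card := by exact_mod_cast e2
      have e5 : ((P.filter fun q => iv q.1 * iv q.2 = 1).card : ℝ)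
          + (P.filter fun q => ¬ iv q.1 * iv q.2 = 1).card = P.card := by exact_mod_cast e
      linarith
    have k7 : P'.card ≤ 9 * (P'.image fun q => iv q.1 * iv q.2).card := by
      refine Finset.card_le_mul_card_image_of_maps_to
        (f := fun q : Vc p × Vc p => iv q.1 * iv q.2) ?_ 9 ?_
      · intro q hq
        exact Finset.mem_image_of_mem _ hq
      · intro g hg
        obtain ⟨q0, hq0, e0⟩ := Finset.mem_image.1 hg
        have hg1 : g ≠ 1 := by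
          rw [← e0]
          exact (Finset.mem_filter.1 hq0).2
        refine le_trans (Finset.card_le_card ?_) (iv_pairs hB hn hg1)
        intro q hq
        have hq' := Finset.mem_filter.1 hq
        exact Finset.mem_filter.2 ⟨(Finset.mem_filter.1 (Finset.mem_filter.1 hq'.1).1).1, hq'.2⟩
    have k7' : (P'.card : ℝ) ≤ 9 * ((P'.image fun q => iv q.1 * iv q.2).card : ℝ) := by
      exact_mod_cast k7
    set b : ℝ := (B.card : ℝ) with hb
    set m : ℝ := ((P'.image fun q => iv q.1 * iv q.2).card : ℝ) with hm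
    have k8 : η ^ 2 / 2 * (b * b) ≤ 9 * m + 3 * b := by linarith
    have q1 : 60 ≤ η ^ 3 * (p : ℝ) := by
      rw [div_le_iff₀ (by positivity)] at hp
      linarith
    have hp0 : (0 : ℝ) ≤ p := Nat.cast_nonneg p
    have q2 : 0 ≤ η ^ 2 / 2 * b - 3 := by
      have : η ^ 2 / 2 * (η * (p : ℝ)) ≤ η ^ 2 / 2 * b :=
        mul_le_mul_of_nonneg_left hc (by positivity)
      nlinarith
    have q3 : η * (p : ℝ) * (η ^ 2 / 2 * (η * (p : ℝ)) - 3) ≤ b * (η ^ 2 / 2 * b - 3) := by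
      have t1 : η * (p : ℝ) * (η ^ 2 / 2 * (η * (p : ℝ)) - 3)
          ≤ η * (p : ℝ) * (η ^ 2 / 2 * b - 3) := by
        apply mul_le_mul_of_nonneg_left _ (by positivity)
        have : η ^ 2 / 2 * (η * (p : ℝ)) ≤ η ^ 2 / 2 * b :=
          mul_le_mul_of_nonneg_left hc (by positivity)
        linarith
      exact t1.trans (mul_le_mul_of_nonneg_right hc q2)
    have q4 : η * (p : ℝ) * 60 ≤ η * (p : ℝ) * (η ^ 3 * (p : ℝ)) :=
      mul_le_mul_of_nonneg_left q1 (by positivity)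
    nlinarith

private theorem nrmA_T {p : ℕ} [Fact p.Prime] {B : Finset (Vc p)} (hB : Pl 3 B)
    (hn : ∀ v ∈ B, nq v ≠ 0) (S : Finset (Gm p))
    (hS : ∀ g ∈ S, ∃ x ∈ B, ∃ y ∈ B, iv x * iv y = g) (w : X p) (T : Finset (X p)) :
    (S.filter fun g => g w ∈ T).card ≤ 3 * (T.card * B.card) := by
  classical
  set R := (B ×ˢ B).filter fun q => iv q.1 (iv q.2 w) ∈ T with hR
  have h1 : (S.filter fun g => g w ∈ T) ⊆ R.image fun q => iv q.1 * iv q.2 := by
    intro g hg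
    obtain ⟨hgS, hgT⟩ := Finset.mem_filter.1 hg
    obtain ⟨x, hx, y, hy, rfl⟩ := hS g hgS
    exact Finset.mem_image.2 ⟨(x, y), Finset.mem_filter.2
      ⟨Finset.mem_product.2 ⟨hx, hy⟩, hgT⟩, rfl⟩
  have h2 : R.card ≤ 3 * (T ×ˢ B).card := by
    refine Finset.card_le_mul_card_image_of_maps_to
      (f := fun q : Vc p × Vc p => (iv q.1 (iv q.2 w), q.2)) ?_ 3 ?_
    · intro q hq
      obtain ⟨hq1, hq2⟩ := Finset.mem_filter.1 hq
      exact Finset.mem_product.2 ⟨hq2, (Finset.mem_product.1 hq1).2⟩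
    · intro r _
      refine le_trans (Finset.card_le_card_of_injOn Prod.fst ?_ ?_)
        (hit hB hn (iv r.2 w) r.1)
      · intro q hq
        have hq' := Finset.mem_filter.1 (Finset.mem_coe.1 hq)
        have hq2 := Finset.mem_filter.1 hq'.1
        refine Finset.mem_coe.2 (Finset.mem_filter.2 ⟨(Finset.mem_product.1 hq2.1).1, ?_⟩)
        have e := hq'.2
        have e1 : iv q.1 (iv q.2 w) = r.1 := congrArg Prod.fst e
        have e2 : q.2 = r.2 := congrArg Prod.snd e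
        rw [← e2]
        exact e1
      · intro q hq q' hq' e
        have h1 := congrArg Prod.snd (Finset.mem_filter.1 (Finset.mem_coe.1 hq)).2
        have h2 := congrArg Prod.snd (Finset.mem_filter.1 (Finset.mem_coe.1 hq')).2
        exact Prod.ext e (h1.trans h2.symm)
  calc (S.filter fun g => g w ∈ T).card ≤ (R.image fun q => iv q.1 * iv q.2).card :=
        Finset.card_le_card h1
    _ ≤ R.card := Finset.card_image_le
    _ ≤ 3 * (T ×ˢ B).card := h2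
    _ = 3 * (T.card * B.card) := by rw [Finset.card_product]

/-- The main step.

Proof. (`η ≤ 1`, as `|co| ≤ 1` and `B` is not empty for large `p`.) By `co_pos` (for `S = B`,
`σ = iv`) and `iv_inv` `∑_{x, y ∈ B} co φ (iv x * iv y) ≥ η² |B|²`, so at least `(η²/2) |B|²` of
the pairs satisfy `co φ (iv x * iv y) ≥ η²/2` (`co_le`). Let `S` be the set of the products
`iv x * iv y ≠ 1` of these pairs. The pairs with product `1` satisfy `iv x = iv y`: at most three `y` for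
each `x` (`hit` for some `s` and `t = iv x s`). By `iv_pairs` and `card_Pl`, `|S| ≥
((η²/2) |B|² - 3 |B|)/9 ≥ c1 p²`, `c1 = η⁴/20`, for large `p`. By `co_pos` (`σ` the identity)
`∑_{g, h ∈ S} co φ (g * h⁻¹) ≥ (η²/2)² |S|²`, so at least `c2 |S|²`, `c2 = η⁴/8`, of the pairs
have a quotient in `D = {g ∈ mob p : co φ g ≥ c2}`. By `co_card` `c2² |D| ≤ p²`, and
`(η²/2)² |S| ≤ p²`. So `approx` applies to `S`, `D` with `c = min c2 (c1 c2²)`; it gives `c'`, `H`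
and `x0 ∈ S`. All elements of `H` are in `mob p`, and `str` applies with `min c' (min (c' c1)
(c' η⁴/4))`: there are `z` and `T`, `c5 |T| ≤ 1`, with `h z ∈ T` for `h ∈ H`. Let `w = x0⁻¹ z`.
At least `c' |S| ≥ c' c1 p²` of the `g ∈ S` satisfy `g w ∈ T`. Each of them is `iv x * iv y` with
`x, y ∈ B`, and for given `y` and `t ∈ T` there are at most three `x ∈ B` with
`iv x (iv y w) = t`. So `c' c1 p² ≤ |T| * 3 |B| ≤ 9 (p + 1)/c5`: false for large `p`. -/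
theorem nrmA {η : ℝ} (hη : 0 < η) : ∃ P0 : ℕ, ∀ (p : ℕ) [Fact p.Prime], P0 ≤ p →
    ∀ B : Finset (Vc p), Pl 3 B → (∀ v ∈ B, nq v ≠ 0) → η * (p : ℝ) ≤ B.card →
    ∀ φ : X p → ℝ, ∑ s, φ s = 0 → ∑ s, φ s ^ 2 = 1 → ∀ σ : ℝ, (σ = 1 ∨ σ = -1) →
    (∀ v ∈ B, η ≤ σ * co φ (iv v)) → False := by
  classical
  have hc1 : (0 : ℝ) < η ^ 4 / 20 := by positivity
  have hc2 : (0 : ℝ) < η ^ 4 / 8 := by positivity
  have hc : (0 : ℝ) < min (η ^ 4 / 8) (η ^ 4 / 20 * (η ^ 4 / 8) ^ 2) :=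
    lt_min hc2 (by positivity)
  obtain ⟨c', hc', hap⟩ := approx hc
  have hcs : (0 : ℝ) < min c' (min (c' * (η ^ 4 / 20)) (c' * (η ^ 4 / 4))) :=
    lt_min hc' (lt_min (by positivity) (by positivity))
  obtain ⟨c5, hc5, P1, hstr⟩ := str hcs
  refine ⟨max P1 (max (⌈60 / η ^ 3⌉₊ + 1) (⌈18 / (c' * (η ^ 4 / 20) * c5)⌉₊ + 1)), ?_⟩
  intro p _ hp B hB hn hcard φ h0 h1 σ hσ hco
  have hp1 : P1 ≤ p := le_trans (le_max_left _ _) hp
  have hp2 : ⌈60 / η ^ 3⌉₊ + 1 ≤ p :=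
    le_trans (le_trans (le_max_left _ _) (le_max_right _ _)) hp
  have hp3 : ⌈18 / (c' * (η ^ 4 / 20) * c5)⌉₊ + 1 ≤ p :=
    le_trans (le_trans (le_max_right _ _) (le_max_right _ _)) hp
  have hp2' : 60 / η ^ 3 ≤ (p : ℝ) := by
    have := Nat.le_ceil (60 / η ^ 3)
    have h : ((⌈60 / η ^ 3⌉₊ : ℕ) : ℝ) ≤ p := by exact_mod_cast (by omega : ⌈60 / η ^ 3⌉₊ ≤ p)
    exact this.trans h
  have hp3' : 18 / (c' * (η ^ 4 / 20) * c5) < (p : ℝ) := by
    have := Nat.le_ceil (18 / (c' * (η ^ 4 / 20) * c5))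
    have h : ((⌈18 / (c' * (η ^ 4 / 20) * c5)⌉₊ : ℕ) : ℝ) < p := by
      exact_mod_cast (by omega : ⌈18 / (c' * (η ^ 4 / 20) * c5)⌉₊ < p)
    exact lt_of_le_of_lt this h
  have hpp : (1 : ℝ) ≤ p := by
    have : 1 ≤ p := by omega
    exact_mod_cast this
  obtain ⟨S, hS1, hS2, hS3⟩ := nrmA_S hη hp2' B hB hn hcard φ h1 σ hσ hco
  have hSm : ∀ g ∈ S, g ∈ mob p := by
    intro g hg
    obtain ⟨x, _, y, _, rfl⟩ := hS2 g hg
    exact (mob p).mul_mem (iv_mem x) (iv_mem y)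
  have hSpos : (0 : ℝ) < S.card := lt_of_lt_of_le (by positivity) hS3
  have hSne : S.Nonempty := Finset.card_pos.1 (by exact_mod_cast hSpos)
  have hSup : (η ^ 2 / 2) ^ 2 * (S.card : ℝ) ≤ (p : ℝ) ^ 2 :=
    co_card (by positivity) φ h0 h1 S fun g hg => ⟨hSm g hg, hS1 g hg⟩
  -- the set of the elements with large correlation
  set D : Finset (Gm p) := Finset.univ.filter fun g => g ∈ mob p ∧ η ^ 4 / 8 ≤ co φ g with hD
  have hDup : (η ^ 4 / 8) ^ 2 * (D.card : ℝ) ≤ (p : ℝ) ^ 2 :=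
    co_card hc2 φ h0 h1 D fun g hg => (Finset.mem_filter.1 hg).2
  have k1 := co_pos φ h1 S (fun g => g)
  rw [← Finset.sum_product'] at k1
  have k2 : η ^ 2 / 2 * (S.card : ℝ) ≤ ∑ g ∈ S, co φ g := by
    rw [mul_comm, ← nsmul_eq_mul]
    exact Finset.card_nsmul_le_sum S _ _ hS1
  have k3 : η ^ 4 / 4 * (((S ×ˢ S).card : ℕ) : ℝ) ≤ ∑ q ∈ S ×ˢ S, co φ (q.1 * q.2⁻¹) := by
    rw [Finset.card_product]
    push_cast
    have hb : 0 ≤ η ^ 2 / 2 * (S.card : ℝ) := by positivity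
    have := pow_le_pow_left₀ hb k2 2
    calc η ^ 4 / 4 * ((S.card : ℝ) * S.card) = (η ^ 2 / 2 * (S.card : ℝ)) ^ 2 := by ring
      _ ≤ _ := this.trans k1
  have k4 := nrmA_pig (S ×ˢ S) (fun q => co φ (q.1 * q.2⁻¹)) (by positivity : 0 ≤ η ^ 4 / 4)
    (fun q _ => (abs_le.1 (co_le φ h1 _)).2) k3
  have k5 : η ^ 4 / 8 * (S.card : ℝ) ^ 2
      ≤ ((S ×ˢ S).filter fun q => q.1 * q.2⁻¹ ∈ D).card := by
    have e1 : ((S ×ˢ S).filter fun q => η ^ 4 / 4 / 2 ≤ co φ (q.1 * q.2⁻¹)).card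
        ≤ ((S ×ˢ S).filter fun q => q.1 * q.2⁻¹ ∈ D).card := by
      refine Finset.card_le_card ?_
      intro q hq
      obtain ⟨hq1, hq2⟩ := Finset.mem_filter.1 hq
      have hq3 := Finset.mem_product.1 hq1
      refine Finset.mem_filter.2 ⟨hq1, Finset.mem_filter.2 ⟨Finset.mem_univ _, ?_, ?_⟩⟩
      · exact (mob p).mul_mem (hSm _ hq3.1) ((mob p).inv_mem (hSm _ hq3.2))
      · linarith
    have e2 : (((S ×ˢ S).filter fun q => η ^ 4 / 4 / 2 ≤ co φ (q.1 * q.2⁻¹)).card : ℝ)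
        ≤ ((S ×ˢ S).filter fun q => q.1 * q.2⁻¹ ∈ D).card := by exact_mod_cast e1
    rw [Finset.card_product] at k4
    push_cast at k4
    have e3 : η ^ 4 / 8 * (S.card : ℝ) ^ 2 = η ^ 4 / 4 / 2 * ((S.card : ℝ) * S.card) := by ring
    rw [e3]
    exact k4.trans e2
  have k6 : min (η ^ 4 / 8) (η ^ 4 / 20 * (η ^ 4 / 8) ^ 2) * (S.card : ℝ) ^ 2
      ≤ ((S ×ˢ S).filter fun q => q.1 * q.2⁻¹ ∈ D).card :=
    le_trans (mul_le_mul_of_nonneg_right (min_le_left _ _) (by positivity)) k5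
  have k7 : min (η ^ 4 / 8) (η ^ 4 / 20 * (η ^ 4 / 8) ^ 2) * (D.card : ℝ) ≤ S.card := by
    calc min (η ^ 4 / 8) (η ^ 4 / 20 * (η ^ 4 / 8) ^ 2) * (D.card : ℝ)
        ≤ η ^ 4 / 20 * (η ^ 4 / 8) ^ 2 * (D.card : ℝ) :=
          mul_le_mul_of_nonneg_right (min_le_right _ _) (by positivity)
      _ = η ^ 4 / 20 * ((η ^ 4 / 8) ^ 2 * (D.card : ℝ)) := by ring
      _ ≤ η ^ 4 / 20 * (p : ℝ) ^ 2 := mul_le_mul_of_nonneg_left hDup hc1.le
      _ ≤ S.card := hS3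
  obtain ⟨H, hH1, hHi, hHS, hH3, hHl, hHu, x0, hx0, hx⟩ := hap S D hSne k6 k7
  have hHm : ∀ g ∈ H, g ∈ mob p := by
    intro h hh
    obtain ⟨g, hg, g', hg', rfl⟩ := hHS h hh
    exact (mob p).mul_mem (hSm _ hg) ((mob p).inv_mem (hSm _ hg'))
  have s1 : min c' (min (c' * (η ^ 4 / 20)) (c' * (η ^ 4 / 4))) * ((H ^ 3).card : ℝ)
      ≤ H.card := le_trans (mul_le_mul_of_nonneg_right (min_le_left _ _) (by positivity)) hH3
  have s2 : min c' (min (c' * (η ^ 4 / 20)) (c' * (η ^ 4 / 4))) * (p : ℝ) ^ 2 ≤ H.card := by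
    calc min c' (min (c' * (η ^ 4 / 20)) (c' * (η ^ 4 / 4))) * (p : ℝ) ^ 2
        ≤ c' * (η ^ 4 / 20) * (p : ℝ) ^ 2 :=
          mul_le_mul_of_nonneg_right ((min_le_right _ _).trans (min_le_left _ _)) (by positivity)
      _ = c' * (η ^ 4 / 20 * (p : ℝ) ^ 2) := by ring
      _ ≤ c' * S.card := mul_le_mul_of_nonneg_left hS3 hc'.le
      _ ≤ H.card := hHl
  have s3 : min c' (min (c' * (η ^ 4 / 20)) (c' * (η ^ 4 / 4))) * (H.card : ℝ)
      ≤ (p : ℝ) ^ 2 := by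
    calc min c' (min (c' * (η ^ 4 / 20)) (c' * (η ^ 4 / 4))) * (H.card : ℝ)
        ≤ c' * (η ^ 4 / 4) * (H.card : ℝ) :=
          mul_le_mul_of_nonneg_right ((min_le_right _ _).trans (min_le_right _ _)) (by positivity)
      _ = η ^ 4 / 4 * (c' * (H.card : ℝ)) := by ring
      _ ≤ η ^ 4 / 4 * S.card := mul_le_mul_of_nonneg_left hHu (by positivity)
      _ = (η ^ 2 / 2) ^ 2 * (S.card : ℝ) := by ring
      _ ≤ (p : ℝ) ^ 2 := hSup
  obtain ⟨z, T, hT, hz⟩ := hstr p hp1 H hHm hH1 hHi s1 s2 s3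
  have t1 : (S.filter fun g => g * x0⁻¹ ∈ H).card
      ≤ (S.filter fun g => g (x0⁻¹ z) ∈ T).card := by
    refine Finset.card_le_card ?_
    intro g hg
    obtain ⟨hg1, hg2⟩ := Finset.mem_filter.1 hg
    exact Finset.mem_filter.2 ⟨hg1, hz _ hg2⟩
  have t2 := nrmA_T hB hn S hS2 (x0⁻¹ z) T
  have t3 : ((S.filter fun g => g * x0⁻¹ ∈ H).card : ℝ) ≤ 3 * (T.card * B.card) := by
    exact_mod_cast t1.trans t2
  have t4 : (B.card : ℝ) ≤ 3 * ((p : ℝ) + 1) := by exact_mod_cast card_Pl hB hn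
  have t5 : c5 * (c' * (η ^ 4 / 20 * (p : ℝ) ^ 2)) ≤ 9 * ((p : ℝ) + 1) := by
    calc c5 * (c' * (η ^ 4 / 20 * (p : ℝ) ^ 2)) ≤ c5 * (c' * S.card) :=
          mul_le_mul_of_nonneg_left (mul_le_mul_of_nonneg_left hS3 hc'.le) hc5.le
      _ ≤ c5 * (3 * (T.card * B.card)) := mul_le_mul_of_nonneg_left (hx.trans t3) hc5.le
      _ = 3 * ((c5 * T.card) * B.card) := by ring
      _ ≤ 3 * (1 * B.card) := mul_le_mul_of_nonneg_left
          (mul_le_mul_of_nonneg_right hT (by positivity)) (by norm_num)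
      _ ≤ 9 * ((p : ℝ) + 1) := by linarith
  have t6 : 18 < c' * (η ^ 4 / 20) * c5 * (p : ℝ) := by
    rw [div_lt_iff₀ (by positivity)] at hp3'
    linarith
  have t7 : 18 * (p : ℝ) < c5 * (c' * (η ^ 4 / 20 * (p : ℝ) ^ 2)) := by
    have := mul_lt_mul_of_pos_right t6 (by linarith : (0 : ℝ) < p)
    calc 18 * (p : ℝ) < c' * (η ^ 4 / 20) * c5 * (p : ℝ) * p := this
      _ = _ := by ring
  linarith

end Pool.Agent.MP193G
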