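import Mathlib
import Pool.Agent.Lib.MP_193dd3_co_G.NrmA

/-!
# MP_193dd3_co, project G: the norm theorem and the counting lemma
-/

set_option autoImplicit false

namespace Pool.Agent.MP193G

private theorem nrm_pl {p : ℕ} {B C : Finset (Vc p)} {k : ℕ} (h : Pl k B) (hC : C ⊆ B) :
    Pl k C := fun l hl =>
  le_trans (Finset.card_le_card (Finset.filter_subset_filter _ hC)) (h l hl)

/-- One side of the estimate for a normalised function. -/
private theorem nrm_one {η : ℝ} (hη : 0 < η) {p : ℕ} [Fact p.Prime] (hp : 3 ≤ p)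
    (hA : ∀ B : Finset (Vc p), Pl 3 B → (∀ v ∈ B, nq v ≠ 0) → η / 8 * (p : ℝ) ≤ B.card →
      ∀ φ : X p → ℝ, ∑ s, φ s = 0 → ∑ s, φ s ^ 2 = 1 → ∀ σ : ℝ, (σ = 1 ∨ σ = -1) →
      (∀ v ∈ B, η / 8 ≤ σ * co φ (iv v)) → False)
    {B : Finset (Vc p)} (hB : Pl 3 B) (hn : ∀ v ∈ B, nq v ≠ 0) {φ : X p → ℝ}
    (h0 : ∑ s, φ s = 0) (h1 : ∑ s, φ s ^ 2 = 1) {σ : ℝ} (hσ : σ = 1 ∨ σ = -1) :
    σ * ∑ v ∈ B, co φ (iv v) ≤ η * p := by
  classical
  by_contra hcon
  push Not at hcon
  set C := B.filter fun v => η / 8 ≤ σ * co φ (iv v) with hC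
  have hCB : C ⊆ B := Finset.filter_subset _ _
  have hab : ∀ v, σ * co φ (iv v) ≤ 1 := by
    intro v
    have := co_le φ h1 (iv v)
    rw [abs_le] at this
    rcases hσ with rfl | rfl
    · linarith [this.2]
    · linarith [this.1]
  have hcardB : (B.card : ℝ) ≤ 4 * p := by
    have h3 := card_Pl hB hn
    have h4 : 3 * (p + 1) ≤ 4 * p := by omega
    exact_mod_cast le_trans h3 h4
  have hle : σ * ∑ v ∈ B, co φ (iv v) ≤ C.card + η / 8 * B.card := by
    rw [Finset.mul_sum]
    calc ∑ v ∈ B, σ * co φ (iv v)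
        ≤ ∑ v ∈ B, ((if η / 8 ≤ σ * co φ (iv v) then (1 : ℝ) else 0) + η / 8) := by
          refine Finset.sum_le_sum fun v _ => ?_
          by_cases hv : η / 8 ≤ σ * co φ (iv v)
          · rw [if_pos hv]
            have := hab v
            linarith
          · rw [if_neg hv]
            push Not at hv
            linarith
      _ = C.card + η / 8 * B.card := by
          rw [Finset.sum_add_distrib, Finset.sum_const, nsmul_eq_mul, ← Finset.sum_filter,
            Finset.sum_const, nsmul_eq_mul]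
          ring
  have hp0 : (0 : ℝ) < p := by
    have : 0 < p := by omega
    exact_mod_cast this
  have hC8 : η / 8 * (p : ℝ) ≤ C.card := by
    have h5 : η / 8 * (B.card : ℝ) ≤ η / 8 * (4 * p) :=
      mul_le_mul_of_nonneg_left hcardB (by linarith)
    nlinarith [mul_pos hη hp0]
  refine hA C (nrm_pl hB hCB) (fun v hv => hn v (hCB hv)) hC8 φ h0 h1 σ hσ ?_
  intro v hv
  exact (Finset.mem_filter.mp hv).2

/-- The operator `∑_{v ∈ B} iv v` has small norm on the functions of mean zero.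

Proof. Both sides are homogeneous of degree two in `φ`, so let `∑ φ² = 1` (for `φ = 0` trivial). If
the statement is false then for `σ = 1` or `σ = -1` `∑_{v ∈ B} σ co φ (iv v) > η p`. Let
`B' = {v ∈ B : σ co φ (iv v) ≥ η/8}`. As `|B| ≤ 3 (p + 1) ≤ 4 p` and `|co| ≤ 1`,
`η p ≤ |B'| + (η/8) 4 p`, so `|B'| ≥ (η/2) p`. This contradicts `nrmA` for `η/8`. -/
theorem norm {η : ℝ} (hη : 0 < η) : ∃ P0 : ℕ, ∀ (p : ℕ) [Fact p.Prime], P0 ≤ p →
    ∀ B : Finset (Vc p), Pl 3 B → (∀ v ∈ B, nq v ≠ 0) → ∀ φ : X p → ℝ, ∑ s, φ s = 0 →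
    |∑ v ∈ B, co φ (iv v)| ≤ η * p * ∑ s, φ s ^ 2 := by
  obtain ⟨P0, hP⟩ := nrmA (η := η / 8) (by linarith)
  refine ⟨max P0 3, ?_⟩
  intro p hp hPp B hB hn φ h0
  have hp3 : 3 ≤ p := le_trans (le_max_right _ _) hPp
  have hp0 : P0 ≤ p := le_trans (le_max_left _ _) hPp
  set N : ℝ := ∑ s, φ s ^ 2 with hN
  have hN0 : 0 ≤ N := Finset.sum_nonneg fun s _ => sq_nonneg _
  rcases eq_or_lt_of_le hN0 with hz | hpos
  · have hφ : ∀ s, φ s = 0 := by
      intro s
      have := (Finset.sum_eq_zero_iff_of_nonneg (fun s _ => sq_nonneg (φ s))).mp hz.symm s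
        (Finset.mem_univ s)
      exact pow_eq_zero_iff (two_ne_zero) |>.mp this
    have hco : ∀ g : Gm p, co φ g = 0 := by
      intro g
      unfold co
      refine Finset.sum_eq_zero fun s _ => ?_
      rw [hφ s, mul_zero]
    rw [Finset.sum_eq_zero fun v _ => hco (iv v), ← hz]
    simp
  · set r : ℝ := Real.sqrt N with hr
    have hr2 : r * r = N := Real.mul_self_sqrt hN0
    have hrpos : 0 < r := Real.sqrt_pos.mpr hpos
    let ψ : X p → ℝ := fun s => φ s / r
    have hψ0 : ∑ s, ψ s = 0 := by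
      change ∑ s, φ s / r = 0
      rw [← Finset.sum_div, h0, zero_div]
    have hψ1 : ∑ s, ψ s ^ 2 = 1 := by
      change ∑ s, (φ s / r) ^ 2 = 1
      have : ∀ s, (φ s / r) ^ 2 = φ s ^ 2 / N := by
        intro s
        rw [div_pow, sq r, hr2]
      rw [Finset.sum_congr rfl fun s _ => this s, ← Finset.sum_div]
      exact div_self hpos.ne'
    have hco : ∀ g : Gm p, co φ g = N * co ψ g := by
      intro g
      unfold co
      rw [Finset.mul_sum]
      refine Finset.sum_congr rfl fun s _ => ?_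
      change φ (g s) * φ s = N * (φ (g s) / r * (φ s / r))
      rw [← hr2]
      field_simp
    have hsum : ∑ v ∈ B, co φ (iv v) = N * ∑ v ∈ B, co ψ (iv v) := by
      rw [Finset.mul_sum]
      exact Finset.sum_congr rfl fun v _ => hco (iv v)
    have h1 := nrm_one hη hp3 (fun B h1 h2 h3 φ h4 h5 σ h6 h7 =>
      hP p hp0 B h1 h2 h3 φ h4 h5 σ h6 h7) hB hn hψ0 hψ1 (σ := 1) (Or.inl rfl)
    have h2 := nrm_one hη hp3 (fun B h1 h2 h3 φ h4 h5 σ h6 h7 =>
      hP p hp0 B h1 h2 h3 φ h4 h5 σ h6 h7) hB hn hψ0 hψ1 (σ := -1) (Or.inr rfl)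
    have h3 : |∑ v ∈ B, co ψ (iv v)| ≤ η * p := by
      rw [abs_le]
      constructor <;> linarith
    rw [hsum, abs_mul, abs_of_pos hpos]
    calc N * |∑ v ∈ B, co ψ (iv v)| ≤ N * (η * p) := mul_le_mul_of_nonneg_left h3 hN0
      _ = η * p * N := by ring

/-- The number of the points of `A` mapped to `A`, summed over the involutions of `B`.

Proof. `norm` for `φ = 1_A - α`, `α = |A|/(p + 1)`: `co φ g = |{s ∈ A : g s ∈ A}| - α |A|` and
`∑ φ² = |A| - α |A| ≤ |A|`. -/
theorem mean_count {η : ℝ} (hη : 0 < η) : ∃ P0 : ℕ, ∀ (p : ℕ) [Fact p.Prime], P0 ≤ p →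
    ∀ B : Finset (Vc p), Pl 3 B → (∀ v ∈ B, nq v ≠ 0) → ∀ A : Finset (X p),
    |∑ v ∈ B, ((A.filter fun s => iv v s ∈ A).card : ℝ)
      - (B.card : ℝ) * (A.card : ℝ) ^ 2 / (p + 1)| ≤ η * p * A.card := by
  classical
  obtain ⟨P0, hP⟩ := norm hη
  refine ⟨P0, ?_⟩
  intro p hp hPp B hB hn A
  have hp1 : (0 : ℝ) < (p : ℝ) + 1 := by positivity
  set α : ℝ := (A.card : ℝ) / (p + 1) with hα
  have hα0 : 0 ≤ α := by positivity
  have hαp : α * (p + 1) = A.card := by
    rw [hα]
    field_simp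
  let ind : X p → ℝ := fun s => if s ∈ A then 1 else 0
  let φ : X p → ℝ := fun s => ind s - α
  have hcardX : ∑ _s : X p, (1 : ℝ) = p + 1 := by
    rw [Finset.sum_const, Finset.card_univ, card_X, nsmul_eq_mul]
    push_cast
    ring
  have hind : ∑ s, ind s = A.card := by
    change ∑ s : X p, (if s ∈ A then (1 : ℝ) else 0) = A.card
    rw [Finset.sum_ite_mem, Finset.univ_inter, Finset.sum_const, nsmul_eq_mul, mul_one]
  have hcst : ∀ c : ℝ, ∑ _s : X p, c = c * (p + 1) := by
    intro c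
    rw [← hcardX, Finset.mul_sum]
    simp
  have h0 : ∑ s, φ s = 0 := by
    change ∑ s, (ind s - α) = 0
    rw [Finset.sum_sub_distrib, hind, hcst, hαp, sub_self]
  have hsq : ∑ s, φ s ^ 2 = A.card - α * A.card := by
    have h1 : ∀ s, φ s ^ 2 = ind s - 2 * α * ind s + α * α := by
      intro s
      change (ind s - α) ^ 2 = _
      have : ind s ^ 2 = ind s := by
        change (if s ∈ A then (1 : ℝ) else 0) ^ 2 = if s ∈ A then (1 : ℝ) else 0
        split_ifs <;> norm_num
      nlinarith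
    rw [Finset.sum_congr rfl fun s _ => h1 s, Finset.sum_add_distrib, Finset.sum_sub_distrib,
      ← Finset.mul_sum, hind, hcst, mul_assoc α α, hαp]
    ring
  have hco : ∀ g : Gm p, co φ g = ((A.filter fun s => g s ∈ A).card : ℝ) - α * A.card := by
    intro g
    have h1 : ∀ s, φ (g s) * φ s
        = (if s ∈ A ∧ g s ∈ A then (1 : ℝ) else 0) - α * ind (g s) - α * ind s + α * α := by
      intro s
      change (ind (g s) - α) * (ind s - α) = _
      have : ind (g s) * ind s = if s ∈ A ∧ g s ∈ A then (1 : ℝ) else 0 := by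
        change (if g s ∈ A then (1 : ℝ) else 0) * (if s ∈ A then (1 : ℝ) else 0) = _
        by_cases h1 : g s ∈ A <;> by_cases h2 : s ∈ A <;> simp [h1, h2]
      rw [← this]
      ring
    have h2 : ∑ s, ind (g s) = A.card := by
      rw [← hind]
      exact Equiv.sum_comp g ind
    have h3 : ∑ s, (if s ∈ A ∧ g s ∈ A then (1 : ℝ) else 0)
        = ((A.filter fun s => g s ∈ A).card : ℝ) := by
      rw [← Finset.sum_filter, Finset.sum_const, nsmul_eq_mul, mul_one]
      congr 2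
      ext s
      simp
    unfold co
    rw [Finset.sum_congr rfl fun s _ => h1 s, Finset.sum_add_distrib, Finset.sum_sub_distrib,
      Finset.sum_sub_distrib, h3, ← Finset.mul_sum, ← Finset.mul_sum, h2, hind, hcst,
      mul_assoc α α, hαp]
    ring
  have hmain := hP p hPp B hB hn φ h0
  rw [Finset.sum_congr rfl fun v _ => hco (iv v), Finset.sum_sub_distrib, Finset.sum_const,
    nsmul_eq_mul, hsq] at hmain
  have he : (B.card : ℝ) * (A.card : ℝ) ^ 2 / (p + 1) = B.card * (α * A.card) := by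
    rw [hα]
    field_simp
  rw [he]
  refine hmain.trans ?_
  refine mul_le_mul_of_nonneg_left ?_ (by positivity)
  have : 0 ≤ α * (A.card : ℝ) := by positivity
  linarith

end Pool.Agent.MP193G
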