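import Mathlib
import Pool.Agent.Lib.MP_193dd3_co_G.Nrm

/-!
# MP_193dd3_co, project G: bounds for sets with few points on the secants of a set on the conic
-/

set_option autoImplicit false

namespace Pool.Agent.MP193G

/-- Double counting of the pairs exchanged by the involutions. -/
private theorem cnt_dbl {p : ℕ} [Fact p.Prime] {B : Finset (Vc p)} (hn : ∀ v ∈ B, nq v ≠ 0)
    (A : Finset (X p)) :
    ∑ v ∈ B, ((A.filter fun s => iv v s ∈ A).card : ℝ)
      = ∑ s ∈ A, ∑ t ∈ A, ((B.filter fun v => Lf s t v = 0).card : ℝ) := by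
  have h1 : ∀ v ∈ B, ((A.filter fun s => iv v s ∈ A).card : ℝ)
      = ∑ s ∈ A, ∑ t ∈ A, if Lf s t v = 0 then (1 : ℝ) else 0 := by
    intro v hv
    rw [Finset.card_filter]
    push_cast
    refine Finset.sum_congr rfl fun s _ => ?_
    rw [← Finset.sum_ite_eq A (iv v s) fun _ => (1 : ℝ)]
    refine Finset.sum_congr rfl fun t _ => ?_
    exact if_congr (iv_iff (hn v hv) s t) rfl rfl
  have h2 : ∀ s t : X p, ((B.filter fun v => Lf s t v = 0).card : ℝ)
      = ∑ v ∈ B, if Lf s t v = 0 then (1 : ℝ) else 0 := by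
    intro s t
    rw [Finset.card_filter]
    push_cast
    rfl
  rw [Finset.sum_congr rfl h1, Finset.sum_comm]
  refine Finset.sum_congr rfl fun s _ => ?_
  rw [Finset.sum_comm]
  exact Finset.sum_congr rfl fun t _ => (h2 s t).symm

private theorem cnt_three {p : ℕ} [Fact p.Prime] {B : Finset (Vc p)} (hB : Pl 3 B) (s t : X p) :
    ((B.filter fun v => Lf s t v = 0).card : ℝ) ≤ 3 := by
  obtain ⟨l, hl, hv⟩ := Lf_lin s t
  have h := hB l hl
  have e : (B.filter fun v => Lf s t v = 0) = B.filter fun v => lin l v = 0 := by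
    refine Finset.filter_congr fun v _ => ?_
    rw [hv v]
  rw [e]
  exact_mod_cast h

private theorem cnt_diag {p : ℕ} [Fact p.Prime] (A : Finset (X p)) (c : ℝ) :
    ∑ s ∈ A, ∑ t ∈ A, (if s = t then c else 0) = c * A.card := by
  have h : ∀ s ∈ A, ∑ t ∈ A, (if s = t then c else 0) = c := by
    intro s hs
    rw [Finset.sum_ite_eq A s fun _ => c, if_pos hs]
  rw [Finset.sum_congr rfl h, Finset.sum_const, nsmul_eq_mul]
  ring

/-- If every secant of a large subset `A` of the conic contains at most one point of `B`, then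
`B` has at most `(1 + ε) p` points.

Proof. `N = ∑_{v ∈ B} |{s ∈ A : iv v s ∈ A}|` is the sum over all `(s, t) ∈ A²` of
`|{v ∈ B : Lf s t v = 0}|` (`iv_iff`): at most `1` for `s ≠ t`, at most `3` for `s = t` (`Pl 3 B`,
`Lf_lin`). So `N ≤ |A|² + 3 |A|`. By `mean_count` with `η = δ ε / 8`
`|B| |A|²/(p + 1) ≤ |A|² + 3 |A| + η p |A|`, so `|B| ≤ (p + 1)(1 + (3 + η p)/(δ p)) ≤ (1 + ε) p` for
large `p`. -/
theorem cnt {δ ε : ℝ} (hδ : 0 < δ) (hε : 0 < ε) : ∃ P0 : ℕ, ∀ (p : ℕ) [Fact p.Prime], P0 ≤ p →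
    ∀ B : Finset (Vc p), Pl 3 B → (∀ v ∈ B, nq v ≠ 0) → ∀ A : Finset (X p),
    δ * (p : ℝ) ≤ A.card →
    (∀ s ∈ A, ∀ t ∈ A, s ≠ t → (B.filter fun v => Lf s t v = 0).card ≤ 1) →
    (B.card : ℝ) ≤ (1 + ε) * p := by
  obtain ⟨P1, hP⟩ := mean_count (η := δ * ε / 8) (by positivity)
  refine ⟨max P1 (⌈(6 + δ) * 2 / (δ * ε)⌉₊ + 1), ?_⟩
  intro p hp hPp B hB hn A hA hsec
  have hP1 : P1 ≤ p := le_trans (le_max_left _ _) hPp
  have hP2 : ⌈(6 + δ) * 2 / (δ * ε)⌉₊ + 1 ≤ p := le_trans (le_max_right _ _) hPp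
  have hbig : (6 + δ) * 2 / (δ * ε) < (p : ℝ) :=
    lt_of_le_of_lt (Nat.le_ceil _) (by exact_mod_cast Nat.lt_of_succ_le hP2)
  have hp1 : (1 : ℝ) ≤ (p : ℝ) := by exact_mod_cast (le_trans (Nat.le_add_left 1 _) hP2)
  have hδε : 0 < δ * ε := mul_pos hδ hε
  rw [div_lt_iff₀ hδε] at hbig
  have hmain := hP p hP1 B hB hn A
  rw [cnt_dbl hn A] at hmain
  obtain ⟨a, ha⟩ : ∃ a : ℝ, a = A.card := ⟨_, rfl⟩
  obtain ⟨b, hb⟩ : ∃ b : ℝ, b = B.card := ⟨_, rfl⟩
  obtain ⟨P, hPe⟩ : ∃ P : ℝ, P = (p : ℝ) := ⟨_, rfl⟩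
  have hN : ∑ s ∈ A, ∑ t ∈ A, ((B.filter fun v => Lf s t v = 0).card : ℝ) ≤ a ^ 2 + 3 * a := by
    calc ∑ s ∈ A, ∑ t ∈ A, ((B.filter fun v => Lf s t v = 0).card : ℝ)
        ≤ ∑ s ∈ A, ∑ t ∈ A, ((1 : ℝ) + if s = t then 3 else 0) := by
          refine Finset.sum_le_sum fun s hs => Finset.sum_le_sum fun t ht => ?_
          by_cases hst : s = t
          · rw [if_pos hst]
            have := cnt_three hB s t
            linarith
          · rw [if_neg hst, add_zero]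
            exact_mod_cast hsec s hs t ht hst
      _ = a ^ 2 + 3 * a := by
          simp only [Finset.sum_add_distrib]
          rw [cnt_diag, Finset.sum_const, Finset.sum_const, nsmul_eq_mul, nsmul_eq_mul, ha]
          ring
  have h1 := (abs_le.1 hmain).1
  rw [← ha, ← hb, ← hPe] at h1
  rw [← ha, ← hPe] at hA
  rw [← hPe] at hbig hp1
  rw [← hb, ← hPe]
  have hP0 : 0 < P := by linarith
  have ha0 : 0 < a := lt_of_lt_of_le (mul_pos hδ hP0) hA
  have h2 : b * a ^ 2 / (P + 1) ≤ a * (a + 3 + δ * ε / 8 * P) := by nlinarith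
  rw [div_le_iff₀ (by linarith)] at h2
  have h3 : b * a ≤ (a + 3 + δ * ε / 8 * P) * (P + 1) := by
    have : a * (b * a) ≤ a * ((a + 3 + δ * ε / 8 * P) * (P + 1)) := by nlinarith
    exact le_of_mul_le_mul_left this ha0
  by_contra hcon
  push Not at hcon
  have h4 : (1 + ε) * P * a < (a + 3 + δ * ε / 8 * P) * (P + 1) :=
    lt_of_lt_of_le (mul_lt_mul_of_pos_right hcon ha0) h3
  have h5 : (ε * P - 1) * a < (3 + δ * ε / 8 * P) * (P + 1) := by nlinarith
  have h6 : 0 < ε * P - 1 := by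
    by_contra h
    push Not at h
    have : δ * (ε * P) ≤ δ * 1 := mul_le_mul_of_nonneg_left (by linarith) hδ.le
    nlinarith
  have h7 : (ε * P - 1) * (δ * P) ≤ (ε * P - 1) * a := mul_le_mul_of_nonneg_left hA h6.le
  have h8 : (3 + δ * ε / 8 * P) * (P + 1) ≤ (3 + δ * ε / 8 * P) * (2 * P) := by
    refine mul_le_mul_of_nonneg_left (by linarith) ?_
    positivity
  have h9 : P * ((ε * P - 1) * δ) < P * ((3 + δ * ε / 8 * P) * 2) := by nlinarith
  have h10 := lt_of_mul_lt_mul_left h9 hP0.le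
  nlinarith

/-- The same with the bound `(1/2 + ε) p` if `B` is part of a set `E` (of at most `p + 1` points)
which almost always has zero or two points on a secant.

Proof. For every `(s, t) ∈ A²`, `s ≠ t`, `|{v ∈ B : Lf s t v = 0}| ≤
(1/2) |{v ∈ E : Lf s t v = 0}| + [(s, t) exceptional]`, where `(s, t)` is exceptional if exactly one
point of `E` is on the secant. As in `cnt` (sum over `A²`, at most `3` for `s = t`)
`N(B) ≤ (1/2) N(E) + 20 p + 3 |A|`, and by `mean_count` for `B` and `E` with `η = δ ε / 8`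
`|B| |A|²/(p + 1) - η p |A| ≤ (1/2)(|A|² + η p |A|) + 20 p + 3 |A|` (`|E| ≤ p + 1`). Divide by
`|A|²/(p + 1)`; `|A| ≥ δ p`. -/
theorem cnt_half {δ ε : ℝ} (hδ : 0 < δ) (hε : 0 < ε) : ∃ P0 : ℕ, ∀ (p : ℕ) [Fact p.Prime],
    P0 ≤ p → ∀ E : Finset (Vc p), Pl 3 E → (∀ v ∈ E, nq v ≠ 0) → E.card ≤ p + 1 →
    (Finset.univ.filter fun q : X p × X p =>
      q.1 ≠ q.2 ∧ (E.filter fun v => Lf q.1 q.2 v = 0).card = 1).card ≤ 20 * p →
    ∀ B ⊆ E, ∀ A : Finset (X p), δ * (p : ℝ) ≤ A.card →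
    (∀ s ∈ A, ∀ t ∈ A, s ≠ t → (B.filter fun v => Lf s t v = 0).card ≤ 1) →
    (B.card : ℝ) ≤ (1 / 2 + ε) * p := by
  obtain ⟨P1, hP⟩ := mean_count (η := δ * ε / 8) (by positivity)
  refine ⟨max P1 (⌈(1 + 2 * (20 / δ + 3) / δ) * 2 / ε⌉₊ + 1), ?_⟩
  intro p hp hPp E hE hn hEc hexc B hBE A hA hsec
  have hP1 : P1 ≤ p := le_trans (le_max_left _ _) hPp
  have hP2 : ⌈(1 + 2 * (20 / δ + 3) / δ) * 2 / ε⌉₊ + 1 ≤ p := le_trans (le_max_right _ _) hPp
  have hbig : (1 + 2 * (20 / δ + 3) / δ) * 2 / ε < (p : ℝ) :=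
    lt_of_le_of_lt (Nat.le_ceil _) (by exact_mod_cast Nat.lt_of_succ_le hP2)
  have hp1 : (1 : ℝ) ≤ (p : ℝ) := by exact_mod_cast (le_trans (Nat.le_add_left 1 _) hP2)
  rw [div_lt_iff₀ hε] at hbig
  have hB : Pl 3 B := fun l hl =>
    le_trans (Finset.card_le_card (Finset.filter_subset_filter _ hBE)) (hE l hl)
  have hnB : ∀ v ∈ B, nq v ≠ 0 := fun v hv => hn v (hBE hv)
  have hmB := hP p hP1 B hB hnB A
  have hmE := hP p hP1 E hE hn A
  rw [cnt_dbl hnB A] at hmB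
  rw [cnt_dbl hn A] at hmE
  obtain ⟨a, ha⟩ : ∃ a : ℝ, a = A.card := ⟨_, rfl⟩
  obtain ⟨b, hb⟩ : ∃ b : ℝ, b = B.card := ⟨_, rfl⟩
  obtain ⟨e, he⟩ : ∃ e : ℝ, e = E.card := ⟨_, rfl⟩
  obtain ⟨P, hPe⟩ : ∃ P : ℝ, P = (p : ℝ) := ⟨_, rfl⟩
  obtain ⟨NE, hNE⟩ : ∃ N : ℝ,
    N = ∑ s ∈ A, ∑ t ∈ A, ((E.filter fun v => Lf s t v = 0).card : ℝ) := ⟨_, rfl⟩
  have hx : ∑ s ∈ A, ∑ t ∈ A, (if s ≠ t ∧ (E.filter fun v => Lf s t v = 0).card = 1
      then (1 : ℝ) else 0) ≤ 20 * P := by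
    rw [← Finset.sum_product' A A fun s t => if s ≠ t ∧
      (E.filter fun v => Lf s t v = 0).card = 1 then (1 : ℝ) else 0]
    calc ∑ q ∈ A ×ˢ A, (if q.1 ≠ q.2 ∧ (E.filter fun v => Lf q.1 q.2 v = 0).card = 1
          then (1 : ℝ) else 0)
        ≤ ∑ q : X p × X p, (if q.1 ≠ q.2 ∧ (E.filter fun v => Lf q.1 q.2 v = 0).card = 1
          then (1 : ℝ) else 0) := by
          refine Finset.sum_le_sum_of_subset_of_nonneg (Finset.subset_univ _) fun q _ _ => ?_
          split_ifs <;> norm_num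
      _ = ((Finset.univ.filter fun q : X p × X p =>
            q.1 ≠ q.2 ∧ (E.filter fun v => Lf q.1 q.2 v = 0).card = 1).card : ℝ) := by
          rw [Finset.card_filter]
          push_cast
          rfl
      _ ≤ 20 * P := by
          rw [hPe]
          exact_mod_cast hexc
  have hN : ∑ s ∈ A, ∑ t ∈ A, ((B.filter fun v => Lf s t v = 0).card : ℝ)
      ≤ 1 / 2 * NE + 20 * P + 3 * a := by
    calc ∑ s ∈ A, ∑ t ∈ A, ((B.filter fun v => Lf s t v = 0).card : ℝ)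
        ≤ ∑ s ∈ A, ∑ t ∈ A, (1 / 2 * ((E.filter fun v => Lf s t v = 0).card : ℝ)
          + (if s ≠ t ∧ (E.filter fun v => Lf s t v = 0).card = 1 then (1 : ℝ) else 0)
          + if s = t then 3 else 0) := by
          refine Finset.sum_le_sum fun s hs => Finset.sum_le_sum fun t ht => ?_
          by_cases hst : s = t
          · rw [if_pos hst, if_neg (fun h => h.1 hst)]
            have := cnt_three hB s t
            have h0 : (0 : ℝ) ≤ ((E.filter fun v => Lf s t v = 0).card : ℝ) := Nat.cast_nonneg _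
            linarith
          · rw [if_neg hst]
            have h1 := hsec s hs t ht hst
            have h2 : (B.filter fun v => Lf s t v = 0).card
                ≤ (E.filter fun v => Lf s t v = 0).card :=
              Finset.card_le_card (Finset.filter_subset_filter _ hBE)
            have h0 : (0 : ℝ) ≤ ((E.filter fun v => Lf s t v = 0).card : ℝ) := Nat.cast_nonneg _
            by_cases h3 : (E.filter fun v => Lf s t v = 0).card = 1
            · rw [if_pos ⟨hst, h3⟩]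
              have : ((B.filter fun v => Lf s t v = 0).card : ℝ) ≤ 1 := by exact_mod_cast h1
              linarith
            · rw [if_neg (fun h => h3 h.2)]
              have h4 : 2 * (B.filter fun v => Lf s t v = 0).card
                  ≤ (E.filter fun v => Lf s t v = 0).card := by omega
              have h5 : 2 * ((B.filter fun v => Lf s t v = 0).card : ℝ)
                  ≤ ((E.filter fun v => Lf s t v = 0).card : ℝ) := by exact_mod_cast h4
              linarith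
      _ = 1 / 2 * NE + ∑ s ∈ A, ∑ t ∈ A, (if s ≠ t ∧
            (E.filter fun v => Lf s t v = 0).card = 1 then (1 : ℝ) else 0) + 3 * a := by
          simp only [Finset.sum_add_distrib, ← Finset.mul_sum]
          rw [cnt_diag, hNE, ha]
      _ ≤ 1 / 2 * NE + 20 * P + 3 * a := by linarith
  have h1 := (abs_le.1 hmB).1
  have h1' := (abs_le.1 hmE).2
  rw [← ha, ← hb, ← hPe] at h1
  rw [← ha, ← he, ← hPe, ← hNE] at h1'
  rw [← ha, ← hPe] at hA
  rw [← hPe] at hbig hp1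
  rw [← hb, ← hPe]
  have hP0 : 0 < P := by linarith
  have ha0 : 0 < a := lt_of_lt_of_le (mul_pos hδ hP0) hA
  have he1 : e ≤ P + 1 := by
    rw [he, hPe]
    exact_mod_cast hEc
  have h2 : e * a ^ 2 / (P + 1) ≤ a ^ 2 := by
    rw [div_le_iff₀ (by linarith)]
    nlinarith [sq_nonneg a, mul_nonneg (sub_nonneg.2 he1) (sq_nonneg a)]
  have h3 : b * a ^ 2 / (P + 1) ≤ 1 / 2 * a ^ 2 + 3 / 2 * (δ * ε / 8 * P * a) + 20 * P + 3 * a := by
    linarith
  have hPa : P ≤ a / δ := by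
    rw [le_div_iff₀ hδ]
    linarith
  have h4 : δ * ε / 8 * P * a ≤ ε / 8 * a ^ 2 := by
    have : ε / 8 * a * (δ * P) ≤ ε / 8 * a * a := mul_le_mul_of_nonneg_left hA (by positivity)
    nlinarith
  obtain ⟨K, hK⟩ : ∃ K : ℝ, K = 20 / δ + 3 := ⟨_, rfl⟩
  have hK0 : 0 < K := by
    rw [hK]
    positivity
  have h5 : 20 * P + 3 * a ≤ K * a := by
    have : 20 * P ≤ 20 * (a / δ) := by linarith
    have e1 : K * a = 20 * (a / δ) + 3 * a := by
      rw [hK]
      ring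
    linarith
  have h6 : b * a ^ 2 / (P + 1) ≤ a * ((1 / 2 + 3 / 16 * ε) * a + K) := by nlinarith
  rw [div_le_iff₀ (by linarith)] at h6
  have h7 : b * a ≤ ((1 / 2 + 3 / 16 * ε) * a + K) * (P + 1) := by
    have : a * (b * a) ≤ a * (((1 / 2 + 3 / 16 * ε) * a + K) * (P + 1)) := by nlinarith
    exact le_of_mul_le_mul_left this ha0
  by_contra hcon
  push Not at hcon
  have h8 : (1 / 2 + ε) * P * a < ((1 / 2 + 3 / 16 * ε) * a + K) * (P + 1) :=
    lt_of_lt_of_le (mul_lt_mul_of_pos_right hcon ha0) h7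
  have h9 : K * (P + 1) ≤ 2 * K / δ * a := by
    have e1 : K * (P + 1) ≤ K * (2 * P) := mul_le_mul_of_nonneg_left (by linarith) hK0.le
    have e2 : K * (2 * P) ≤ K * (2 * (a / δ)) := mul_le_mul_of_nonneg_left (by linarith) hK0.le
    have e3 : K * (2 * (a / δ)) = 2 * K / δ * a := by ring
    linarith
  have h10 : a * ((1 / 2 + ε) * P) < a * ((1 / 2 + 3 / 16 * ε) * (P + 1) + 2 * K / δ) := by
    nlinarith
  have h11 := lt_of_mul_lt_mul_left h10 ha0.le
  rw [← hK] at hbig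
  have hεP : ε * 1 ≤ ε * P := mul_le_mul_of_nonneg_left hp1 hε.le
  nlinarith

end Pool.Agent.MP193G
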