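import Mathlib
import Pool.Agent.Lib.MP_193dd3_co_G.Defs

/-!
# MP_193dd3_co, project G: normal form of a conic with seven points of the set
-/

set_option autoImplicit false

namespace Pool.Agent.MP193G

variable {p : ℕ} [Fact p.Prime]

/-- At most three points on each line, in terms of the equations of the lines. -/
def NoFour {p : ℕ} (A : Finset (ZMod p × ZMod p)) : Prop :=
  ∀ a b c : ZMod p, (a ≠ 0 ∨ b ≠ 0) → (A.filter fun P => a * P.1 + b * P.2 + c = 0).card ≤ 3

/-- A linear functional in coordinates. -/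
private theorem ConA_coord (φ : Vc p →ₗ[ZMod p] ZMod p) (v : Vc p) :
    φ v = φ (1, 0, 0) * v.1 + φ (0, 1, 0) * v.2.1 + φ (0, 0, 1) * v.2.2 := by
  have h : v = v.1 • ((1, 0, 0) : Vc p) + v.2.1 • ((0, 1, 0) : Vc p)
      + v.2.2 • ((0, 0, 1) : Vc p) := by
    obtain ⟨a, b, c⟩ := v
    simp
  conv_lhs => rw [h]
  simp only [map_add, map_smul, smul_eq_mul]
  ring

/-- A nonzero linear functional vanishes on at most three points of the set. -/
private theorem ConA_fun (A : Finset (ZMod p × ZMod p)) (hA : NoFour A)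
    (φ : Vc p →ₗ[ZMod p] ZMod p) (hφ : φ ≠ 0) : (A.filter fun P => φ (af P) = 0).card ≤ 3 := by
  have key : ∀ P : ZMod p × ZMod p,
      φ (af P) = φ (1, 0, 0) * P.1 + φ (0, 1, 0) * P.2 + φ (0, 0, 1) := by
    intro P
    rw [ConA_coord φ (af P)]
    simp [af]
  by_cases h : φ (1, 0, 0) ≠ 0 ∨ φ (0, 1, 0) ≠ 0
  · have := hA _ _ (φ (0, 0, 1)) h
    simpa only [key] using this
  · push Not at h
    obtain ⟨h1, h2⟩ := h
    have h3 : φ (0, 0, 1) ≠ 0 := by
      intro h3
      apply hφ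
      apply LinearMap.ext
      intro v
      rw [ConA_coord φ v, h1, h2, h3]
      simp
    have : (A.filter fun P => φ (af P) = 0) = ∅ := by
      apply Finset.filter_eq_empty_iff.2
      intro P _
      rw [key, h1, h2]
      simpa using h3
    rw [this]
    simp

/-- The functional `lin l`. -/
private def ConA_lin (l : Vc p) : Vc p →ₗ[ZMod p] ZMod p where
  toFun v := lin l v
  map_add' v w := by simp only [lin, Prod.fst_add, Prod.snd_add]; ring
  map_smul' c v := by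
    simp only [lin, Prod.smul_fst, Prod.smul_snd, smul_eq_mul, RingHom.id_apply]; ring

/-- Proof: `lin l (af P) = l.1 * P.1 + l.2.1 * P.2 + l.2.2`; if the first two coefficients of
`l ≠ 0` are zero there are no zeros. `af` is injective, and a linear equivalence `T` maps planes to
planes: `lin l (T v) = lin l' v` with `l' ≠ 0`. -/
theorem Pl_image (A : Finset (ZMod p × ZMod p)) (hA : NoFour A) (T : Vc p ≃ₗ[ZMod p] Vc p)
    (B : Finset (ZMod p × ZMod p)) (hB : B ⊆ A) : Pl 3 (B.image fun P => T (af P)) := by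
  intro l hl
  have hne : (ConA_lin l).comp T.toLinearMap ≠ 0 := by
    intro h
    apply hl
    have h0 : ∀ v : Vc p, lin l v = 0 := by
      intro v
      have := LinearMap.congr_fun h (T.symm v)
      simpa [ConA_lin] using this
    have e1 := h0 (1, 0, 0)
    have e2 := h0 (0, 1, 0)
    have e3 := h0 (0, 0, 1)
    simp [lin] at e1 e2 e3
    ext <;> simp [e1, e2, e3]
  have h3 := ConA_fun A hA _ hne
  refine le_trans ?_ h3
  have hsub : ((B.image fun P => T (af P)).filter fun v => lin l v = 0) ⊆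
      (A.filter fun P => ((ConA_lin l).comp T.toLinearMap) (af P) = 0).image
        fun P => T (af P) := by
    intro v hv
    rw [Finset.mem_filter, Finset.mem_image] at hv
    obtain ⟨⟨P, hP, rfl⟩, hv⟩ := hv
    rw [Finset.mem_image]
    refine ⟨P, ?_, rfl⟩
    rw [Finset.mem_filter]
    refine ⟨hB hP, ?_⟩
    simpa [ConA_lin] using hv
  exact le_trans (Finset.card_le_card hsub) Finset.card_image_le

/-- A quadratic form which is a product of two functionals. -/
private theorem ConA_prod (A : Finset (ZMod p × ZMod p)) (hA : NoFour A) (f : Fin 6 → ZMod p)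
    (hf : f ≠ 0) (h7 : 7 ≤ (A.filter fun P => ev f P = 0).card)
    (φ ψ : Vc p →ₗ[ZMod p] ZMod p) (h : ∀ v, evh f v = φ v * ψ v) : False := by
  have hn : ¬ ∀ v, evh f v = 0 := by
    intro h0
    apply hf
    have e1 := h0 (1, 0, 0)
    have e2 := h0 (0, 1, 0)
    have e3 := h0 (0, 0, 1)
    have e4 := h0 (1, 1, 0)
    have e5 := h0 (1, 0, 1)
    have e6 := h0 (0, 1, 1)
    simp [evh] at e1 e2 e3 e4 e5 e6
    simp [e1, e2, e3] at e4 e5 e6
    funext i
    fin_cases i <;> simp [e1, e2, e3, e4, e5, e6]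
  have hφ : φ ≠ 0 := by
    intro h0
    apply hn
    intro v
    rw [h, h0]
    simp
  have hψ : ψ ≠ 0 := by
    intro h0
    apply hn
    intro v
    rw [h, h0]
    simp
  have c1 := ConA_fun A hA φ hφ
  have c2 := ConA_fun A hA ψ hψ
  have hsub : (A.filter fun P => ev f P = 0) ⊆
      (A.filter fun P => φ (af P) = 0) ∪ (A.filter fun P => ψ (af P) = 0) := by
    intro P hP
    rw [Finset.mem_filter] at hP
    have h1 : evh f (af P) = ev f P := by
      simp only [evh, ev, af]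
      ring
    rw [← h1, h, mul_eq_zero] at hP
    rw [Finset.mem_union, Finset.mem_filter, Finset.mem_filter]
    rcases hP with ⟨hP, h2 | h2⟩
    · exact Or.inl ⟨hP, h2⟩
    · exact Or.inr ⟨hP, h2⟩
  have := (Finset.card_le_card hsub).trans (Finset.card_union_le _ _)
  omega

/-- The linear map with three given columns. -/
private def ConA_S (P Q R : ZMod p × ZMod p) : Vc p →ₗ[ZMod p] Vc p where
  toFun v := (v.1 * P.1 + v.2.1 * Q.1 + v.2.2 * R.1, v.1 * P.2 + v.2.1 * Q.2 + v.2.2 * R.2,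
    v.1 + v.2.1 + v.2.2)
  map_add' v w := by
    ext <;> simp only [Prod.fst_add, Prod.snd_add] <;> ring
  map_smul' c v := by
    ext <;> simp only [Prod.smul_fst, Prod.smul_snd, smul_eq_mul, RingHom.id_apply] <;> ring

/-- The determinant of three points. -/
private def ConA_D (P Q R : ZMod p × ZMod p) : ZMod p :=
  (P.2 - Q.2) * R.1 + (Q.1 - P.1) * R.2 + (P.1 * Q.2 - Q.1 * P.2)

private theorem ConA_inj (P Q R : ZMod p × ZMod p) (h : ConA_D P Q R ≠ 0) :
    Function.Injective (ConA_S P Q R) := by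
  rw [← LinearMap.ker_eq_bot, LinearMap.ker_eq_bot']
  intro v hv
  have e1 : v.1 * P.1 + v.2.1 * Q.1 + v.2.2 * R.1 = 0 := congrArg Prod.fst hv
  have e2 : v.1 * P.2 + v.2.1 * Q.2 + v.2.2 * R.2 = 0 := congrArg (fun w => w.2.1) hv
  have e3 : v.1 + v.2.1 + v.2.2 = 0 := congrArg (fun w => w.2.2) hv
  have f1 : ConA_D P Q R * v.1 = 0 := by
    unfold ConA_D
    linear_combination (Q.2 - R.2) * e1 + (R.1 - Q.1) * e2 + (Q.1 * R.2 - R.1 * Q.2) * e3
  have f2 : ConA_D P Q R * v.2.1 = 0 := by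
    unfold ConA_D
    linear_combination (R.2 - P.2) * e1 + (P.1 - R.1) * e2 + (R.1 * P.2 - P.1 * R.2) * e3
  have f3 : ConA_D P Q R * v.2.2 = 0 := by
    unfold ConA_D
    linear_combination (P.2 - Q.2) * e1 + (Q.1 - P.1) * e2 + (P.1 * Q.2 - Q.1 * P.2) * e3
  have g1 : v.1 = 0 := (mul_eq_zero.1 f1).resolve_left h
  have g2 : v.2.1 = 0 := (mul_eq_zero.1 f2).resolve_left h
  have g3 : v.2.2 = 0 := (mul_eq_zero.1 f3).resolve_left h
  ext
  · exact g1
  · exact g2
  · exact g3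

/-- The last change of coordinates. -/
private def ConA_W (α β γ : ZMod p) : Vc p →ₗ[ZMod p] Vc p where
  toFun v := (v.2.2, -(γ ^ 2 * (α * β)⁻¹) * (v.1 + α * γ⁻¹ * v.2.2), v.2.1 + β * γ⁻¹ * v.2.2)
  map_add' v w := by
    ext <;> simp only [Prod.fst_add, Prod.snd_add] <;> ring
  map_smul' c v := by
    ext <;> simp only [Prod.smul_fst, Prod.smul_snd, smul_eq_mul, RingHom.id_apply] <;> ring

private theorem ConA_W_inj (α β γ : ZMod p) (hα : α ≠ 0) (hβ : β ≠ 0) (hγ : γ ≠ 0) :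
    Function.Injective (ConA_W α β γ) := by
  rw [← LinearMap.ker_eq_bot, LinearMap.ker_eq_bot']
  intro v hv
  have e1 : v.2.2 = 0 := congrArg Prod.fst hv
  have e2 : -(γ ^ 2 * (α * β)⁻¹) * (v.1 + α * γ⁻¹ * v.2.2) = 0 := congrArg (fun w => w.2.1) hv
  have e3 : v.2.1 + β * γ⁻¹ * v.2.2 = 0 := congrArg (fun w => w.2.2) hv
  rw [e1] at e2 e3
  simp only [mul_zero, add_zero] at e2 e3
  have hne : -(γ ^ 2 * (α * β)⁻¹) ≠ 0 := by
    rw [neg_ne_zero]
    exact mul_ne_zero (pow_ne_zero _ hγ) (inv_ne_zero (mul_ne_zero hα hβ))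
  have g1 : v.1 = 0 := (mul_eq_zero.1 e2).resolve_left hne
  ext
  · exact g1
  · exact e3
  · exact e1

/-- Normal form.

Proof. Let `Z` be the set of the points of `A` with `ev f P = 0`, `|Z| ≥ 7`. Choose
`P1 ≠ P2` in `Z` and `P3 ∈ Z` not on their line (it contains at most three points of `A`). The
vectors `u i = af (P i)` form a basis (their determinant is not zero), and
`evh f (x u1 + y u2 + z u3) = α y z + β z x + γ x y`, because `evh f (u i) = ev f (P i) = 0`. Claim: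
`α, β, γ ≠ 0`. Let for instance `α = 0`; the form is `x (β z + γ y)`; it is not zero, because
`f ≠ 0` (evaluate `evh f` at `(1,0,0)`, `(0,1,0)`, `(0,0,1)`, `(1,1,0)` and so on), so all zeros lie
in two planes, and `|Z| ≤ 6` (`Pl_image`), a contradiction. Put
`T (x u1 + y u2 + z u3) = (z, - (γ²/(α β)) (x + α z/γ), y + β z/γ)` and `k = - α β/γ`; then
`k * nq (T v) = γ (x + α z/γ)(y + β z/γ) - α β z²/γ = evh f v`. -/
theorem normal_form (A : Finset (ZMod p × ZMod p)) (hA : NoFour A) (f : Fin 6 → ZMod p)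
    (hf : f ≠ 0) (h7 : 7 ≤ (A.filter fun P => ev f P = 0).card) :
    ∃ (T : Vc p ≃ₗ[ZMod p] Vc p) (k : ZMod p), k ≠ 0 ∧ ∀ v, evh f v = k * nq (T v) := by
  obtain ⟨P, hP, Q, hQ, hPQ⟩ :=
    Finset.one_lt_card.1 (show 1 < (A.filter fun P => ev f P = 0).card by omega)
  have hab : P.2 - Q.2 ≠ 0 ∨ Q.1 - P.1 ≠ 0 := by
    by_contra h
    push Not at h
    apply hPQ
    ext
    · exact (sub_eq_zero.1 h.2).symm
    · exact sub_eq_zero.1 h.1
  have h3 := hA _ _ (P.1 * Q.2 - Q.1 * P.2) hab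
  obtain ⟨R, hR, hRn⟩ : ∃ R ∈ A.filter fun P => ev f P = 0,
      R ∉ A.filter fun R =>
        (P.2 - Q.2) * R.1 + (Q.1 - P.1) * R.2 + (P.1 * Q.2 - Q.1 * P.2) = 0 := by
    by_contra h
    push Not at h
    have := Finset.card_le_card h
    omega
  rw [Finset.mem_filter] at hP hQ hR hRn
  have hD : ConA_D P Q R ≠ 0 := fun h => hRn ⟨hR.1, h⟩
  let S : Vc p ≃ₗ[ZMod p] Vc p := LinearEquiv.ofInjectiveEndo _ (ConA_inj P Q R hD)
  have hS : ∀ v, S v = ConA_S P Q R v := fun v => rfl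
  -- the coefficients
  obtain ⟨α, hα⟩ : ∃ α, α = 2 * f 0 * (Q.1 * R.1) + f 1 * (Q.1 * R.2 + Q.2 * R.1)
      + 2 * f 2 * (Q.2 * R.2) + f 3 * (Q.1 + R.1) + f 4 * (Q.2 + R.2) + 2 * f 5 := ⟨_, rfl⟩
  obtain ⟨β, hβ⟩ : ∃ β, β = 2 * f 0 * (P.1 * R.1) + f 1 * (P.1 * R.2 + P.2 * R.1)
      + 2 * f 2 * (P.2 * R.2) + f 3 * (P.1 + R.1) + f 4 * (P.2 + R.2) + 2 * f 5 := ⟨_, rfl⟩
  obtain ⟨γ, hγ⟩ : ∃ γ, γ = 2 * f 0 * (P.1 * Q.1) + f 1 * (P.1 * Q.2 + P.2 * Q.1)
      + 2 * f 2 * (P.2 * Q.2) + f 3 * (P.1 + Q.1) + f 4 * (P.2 + Q.2) + 2 * f 5 := ⟨_, rfl⟩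
  have key : ∀ v : Vc p, evh f (S v) = α * (v.2.1 * v.2.2) + β * (v.1 * v.2.2)
      + γ * (v.1 * v.2.1) := by
    intro v
    have hP2 := hP.2
    have hQ2 := hQ.2
    have hR2 := hR.2
    rw [hS, hα, hβ, hγ]
    simp only [ev] at hP2 hQ2 hR2
    simp only [evh, ConA_S, LinearMap.coe_mk, AddHom.coe_mk]
    linear_combination v.1 ^ 2 * hP2 + v.2.1 ^ 2 * hQ2 + v.2.2 ^ 2 * hR2
  have key' : ∀ v : Vc p, evh f v = α * ((S.symm v).2.1 * (S.symm v).2.2)
      + β * ((S.symm v).1 * (S.symm v).2.2) + γ * ((S.symm v).1 * (S.symm v).2.1) := by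
    intro v
    rw [← key, LinearEquiv.apply_symm_apply]
  let x : Vc p →ₗ[ZMod p] ZMod p := (LinearMap.fst _ _ _).comp S.symm.toLinearMap
  let y : Vc p →ₗ[ZMod p] ZMod p :=
    ((LinearMap.fst _ _ _).comp (LinearMap.snd _ _ _)).comp S.symm.toLinearMap
  let z : Vc p →ₗ[ZMod p] ZMod p :=
    ((LinearMap.snd _ _ _).comp (LinearMap.snd _ _ _)).comp S.symm.toLinearMap
  have hx : ∀ v, x v = (S.symm v).1 := fun v => rfl
  have hy : ∀ v, y v = (S.symm v).2.1 := fun v => rfl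
  have hz : ∀ v, z v = (S.symm v).2.2 := fun v => rfl
  have hα0 : α ≠ 0 := by
    intro h0
    refine ConA_prod A hA f hf h7 x (β • z + γ • y) ?_
    intro v
    rw [key' v, h0, LinearMap.add_apply, LinearMap.smul_apply, LinearMap.smul_apply, hx, hy, hz]
    simp only [smul_eq_mul]
    ring
  have hβ0 : β ≠ 0 := by
    intro h0
    refine ConA_prod A hA f hf h7 y (α • z + γ • x) ?_
    intro v
    rw [key' v, h0, LinearMap.add_apply, LinearMap.smul_apply, LinearMap.smul_apply, hx, hy, hz]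
    simp only [smul_eq_mul]
    ring
  have hγ0 : γ ≠ 0 := by
    intro h0
    refine ConA_prod A hA f hf h7 z (α • y + β • x) ?_
    intro v
    rw [key' v, h0, LinearMap.add_apply, LinearMap.smul_apply, LinearMap.smul_apply, hx, hy, hz]
    simp only [smul_eq_mul]
    ring
  let W : Vc p ≃ₗ[ZMod p] Vc p := LinearEquiv.ofInjectiveEndo _ (ConA_W_inj α β γ hα0 hβ0 hγ0)
  have hW : ∀ v, W v = ConA_W α β γ v := fun v => rfl
  refine ⟨S.symm.trans W, -(α * β * γ⁻¹), ?_, ?_⟩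
  · rw [neg_ne_zero]
    exact mul_ne_zero (mul_ne_zero hα0 hβ0) (inv_ne_zero hγ0)
  · intro v
    rw [key' v, LinearEquiv.trans_apply, hW]
    simp only [nq, ConA_W, LinearMap.coe_mk, AddHom.coe_mk]
    field_simp
    ring

end Pool.Agent.MP193G
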