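import Mathlib
import Pool.Agent.Lib.MP_193dd3_co_G.Geo
import Pool.Agent.Lib.MP_193dd3_co_G.ConA

/-!
# MP_193dd3_co, project G: points and lines of one or two conics
-/

set_option autoImplicit false

namespace Pool.Agent.MP193G

variable {p : ℕ} [Fact p.Prime]

private theorem hx_inf : hx (OnePoint.infty : X p) = (1, 0) := rfl

private theorem hx_coe (t : ZMod p) : hx ((t : ZMod p) : X p) = (t, 1) := rfl

private theorem pv_inf : pv (OnePoint.infty : X p) = (0, -1, 0) := by
  simp [pv, hx_inf]

private theorem pv_coe (t : ZMod p) : pv ((t : ZMod p) : X p) = (t, -t ^ 2, 1) := by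
  simp [pv, hx_coe]

private theorem hx_eq (s u : X p) : (hx u).1 * (hx s).2 = (hx u).2 * (hx s).1 ↔ u = s := by
  induction s using OnePoint.rec with
  | infty =>
    induction u using OnePoint.rec with
    | infty => simp [hx_inf]
    | coe y => simp [hx_inf, hx_coe]
  | coe x =>
    induction u using OnePoint.rec with
    | infty => simp [hx_inf, hx_coe]
    | coe y =>
      rw [hx_coe, hx_coe, OnePoint.coe_eq_coe]
      simp

theorem pv_ne (s : X p) : pv s ≠ 0 := by
  induction s using OnePoint.rec with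
  | infty =>
    rw [pv_inf]
    intro h
    have h2 := congrArg (fun x => x.2.1) h
    simp at h2
  | coe t =>
    rw [pv_coe]
    intro h
    have h2 := congrArg (fun x => x.2.2) h
    simp at h2

theorem nq_pv (s : X p) : nq (pv s) = 0 := by
  unfold nq pv
  ring

/-- The zeros of `nq` are the multiples of the `pv s`. Proof: `v = (a, b, c)`; if `c ≠ 0` then
`s = a/c`, `v = c • pv s`; if `c = 0` then `a = 0`, `v = - b • pv ∞`. -/
theorem exists_pv {v : Vc p} (hv : v ≠ 0) (h : nq v = 0) : ∃ (s : X p) (k : ZMod p),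
    k ≠ 0 ∧ v = k • pv s := by
  obtain ⟨a, b, c⟩ := v
  unfold nq at h
  simp only at h
  by_cases hc : c = 0
  · subst hc
    have ha : a = 0 := by
      rw [mul_zero, add_zero] at h
      exact pow_eq_zero_iff (two_ne_zero) |>.1 h
    subst ha
    refine ⟨OnePoint.infty, -b, ?_, ?_⟩
    · intro hb
      apply hv
      rw [neg_eq_zero.1 hb]
      rfl
    · rw [pv_inf]
      simp
  · refine ⟨((a / c : ZMod p) : X p), c, hc, ?_⟩
    rw [pv_coe]
    have h1 : c * (a / c) = a := by field_simp
    have h2 : c * (-(a / c) ^ 2) = b := by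
      have : b = - a ^ 2 / c := by
        rw [eq_div_iff hc]
        linear_combination h
      rw [this]
      field_simp
    ext
    · simp [h1]
    · simp only [Prod.smul_mk, smul_eq_mul, h2]
    · simp

theorem pv_inj {s t : X p} {k : ZMod p} (h : pv s = k • pv t) : s = t := by
  have h1 := congrArg (fun x => x.1) h
  have h2 := congrArg (fun x => x.2.1) h
  have h3 := congrArg (fun x => x.2.2) h
  simp only [Prod.smul_fst, Prod.smul_snd, smul_eq_mul] at h1 h2 h3
  induction s using OnePoint.rec with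
  | infty =>
    induction t using OnePoint.rec with
    | infty => rfl
    | coe y =>
      rw [pv_inf, pv_coe] at h1 h2 h3
      simp only [mul_one] at h3
      rw [← h3] at h2
      simp at h2
  | coe x =>
    induction t using OnePoint.rec with
    | infty =>
      rw [pv_inf, pv_coe] at h3
      simp at h3
    | coe y =>
      rw [pv_coe, pv_coe] at h1 h3
      simp only [mul_one] at h3
      rw [← h3] at h1
      simp only [one_mul] at h1
      rw [h1]

/-- Proof: `Lf s t (pv u)` is the product of the two determinants of `hx u` with `hx s` and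
`hx t`. -/
theorem Lf_pv (s t u : X p) : Lf s t (pv u) = 0 ↔ u = s ∨ u = t := by
  have h : Lf s t (pv u) = -(((hx u).1 * (hx s).2 - (hx u).2 * (hx s).1) *
      ((hx u).1 * (hx t).2 - (hx u).2 * (hx t).1)) := by
    unfold Lf pv
    ring
  rw [h, neg_eq_zero, mul_eq_zero, sub_eq_zero, sub_eq_zero, hx_eq, hx_eq]

open Polynomial in
/-- Zeros of a binary form. -/
private theorem form_zeros (P : (ZMod p)[X]) (d : ℕ) (hd : P.natDegree ≤ d) (hP : P ≠ 0)
    (Z : Finset (X p)) (h1 : ∀ t : ZMod p, ((t : ZMod p) : X p) ∈ Z → P.eval t = 0)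
    (h2 : (OnePoint.infty : X p) ∈ Z → P.coeff d = 0) : Z.card ≤ d := by
  classical
  have hsub : Z.erase (OnePoint.infty : X p) ⊆ P.roots.toFinset.image
      (fun t : ZMod p => ((t : ZMod p) : X p)) := by
    intro s hs
    rw [Finset.mem_erase] at hs
    induction s using OnePoint.rec with
    | infty => exact absurd rfl hs.1
    | coe t =>
      rw [Finset.mem_image]
      refine ⟨t, ?_, rfl⟩
      rw [Multiset.mem_toFinset, mem_roots hP]
      exact h1 t hs.2
  have hc : (Z.erase (OnePoint.infty : X p)).card ≤ P.natDegree := by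
    refine (Finset.card_le_card hsub).trans (Finset.card_image_le.trans ?_)
    exact (Multiset.toFinset_card_le _).trans (card_roots' P)
  by_cases hi : (OnePoint.infty : X p) ∈ Z
  · have h0 := h2 hi
    have hlt : P.natDegree < d := by
      rcases lt_or_eq_of_le hd with h | h
      · exact h
      · exfalso
        rw [← h] at h0
        exact hP (leadingCoeff_eq_zero.1 h0)
    rw [← Finset.card_erase_add_one hi]
    omega
  · rw [Finset.erase_eq_of_notMem hi] at hc
    omega

open Polynomial in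
/-- A nonzero functional has at most two zeros on a conic. Proof: `lin l (pv s)` is
`l.1 x y - l.2.1 x² + l.2.2 y²` for `hx s = (x, y)`: at most two zeros in `ZMod p`, and if `∞` is a zero
then `l.2.1 = 0` and at most one zero in `ZMod p`. -/
theorem lin_pv (l : Vc p) (hl : l ≠ 0) : (Finset.univ.filter fun s : X p =>
    lin l (pv s) = 0).card ≤ 2 := by
  obtain ⟨a, b, c⟩ := l
  obtain ⟨P, hP⟩ : ∃ P : (ZMod p)[X], P = C (-b) * Polynomial.X ^ 2 +
    C a * Polynomial.X + C c := ⟨_, rfl⟩
  refine form_zeros P 2 ?_ ?_ _ ?_ ?_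
  · rw [hP]
    exact natDegree_quadratic_le
  · intro h0
    apply hl
    have c2 : P.coeff 2 = -b := by
      rw [hP]
      simp [coeff_C]
    have c1 : P.coeff 1 = a := by
      rw [hP]
      simp [coeff_C, coeff_X_pow]
    have c0 : P.coeff 0 = c := by
      rw [hP]
      simp
    rw [h0, coeff_zero] at c0 c1 c2
    rw [← c0, ← c1, neg_eq_zero.1 c2.symm]
    rfl
  · intro t ht
    rw [Finset.mem_filter, pv_coe] at ht
    have h := ht.2
    unfold lin at h
    simp only at h
    rw [hP]
    simp only [eval_add, eval_mul, eval_C, eval_pow, eval_X]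
    linear_combination h
  · intro hi
    rw [Finset.mem_filter, pv_inf] at hi
    have h := hi.2
    unfold lin at h
    simp only at h
    rw [hP]
    simp only [coeff_add, coeff_C_mul, coeff_X_pow, coeff_X, coeff_C]
    simp
    simpa using h

/-- The points of `A` on the conic, as a subset of the projective line.

Proof. `Z = {P ∈ A : ev f P = 0}`; for `P ∈ Z` there are `s`, `κ` with `T (af P) = κ • pv s`
(`exists_pv`); let `S` be the set of these `s`. Different `P` give different `s`, because the vectors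
`af P` are not proportional (third coordinate `1`). -/
theorem conic_pts (A : Finset (ZMod p × ZMod p)) (f : Fin 6 → ZMod p)
    (T : Vc p ≃ₗ[ZMod p] Vc p) (k : ZMod p) (hk : k ≠ 0) (hT : ∀ v, evh f v = k * nq (T v)) :
    ∃ S : Finset (X p), S.card = (A.filter fun P => ev f P = 0).card ∧
      ∀ s, s ∈ S ↔ ∃ P ∈ A, ∃ κ : ZMod p, κ ≠ 0 ∧ T (af P) = κ • pv s := by
  classical
  refine ⟨Finset.univ.filter fun s : X p => ∃ P ∈ A, ∃ κ : ZMod p, κ ≠ 0 ∧ T (af P) = κ • pv s,
    ?_, fun s => by simp⟩
  have hev : ∀ P : ZMod p × ZMod p, evh f (af P) = ev f P := by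
    intro P
    unfold evh af ev
    ring
  have hne : ∀ P : ZMod p × ZMod p, T (af P) ≠ 0 := by
    intro P h
    have h1 : af P = 0 := by
      rw [← T.map_zero] at h
      exact T.injective h
    have h2 := congrArg (fun x => x.2.2) h1
    unfold af at h2
    simp at h2
  have hex : ∀ P ∈ A.filter (fun P => ev f P = 0), ∃ s : X p, ∃ κ : ZMod p, κ ≠ 0 ∧
      T (af P) = κ • pv s := by
    intro P hP
    rw [Finset.mem_filter] at hP
    have h0 : nq (T (af P)) = 0 := by
      have h1 := hT (af P)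
      rw [hev, hP.2] at h1
      exact (mul_eq_zero.1 h1.symm).resolve_left hk
    obtain ⟨s, κ, h1, h2⟩ := exists_pv (hne P) h0
    exact ⟨s, κ, h1, h2⟩
  choose! σ κ hκ hσ using hex
  symm
  refine Finset.card_bij (fun P _ => σ P) ?_ ?_ ?_
  · intro P hP
    rw [Finset.mem_filter]
    exact ⟨Finset.mem_univ _, P, (Finset.mem_filter.1 hP).1, κ P, hκ P hP, hσ P hP⟩
  · intro P hP P' hP' h
    have e1 := hσ P hP
    have e2 := hσ P' hP'
    rw [h] at e1
    have e3 : T (af P) = T ((κ P / κ P') • af P') := by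
      rw [map_smul, e1, e2, smul_smul, div_mul_cancel₀ _ (hκ P' hP')]
    have e4 := T.injective e3
    unfold af at e4
    have g1 := congrArg (fun x => x.1) e4
    have g2 := congrArg (fun x => x.2.1) e4
    have g3 := congrArg (fun x => x.2.2) e4
    simp only [Prod.smul_mk, smul_eq_mul, mul_one] at g1 g2 g3
    rw [← g3, one_mul] at g1 g2
    exact Prod.ext g1 g2
  · intro s hs
    rw [Finset.mem_filter] at hs
    obtain ⟨-, P, hP, c, hc, hPs⟩ := hs
    have hz : ev f P = 0 := by
      rw [← hev, hT, hPs]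
      have : nq (c • pv s) = c ^ 2 * nq (pv s) := by
        unfold nq
        simp only [Prod.smul_fst, Prod.smul_snd, smul_eq_mul]
        ring
      rw [this, nq_pv, mul_zero, mul_zero]
    have hPZ : P ∈ A.filter (fun P => ev f P = 0) := Finset.mem_filter.2 ⟨hP, hz⟩
    refine ⟨P, hPZ, ?_⟩
    have e1 := hσ P hPZ
    rw [hPs] at e1
    have e2 : pv (σ P) = ((κ P)⁻¹ * c) • pv s := by
      rw [← smul_smul, e1, smul_smul, inv_mul_cancel₀ (hκ P hPZ), one_smul]
    exact pv_inj e2

/-- The polar form. -/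
private def pol (x y : Vc p) : ZMod p := 2 * x.1 * y.1 + x.2.1 * y.2.2 + x.2.2 * y.2.1

private theorem S_coe (S : Vc p ≃ₗ[ZMod p] Vc p) (v : Vc p) :
    S v = v.1 • S (1, 0, 0) + v.2.1 • S (0, 1, 0) + v.2.2 • S (0, 0, 1) := by
  rw [← map_smul, ← map_smul, ← map_smul, ← map_add, ← map_add]
  congr 1
  ext <;> simp

private theorem nq_comb (a b c : ZMod p) (u v w : Vc p) :
    nq (a • u + b • v + c • w) = a ^ 2 * nq u + b ^ 2 * nq v + c ^ 2 * nq w +
      a * b * pol u v + a * c * pol u w + b * c * pol v w := by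
  unfold nq pol
  simp only [Prod.smul_fst, Prod.smul_snd, Prod.fst_add, Prod.snd_add, smul_eq_mul]
  ring

open Polynomial in
private theorem quart (a b c d e : ZMod p) (P : (ZMod p)[X])
    (hP : P = C a * Polynomial.X ^ 4 + C b * Polynomial.X ^ 3 + C c * Polynomial.X ^ 2 +
      C d * Polynomial.X + C e) : P.natDegree ≤ 4 ∧ P.coeff 4 = a ∧ P.coeff 3 = b ∧
      P.coeff 2 = c ∧ P.coeff 1 = d ∧ P.coeff 0 = e := by
  rw [hP]
  refine ⟨by compute_degree!, ?_, ?_, ?_, ?_, ?_⟩
  · simp [coeff_X, coeff_C, coeff_X_pow]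
  · simp [coeff_X, coeff_C, coeff_X_pow]
  · simp [coeff_X, coeff_C, coeff_X_pow]
  · simp [coeff_C, coeff_X_pow]
  · simp

open Polynomial in
/-- Two different conics have at most four common points. Proof: `nq (S (pv t))` is a form of degree
four in `hx t`. If it has five zeros in `X p` then all its coefficients vanish (a polynomial of
degree at most four with five zeros in `ZMod p`; or `∞` is a zero, the degree is at most three and
there are four zeros in `ZMod p`). Let `S (a, b, c) = a • u + b • v + c • w`; `pv t = (t, -t², 1)`, so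
`nq (w + t u - t² v) = 0` as a polynomial in `t`: `nq w = 0`, `nq v = 0`, `B(u, w) = 0`,
`B(u, v) = 0`, `nq u = 2 B(v, w)`, where `nq (x + y) = nq x + nq y + 2 B(x, y)`. So
`nq (S (a, b, c)) = a² nq u + 2 b c B(v, w) = nq u (a² + b c)`. -/
theorem four_common (S : Vc p ≃ₗ[ZMod p] Vc p) (hS : ∀ k : ZMod p, ∃ v, nq (S v) ≠ k * nq v) :
    (Finset.univ.filter fun t : X p => nq (S (pv t)) = 0).card ≤ 4 := by
  obtain ⟨u, hu⟩ : ∃ u, u = S (1, 0, 0) := ⟨_, rfl⟩
  obtain ⟨v, hv⟩ : ∃ v, v = S (0, 1, 0) := ⟨_, rfl⟩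
  obtain ⟨w, hw⟩ : ∃ w, w = S (0, 0, 1) := ⟨_, rfl⟩
  obtain ⟨P, hP⟩ : ∃ P : (ZMod p)[X], P = C (nq v) * Polynomial.X ^ 4 +
    C (-pol u v) * Polynomial.X ^ 3 + C (nq u - pol v w) * Polynomial.X ^ 2 +
    C (pol u w) * Polynomial.X + C (nq w) := ⟨_, rfl⟩
  obtain ⟨hd, c4, c3, c2, c1, c0⟩ := quart _ _ _ _ _ P hP
  refine form_zeros P 4 hd ?_ _ ?_ ?_
  · intro h0
    rw [h0, coeff_zero] at c0 c1 c2 c3 c4
    obtain ⟨z, hz⟩ := hS (nq u)
    apply hz
    rw [S_coe S z, ← hu, ← hv, ← hw, nq_comb]
    have e : nq z = z.1 ^ 2 + z.2.1 * z.2.2 := rfl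
    rw [e]
    linear_combination (-(z.2.1 ^ 2)) * c4 - (z.2.2 ^ 2) * c0 + z.1 * z.2.1 * c3
      - z.1 * z.2.2 * c1 + z.2.1 * z.2.2 * c2
  · intro t ht
    rw [Finset.mem_filter, S_coe S, ← hu, ← hv, ← hw, nq_comb, pv_coe] at ht
    have h := ht.2
    simp only at h
    rw [hP]
    simp only [eval_add, eval_mul, eval_C, eval_pow, eval_X]
    linear_combination h
  · intro hi
    rw [Finset.mem_filter, S_coe S, ← hu, ← hv, ← hw, nq_comb, pv_inf] at hi
    have h := hi.2
    simp only at h
    rw [c4]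
    linear_combination h

/-- The coefficients of a functional composed with a linear equivalence. -/
private theorem lin_S (S : Vc p ≃ₗ[ZMod p] Vc p) (l : Vc p) (hl : l ≠ 0) :
    ∃ l' : Vc p, l' ≠ 0 ∧ ∀ v, lin l (S v) = lin l' v := by
  have hadd : ∀ x y : Vc p, lin l (x + y) = lin l x + lin l y := by
    intro x y
    unfold lin
    simp only [Prod.fst_add, Prod.snd_add]
    ring
  have hsm : ∀ (c : ZMod p) (x : Vc p), lin l (c • x) = c * lin l x := by
    intro c x
    unfold lin
    simp only [Prod.smul_fst, Prod.smul_snd, smul_eq_mul]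
    ring
  have key : ∀ v, lin l (S v) =
      lin (lin l (S (1, 0, 0)), lin l (S (0, 1, 0)), lin l (S (0, 0, 1))) v := by
    intro v
    rw [S_coe S v, hadd, hadd, hsm, hsm, hsm]
    have e : ∀ a b c : ZMod p, lin (a, b, c) v = a * v.1 + b * v.2.1 + c * v.2.2 := by
      intro a b c
      rfl
    rw [e]
    ring
  refine ⟨_, ?_, key⟩
  intro h0
  rw [h0] at key
  have hz : ∀ w, lin l w = 0 := by
    intro w
    have := key (S.symm w)
    rw [S.apply_symm_apply] at this
    rw [this]
    simp [lin]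
  apply hl
  have z1 := hz (1, 0, 0)
  have z2 := hz (0, 1, 0)
  have z3 := hz (0, 0, 1)
  unfold lin at z1 z2 z3
  simp only [mul_one, mul_zero, add_zero, zero_add] at z1 z2 z3
  ext
  · exact z1
  · exact z2
  · exact z3

/-- A functional with exactly one zero on the conic is a tangent functional. -/
private theorem tangent (l : Vc p) (hl : l ≠ 0) (u : X p) (hu : lin l (pv u) = 0)
    (hone : ∀ r : X p, lin l (pv r) = 0 → r = u) :
    ∃ c : ZMod p, c ≠ 0 ∧ ∀ v, lin l v = c * Lf u u v := by
  obtain ⟨a, b, d⟩ := l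
  have e1 : ∀ t : ZMod p, lin ((a, b, d) : Vc p) (pv ((t : ZMod p) : X p)) =
      a * t - b * t ^ 2 + d := by
    intro t
    rw [pv_coe]
    unfold lin
    ring
  have e2 : lin ((a, b, d) : Vc p) (pv (OnePoint.infty : X p)) = -b := by
    rw [pv_inf]
    unfold lin
    ring
  induction u using OnePoint.rec with
  | infty =>
    rw [e2, neg_eq_zero] at hu
    subst hu
    have ha : a = 0 := by
      by_contra ha
      have h1 := hone ((-d / a : ZMod p) : X p) (by
        rw [e1]
        field_simp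
        ring)
      exact OnePoint.coe_ne_infty _ h1
    subst ha
    refine ⟨-d, ?_, ?_⟩
    · intro h
      apply hl
      rw [neg_eq_zero.1 h]
      rfl
    · intro v
      unfold lin Lf
      rw [hx_inf]
      ring
  | coe t =>
    rw [e1] at hu
    have hb : b ≠ 0 := by
      intro hb
      have h1 := hone OnePoint.infty (by rw [e2, hb, neg_zero])
      exact OnePoint.infty_ne_coe _ h1
    have h1 : a / b - t = t := by
      have hab : a = a / b * b := by field_simp
      have h2 := hone (((a / b - t : ZMod p)) : X p) (by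
        rw [e1]
        linear_combination hu + (a / b - 2 * t) * hab)
      exact OnePoint.coe_injective h2
    have ha : a = 2 * t * b := by
      have h2 : a / b = 2 * t := by linear_combination h1
      rw [div_eq_iff hb] at h2
      exact h2
    refine ⟨b, hb, ?_⟩
    intro v
    unfold lin Lf
    rw [hx_coe]
    simp only
    rw [ha] at hu ⊢
    linear_combination v.2.2 * hu

/-- The points of the second conic which are not on the first one.

Proof. Let `E` be the set of the vectors `S (pv t)` with `nq (S (pv t)) ≠ 0`. (`t ↦ S (pv t)` is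
injective.) `lin_pv` and linearity of `S` give `Pl 2 E`. Let `s ≠ t` and let exactly one vector of `E`
be on the secant. The functional `Lf s t ∘ S` is not zero, it is `lin l`. Either there is a
`u` with `nq (S (pv u)) = 0`, `lin l (pv u) = 0`: then `S (pv u)` is a multiple of `pv r`,
`r = s` or `r = t` (`Lf_pv`), for each of the at most four `u` (`four_common`) at most `2 (p + 1)`
pairs `(s, t)`. Or `lin l (pv u)` has exactly one zero `u ∈ X p`; then
`lin l (pv r) = κ * det(hx r, hx u) ^ 2` (a form of degree two with exactly one zero), so `l` is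
determined by `u` up to a factor, and then the pair `{s, t}` is determined by `u`
(`Lf s t = κ Lf s' t'`, evaluate at `pv s`, `pv t`): at most `2 (p + 1)` pairs `(s, t)`. Together at
most `10 (p + 1) ≤ 20 p`. -/
theorem pair_E (S : Vc p ≃ₗ[ZMod p] Vc p) (hS : ∀ k : ZMod p, ∃ v, nq (S v) ≠ k * nq v) :
    ∃ E : Finset (Vc p), (∀ v, v ∈ E ↔ nq v ≠ 0 ∧ ∃ t : X p, v = S (pv t)) ∧ Pl 2 E ∧
      E.card ≤ p + 1 ∧ (Finset.univ.filter fun q : X p × X p => q.1 ≠ q.2 ∧
        (E.filter fun v => Lf q.1 q.2 v = 0).card = 1).card ≤ 20 * p := by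
  classical
  obtain ⟨E, hE⟩ : ∃ E : Finset (Vc p), E = (Finset.univ.filter fun t : X p =>
    nq (S (pv t)) ≠ 0).image (fun t => S (pv t)) := ⟨_, rfl⟩
  have hmem : ∀ v, v ∈ E ↔ nq v ≠ 0 ∧ ∃ t : X p, v = S (pv t) := by
    intro v
    rw [hE, Finset.mem_image]
    constructor
    · rintro ⟨t, ht, rfl⟩
      exact ⟨(Finset.mem_filter.1 ht).2, t, rfl⟩
    · rintro ⟨h1, t, rfl⟩
      exact ⟨t, Finset.mem_filter.2 ⟨Finset.mem_univ _, h1⟩, rfl⟩
  have hsub : ∀ l : Vc p, l ≠ 0 → (Finset.univ.filter fun t : X p =>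
      lin l (S (pv t)) = 0).card ≤ 2 := by
    intro l hl
    obtain ⟨l', hl', hv⟩ := lin_S S l hl
    have h := lin_pv l' hl'
    simp only [hv]
    exact h
  have hPl : Pl 2 E := by
    intro l hl
    refine le_trans (le_trans (Finset.card_le_card (t := (Finset.univ.filter fun t : X p =>
      lin l (S (pv t)) = 0).image fun t => S (pv t)) ?_) Finset.card_image_le) (hsub l hl)
    intro v hv
    rw [Finset.mem_filter, hmem] at hv
    obtain ⟨⟨-, t, rfl⟩, h0⟩ := hv
    exact Finset.mem_image_of_mem _ (Finset.mem_filter.2 ⟨Finset.mem_univ _, h0⟩)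
  refine ⟨E, hmem, hPl, ?_, ?_⟩
  · rw [hE]
    refine Finset.card_image_le.trans ((Finset.card_filter_le _ _).trans ?_)
    rw [Finset.card_univ, card_X]
  have hinj : ∀ t t' : X p, S (pv t) = S (pv t') → t = t' := by
    intro t t' h
    apply pv_inj (k := 1)
    rw [one_smul]
    exact S.injective h
  obtain ⟨Co, hCo⟩ : ∃ Co : Finset (X p), Co = Finset.univ.filter fun t : X p =>
    nq (S (pv t)) = 0 := ⟨_, rfl⟩
  have hCo4 : Co.card ≤ 4 := by
    rw [hCo]
    exact four_common S hS
  obtain ⟨B1, hB1⟩ : ∃ B1 : X p → Finset (X p × X p), ∀ u, B1 u =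
    Finset.univ.filter fun q : X p × X p => Lf q.1 q.2 (S (pv u)) = 0 := ⟨_, fun _ => rfl⟩
  obtain ⟨B2, hB2⟩ : ∃ B2 : X p → Finset (X p × X p), ∀ u, B2 u =
    Finset.univ.filter fun q : X p × X p => q.1 ≠ q.2 ∧ ∃ c : ZMod p, c ≠ 0 ∧
      ∀ v, Lf q.1 q.2 (S v) = c * Lf u u v := ⟨_, fun _ => rfl⟩
  have hXu : (Finset.univ : Finset (X p)).card = p + 1 := by
    rw [Finset.card_univ, card_X]
  have c1 : ∀ u ∈ Co, (B1 u).card ≤ 2 * (p + 1) := by
    intro u hu
    rw [hCo, Finset.mem_filter] at hu
    have hne : S (pv u) ≠ 0 := by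
      intro h
      rw [← S.map_zero] at h
      exact pv_ne u (S.injective h)
    obtain ⟨r, κ, hκ, hr⟩ := exists_pv hne hu.2
    have hs : B1 u ⊆ ({r} : Finset (X p)) ×ˢ Finset.univ ∪ Finset.univ ×ˢ {r} := by
      intro q hq
      rw [hB1, Finset.mem_filter, hr] at hq
      have h0 : κ * Lf q.1 q.2 (pv r) = 0 := by
        rw [← hq.2]
        unfold Lf
        simp only [Prod.smul_fst, Prod.smul_snd, smul_eq_mul]
        ring
      have h1 := (mul_eq_zero.1 h0).resolve_left hκ
      rw [Lf_pv] at h1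
      rw [Finset.mem_union, Finset.mem_product, Finset.mem_product]
      rcases h1 with h1 | h1
      · exact Or.inl ⟨by rw [Finset.mem_singleton, h1], Finset.mem_univ _⟩
      · exact Or.inr ⟨Finset.mem_univ _, by rw [Finset.mem_singleton, h1]⟩
    refine (Finset.card_le_card hs).trans ((Finset.card_union_le _ _).trans ?_)
    rw [Finset.card_product, Finset.card_product, hXu, Finset.card_singleton]
    omega
  have c2 : ∀ u, (B2 u).card ≤ 2 := by
    intro u
    by_cases hemp : B2 u = ∅
    · rw [hemp]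
      simp
    obtain ⟨q0, hq0⟩ := Finset.nonempty_iff_ne_empty.2 hemp
    have hs : B2 u ⊆ {q0, (q0.2, q0.1)} := by
      intro q hq
      rw [hB2, Finset.mem_filter] at hq0 hq
      obtain ⟨-, hne0, c0, hc0, h0⟩ := hq0
      obtain ⟨-, hne, c, hc, h⟩ := hq
      have key : ∀ w, Lf q.1 q.2 w = c / c0 * Lf q0.1 q0.2 w := by
        intro w
        have h1 := h0 (S.symm w)
        have h2 := h (S.symm w)
        rw [S.apply_symm_apply] at h1 h2
        rw [h1, h2]
        field_simp
      have k1 := key (pv q0.1)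
      have k2 := key (pv q0.2)
      rw [(Lf_pv q0.1 q0.2 q0.1).2 (Or.inl rfl), mul_zero, Lf_pv] at k1
      rw [(Lf_pv q0.1 q0.2 q0.2).2 (Or.inr rfl), mul_zero, Lf_pv] at k2
      rw [Finset.mem_insert, Finset.mem_singleton]
      rcases k1 with k1 | k1 <;> rcases k2 with k2 | k2
      · exact absurd (k1.trans k2.symm) hne0
      · exact Or.inl (Prod.ext k1.symm k2.symm)
      · exact Or.inr (Prod.ext k2.symm k1.symm)
      · exact absurd (k1.trans k2.symm) hne0
    exact (Finset.card_le_card hs).trans Finset.card_le_two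
  have hcov : (Finset.univ.filter fun q : X p × X p => q.1 ≠ q.2 ∧
      (E.filter fun v => Lf q.1 q.2 v = 0).card = 1) ⊆ Co.biUnion B1 ∪ Finset.univ.biUnion B2 := by
    intro q hq
    rw [Finset.mem_filter] at hq
    obtain ⟨-, hne, h1⟩ := hq
    rw [Finset.card_eq_one] at h1
    obtain ⟨v0, hv0⟩ := h1
    have hv1 : v0 ∈ E.filter fun v => Lf q.1 q.2 v = 0 := by
      rw [hv0]
      exact Finset.mem_singleton_self _
    rw [Finset.mem_filter, hmem] at hv1
    obtain ⟨⟨hn0, u, rfl⟩, hL⟩ := hv1
    rw [Finset.mem_union, Finset.mem_biUnion, Finset.mem_biUnion]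
    by_cases hc : ∃ u' ∈ Co, Lf q.1 q.2 (S (pv u')) = 0
    · obtain ⟨u', hu', h0⟩ := hc
      refine Or.inl ⟨u', hu', ?_⟩
      rw [hB1]
      exact Finset.mem_filter.2 ⟨Finset.mem_univ _, h0⟩
    · refine Or.inr ⟨u, Finset.mem_univ _, ?_⟩
      rw [hB2, Finset.mem_filter]
      refine ⟨Finset.mem_univ _, hne, ?_⟩
      obtain ⟨l, hl, hlv⟩ := Lf_lin q.1 q.2
      obtain ⟨l', hl', hlv'⟩ := lin_S S l hl
      have e : ∀ v, Lf q.1 q.2 (S v) = lin l' v := fun v => by rw [hlv, hlv']
      obtain ⟨c, hc0, hcv⟩ := tangent l' hl' u (by rw [← e]; exact hL) (by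
        intro r hr
        rw [← e] at hr
        by_cases hz : nq (S (pv r)) = 0
        · exfalso
          apply hc
          refine ⟨r, ?_, hr⟩
          rw [hCo]
          exact Finset.mem_filter.2 ⟨Finset.mem_univ _, hz⟩
        · have hm : S (pv r) ∈ E.filter fun v => Lf q.1 q.2 v = 0 := by
            rw [Finset.mem_filter, hmem]
            exact ⟨⟨hz, r, rfl⟩, hr⟩
          rw [hv0, Finset.mem_singleton] at hm
          exact hinj _ _ hm)
      exact ⟨c, hc0, fun v => by rw [e, hcv]⟩
  refine (Finset.card_le_card hcov).trans ((Finset.card_union_le _ _).trans ?_)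
  have d1 : (Co.biUnion B1).card ≤ 4 * (2 * (p + 1)) := by
    refine Finset.card_biUnion_le.trans ?_
    refine (Finset.sum_le_card_nsmul _ _ _ c1).trans ?_
    rw [smul_eq_mul]
    exact Nat.mul_le_mul_right _ hCo4
  have d2 : (Finset.univ.biUnion B2).card ≤ (p + 1) * 2 := by
    refine Finset.card_biUnion_le.trans ?_
    refine (Finset.sum_le_card_nsmul _ _ 2 fun u _ => c2 u).trans ?_
    rw [smul_eq_mul, hXu]
  have hp : 2 ≤ p := (Fact.out : p.Prime).two_le
  omega

/-- Proof: `nq (S v) = k * nq v` for all `v` would give `evh f = (kf / kg) k * evh g`, so (evaluate at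
`(1,0,0)`, `(0,1,0)`, `(0,0,1)`, `(1,1,0)`, `(1,0,1)`, `(0,1,1)`) `f` is a multiple of `g`, with a
factor which is not zero because `f ≠ 0`; so `g` is a multiple of `f`. -/
theorem not_prop {f g : Fin 6 → ZMod p} (hf : f ≠ 0) (hg : ∀ k : ZMod p, g ≠ k • f)
    (T T' : Vc p ≃ₗ[ZMod p] Vc p) (k k' : ZMod p) (hk : k ≠ 0) (hk' : k' ≠ 0)
    (hT : ∀ v, evh f v = k * nq (T v)) (hT' : ∀ v, evh g v = k' * nq (T' v)) (m : ZMod p) :
    ∃ v, nq ((T'.symm.trans T) v) ≠ m * nq v := by
  by_contra hcon
  push Not at hcon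
  have h1 : ∀ w, evh f w = k * m / k' * evh g w := by
    intro w
    have h2 := hcon (T' w)
    rw [LinearEquiv.trans_apply, T'.symm_apply_apply] at h2
    rw [hT, hT', h2]
    field_simp
  obtain ⟨c, hc⟩ : ∃ c, c = k * m / k' := ⟨_, rfl⟩
  rw [← hc] at h1
  have e1 := h1 (1, 0, 0)
  have e2 := h1 (0, 1, 0)
  have e3 := h1 (0, 0, 1)
  have e4 := h1 (1, 1, 0)
  have e5 := h1 (1, 0, 1)
  have e6 := h1 (0, 1, 1)
  unfold evh at e1 e2 e3 e4 e5 e6
  simp only [mul_one, mul_zero, one_pow, add_zero, zero_add, ne_eq,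
    OfNat.ofNat_ne_zero, not_false_eq_true, zero_pow] at e1 e2 e3 e4 e5 e6
  have hfg : f = c • g := by
    funext i
    rw [Pi.smul_apply, smul_eq_mul]
    fin_cases i
    · exact e1
    · show f 1 = c * g 1
      linear_combination e4 - e1 - e2
    · exact e2
    · show f 3 = c * g 3
      linear_combination e5 - e1 - e3
    · show f 4 = c * g 4
      linear_combination e6 - e2 - e3
    · exact e3
  have hc0 : c ≠ 0 := by
    intro h
    apply hf
    rw [hfg, h, zero_smul]
  apply hg c⁻¹
  rw [hfg, smul_smul, inv_mul_cancel₀ hc0, one_smul]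

end Pool.Agent.MP193G
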