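import Mathlib
import Pool.Agent.Lib.MP_193dd3_co_G.Cnt
import Pool.Agent.Lib.MP_193dd3_co_G.ConB

/-!
# MP_193dd3_co, project G: sets with many points on one or two conics
-/

set_option autoImplicit false

namespace Pool.Agent.MP193G

variable {p : ℕ} [Fact p.Prime]

theorem evh_af (f : Fin 6 → ZMod p) (P : ZMod p × ZMod p) : evh f (af P) = ev f P := by
  simp only [evh, af, ev]
  ring

theorem af_inj {P Q : ZMod p × ZMod p} (h : af P = af Q) : P = Q := by
  simp only [af, Prod.mk.injEq] at h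
  exact Prod.ext h.1 h.2.1

theorem lin_smul (l : Vc p) (k : ZMod p) (v : Vc p) : lin l (k • v) = k * lin l v := by
  simp only [lin, Prod.smul_fst, Prod.smul_snd, smul_eq_mul]
  ring

theorem nq_smul (k : ZMod p) (v : Vc p) : nq (k • v) = k ^ 2 * nq v := by
  simp only [nq, Prod.smul_fst, Prod.smul_snd, smul_eq_mul]
  ring

theorem Lf_smul (s t : X p) (k : ZMod p) (v : Vc p) : Lf s t (k • v) = k * Lf s t v := by
  simp only [Lf, Prod.smul_fst, Prod.smul_snd, smul_eq_mul]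
  ring

/-- Two points of the set off the conic are not on a secant of the set. -/
theorem no_four {C : Finset (Vc p)} (hC : Pl 3 C) {s t : X p} (hst : s ≠ t) {κ μ : ZMod p}
    (hκ : κ ≠ 0) (hμ : μ ≠ 0) (hs : κ • pv s ∈ C) (ht : μ • pv t ∈ C) {v w : Vc p} (hv : v ∈ C)
    (hw : w ∈ C) (hnv : nq v ≠ 0) (hnw : nq w ≠ 0) (hlv : Lf s t v = 0) (hlw : Lf s t w = 0) :
    v = w := by
  classical
  by_contra hvw
  obtain ⟨l, hl, hLl⟩ := Lf_lin s t
  have h := hC l hl
  have hsub : ({κ • pv s, μ • pv t, v, w} : Finset (Vc p)) ⊆ C.filter fun v => lin l v = 0 := by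
    intro x hx
    simp only [Finset.mem_insert, Finset.mem_singleton] at hx
    rw [Finset.mem_filter, ← hLl]
    rcases hx with rfl | rfl | rfl | rfl
    · exact ⟨hs, by rw [Lf_smul, (Lf_pv s t s).2 (Or.inl rfl), mul_zero]⟩
    · exact ⟨ht, by rw [Lf_smul, (Lf_pv s t t).2 (Or.inr rfl), mul_zero]⟩
    · exact ⟨hv, hlv⟩
    · exact ⟨hw, hlw⟩
  have hn : ∀ (r : X p) (c : ZMod p), nq (c • pv r) = 0 := fun r c => by
    rw [nq_smul, nq_pv, mul_zero]
  have h4 : ({κ • pv s, μ • pv t, v, w} : Finset (Vc p)).card = 4 := by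
    rw [Finset.card_insert_of_notMem, Finset.card_insert_of_notMem,
      Finset.card_insert_of_notMem, Finset.card_singleton]
    · simpa using hvw
    · simp only [Finset.mem_insert, Finset.mem_singleton, not_or]
      exact ⟨fun e => hnv (e ▸ hn t μ), fun e => hnw (e ▸ hn t μ)⟩
    · simp only [Finset.mem_insert, Finset.mem_singleton, not_or]
      refine ⟨fun e => hst ?_, fun e => hnv (e ▸ hn s κ), fun e => hnw (e ▸ hn s κ)⟩
      refine pv_inj (k := κ⁻¹ * μ) ?_
      rw [mul_smul, ← e, smul_smul, inv_mul_cancel₀ hκ, one_smul]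
  have := Finset.card_le_card hsub
  omega

/-- The first part: points off the conic. -/
theorem part_one {δ ε : ℝ} (hδ : 0 < δ) (hε : 0 < ε) : ∃ P0 : ℕ, ∀ (p : ℕ) [Fact p.Prime],
    P0 ≤ p → ∀ A : Finset (ZMod p × ZMod p), NoFour A → ∀ f : Fin 6 → ZMod p, f ≠ 0 →
    δ * (p : ℝ) ≤ (A.filter fun P => ev f P = 0).card →
    ((A.filter fun P => ev f P ≠ 0).card : ℝ) ≤ (1 + ε) * p := by
  obtain ⟨P1, h1⟩ := cnt hδ hε
  obtain ⟨P2, hP2⟩ := exists_nat_ge (7 / δ)
  refine ⟨max P1 P2, ?_⟩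
  intro p _ hp A hA f hf hd
  classical
  have hp2 : (7 : ℝ) ≤ δ * p := by
    have : (P2 : ℝ) ≤ p := by exact_mod_cast le_trans (le_max_right _ _) hp
    have h3 : 7 / δ ≤ p := hP2.trans this
    rw [div_le_iff₀ hδ] at h3
    linarith
  have h7 : 7 ≤ (A.filter fun P => ev f P = 0).card := by
    have : (7 : ℝ) ≤ ((A.filter fun P => ev f P = 0).card : ℝ) := hp2.trans hd
    exact_mod_cast this
  obtain ⟨T, k, hk, hT⟩ := normal_form A hA f hf h7
  obtain ⟨S, hS, hSm⟩ := conic_pts A f T k hk hT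
  have hC := Pl_image A hA T A le_rfl
  have hinj : Function.Injective fun P : ZMod p × ZMod p => T (af P) :=
    fun P Q h => af_inj (T.injective h)
  have hB : ((A.filter fun P => ev f P ≠ 0).image fun P => T (af P)).card =
      (A.filter fun P => ev f P ≠ 0).card := Finset.card_image_of_injective _ hinj
  rw [← hB]
  have hnB : ∀ v ∈ (A.filter fun P => ev f P ≠ 0).image (fun P => T (af P)),
      v ∈ A.image (fun P => T (af P)) ∧ nq v ≠ 0 := by
    intro v hv
    obtain ⟨P, hP, rfl⟩ := Finset.mem_image.1 hv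
    rw [Finset.mem_filter] at hP
    refine ⟨Finset.mem_image_of_mem _ hP.1, fun h0 => hP.2 ?_⟩
    rw [← evh_af, hT, h0, mul_zero]
  refine h1 p (le_trans (le_max_left _ _) hp) _ (Pl_image A hA T _ (Finset.filter_subset _ _))
    (fun v hv => (hnB v hv).2) S (by rw [hS]; exact hd) ?_
  intro s hs t ht hst
  obtain ⟨P, hP, κ, hκ, hPs⟩ := (hSm s).1 hs
  obtain ⟨Q, hQ, μ, hμ, hQt⟩ := (hSm t).1 ht
  rw [Finset.card_le_one]
  intro v hv w hw
  rw [Finset.mem_filter] at hv hw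
  exact no_four hC hst hκ hμ (hPs ▸ Finset.mem_image_of_mem (fun P => T (af P)) hP)
    (hQt ▸ Finset.mem_image_of_mem (fun P => T (af P)) hQ) (hnB v hv.1).1 (hnB w hw.1).1
    (hnB v hv.1).2 (hnB w hw.1).2 hv.2 hw.2

/-- The second part: two conics. -/
theorem part_two {δ ε : ℝ} (hδ : 0 < δ) (hε : 0 < ε) : ∃ P0 : ℕ, ∀ (p : ℕ) [Fact p.Prime],
    P0 ≤ p → ∀ A : Finset (ZMod p × ZMod p), NoFour A → ∀ f g : Fin 6 → ZMod p, f ≠ 0 → g ≠ 0 →
    (∀ k : ZMod p, g ≠ k • f) → δ * (p : ℝ) ≤ (A.filter fun P => ev f P = 0).card →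
    δ * (p : ℝ) ≤ (A.filter fun P => ev g P = 0).card →
    ((A.filter fun P => ev g P = 0).card : ℝ) ≤ (1 / 2 + ε) * p + 4 := by
  obtain ⟨P1, h1⟩ := cnt_half hδ hε
  obtain ⟨P2, hP2⟩ := exists_nat_ge (7 / δ)
  refine ⟨max P1 P2, ?_⟩
  intro p _ hp A hA f g hf hg hfg hdf hdg
  classical
  have hp2 : (7 : ℝ) ≤ δ * p := by
    have : (P2 : ℝ) ≤ p := by exact_mod_cast le_trans (le_max_right _ _) hp
    have h3 : 7 / δ ≤ p := hP2.trans this
    rw [div_le_iff₀ hδ] at h3
    linarith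
  have h7 : 7 ≤ (A.filter fun P => ev f P = 0).card := by
    have : (7 : ℝ) ≤ ((A.filter fun P => ev f P = 0).card : ℝ) := hp2.trans hdf
    exact_mod_cast this
  have h7' : 7 ≤ (A.filter fun P => ev g P = 0).card := by
    have : (7 : ℝ) ≤ ((A.filter fun P => ev g P = 0).card : ℝ) := hp2.trans hdg
    exact_mod_cast this
  obtain ⟨T, k, hk, hT⟩ := normal_form A hA f hf h7
  obtain ⟨T', k', hk', hT'⟩ := normal_form A hA g hg h7'
  obtain ⟨S, hS, hSm⟩ := conic_pts A f T k hk hT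
  obtain ⟨S', hS', hSm'⟩ := conic_pts A g T' k' hk' hT'
  have hC := Pl_image A hA T A le_rfl
  have hnp := not_prop hf hfg T T' k k' hk hk' hT hT'
  obtain ⟨E, hEm, hE2, hEc, hEx⟩ := pair_E (T'.symm.trans T) hnp
  have h4 := four_common (T'.symm.trans T) hnp
  set R : Vc p ≃ₗ[ZMod p] Vc p := T'.symm.trans T with hR
  have hRT : ∀ v, R (T' v) = T v := fun v => by
    rw [hR, LinearEquiv.trans_apply, LinearEquiv.symm_apply_apply]
  have hinj : Function.Injective fun t : X p => R (pv t) := fun t u h =>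
    pv_inj (k := 1) (by rw [one_smul]; exact R.injective h)
  -- the points of the second conic
  have hB : ((S'.filter fun t => nq (R (pv t)) ≠ 0).image fun t => R (pv t)).card =
      (S'.filter fun t => nq (R (pv t)) ≠ 0).card := Finset.card_image_of_injective _ hinj
  have hsub : (S'.filter fun t => nq (R (pv t)) ≠ 0).image (fun t => R (pv t)) ⊆ E := by
    intro v hv
    obtain ⟨t, ht, rfl⟩ := Finset.mem_image.1 hv
    rw [Finset.mem_filter] at ht
    exact (hEm _).2 ⟨ht.2, t, rfl⟩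
  have hmain := h1 p (le_trans (le_max_left _ _) hp) E
    (fun l hl => (hE2 l hl).trans (by norm_num)) (fun v hv => ((hEm v).1 hv).1) hEc hEx
    _ hsub S (by rw [hS]; exact hdf) ?_
  · rw [hB] at hmain
    have hsplit : (S'.filter fun t => nq (R (pv t)) ≠ 0).card +
        (S'.filter fun t => ¬ nq (R (pv t)) ≠ 0).card = S'.card :=
      Finset.card_filter_add_card_filter_not _
    have h4' : (S'.filter fun t => ¬ nq (R (pv t)) ≠ 0).card ≤ 4 := by
      refine le_trans (Finset.card_le_card ?_) h4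
      intro t ht
      rw [Finset.mem_filter] at ht ⊢
      exact ⟨Finset.mem_univ _, not_not.1 ht.2⟩
    have h5 : (S'.card : ℝ) ≤ (S'.filter fun t => nq (R (pv t)) ≠ 0).card + 4 := by
      have : S'.card ≤ (S'.filter fun t => nq (R (pv t)) ≠ 0).card + 4 := by omega
      exact_mod_cast this
    rw [← hS']
    linarith
  · intro s hs t ht hst
    obtain ⟨P, hP, κ, hκ, hPs⟩ := (hSm s).1 hs
    obtain ⟨Q, hQ, μ, hμ, hQt⟩ := (hSm t).1 ht
    rw [Finset.card_le_one]
    have key : ∀ v ∈ ((S'.filter fun t => nq (R (pv t)) ≠ 0).image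
        fun t => R (pv t)).filter (fun v => Lf s t v = 0),
        ∃ (u : X p) (c : ZMod p), c ≠ 0 ∧ v = R (pv u) ∧ c • v ∈ A.image (fun P => T (af P)) ∧
          nq (c • v) ≠ 0 ∧ Lf s t (c • v) = 0 := by
      intro v hv
      rw [Finset.mem_filter] at hv
      obtain ⟨u, hu, rfl⟩ := Finset.mem_image.1 hv.1
      rw [Finset.mem_filter] at hu
      obtain ⟨W, hW, c, hc, hWu⟩ := (hSm' u).1 hu.1
      refine ⟨u, c, hc, rfl, ?_, ?_, ?_⟩
      · rw [← map_smul, ← hWu, hRT]
        exact Finset.mem_image_of_mem (fun P => T (af P)) hW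
      · rw [nq_smul]
        exact mul_ne_zero (pow_ne_zero 2 hc) hu.2
      · rw [Lf_smul, hv.2, mul_zero]
    intro v hv w hw
    obtain ⟨u, c, hc, hvu, hcC, hcn, hcL⟩ := key v hv
    obtain ⟨u', c', hc', hwu, hcC', hcn', hcL'⟩ := key w hw
    have e := no_four hC hst hκ hμ (hPs ▸ Finset.mem_image_of_mem (fun P => T (af P)) hP)
      (hQt ▸ Finset.mem_image_of_mem (fun P => T (af P)) hQ) hcC hcC' hcn hcn' hcL hcL'
    rw [hvu, hwu, ← map_smul, ← map_smul] at e
    have e2 : c • pv u = c' • pv u' := R.injective e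
    have e3 : u = u' := by
      refine pv_inj (k := c⁻¹ * c') ?_
      rw [mul_smul, ← e2, smul_smul, inv_mul_cancel₀ hc, one_smul]
    rw [hvu, hwu, e3]

/-- The theorem of project G, for lines given by equations. -/
theorem conic_main {δ ε : ℝ} (hδ : 0 < δ) (hε : 0 < ε) : ∃ P0 : ℕ, ∀ (p : ℕ) [Fact p.Prime],
    P0 ≤ p → ∀ A : Finset (ZMod p × ZMod p), NoFour A → ∀ f : Fin 6 → ZMod p, f ≠ 0 →
    δ * (p : ℝ) ≤ (A.filter fun P => ev f P = 0).card →
    ((A.filter fun P => ev f P ≠ 0).card : ℝ) ≤ (1 + ε) * p ∧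
    ∀ g : Fin 6 → ZMod p, (∀ k : ZMod p, g ≠ k • f) →
      δ * (p : ℝ) ≤ (A.filter fun P => ev g P = 0).card →
      ((A.filter fun P => ev f P = 0).card : ℝ) ≤ (1 / 2 + ε) * p ∧
      ((A.filter fun P => ev g P = 0).card : ℝ) ≤ (1 / 2 + ε) * p ∧
      (A.card : ℝ) ≤ (3 / 2 + ε) * p := by
  obtain ⟨P1, h1⟩ := part_one hδ (half_pos (half_pos hε))
  obtain ⟨P2, h2⟩ := part_two hδ (half_pos (half_pos hε))
  obtain ⟨P3, hP3⟩ := exists_nat_ge (16 / ε)
  refine ⟨max P1 (max P2 P3), ?_⟩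
  intro p _ hp A hA f hf hd
  have hp1 : P1 ≤ p := le_trans (le_max_left _ _) hp
  have hp2 : P2 ≤ p := le_trans (le_trans (le_max_left _ _) (le_max_right _ _)) hp
  have hp3 : P3 ≤ p := le_trans (le_trans (le_max_right _ _) (le_max_right _ _)) hp
  have hp0 : (0 : ℝ) ≤ p := Nat.cast_nonneg p
  have h16 : (16 : ℝ) ≤ ε * p := by
    have : (P3 : ℝ) ≤ p := by exact_mod_cast hp3
    have h3 : 16 / ε ≤ p := hP3.trans this
    rw [div_le_iff₀ hε] at h3
    linarith
  have hone := h1 p hp1 A hA f hf hd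
  have hεp : 0 ≤ ε * p := by linarith
  refine ⟨by nlinarith, ?_⟩
  intro g hgf hdg
  have hg : g ≠ 0 := fun h => hgf 0 (by rw [h, zero_smul])
  have hfg : ∀ k : ZMod p, f ≠ k • g := by
    intro k h
    have hk : k ≠ 0 := fun h0 => hf (by rw [h, h0, zero_smul])
    exact hgf k⁻¹ (by rw [h, smul_smul, inv_mul_cancel₀ hk, one_smul])
  have ha := h2 p hp2 A hA f g hf hg hgf hd hdg
  have hb := h2 p hp2 A hA g f hg hf hfg hdg hd
  have hsplit : (A.filter fun P => ev f P = 0).card + (A.filter fun P => ¬ ev f P = 0).card =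
      A.card := Finset.card_filter_add_card_filter_not _
  have hs : ((A.filter fun P => ev f P = 0).card : ℝ) +
      ((A.filter fun P => ev f P ≠ 0).card : ℝ) = A.card := by exact_mod_cast hsplit
  refine ⟨by nlinarith, by nlinarith, by nlinarith⟩

end Pool.Agent.MP193G
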